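import Pool.Agent.Work.MP_3154ac_lc.Stmts
import Pool.Agent.Work.MP_cfa43e_lc.Q9
import Pool.Agent.Work.MP_46935e_lc.Frozen
import Pool.Agent.Work.PT.Auto
import Pool.Agent.Work.MP_3154ac_lc.Stmts2

/-! Bundle of small proof modules (one section per former module). -/

section

/-!
# Assembly of the main theorem
-/

set_option autoImplicit false

namespace Pool.Agent.Work.MP_3154ac_lc

open N68a2faeb Finset Pool.Agent.PT

namespace Asm

theorem hasClique_mono {G : Code} {m m' : ℕ} (h : HasClique G m) (hm : m' ≤ m) :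
    HasClique G m' := by
  obtain ⟨s, hs⟩ := h
  obtain ⟨t, ht, htc⟩ := Finset.exists_subset_card_eq (s := s) (n := m') (by rw [hs.card_eq]; exact hm)
  exact ⟨t, ⟨hs.isClique.subset (by exact_mod_cast ht), htc⟩⟩

theorem hasClique_zero (G : Code) : HasClique G 0 := ⟨∅, by simp⟩

theorem hasClique_one {G : Code} (h : G ≠ []) : HasClique G 1 :=
  ⟨{⟨0, List.length_pos_iff.mpr h⟩}, by simp⟩

theorem ne_nil_of_hasClique {G : Code} {m : ℕ} (hm : 1 ≤ m) (h : HasClique G m) : G ≠ [] := by
  rintro rfl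
  obtain ⟨s, hs⟩ := h
  have h1 : s.card = m := hs.card_eq
  have h2 : s = ∅ := Finset.eq_empty_of_forall_notMem fun x => by
    have := x.2
    simp at this
  rw [h2] at h1
  simp at h1
  omega

theorem kK_cases (a b q k : ℕ) : kK a b q k = k ∨ kK a b q k = q := by
  unfold kK
  split_ifs
  · exact Or.inl rfl
  · exact Or.inr rfl

end Asm

open Asm

theorem asm (hAUX : S_AUX) (hAPT : S_APT) (hRPT : S_RPT) (hCNT : S_CNT) (hSND : S_SND)
    (hCPL : S_CPL) (hVLD : S_VLD) (hSQR : S_SQR) : Main := by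
  intro hPIH a b hb hab q hq hqk
  obtain ⟨c0, hc0, hcnt⟩ := hCNT a b hb hab
  have hc0r : (0 : ℝ) < c0 := by exact_mod_cast hc0
  have hε : (0 : ℝ) < 1 / (4 * c0) := by positivity
  have hF : FPT (fun I : Inst => I.2.1) Full (Small (1 / (4 * c0))) := by
    by_contra hcon
    exact hPIH ⟨_, hε, hcon⟩
  obtain ⟨g', R', hg', hR', hspec⟩ := hF
  obtain ⟨haux, hnewK⟩ := hAUX a b
  have hpair : Computable fun k : ℕ => (q k, k) := hq.pair Computable.id
  have hpoly := hAPT hRPT R' hR'
  have hcomp : Computable fun k : ℕ => auxP a b (q k) k ++ g' (newK a b (q k) k) := by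
    have h1 := haux.comp hpair
    have h2 := hnewK.comp hpair
    have h3 := hg'.comp h2
    have h4 := Computable.list_append.comp h1 h3
    exact h4
  unfold InTime
  refine ⟨4, fun k => auxP a b (q k) k ++ g' (newK a b (q k) k), alg R', hcomp, hpoly, ?_⟩
  intro G k
  beta_reduce
  obtain ⟨Q, hQ⟩ : ∃ Q, q k = Q := ⟨_, rfl⟩
  have hQk := hqk k
  rw [hQ] at hQk ⊢
  rcases Nat.lt_or_ge Q 2 with hQ2 | hQ2
  · have e1 : auxP a b Q k = [[], List.replicate Q true] := by
      unfold auxP
      rw [if_pos (by omega)]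
    have e2 : ∀ pad : List Bool, alg R' ((auxP a b Q k ++ g' (newK a b Q k), pad), (G, k)) =
        (decide (List.replicate Q true = []) || decide (G ≠ [])) := by
      intro pad
      unfold alg
      rw [e1]
      rw [if_pos (by rfl)]
      rfl
    rw [e2]
    interval_cases Q
    · refine ⟨fun _ => by simp, fun h => absurd (hasClique_zero G) h⟩
    · have hk : 1 ≤ k := by
        rcases Nat.eq_zero_or_pos k with rfl | h
        · omega
        · exact h
      refine ⟨fun h => ?_, fun h => ?_⟩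
      · have := ne_nil_of_hasClique hk h
        simp [this]
      · have : G = [] := by
          by_contra h'
          exact h (hasClique_one h')
        simp [this]
  · have hkQ : Q ≤ k := by
      by_contra hlt
      push Not at hlt
      have h1 : b * k ≤ b * Q := Nat.mul_le_mul_left b hlt.le
      have h2 : b * Q < a * Q := Nat.mul_lt_mul_of_pos_right hab (by omega)
      omega
    obtain ⟨hs1, hs2⟩ := hSQR a b Q hb hab hQ2
    obtain ⟨s, hs⟩ : ∃ s, sS a b Q = s := ⟨_, rfl⟩
    obtain ⟨K, hK⟩ : ∃ K, kK a b Q k = K := ⟨_, rfl⟩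
    have hKQ : Q ≤ K ∧ K ≤ k := by
      rcases kK_cases a b Q k with h | h <;> rw [hK] at h <;> omega
    obtain ⟨L, hL⟩ : ∃ L, L = K ^ s * (2 * K ^ (s + 1) * s ^ 2) := ⟨_, rfl⟩
    have e1 : auxP a b Q k = [[true], List.replicate s true, List.replicate K true,
        List.replicate L true, List.replicate L.factorial true,
        List.replicate ((2 * (L * L.factorial + 1)) ^ K) true] := by
      unfold auxP
      rw [if_neg (by omega), hs, hK, hL]
    have e3 : newK a b Q k = 2 * L := by
      unfold newK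
      rw [hs, hK, hL]
    rw [hs] at hs1 hs2
    have hcnt' := hcnt Q k hQ2 hQk
    rw [hK, hs] at hcnt'
    obtain ⟨A, hA⟩ : ∃ A, A = (2 * (L * L.factorial + 1)) ^ K := ⟨_, rfl⟩
    rw [← hA] at e1
    have e2 : ∀ pad : List Bool, alg R' ((auxP a b Q k ++ g' (newK a b Q k), pad), (G, k)) =
        if G = [] then false else R' (g' (2 * L), red s K L L.factorial (A * pad.length) G) := by
      intro pad
      rw [e1, e3]
      unfold alg
      rw [if_neg (by simp)]
      simp only [List.cons_append, List.nil_append, List.getD_cons_succ, List.getD_cons_zero,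
        List.length_replicate, List.drop_succ_cons, List.drop_zero]
    rw [e2]
    rcases eq_or_ne G [] with hG | hG
    · rw [if_pos hG]
      exact ⟨fun h => absurd hG (ne_nil_of_hasClique (by omega) h), fun _ => rfl⟩
    rw [if_neg hG, List.length_replicate]
    have hn : 1 ≤ G.length := List.length_pos_iff.mpr hG
    have hK1 : 1 ≤ K := by omega
    have hL1 : 1 ≤ L := by
      rw [hL]
      exact Nat.succ_le_of_lt (by positivity)
    have hA1 : 1 ≤ A := by
      rw [hA]
      exact Nat.one_le_pow _ _ (by omega)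
    obtain ⟨M, hM⟩ : ∃ M, M = A * G.length ^ (4 * Nat.sqrt Q) := ⟨_, rfl⟩
    rw [← hM]
    have hsq : 1 ≤ Nat.sqrt Q := by
      rw [Nat.one_le_iff_ne_zero]
      intro h
      rw [Nat.sqrt_eq_zero] at h
      omega
    have hM1 : G.length ^ s ≤ M := by
      rw [hM]
      calc G.length ^ s ≤ G.length ^ (4 * Nat.sqrt Q) := Nat.pow_le_pow_right hn hs2
        _ ≤ A * G.length ^ (4 * Nat.sqrt Q) := Nat.le_mul_of_pos_left _ hA1
    have hM2 : (2 * (L * L.factorial + 1)) ^ K * G.length ≤ M := by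
      rw [hM, ← hA]
      refine Nat.mul_le_mul_left A ?_
      calc G.length = G.length ^ 1 := (pow_one _).symm
        _ ≤ G.length ^ (4 * Nat.sqrt Q) := Nat.pow_le_pow_right hn (by omega)
    have hM0 : 1 ≤ M := (Nat.one_le_pow _ _ hn).trans hM1
    have hsp := hspec (red s K L L.factorial M G)
    have hk2 : (red s K L L.factorial M G).2.1 = 2 * L := rfl
    simp only [hk2] at hsp
    refine ⟨fun h => hsp.1 ?_, fun h => hsp.2 ?_⟩
    · exact hCPL G s K L L.factorial M hs1 hK1 hL1 hn hM1 hM2 (hasClique_mono h hKQ.2)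
    · refine ⟨hVLD G s K L L.factorial M hM0, fun t ht => ?_⟩
      have h1 := hSND G s K L M Q c0 hs1 hK1 hM0 hn hc0 hL h hcnt' t ht
      rw [hk2]
      have h2 : ((4 * c0 * value (red s K L L.factorial M G) t : ℕ) : ℝ) ≤
          (((4 * c0 - 1) * (2 * L).choose 2 : ℕ) : ℝ) := by exact_mod_cast h1
      rw [Nat.cast_mul, Nat.cast_mul, Nat.cast_mul, Nat.cast_sub (by omega)] at h2
      push_cast at h2
      have h3 : 0 < (((2 * L).choose 2 : ℕ) : ℝ) := by
        have : 0 < (2 * L).choose 2 := Nat.choose_pos (by omega)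
        exact_mod_cast this
      have h4 : (1 : ℝ) ≤ c0 := by exact_mod_cast hc0
      have h5 : (0 : ℝ) < 1 + 1 / (4 * c0) := by positivity
      rw [lt_div_iff₀ h5]
      generalize (value (red s K L L.factorial M G) t : ℝ) = v at h2
      generalize (((2 * L).choose 2 : ℕ) : ℝ) = C at h2 h3 ⊢
      have h6 : v ≤ (4 * c0 - 1) * C / (4 * c0) := by
        rw [le_div_iff₀ (by positivity)]
        linarith
      calc v * (1 + 1 / (4 * c0)) ≤ (4 * c0 - 1) * C / (4 * c0) * (1 + 1 / (4 * c0)) :=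
            mul_le_mul_of_nonneg_right h6 h5.le
        _ = C * (1 - (1 / (4 * c0)) ^ 2) := by field_simp; ring
        _ < C := by
          have : 0 < C * (1 / (4 * (c0 : ℝ))) ^ 2 := by positivity
          linarith

end Pool.Agent.Work.MP_3154ac_lc

end

section

/-!
# APT: the final algorithm is computed in polynomial time
-/

set_option autoImplicit false

namespace Pool.Agent.Work.MP_3154ac_lc

open N68a2faeb Finset Pool.Agent.PT N487b59b3 Pool.Agent.Work.MP_5296b6_lc

namespace I_APT

/-- The final algorithm, as a function of the auxiliary data, the padding and the graph. -/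
def algA (R' : List (List Bool) × Inst → Bool)
    (y : (List (List Bool) × List Bool) × Code) : Bool :=
  if y.1.1.headD [] = [] then decide (y.1.1.getD 1 [] = []) || decide (y.2 ≠ [])
  else if y.2 = [] then false
  else R' (y.1.1.drop 6, red (y.1.1.getD 1 []).length (y.1.1.getD 2 []).length
    (y.1.1.getD 3 []).length (y.1.1.getD 4 []).length
    ((y.1.1.getD 5 []).length * y.1.2.length) y.2)

theorem ptf_algA (hR : S_RPT) {R' : List (List Bool) × Inst → Bool} (hR' : PTF R') :
    PTF (algA R') := by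
  have haux : PTF (fun y : (List (List Bool) × List Bool) × Code => y.1.1) :=
    PTF.fst.comp PTF.fst
  have hpad : PTF (fun y : (List (List Bool) × List Bool) × Code => y.1.2) :=
    PTF.snd.comp PTF.fst
  have hG : PTF (fun y : (List (List Bool) × List Bool) × Code => y.2) := PTF.snd
  have hlen : ∀ i : ℕ, PTF (fun y : (List (List Bool) × List Bool) × Code =>
      (y.1.1.getD i []).length) := fun i => (haux.getD (PTF.const i) (PTF.const [])).length
  have hred : PTF (fun y : (List (List Bool) × List Bool) × Code =>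
      red (y.1.1.getD 1 []).length (y.1.1.getD 2 []).length
        (y.1.1.getD 3 []).length (y.1.1.getD 4 []).length
        ((y.1.1.getD 5 []).length * y.1.2.length) y.2) := by
    have h1 : PTF (fun y : (List (List Bool) × List Bool) × Code =>
        ((((y.1.1.getD 1 []).length, (y.1.1.getD 2 []).length,
          (y.1.1.getD 3 []).length, (y.1.1.getD 4 []).length,
          ((y.1.1.getD 5 []).length * y.1.2.length)), y.2) : (ℕ × ℕ × ℕ × ℕ × ℕ) × Code)) :=
      ((hlen 1).pair ((hlen 2).pair ((hlen 3).pair ((hlen 4).pair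
        ((hlen 5).mul hpad.length))))).pair hG
    exact hR.comp h1
  unfold algA
  refine PTF.ite ((haux.headD (PTF.const [])).eq (PTF.const [])) ?_
    (PTF.ite (hG.eq (PTF.const [])) (PTF.const false) ?_)
  · exact ((haux.getD (PTF.const 1) (PTF.const [])).eq (PTF.const [])).or (hG.ne (PTF.const []))
  · exact hR'.comp ((haux.drop (PTF.const 6)).pair hred)

/-- Decoding. -/
def dec (x : List Bool) : (List (List Bool) × List Bool) × Code :=
  ((Pool.Agent.PEmb.IQ9.dLL (pPair (pPair x).1).1, decBits (pPair (pPair x).1).2),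
    Pool.Agent.PEmb.IQ9.dLL (pPair (pPair x).2).1)

theorem ptf_dec : PTF dec := by
  have h0 := Pool.Agent.PEmb.IQ9.ptf_pPair
  have h1 : PTF (fun x : List Bool => pPair (pPair x).1) := h0.comp (PTF.fst.comp h0)
  have h2 : PTF (fun x : List Bool => pPair (pPair x).2) := h0.comp (PTF.snd.comp h0)
  exact ((Pool.Agent.PEmb.IQ9.ptf_dLL.comp (PTF.fst.comp h1)).pair
    (PTF.decBits (PTF.snd.comp h1))).pair (Pool.Agent.PEmb.IQ9.ptf_dLL.comp (PTF.fst.comp h2))

theorem dec_eq (x : (List (List Bool) × List Bool) × (Code × ℕ)) :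
    dec (bitEncode x) = (x.1, x.2.1) := by
  obtain ⟨⟨a, p⟩, G, k⟩ := x
  have e1 : pPair (bitEncode ((a, p), (G, k))) = (bitEncode (a, p), bitEncode (G, k)) := pPair_eq _
  have e2 : pPair (bitEncode (a, p)) = (bitEncode a, bitEncode p) := pPair_eq _
  have e3 : pPair (bitEncode (G, k)) = (bitEncode G, bitEncode k) := pPair_eq _
  unfold dec
  rw [e1]
  dsimp only
  rw [e2, e3]
  dsimp only
  rw [Pool.Agent.PEmb.IQ9.dLL_eq, Pool.Agent.PEmb.IQ9.dLL_eq, decBits_bitEncode]

end I_APT

open I_APT in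
theorem pr_APT : S_APT := by
  intro hR R' hR'
  have henc : EncP (List (List Bool) × Inst) :=
    EncP.prod (EncP.list (EncP.list EncP.bool))
      (EncP.prod (EncP.list (EncP.list EncP.bool)) (EncP.prod EncP.nat (EncP.list EncP.nat)))
  have h1 : PTF R' := Pool.Agent.Work.MP_46935e_lc.ptf_of_tm2
    (d := fun l => l.headD false) hR' henc (PTF.id.headD (PTF.const false)) (fun _ => rfl)
  have h2 : PTF (fun x : List Bool => algA R' (dec x)) := (ptf_algA hR h1).comp ptf_dec
  unfold IsPolyTime IsPolyTimeWithEncoding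
  refine tm2_of (g := fun x => [algA R' (dec x)]) (PTF.cons h2 (PTF.const [])) ?_
  intro x
  show [algA R' (dec (bitEncode x))] = [alg R' x]
  rw [dec_eq]
  rfl

end Pool.Agent.Work.MP_3154ac_lc

end

section

/-!
# DIG: digits
-/

set_option autoImplicit false

namespace Pool.Agent.Work.MP_3154ac_lc

namespace I_DIG

theorem iter (b a j : ℕ) : (fun y => y / b)^[a] j = j / b ^ a := by
  induction a with
  | zero => simp
  | succ a ih => rw [Function.iterate_succ_apply', ih, Nat.div_div_eq_div_mul, pow_succ]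

theorem dig_eq (b a j : ℕ) : dig b a j = j / b ^ a % b := by
  rw [dig, iter]

theorem dig_lt {b : ℕ} (hb : 1 ≤ b) (a j : ℕ) : dig b a j < b := Nat.mod_lt _ hb

theorem dig_add {b : ℕ} (hb : 1 ≤ b) {t a : ℕ} (r j : ℕ) (h : a < t) :
    dig b a (r * b ^ t + j) = dig b a j := by
  rw [dig_eq, dig_eq]
  obtain ⟨s, rfl⟩ : ∃ s, t = a + 1 + s := ⟨t - (a + 1), by omega⟩
  have h1 : r * b ^ (a + 1 + s) + j = b ^ a * (r * b ^ s * b) + j := by ring
  have h2 : 0 < b ^ a := Nat.pow_pos hb
  rw [h1, Nat.mul_add_div h2, Nat.mul_comm (r * b ^ s) b, Nat.mul_add_mod]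

theorem dig_exists {b : ℕ} (hb : 1 ≤ b) (t : ℕ) (x : ℕ → ℕ) (hx : ∀ a < t, x a < b) :
    ∃ j < b ^ t, ∀ a < t, dig b a j = x a := by
  induction t with
  | zero => exact ⟨0, by simp, fun a ha => absurd ha (Nat.not_lt_zero a)⟩
  | succ t ih =>
    obtain ⟨j, hj, hd⟩ := ih (fun a ha => hx a (by omega))
    have hxt := hx t (by omega)
    have hp : 0 < b ^ t := Nat.pow_pos hb
    refine ⟨x t * b ^ t + j, ?_, ?_⟩
    · have h1 : (x t + 1) * b ^ t ≤ b * b ^ t := Nat.mul_le_mul_right _ hxt
      have h2 : b ^ (t + 1) = b * b ^ t := by ring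
      have h3 : (x t + 1) * b ^ t = x t * b ^ t + b ^ t := by ring
      omega
    · intro a ha
      rcases Nat.lt_or_eq_of_le (Nat.le_of_lt_succ ha) with h | h
      · rw [dig_add hb _ _ h]
        exact hd a h
      · subst h
        rw [dig_eq, Nat.mul_comm, Nat.mul_add_div hp, Nat.div_eq_of_lt hj, Nat.add_zero,
          Nat.mod_eq_of_lt hxt]

theorem dig_unique {b : ℕ} (hb : 1 ≤ b) (t : ℕ) : ∀ j j', j < b ^ t → j' < b ^ t →
    (∀ a < t, dig b a j = dig b a j') → j = j' := by
  induction t with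
  | zero =>
    intro j j' h h' _
    simp at h h'
    omega
  | succ t ih =>
    intro j j' h h' hd
    have hp : 0 < b ^ t := Nat.pow_pos hb
    have h1 : ∀ j, j / b ^ t * b ^ t + j % b ^ t = j := fun j => by
      rw [Nat.mul_comm]
      exact Nat.div_add_mod j (b ^ t)
    have h2 : j % b ^ t = j' % b ^ t := by
      refine ih _ _ (Nat.mod_lt _ hp) (Nat.mod_lt _ hp) fun a ha => ?_
      have h3 := dig_add hb (j / b ^ t) (j % b ^ t) ha
      have h4 := dig_add hb (j' / b ^ t) (j' % b ^ t) ha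
      rw [h1] at h3 h4
      rw [← h3, ← h4]
      exact hd a (by omega)
    have h5 : ∀ j, j < b ^ (t + 1) → j / b ^ t < b := fun j hj =>
      (Nat.div_lt_iff_lt_mul hp).2 (by rw [pow_succ] at hj; rw [Nat.mul_comm]; exact hj)
    have h6 := hd t (by omega)
    rw [dig_eq, dig_eq, Nat.mod_eq_of_lt (h5 j h), Nat.mod_eq_of_lt (h5 j' h')] at h6
    rw [← h1 j, ← h1 j', h2, h6]

end I_DIG

open I_DIG in
theorem pr_DIG : S_DIG := fun b hb =>
  ⟨dig_eq b, dig_lt hb, dig_exists hb, dig_unique hb, fun _ r j _ h => dig_add hb r j h⟩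

end Pool.Agent.Work.MP_3154ac_lc

end

section

/-!
# RPT: the reduction is computed in polynomial time
-/

set_option autoImplicit false

namespace Pool.Agent.Work.MP_3154ac_lc

open Pool.Agent.PT Function

namespace I_RPT

variable {α : Type} [Enc α]

theorem ptf_entry {c : α → Code} {i j : α → ℕ} (hc : PTF c) (hi : PTF i) (hj : PTF j) :
    PTF (fun a => entry (c a) (i a) (j a)) := by
  unfold entry
  fun_prop

theorem ptf_adjB {c : α → Code} {i j : α → ℕ} (hc : PTF c) (hi : PTF i) (hj : PTF j) :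
    PTF (fun a => adjB (c a) (i a) (j a)) := by
  unfold adjB
  exact (hi.ne hj).and ((ptf_entry hc hi hj).or (ptf_entry hc hj hi))

theorem ptf_dig {b i j : α → ℕ} (hb : PTF b) (hi : PTF i) (hj : PTF j) :
    PTF (fun t => dig (b t) (i t) (j t)) := by
  unfold dig
  refine PTF.mod ?_ hb
  refine PTF.nat_iterate_add (n := i) (init := j) (step := fun p : α × ℕ => p.2 / b p.1) hi hj
    (PTF.snd.div (hb.comp PTF.fst)) (fun _ => 0) (PB.const 0) (fun a s => ?_)
  show sz (s / b a) ≤ _
  have := Nat.div_le_self s (b a)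
  rw [sz_nat, sz_nat]
  omega

theorem ptf_cpw {n K N : α → ℕ} (hn : PTF n) (hK : PTF K) (hN : PTF N) :
    PTF (fun t => cpw (n t) (K t) (N t)) := by
  unfold cpw
  refine PTF.nat_iterate (n := K) (init := fun _ => 1)
    (step := fun p : α × ℕ => min (p.2 * N p.1) (n p.1)) hK (PTF.const 1)
    (PTF.min' (PTF.snd.mul (hN.comp PTF.fst)) (hn.comp PTF.fst)) (fun t => sz (n t) + 2)
    (hn.size.add (PB.const 2)) (fun a i _ => ?_)
  rcases i with _ | i
  · show sz (1 : ℕ) ≤ _
    rw [sz_nat, sz_nat]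
    omega
  · rw [iterate_succ_apply']
    show sz (min _ (n a)) ≤ _
    rw [sz_nat, sz_nat]
    have := Nat.min_le_right ((fun s => min (s * N a) (n a))^[i] 1 * N a) (n a)
    omega

theorem ptf_root {n K : α → ℕ} (hn : PTF n) (hK : PTF K) :
    PTF (fun t => root (n t) (K t)) := by
  unfold root
  refine PTF.optionGetD (PTF.find' (f := fun t N => decide (1 ≤ N) &&
    decide (cpw (n t) (K t) N = n t)) ?_ hn.succ.range) hn
  exact ((PTF.const 1).le PTF.snd).and
    ((ptf_cpw (hn.comp PTF.fst) (hK.comp PTF.fst) PTF.snd).eq (hn.comp PTF.fst))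

theorem ptf_vaB {s K : α → ℕ} {G : α → Code} {π j : α → ℕ} (hs : PTF s) (hK : PTF K)
    (hG : PTF G) (hπ : PTF π) (hj : PTF j) :
    PTF (fun t => vaB (s t) (K t) (G t) (π t) (j t)) := by
  unfold vaB
  refine PTF.all' (f := fun t a => (List.range (s t)).all fun b =>
    if dig (K t) a (π t) = dig (K t) b (π t) then
      decide (dig (G t).length a (j t) = dig (G t).length b (j t))
    else adjB (G t) (dig (G t).length a (j t)) (dig (G t).length b (j t))) ?_ hs.range
  refine PTF.all' (f := fun (t : α × ℕ) b =>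
    if dig (K t.1) t.2 (π t.1) = dig (K t.1) b (π t.1) then
      decide (dig (G t.1).length t.2 (j t.1) = dig (G t.1).length b (j t.1))
    else adjB (G t.1) (dig (G t.1).length t.2 (j t.1)) (dig (G t.1).length b (j t.1))) ?_
    (hs.comp PTF.fst).range
  have h1 : PTF fun p : (α × ℕ) × ℕ => p.1.1 := PTF.fst.comp PTF.fst
  have h2 : PTF fun p : (α × ℕ) × ℕ => p.1.2 := PTF.snd.comp PTF.fst
  have h3 : PTF fun p : (α × ℕ) × ℕ => p.2 := PTF.snd
  have hn := (hG.comp h1).length
  have d1 := ptf_dig (hK.comp h1) h2 (hπ.comp h1)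
  have d2 := ptf_dig (hK.comp h1) h3 (hπ.comp h1)
  have e1 := ptf_dig hn h2 (hj.comp h1)
  have e2 := ptf_dig hn h3 (hj.comp h1)
  exact PTF.ite (d1.eq d2) (e1.eq e2) (ptf_adjB (hG.comp h1) e1 e2)

theorem ptf_coB {s K n m π j j' : α → ℕ} (hs : PTF s) (hK : PTF K) (hn : PTF n) (hm : PTF m)
    (hπ : PTF π) (hj : PTF j) (hj' : PTF j') :
    PTF (fun t => coB (s t) (K t) (n t) (m t) (π t) (j t) (j' t)) := by
  unfold coB
  refine PTF.all' (f := fun t a =>
    decide (dig (n t) a (j t) % m t = dig (m t) (dig (K t) a (π t)) (j' t))) ?_ hs.range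
  have h1 : PTF fun p : α × ℕ => p.1 := PTF.fst
  exact ((ptf_dig (hn.comp h1) PTF.snd (hj.comp h1)).mod (hm.comp h1)).eq
    (ptf_dig (hm.comp h1) (ptf_dig (hK.comp h1) PTF.snd (hπ.comp h1)) (hj'.comp h1))

theorem ptf_eB {s K W N : α → ℕ} {G : α → Code} {π j i j' : α → ℕ} (hs : PTF s) (hK : PTF K)
    (hW : PTF W) (hN : PTF N) (hG : PTF G) (hπ : PTF π) (hj : PTF j) (hi : PTF i)
    (hj' : PTF j') :
    PTF (fun t => eB (s t) (K t) (W t) (N t) (G t) (π t) (j t) (i t) (j' t)) := by
  unfold eB mi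
  exact (ptf_vaB hs hK hG hπ hj).and
    (ptf_coB hs hK hG.length ((hi.succ.mul (hW.mul hN)).succ) hπ hj hj')

theorem ptf_hB {s K L W N M : α → ℕ} {G : α → Code} {u v : α → ℕ} (hs : PTF s) (hK : PTF K)
    (hL : PTF L) (hW : PTF W) (hN : PTF N) (hM : PTF M) (hG : PTF G) (hu : PTF u) (hv : PTF v) :
    PTF (fun t => hB (s t) (K t) (L t) (W t) (N t) (M t) (G t) (u t) (v t)) := by
  unfold hB
  have uM := hu.div hM
  have vM := hv.div hM
  have um := hu.mod hM
  have vm := hv.mod hM
  exact PTF.ite (uM.eq vM) (PTF.const false)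
    (PTF.ite ((uM.lt hL).decide_and (hL.le vM)) (ptf_eB hs hK hW hN hG uM um (vM.sub hL) vm)
      (PTF.ite ((vM.lt hL).decide_and (hL.le uM)) (ptf_eB hs hK hW hN hG vM vm (uM.sub hL) um)
        (PTF.const true)))

theorem ptf_red {s K L W M : α → ℕ} {G : α → Code} (hs : PTF s) (hK : PTF K)
    (hL : PTF L) (hW : PTF W) (hM : PTF M) (hG : PTF G) :
    PTF (fun t => red (s t) (K t) (L t) (W t) (M t) (G t)) := by
  unfold red
  have hr : PTF fun t => List.range (2 * L t * M t) := (((PTF.const 2).mul hL).mul hM).range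
  refine PTF.pair ?_ (PTF.pair ((PTF.const 2).mul hL) ?_)
  · refine PTF.map' (f := fun t u => (List.range (2 * L t * M t)).map fun v =>
      hB (s t) (K t) (L t) (W t) (root (G t).length (K t)) (M t) (G t) u v) ?_ hr
    refine PTF.map' (f := fun (t : α × ℕ) v =>
      hB (s t.1) (K t.1) (L t.1) (W t.1) (root (G t.1).length (K t.1)) (M t.1) (G t.1) t.2 v) ?_
      (hr.comp PTF.fst)
    have h1 : PTF fun p : (α × ℕ) × ℕ => p.1.1 := PTF.fst.comp PTF.fst
    have h2 : PTF fun p : (α × ℕ) × ℕ => p.1.2 := PTF.snd.comp PTF.fst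
    exact ptf_hB (hs.comp h1) (hK.comp h1) (hL.comp h1) (hW.comp h1)
      (ptf_root (hG.comp h1).length (hK.comp h1)) (hM.comp h1) (hG.comp h1) h2 PTF.snd
  · refine PTF.map' (f := fun t u => u / M t) ?_ hr
    exact PTF.snd.div (hM.comp PTF.fst)

end I_RPT

open I_RPT in
theorem pr_RPT : S_RPT := by
  unfold S_RPT
  have h1 : PTF fun p : (ℕ × ℕ × ℕ × ℕ × ℕ) × Code => p.1 := PTF.fst
  have h2 : PTF fun p : (ℕ × ℕ × ℕ × ℕ × ℕ) × Code => p.1.2 := PTF.snd.comp h1
  have h3 : PTF fun p : (ℕ × ℕ × ℕ × ℕ × ℕ) × Code => p.1.2.2 := PTF.snd.comp h2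
  have h4 : PTF fun p : (ℕ × ℕ × ℕ × ℕ × ℕ) × Code => p.1.2.2.2 := PTF.snd.comp h3
  exact ptf_red (PTF.fst.comp h1) (PTF.fst.comp h2) (PTF.fst.comp h3) (PTF.fst.comp h4)
    (PTF.snd.comp h4) PTF.snd

end Pool.Agent.Work.MP_3154ac_lc

end

section

/-!
# Assembly of the main theorem, general gap
-/

set_option autoImplicit false

namespace Pool.Agent.Work.MP_3154ac_lc

open N68a2faeb Finset Pool.Agent.PT

open Asm

theorem kk_cases (q k : ℕ) : kk q k = k ∨ kk q k = q := by
  unfold kk
  split_ifs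
  · exact kK_cases 2 1 q k
  · exact Or.inl rfl

/-- The decision algorithm, uniform in `Q < k`. -/
def Core : Prop := ¬ PIH → ∃ (g' : ℕ → List (List Bool)) (R' : List (List Bool) × Inst → Bool),
  Computable g' ∧ IsPolyTime R' ∧ ∀ (G : Code) (Q k k' : ℕ) (pad : List Bool), Q < k →
    G.length ^ (6 * Nat.sqrt (Q * k / (k - Q))) ≤ pad.length →
    (HasClique G k → alg R' ((auxP2 Q k ++ g' (newK2 Q k), pad), (G, k')) = true) ∧
    (¬ HasClique G Q → alg R' ((auxP2 Q k ++ g' (newK2 Q k), pad), (G, k')) = false)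

theorem core (hCNT : S_CNT2) (hSND : S_SND) (hCPL : S_CPL) (hVLD : S_VLD) (hSQR : S_SQR2) :
    Core := by
  intro hPIH
  obtain ⟨c0, hc0, hcnt⟩ := hCNT
  have hc0r : (0 : ℝ) < c0 := by exact_mod_cast hc0
  have hε : (0 : ℝ) < 1 / (4 * c0) := by positivity
  have hF : FPT (fun I : Inst => I.2.1) Full (Small (1 / (4 * c0))) := by
    by_contra hcon
    exact hPIH ⟨_, hε, hcon⟩
  obtain ⟨g', R', hg', hR', hspec⟩ := hF
  refine ⟨g', R', hg', hR', ?_⟩
  intro G Q k k' pad hQk hpad
  rcases Nat.lt_or_ge Q 2 with hQ2 | hQ2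
  · have e1 : auxP2 Q k = [[], List.replicate Q true] := by
      unfold auxP2
      rw [if_pos (by omega)]
    have e2 : alg R' ((auxP2 Q k ++ g' (newK2 Q k), pad), (G, k')) =
        (decide (List.replicate Q true = []) || decide (G ≠ [])) := by
      unfold alg
      rw [e1]
      rw [if_pos (by rfl)]
      rfl
    rw [e2]
    interval_cases Q
    · refine ⟨fun _ => by simp, fun h => absurd (hasClique_zero G) h⟩
    · refine ⟨fun h => ?_, fun h => ?_⟩
      · have := ne_nil_of_hasClique (by omega : 1 ≤ k) h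
        simp [this]
      · have : G = [] := by
          by_contra h'
          exact h (hasClique_one h')
        simp [this]
  · obtain ⟨hs1, hs2⟩ := hSQR Q k hQ2 hQk
    obtain ⟨s, hs⟩ : ∃ s, ss Q k = s := ⟨_, rfl⟩
    obtain ⟨K, hK⟩ : ∃ K, kk Q k = K := ⟨_, rfl⟩
    have hKQ : Q ≤ K ∧ K ≤ k := by
      rcases kk_cases Q k with h | h <;> rw [hK] at h <;> omega
    obtain ⟨L, hL⟩ : ∃ L, L = K ^ s * (2 * K ^ (s + 1) * s ^ 2) := ⟨_, rfl⟩
    have e1 : auxP2 Q k = [[true], List.replicate s true, List.replicate K true,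
        List.replicate L true, List.replicate L.factorial true,
        List.replicate ((2 * (L * L.factorial + 1)) ^ K) true] := by
      unfold auxP2
      rw [if_neg (by omega), hs, hK, hL]
    have e3 : newK2 Q k = 2 * L := by
      unfold newK2
      rw [hs, hK, hL]
    rw [hs] at hs1 hs2
    have hcnt' := hcnt Q k hQ2 hQk
    rw [hK, hs] at hcnt'
    obtain ⟨A, hA⟩ : ∃ A, A = (2 * (L * L.factorial + 1)) ^ K := ⟨_, rfl⟩
    rw [← hA] at e1
    have e2 : alg R' ((auxP2 Q k ++ g' (newK2 Q k), pad), (G, k')) =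
        if G = [] then false else R' (g' (2 * L), red s K L L.factorial (A * pad.length) G) := by
      rw [e1, e3]
      unfold alg
      rw [if_neg (by simp)]
      simp only [List.cons_append, List.nil_append, List.getD_cons_succ, List.getD_cons_zero,
        List.length_replicate, List.drop_succ_cons, List.drop_zero]
    rw [e2]
    rcases eq_or_ne G [] with hG | hG
    · rw [if_pos hG]
      exact ⟨fun h => absurd hG (ne_nil_of_hasClique (by omega) h), fun _ => rfl⟩
    rw [if_neg hG]
    have hn : 1 ≤ G.length := List.length_pos_iff.mpr hG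
    have hK1 : 1 ≤ K := by omega
    have hL1 : 1 ≤ L := by
      rw [hL]
      exact Nat.succ_le_of_lt (by positivity)
    have hA1 : 1 ≤ A := by
      rw [hA]
      exact Nat.one_le_pow _ _ (by omega)
    obtain ⟨E, hE⟩ : ∃ E, 6 * Nat.sqrt (Q * k / (k - Q)) = E := ⟨_, rfl⟩
    rw [hE] at hs2 hpad
    obtain ⟨M, hM⟩ : ∃ M, M = A * pad.length := ⟨_, rfl⟩
    rw [← hM]
    have hM1 : G.length ^ s ≤ M := by
      rw [hM]
      calc G.length ^ s ≤ G.length ^ E := Nat.pow_le_pow_right hn hs2
        _ ≤ pad.length := hpad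
        _ ≤ A * pad.length := Nat.le_mul_of_pos_left _ hA1
    have hM2 : (2 * (L * L.factorial + 1)) ^ K * G.length ≤ M := by
      rw [hM, ← hA]
      refine Nat.mul_le_mul_left A ?_
      calc G.length = G.length ^ 1 := (pow_one _).symm
        _ ≤ G.length ^ E := Nat.pow_le_pow_right hn (by omega)
        _ ≤ pad.length := hpad
    have hM0 : 1 ≤ M := (Nat.one_le_pow _ _ hn).trans hM1
    have hsp := hspec (red s K L L.factorial M G)
    have hk2 : (red s K L L.factorial M G).2.1 = 2 * L := rfl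
    simp only [hk2] at hsp
    refine ⟨fun h => hsp.1 ?_, fun h => hsp.2 ?_⟩
    · exact hCPL G s K L L.factorial M hs1 hK1 hL1 hn hM1 hM2 (hasClique_mono h hKQ.2)
    · refine ⟨hVLD G s K L L.factorial M hM0, fun t ht => ?_⟩
      have h1 := hSND G s K L M Q c0 hs1 hK1 hM0 hn hc0 hL h hcnt' t ht
      rw [hk2]
      have h2 : ((4 * c0 * value (red s K L L.factorial M G) t : ℕ) : ℝ) ≤
          (((4 * c0 - 1) * (2 * L).choose 2 : ℕ) : ℝ) := by exact_mod_cast h1
      rw [Nat.cast_mul, Nat.cast_mul, Nat.cast_mul, Nat.cast_sub (by omega)] at h2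
      push_cast at h2
      have h3 : 0 < (((2 * L).choose 2 : ℕ) : ℝ) := by
        have : 0 < (2 * L).choose 2 := Nat.choose_pos (by omega)
        exact_mod_cast this
      have h4 : (1 : ℝ) ≤ c0 := by exact_mod_cast hc0
      have h5 : (0 : ℝ) < 1 + 1 / (4 * c0) := by positivity
      rw [lt_div_iff₀ h5]
      generalize (value (red s K L L.factorial M G) t : ℝ) = v at h2
      generalize (((2 * L).choose 2 : ℕ) : ℝ) = C at h2 h3 ⊢
      have h6 : v ≤ (4 * c0 - 1) * C / (4 * c0) := by
        rw [le_div_iff₀ (by positivity)]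
        linarith
      calc v * (1 + 1 / (4 * c0)) ≤ (4 * c0 - 1) * C / (4 * c0) * (1 + 1 / (4 * c0)) :=
            mul_le_mul_of_nonneg_right h6 h5.le
        _ = C * (1 - (1 / (4 * c0)) ^ 2) := by field_simp; ring
        _ < C := by
          have : 0 < C * (1 / (4 * (c0 : ℝ))) ^ 2 := by positivity
          linarith

theorem asm2 (hAUX : S_AUX2) (hAPT : S_APT) (hRPT : S_RPT) (hcore : Core) : Main2 := by
  intro hPIH q hq hqk
  obtain ⟨g', R', hg', hR', hspec⟩ := hcore hPIH
  obtain ⟨haux, hnewK⟩ := hAUX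
  have hpair : Computable fun k : ℕ => (q k, k) := hq.pair Computable.id
  have hpoly := hAPT hRPT R' hR'
  have hcomp : Computable fun k : ℕ => auxP2 (q k) k ++ g' (newK2 (q k) k) := by
    have h1 := haux.comp hpair
    have h2 := hnewK.comp hpair
    have h3 := hg'.comp h2
    have h4 := Computable.list_append.comp h1 h3
    exact h4
  unfold InTime
  refine ⟨6, fun k => auxP2 (q k) k ++ g' (newK2 (q k) k), alg R', hcomp, hpoly, ?_⟩
  intro G k
  beta_reduce
  rcases Nat.eq_zero_or_pos k with rfl | hk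
  · have h0 : q 0 = 0 := by
      have := hqk 0
      omega
    rw [h0]
    have e1 : auxP2 0 0 = [[], List.replicate 0 true] := by
      unfold auxP2
      rw [if_pos (by omega)]
    refine ⟨fun _ => ?_, fun h => absurd (hasClique_zero G) h⟩
    unfold alg
    rw [e1, if_pos (by rfl)]
    rfl
  · have := hqk k
    exact hspec G (q k) k k _ (by omega) (by rw [List.length_replicate])

end Pool.Agent.Work.MP_3154ac_lc

end
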