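import Pool.Agent.Work.MP_3154ac_lc.Stmts2

/-! Bundle of small proof modules (one section per former module). -/

section

set_option autoImplicit false

namespace Pool.Agent.Work.MP_3154ac_lc

open N68a2faeb Finset Pool.Agent.PT

namespace I_CNT2

theorem nv_le {V : Type} [Fintype V] [DecidableEq V] (H : SimpleGraph V) [DecidableRel H.Adj]
    (s : ℕ) : nv H s ≤ Fintype.card V ^ s := by
  unfold nv
  refine (Finset.card_le_univ _).trans ?_
  rw [Fintype.card_fun, Fintype.card_fin]

theorem up (c c0 n X : ℕ) (hc : 0 < c) (hcc : c ≤ c0) (hn : n ≤ X)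
    (h : c * n ≤ (c - 1) * X) : c0 * n ≤ (c0 - 1) * X := by
  obtain ⟨d, rfl⟩ := Nat.exists_eq_add_of_le hcc
  obtain ⟨e, rfl⟩ : ∃ e, c = e + 1 := ⟨c - 1, by omega⟩
  have h1 : e + 1 + d - 1 = e + d := by omega
  have h2 : e + 1 - 1 = e := by omega
  rw [h1]
  rw [h2] at h
  have h3 : d * n ≤ d * X := Nat.mul_le_mul_left _ hn
  calc (e + 1 + d) * n = (e + 1) * n + d * n := by ring
    _ ≤ e * X + d * X := Nat.add_le_add h h3
    _ = (e + d) * X := by ring

theorem case1 (c1 q k K s : ℕ) (hK : K = kK 2 1 q k) (hs : s = sS 2 1 q)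
    (h1 : ∀ (H : SimpleGraph (Fin (kK 2 1 q k))) [DecidableRel H.Adj],
      cq H q = 0 → c1 * nv H (sS 2 1 q) ≤ (c1 - 1) * kK 2 1 q k ^ sS 2 1 q)
    (H : SimpleGraph (Fin K)) [DecidableRel H.Adj] (hH : cq H q = 0) :
    c1 * nv H s ≤ (c1 - 1) * K ^ s := by
  subst hK
  subst hs
  exact h1 H hH

theorem case2 (hM : S_MAT) (hS : S_SM) (q k K s : ℕ) (hK : K = k)
    (hs : s = 2 * (Nat.sqrt (k * k / (k - q)) + 1)) (hq : 2 ≤ q) (hqk : q < k)
    (H : SimpleGraph (Fin K)) [DecidableRel H.Adj] (hH : cq H q = 0) :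
    6 * nv H s ≤ 5 * K ^ s := by
  subst hK
  subst hs
  obtain ⟨M, π, h1, h2, h3⟩ := hM (Fin K) H q hH
  rw [Fintype.card_fin] at h3
  have h4 := hS (Fin K) H M π (Nat.sqrt (K * K / (K - q)) + 1) (by omega) (by
    rw [Fintype.card_fin]
    have h5 : Nat.sqrt (K * K / (K - q)) ≤ Nat.sqrt (K * K) :=
      Nat.sqrt_le_sqrt (Nat.div_le_self _ _)
    rw [Nat.sqrt_eq] at h5
    omega) h1 h2 (by
    rw [Fintype.card_fin]
    set F := K * K / (K - q) with hF
    have h5 : F + 1 ≤ (Nat.sqrt F + 1) ^ 2 := Nat.lt_succ_sqrt' F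
    have h6 : K * K < (K - q) * (F + 1) := by
      rw [hF]
      exact Nat.lt_mul_div_succ _ (by omega)
    calc K ^ 2 = K * K := by ring
      _ ≤ (K - q) * (F + 1) := h6.le
      _ ≤ M.card * (Nat.sqrt F + 1) ^ 2 := Nat.mul_le_mul (by omega) h5
      _ = (Nat.sqrt F + 1) ^ 2 * M.card := Nat.mul_comm _ _)
  rw [Fintype.card_fin] at h4
  exact h4

end I_CNT2

open I_CNT2

theorem pr_CNT2 (hC : S_CNT) (hM : S_MAT) (hS : S_SM) : S_CNT2 := by
  obtain ⟨c1, hc1, h1⟩ := hC 2 1 (by norm_num) (by norm_num)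
  refine ⟨max c1 6, by omega, ?_⟩
  intro q k hq hqk H _ hH
  have hnv := nv_le H (ss q k)
  rw [Fintype.card_fin] at hnv
  by_cases h : 2 * q ≤ k
  · have hK : kk q k = kK 2 1 q k := by unfold kk; rw [if_pos h]
    have hs : ss q k = sS 2 1 q := by unfold ss; rw [if_pos h]
    have h2 := case1 c1 q k (kk q k) (ss q k) hK hs (fun H _ hH => h1 q k hq (by omega) H hH) H hH
    exact up c1 _ _ _ hc1 (le_max_left _ _) hnv h2
  · have hK : kk q k = k := by unfold kk; rw [if_neg h]
    have hs : ss q k = 2 * (Nat.sqrt (k * k / (k - q)) + 1) := by unfold ss; rw [if_neg h]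
    have h2 := case2 hM hS q k (kk q k) (ss q k) hK hs hq hqk H hH
    exact up 6 _ _ _ (by norm_num) (le_max_right _ _) hnv h2

end Pool.Agent.Work.MP_3154ac_lc

end

section

/-!
# Item MAT: a large matching in the complement
-/

set_option autoImplicit false

namespace Pool.Agent.Work.MP_3154ac_lc

open Finset

namespace I_MAT

/-- `π` is a perfect matching of `M` by non-adjacent pairs -/
def Good {V : Type} (H : SimpleGraph V) (M : Finset V) (π : V → V) : Prop :=
  ∀ v ∈ M, π v ∈ M ∧ π (π v) = v ∧ ¬ H.Adj v (π v) ∧ v ≠ π v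

theorem extend {V : Type} [DecidableEq V] (H : SimpleGraph V) (M : Finset V) (π : V → V)
    (h : Good H M π) (u w : V) (hu : u ∉ M) (hw : w ∉ M) (huw : u ≠ w) (hadj : ¬ H.Adj u w) :
    Good H (insert u (insert w M)) (fun v => if v = u then w else if v = w then u else π v) := by
  intro v hv
  rw [mem_insert, mem_insert] at hv
  rcases hv with rfl | rfl | hv
  · have h1 : w ≠ v := huw.symm
    refine ⟨?_, ?_, ?_, ?_⟩
    · simp
    · simp [h1]
    · simpa using hadj
    · simpa using huw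
  · have h1 : v ≠ u := huw.symm
    refine ⟨?_, ?_, ?_, ?_⟩
    · simp [h1]
    · simp [h1]
    · simp only [h1, if_false, if_true]
      intro h
      exact hadj h.symm
    · simp [h1]
  · have h1 : v ≠ u := fun h => hu (h ▸ hv)
    have h2 : v ≠ w := fun h => hw (h ▸ hv)
    obtain ⟨a, b, c, d⟩ := h v hv
    have h3 : π v ≠ u := fun h => hu (h ▸ a)
    have h4 : π v ≠ w := fun h => hw (h ▸ a)
    refine ⟨?_, ?_, ?_, ?_⟩
    · simp [h1, h2, a]
    · simp [h1, h2, h3, h4, b]
    · simp only [h1, h2, if_false]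
      exact c
    · simp only [h1, h2, if_false]
      exact d

end I_MAT

open I_MAT in
theorem pr_MAT : S_MAT := by
  classical
  intro V _ _ H _ q hq
  obtain ⟨M, hM, hmax⟩ := Finset.exists_max_image
    ((univ : Finset (Finset V)).filter fun M => ∃ π, Good H M π) Finset.card
    ⟨∅, by
      rw [mem_filter]
      exact ⟨mem_univ _, id, fun v hv => absurd hv (Finset.notMem_empty v)⟩⟩
  rw [mem_filter] at hM
  obtain ⟨-, π, hπ⟩ := hM
  refine ⟨M, π, fun v hv => (hπ v hv).2.2, ?_, ?_⟩
  · intro v hv w hw h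
    rw [← (hπ v hv).2.1, h, (hπ w hw).2.1]
  · have hU : ∀ u w, u ∉ M → w ∉ M → u ≠ w → H.Adj u w := by
      intro u w hu hw huw
      by_contra hadj
      have h1 := extend H M π hπ u w hu hw huw hadj
      have h2 := hmax (insert u (insert w M)) (by
        rw [mem_filter]
        exact ⟨mem_univ _, _, h1⟩)
      have h3 : (insert u (insert w M)).card = M.card + 2 := by
        rw [card_insert_of_notMem, card_insert_of_notMem hw]
        rw [mem_insert]
        push Not
        exact ⟨huw, hu⟩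
      omega
    by_contra hcon
    push Not at hcon
    have hUc : q ≤ (Mᶜ).card := by
      rw [card_compl]
      omega
    have hex : (0 : ℕ) < cq H q := by
      unfold cq
      rw [Finset.card_pos]
      refine ⟨fun i => ((Mᶜ).equivFin.symm (Fin.castLE hUc i) : V), ?_⟩
      rw [mem_filter]
      refine ⟨mem_univ _, fun a b hab => ?_⟩
      apply hU
      · have := ((Mᶜ).equivFin.symm (Fin.castLE hUc a)).2
        rwa [mem_compl] at this
      · have := ((Mᶜ).equivFin.symm (Fin.castLE hUc b)).2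
        rwa [mem_compl] at this
      · intro h
        apply hab
        have h1 := (Mᶜ).equivFin.symm.injective (Subtype.ext h)
        exact Fin.castLE_injective hUc h1
    omega

end Pool.Agent.Work.MP_3154ac_lc

end

section

set_option autoImplicit false

namespace Pool.Agent.Work.MP_3154ac_lc

theorem pr_SQR2 (hQ : S_SQR) : S_SQR2 := by
  intro q k hq hqk
  obtain ⟨h, rfl⟩ : ∃ h, k = q + h := ⟨k - q, by omega⟩
  have hh : 0 < h := by omega
  rw [show q + h - q = h by omega]
  have hX : q ≤ q * (q + h) / h := by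
    rw [Nat.le_div_iff_mul_le hh]
    exact Nat.mul_le_mul_left q (by omega)
  unfold ss
  split_ifs with h1
  · obtain ⟨h2, h3⟩ := hQ 2 1 q (by norm_num) (by norm_num) hq
    refine ⟨h2, h3.trans ?_⟩
    have := Nat.sqrt_le_sqrt hX
    omega
  · rw [show q + h - q = h by omega]
    refine ⟨by omega, ?_⟩
    set X := q * (q + h) / h with hXd
    set y := Nat.sqrt X with hy
    have hy1 : 1 ≤ y := by
      rw [hy, Nat.one_le_iff_ne_zero]
      intro h0
      rw [Nat.sqrt_eq_zero] at h0
      omega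
    have hXy : X < (y + 1) * (y + 1) := Nat.lt_succ_sqrt X
    have hF : (q + h) * (q + h) / h ≤ 2 * (X + 1) := by
      rw [Nat.div_le_iff_le_mul_add_pred hh]
      have h4 : q * (q + h) < h * (X + 1) := Nat.lt_mul_div_succ _ hh
      nlinarith
    have h5 : Nat.sqrt ((q + h) * (q + h) / h) < 3 * y := by
      rw [Nat.sqrt_lt]
      nlinarith
    omega

end Pool.Agent.Work.MP_3154ac_lc

end
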