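import Pool.Agent.Work.MP_3154ac_lc.Stmts3

/-! Bundle of small proof modules (one section per former module). -/

section

/-!
# Assembly of the main theorem for search algorithms
-/

set_option autoImplicit false

namespace Pool.Agent.Work.MP_3154ac_lc

open N68a2faeb Finset Pool.Agent.PT

theorem asm3 (hAUS : S_AUS) (hAPS : S_APS) (hRPT : S_RPT) (hcore : Core) (hLOOP : S_LOOP) :
    Main3 := by
  intro hPIH q hq hqk
  obtain ⟨g', R', hg', hR', hspec⟩ := hcore hPIH
  have hpair : Computable fun k : ℕ => (q k, k) := hq.pair Computable.id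
  have hcomp : Computable fun k : ℕ => auxS g' (q k) k := by
    have h1 := (hAUS g' hg').comp hpair
    exact h1
  unfold SearchInTime
  refine ⟨24, fun k => auxS g' (q k) k, srch R', hcomp, hAPS hRPT R' hR', ?_⟩
  intro G k hG
  beta_reduce
  rcases Nat.eq_zero_or_pos k with rfl | hk
  · have h0 : q 0 = 0 := by
      have := hqk 0
      omega
    rw [h0]
    have e1 : auxS g' 0 0 = [List.replicate (rr 0 0) true] := by
      unfold auxS
      simp [cbrt]
    unfold srch
    rw [e1]
    exact ⟨0, Fin.elim0, le_refl _, fun a => a.elim0, rfl⟩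
  · have := hqk k
    exact hLOOP g' R' hspec G (q k) k k _ (by omega) hG (by rw [List.length_replicate])

end Pool.Agent.Work.MP_3154ac_lc

end

section

/-!
# Item ARI: arithmetic of the parameters
-/

set_option autoImplicit false

namespace Pool.Agent.Work.MP_3154ac_lc

namespace I_ARI

lemma cbrt_le (h : ℕ) : cbrt h ^ 3 ≤ h := by
  unfold cbrt
  exact Nat.findGreatest_spec (P := fun t => t ^ 3 ≤ h) (Nat.zero_le h) (by simp)

lemma cbrt_pos (h : ℕ) (hh : 1 ≤ h) : 1 ≤ cbrt h := by
  unfold cbrt
  exact Nat.le_findGreatest hh (by simpa using hh)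

end I_ARI

open I_ARI

theorem pr_ARI : S_ARI := by
  intro q k hqk
  set h := k - q with hh
  have hh1 : 1 ≤ h := by omega
  set t := cbrt h with ht
  have ht3 : t ^ 3 ≤ h := cbrt_le h
  have ht1 : 1 ≤ t := cbrt_pos h hh1
  have hth : t ≤ h := le_trans (Nat.le_self_pow (by omega) t) ht3
  have hr : rr q k = q / t + 1 := rfl
  have hg : gg q k = h / (2 * t) := rfl
  have hp : ∀ i, pp q k i = k - i * (rr q k + gg q k) := fun _ => rfl
  set r := rr q k with hrdef
  set g := gg q k with hgdef
  have htr : t * r ≤ q + t := by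
    rw [hr, mul_add, mul_one]
    exact Nat.add_le_add_right (Nat.mul_div_le q t) t
  have htg : 2 * t * g ≤ h := by
    rw [hg]
    exact Nat.mul_div_le h (2 * t)
  have h4t : 2 ≤ t → 4 * t ≤ h := by
    intro h2
    refine le_trans ?_ ht3
    have : t ^ 3 = t * t * t := by ring
    rw [this]
    exact Nat.mul_le_mul_right t (Nat.mul_le_mul h2 h2)
  have hsum : t * r + (t - 1) * g ≤ k := by
    rcases Nat.lt_or_ge t 2 with h2 | h2
    · have : t = 1 := by omega
      rw [this]
      rw [this] at htr
      simp only [Nat.sub_self, zero_mul, add_zero]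
      omega
    · have h3 := h4t h2
      have h4 : (t - 1) * g ≤ t * g := Nat.mul_le_mul_right g (by omega)
      have h5 : 2 * (t * g) ≤ h := by
        rw [← mul_assoc]
        exact htg
      omega
  have hmain : ∀ i, i < t → i * (r + g) + r ≤ k := by
    intro i hi
    refine le_trans ?_ hsum
    have h1 : (i + 1) * r ≤ t * r := Nat.mul_le_mul_right r hi
    have h2 : i * g ≤ (t - 1) * g := Nat.mul_le_mul_right g (by omega)
    have h3 : i * (r + g) + r = (i + 1) * r + i * g := by ring
    omega
  have hstep : ∀ i, i + 1 < t → pp q k (i + 1) + r + g = pp q k i ∧ 1 ≤ g := by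
    intro i hi
    have h1 := hmain (i + 1) hi
    have h2 : (i + 1) * (r + g) = i * (r + g) + (r + g) := by ring
    rw [hp, hp]
    refine ⟨by omega, ?_⟩
    rw [hg, Nat.le_div_iff_mul_le (by omega)]
    have := h4t (by omega)
    omega
  have hu1 : 1 ≤ k / t := by
    rw [Nat.le_div_iff_mul_le (by omega)]
    omega
  refine ⟨ht1, ?_, ?_, ?_, ?_, ?_⟩
  · rw [hr]
    exact (Nat.lt_mul_div_succ q (by omega)).le
  · intro i hi
    have := hmain i hi
    rw [hp]
    omega
  · intro i hi
    obtain ⟨h1, h2⟩ := hstep i hi
    omega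
  · rw [hr]
    have : q / t ≤ k / t := Nat.div_le_div_right (by omega)
    omega
  · intro i hi
    obtain ⟨h1, h2⟩ := hstep i hi
    have ht2 : 2 ≤ t := by omega
    have e : pp q k i - r - pp q k (i + 1) = g := by omega
    rw [e]
    set X := pp q k (i + 1) * (pp q k i - r) / g with hX
    set u := k / t with hu
    have hXg : X * g ≤ k * k := by
      refine le_trans (Nat.div_mul_le_self _ g) (Nat.mul_le_mul ?_ ?_)
      · rw [hp]; omega
      · rw [hp]; omega
    have hku : k < 2 * (t * u) := by
      have h3 := Nat.lt_mul_div_succ k (show 0 < t by omega)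
      rw [← hu, mul_add, mul_one] at h3
      have h4 : t ≤ t * u := Nat.le_mul_of_pos_right t (by omega)
      omega
    have h4g : t * t ≤ 4 * g := by
      have h5 : t * t / 2 ≤ g := by
        rw [hg, Nat.le_div_iff_mul_le (by omega)]
        refine le_trans ?_ ht3
        have h6 : t * t / 2 * 2 ≤ t * t := Nat.div_mul_le_self _ 2
        calc t * t / 2 * (2 * t) = (t * t / 2 * 2) * t := by ring
          _ ≤ t * t * t := Nat.mul_le_mul_right t h6
          _ = t ^ 3 := by ring
      have h7 : 4 ≤ t * t := Nat.mul_le_mul ht2 ht2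
      omega
    have hX16 : X < 16 * (u * u) := by
      have h8 : k * k < (2 * (t * u)) * (2 * (t * u)) := Nat.mul_lt_mul'' hku hku
      have h9 : (2 * (t * u)) * (2 * (t * u)) = (t * t) * (4 * (u * u)) := by ring
      have h10 : (t * t) * (4 * (u * u)) ≤ (4 * g) * (4 * (u * u)) := Nat.mul_le_mul_right _ h4g
      have h11 : (4 * g) * (4 * (u * u)) = (16 * (u * u)) * g := by ring
      have h12 : X * g < (16 * (u * u)) * g := by
        omega
      exact lt_of_mul_lt_mul_right h12 (Nat.zero_le g)
    have hs : Nat.sqrt X < 4 * u := by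
      rw [Nat.sqrt_lt']
      have : (4 * u) ^ 2 = 16 * (u * u) := by ring
      omega
    omega

end Pool.Agent.Work.MP_3154ac_lc

end

section

/-!
# Item AUS : computability of the auxiliary data of the search algorithm
-/

set_option autoImplicit false

namespace Pool.Agent.Work.MP_3154ac_lc

namespace I_AUS

theorem pw : Primrec₂ ((· ^ ·) : ℕ → ℕ → ℕ) := Primrec₂.unpaired'.1 Nat.Primrec.pow

theorem rep : Primrec fun n : ℕ => List.replicate n true := by
  have h : Primrec₂ fun (_ : ℕ) (l : List Bool) => true :: l :=
    Primrec.list_cons.comp (Primrec.const true) Primrec.snd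
  refine (Primrec.nat_rec₁ [] h).of_eq fun n => ?_
  induction n with
  | zero => rfl
  | succ n ih => rw [List.replicate_succ, ← ih]

theorem cbrtP : Primrec cbrt := by
  unfold cbrt
  refine Primrec.nat_findGreatest (f := fun h : ℕ => h) (p := fun h x : ℕ => x ^ 3 ≤ h)
    Primrec.id ?_
  exact Primrec.nat_le.comp (pw.comp Primrec.snd (Primrec.const 3)) Primrec.fst

section

variable {α : Type} [Primcodable α]

theorem rrP {q k : α → ℕ} (hq : Primrec q) (hk : Primrec k) :
    Primrec fun x => rr (q x) (k x) := by
  unfold rr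
  exact Primrec.succ.comp (Primrec.nat_div.comp hq (cbrtP.comp (Primrec.nat_sub.comp hk hq)))

theorem ggP {q k : α → ℕ} (hq : Primrec q) (hk : Primrec k) :
    Primrec fun x => gg (q x) (k x) := by
  unfold gg
  exact Primrec.nat_div.comp (Primrec.nat_sub.comp hk hq) (Primrec.nat_mul.comp
    (Primrec.const 2) (cbrtP.comp (Primrec.nat_sub.comp hk hq)))

theorem ppP {q k i : α → ℕ} (hq : Primrec q) (hk : Primrec k) (hi : Primrec i) :
    Primrec fun x => pp (q x) (k x) (i x) := by
  unfold pp
  exact Primrec.nat_sub.comp hk (Primrec.nat_mul.comp hi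
    (Primrec.nat_add.comp (rrP hq hk) (ggP hq hk)))

end

theorem delimit_eq (l : List Bool) :
    N487b59b3.delimit l = l.flatMap (fun b => [true, b]) ++ [false] := by
  induction l with
  | nil => rfl
  | cons b l ih => simp [N487b59b3.delimit, ih]

theorem delimitP : Primrec N487b59b3.delimit := by
  have h : Primrec fun l : List Bool => l.flatMap (fun b => [true, b]) ++ [false] := by
    refine Primrec.list_append.comp ?_ (Primrec.const [false])
    refine Primrec.list_flatMap (g := fun (_ : List Bool) (b : Bool) => [true, b])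
      Primrec.id ?_
    exact Primrec.list_cons.comp (Primrec.const true)
      (Primrec.list_cons.comp Primrec.snd (Primrec.const []))
  exact h.of_eq fun l => (delimit_eq l).symm

theorem row_eq (r : List Bool) : N487b59b3.bitEncode r =
    r.flatMap (fun b => [true, b, false]) := by
  induction r with
  | nil => rfl
  | cons b r ih =>
    have h : N487b59b3.bitEncode (b :: r) =
        N487b59b3.delimit (N487b59b3.bitEncode b) ++ N487b59b3.bitEncode r := rfl
    rw [h, ih, List.flatMap_cons]
    rfl

theorem code_eq (c : List (List Bool)) : N487b59b3.bitEncode c =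
    c.flatMap (fun r => N487b59b3.delimit (N487b59b3.bitEncode r)) := by
  induction c with
  | nil => rfl
  | cons r c ih =>
    have h : N487b59b3.bitEncode (r :: c) =
        N487b59b3.delimit (N487b59b3.bitEncode r) ++ N487b59b3.bitEncode c := rfl
    rw [h, ih, List.flatMap_cons]

theorem rowP : Primrec fun r : List Bool => N487b59b3.bitEncode r := by
  have h : Primrec fun r : List Bool => r.flatMap (fun b => [true, b, false]) := by
    refine Primrec.list_flatMap (g := fun (_ : List Bool) (b : Bool) => [true, b, false])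
      Primrec.id ?_
    exact Primrec.list_cons.comp (Primrec.const true)
      (Primrec.list_cons.comp Primrec.snd (Primrec.const [false]))
  exact h.of_eq fun r => (row_eq r).symm

theorem codeP : Primrec fun c : List (List Bool) => N487b59b3.bitEncode c := by
  have h : Primrec fun c : List (List Bool) =>
      c.flatMap (fun r => N487b59b3.delimit (N487b59b3.bitEncode r)) := by
    refine Primrec.list_flatMap (g := fun (_ : List (List Bool)) (r : List Bool) =>
      N487b59b3.delimit (N487b59b3.bitEncode r)) Primrec.id ?_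
    exact delimitP.comp (rowP.comp Primrec.snd)
  exact h.of_eq fun c => (code_eq c).symm

/-- a list over a range -/
theorem mapRange {α σ : Type} [Primcodable α] [Primcodable σ] {t : α → ℕ} {F : α → ℕ → σ}
    (ht : Computable t) (hF : Computable₂ F) :
    Computable fun a => (List.range (t a)).map (F a) := by
  have h : Computable fun a => (Nat.rec (motive := fun _ => List σ) []
      (fun i IH => IH ++ [F a i]) (t a) : List σ) := by
    refine Computable.nat_rec (h := fun a (p : ℕ × List σ) => p.2 ++ [F a p.1]) ht
      (Computable.const []) ?_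
    have h1 : Computable fun x : α × (ℕ × List σ) => F x.1 x.2.1 :=
      hF.comp Computable.fst (Computable.fst.comp Computable.snd)
    exact Computable.list_concat.comp (Computable.snd.comp Computable.snd) h1
  refine h.of_eq fun a => ?_
  induction t a with
  | zero => rfl
  | succ n ih =>
    rw [List.range_succ, List.map_append, ← ih]
    rfl

end I_AUS

open I_AUS in
theorem pr_AUS (hA : S_AUX2) : S_AUS := by
  intro g' hg
  obtain ⟨hA1, hA2⟩ := hA
  have hq : Primrec fun x : (ℕ × ℕ) × ℕ => x.1.1 := Primrec.fst.comp Primrec.fst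
  have hk : Primrec fun x : (ℕ × ℕ) × ℕ => x.1.2 := Primrec.snd.comp Primrec.fst
  have hi : Primrec fun x : (ℕ × ℕ) × ℕ => x.2 := Primrec.snd
  have h1 : Computable fun x : (ℕ × ℕ) × ℕ => pp x.1.1 x.1.2 (x.2 + 1) :=
    (ppP hq hk (Primrec.succ.comp hi)).to_comp
  have h2 : Computable fun x : (ℕ × ℕ) × ℕ => pp x.1.1 x.1.2 x.2 - rr x.1.1 x.1.2 :=
    (Primrec.nat_sub.comp (ppP hq hk hi) (rrP hq hk)).to_comp
  have h3 : Computable fun x : (ℕ × ℕ) × ℕ => auxR g' x.1.1 x.1.2 x.2 := by
    unfold auxR
    exact Computable.list_append.comp (hA1.comp (h1.pair h2)) (hg.comp (hA2.comp (h1.pair h2)))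
  have h4 : Computable fun x : (ℕ × ℕ) × ℕ =>
      N487b59b3.bitEncode (auxR g' x.1.1 x.1.2 x.2) := codeP.to_comp.comp h3
  have h5 : Computable fun x : (ℕ × ℕ) × ℕ => decide (x.2 + 1 = cbrt (x.1.2 - x.1.1)) := by
    have h : Primrec fun x : (ℕ × ℕ) × ℕ =>
        if x.2 + 1 = cbrt (x.1.2 - x.1.1) then true else false :=
      Primrec.ite (Primrec.eq.comp (Primrec.succ.comp hi)
        (cbrtP.comp (Primrec.nat_sub.comp hk hq))) (Primrec.const true) (Primrec.const false)
    refine h.to_comp.of_eq fun x => ?_
    by_cases hx : x.2 + 1 = cbrt (x.1.2 - x.1.1) <;> simp [hx]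
  have h6 : Computable₂ fun (p : ℕ × ℕ) (i : ℕ) =>
      if i + 1 = cbrt (p.2 - p.1) then ([] : List Bool)
        else N487b59b3.bitEncode (auxR g' p.1 p.2 i) := by
    refine (Computable.cond h5 (Computable.const []) h4).of_eq fun x => ?_
    by_cases hx : x.2 + 1 = cbrt (x.1.2 - x.1.1) <;> simp [hx]
  have h7 : Computable fun p : ℕ × ℕ => cbrt (p.2 - p.1) :=
    (cbrtP.comp (Primrec.nat_sub.comp Primrec.snd Primrec.fst)).to_comp
  have h8 : Computable fun p : ℕ × ℕ => List.replicate (rr p.1 p.2) true :=
    (rep.comp (rrP Primrec.fst Primrec.snd)).to_comp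
  unfold auxS
  exact Computable.list_cons.comp h8 (mapRange h7 h6)

end Pool.Agent.Work.MP_3154ac_lc

end

section

/-!
# Item LOOP : correctness of the search algorithm
-/

set_option autoImplicit false

namespace Pool.Agent.Work.MP_3154ac_lc

open N68a2faeb Finset Pool.Agent.PT

namespace I_LOOP

theorem auxP2_ne (q k : ℕ) : auxP2 q k ≠ [] := by
  unfold auxP2
  split_ifs <;> simp

theorem auxR_ne (g' : ℕ → List (List Bool)) (q k i : ℕ) : auxR g' q k i ≠ [] := by
  unfold auxR
  intro h
  exact auxP2_ne _ _ (List.append_eq_nil_iff.1 h).1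

theorem enc_ne (l : List (List Bool)) (h : l ≠ []) : N487b59b3.bitEncode l ≠ [] := by
  intro h0
  apply h
  apply N487b59b3.bitEncode_injective
  rw [h0]
  rfl

theorem sub_len (G : Code) (T : List ℕ) : (sub G T).length ≤ G.length := by
  unfold sub nbr
  rw [List.length_map]
  refine (List.length_filter_le _ _).trans ?_
  rw [List.length_range]

theorem pos_of_clique {G : Code} {k : ℕ} (hk : 0 < k) (h : HasClique G k) : 1 ≤ G.length := by
  obtain ⟨s, hs⟩ := h
  have h1 : 0 < s.card := by rw [hs.card_eq]; exact hk
  obtain ⟨v, _⟩ := Finset.card_pos.1 h1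
  have := v.2
  omega

end I_LOOP

open I_LOOP in
theorem pr_LOOP (hU : S_SUB) (hR : S_RND) (hA : S_ARI) (hO : S_OUT) : S_LOOP := by
  intro g' R' H G q k k' pad hqk hG hpad
  obtain ⟨A1, A2, A3, A4, A5, A6⟩ := hA q k hqk
  have hn : 1 ≤ G.length := pos_of_clique (by omega) hG
  set t := cbrt (k - q) with ht
  set r := rr q k with hr
  let aS : ℕ → List Bool := fun i => if i + 1 = t then [] else N487b59b3.bitEncode (auxR g' q k i)
  let L : ℕ → List ℕ := fun i => ((List.range i).map aS).foldl (rnd R' pad G r) []
  have hL0 : L 0 = [] := rfl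
  have hLs : ∀ i, L (i + 1) = rnd R' pad G r (L i) (aS i) := by
    intro i
    show ((List.range (i + 1)).map aS).foldl (rnd R' pad G r) [] = _
    rw [List.range_succ, List.map_append, List.foldl_append]
    rfl
  have hsrch : srch R' ((auxS g' q k, pad), (G, k')) = L t := by
    show ((auxS g' q k).drop 1).foldl (rnd R' pad G ((auxS g' q k).getD 0 []).length) [] = L t
    have h1 : ((auxS g' q k).getD 0 []).length = r := by
      show (List.replicate (rr q k) true).length = r
      rw [List.length_replicate]
    have h2 : (auxS g' q k).drop 1 = (List.range t).map aS := rfl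
    rw [h1, h2]
  have hnr : G.length ^ r ≤ pad.length := (Nat.pow_le_pow_right hn A5).trans hpad
  have key : ∀ i, i ≤ t → (L i).length = i * r ∧ (∀ u ∈ L i, u < G.length) ∧
      cliqB G (L i) = true ∧ (i < t → HasClique (sub G (L i)) (pp q k i)) := by
    intro i
    induction i with
    | zero =>
      intro _
      rw [hL0]
      refine ⟨by simp, by simp, by simp [cliqB], fun _ => ?_⟩
      have e : pp q k 0 = k := by simp [pp]
      rw [e, hU]
      obtain ⟨s, hs⟩ := hG
      exact ⟨s, hs, fun v _ u hu => by simp at hu⟩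
    | succ i ih =>
      intro hi
      obtain ⟨h1, h2, h3, h4⟩ := ih (by omega)
      have hit : i < t := by omega
      have hcond : aS i = [] ∨ ∀ T', T'.length = (L i).length + r →
          (HasClique (sub G T') (pp q k i - r) →
            alg R' ((Pool.Agent.PEmb.IQ9.dLL (aS i), pad), (sub G T', 0)) = true) ∧
          (¬ HasClique (sub G T') (pp q k (i + 1)) →
            alg R' ((Pool.Agent.PEmb.IQ9.dLL (aS i), pad), (sub G T', 0)) = false) := by
        by_cases hlast : i + 1 = t
        · left
          show (if i + 1 = t then [] else N487b59b3.bitEncode (auxR g' q k i)) = []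
          rw [if_pos hlast]
        · right
          intro T' _
          have hlt : i + 1 < t := by omega
          have e1 : aS i = N487b59b3.bitEncode (auxR g' q k i) := by
            show (if i + 1 = t then [] else N487b59b3.bitEncode (auxR g' q k i)) = _
            rw [if_neg hlast]
          rw [e1, Pool.Agent.PEmb.IQ9.dLL_eq]
          have hlen : (sub G T').length ^ (6 * Nat.sqrt (pp q k (i + 1) * (pp q k i - r) /
              (pp q k i - r - pp q k (i + 1)))) ≤ pad.length := by
            refine (Nat.pow_le_pow_left (sub_len G T') _).trans ?_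
            exact (Nat.pow_le_pow_right hn (A6 i hlt)).trans hpad
          exact H (sub G T') (pp q k (i + 1)) (pp q k i - r) 0 pad (A4 i hlt) hlen
      obtain ⟨k1, k2, k3, k4⟩ := hR R' pad G r (pp q k i) (pp q k (i + 1)) (L i) (aS i)
        (A3 i hit) hnr h2 h3 (h4 hit) hcond
      rw [hLs i]
      refine ⟨?_, k2, k3, ?_⟩
      · rw [k1, h1]; ring
      · intro hlt
        apply k4
        show (if i + 1 = t then [] else N487b59b3.bitEncode (auxR g' q k i)) ≠ []
        rw [if_neg (by omega)]
        exact enc_ne _ (auxR_ne g' q k i)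
  obtain ⟨h1, h2, h3, _⟩ := key t le_rfl
  rw [hsrch]
  refine hO G (L t) q ?_ h2 h3
  rw [h1]
  exact A2

end Pool.Agent.Work.MP_3154ac_lc

end

section

/-!
# One round of the search algorithm
-/

set_option autoImplicit false

namespace Pool.Agent.Work.MP_3154ac_lc

open N68a2faeb Finset Pool.Agent.PT

namespace I_RND

theorem tupl_length (n r j : ℕ) : (tupl n r j).length = r := by
  simp [tupl]

/-- The entries of a tuple are vertices. -/
theorem tupl_lt (hD : S_DIG) (G : Code) (T : List ℕ) (r p j : ℕ) (hrp : r ≤ p)
    (hc : HasClique (sub G T) p) : ∀ u ∈ tupl G.length r j, u < G.length := by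
  intro u hu
  unfold tupl at hu
  rw [List.mem_map] at hu
  obtain ⟨a, ha, rfl⟩ := hu
  rw [List.mem_range] at ha
  refine ((hD G.length ?_).2.1 a j)
  obtain ⟨s, hs⟩ := hc
  have hcard : s.card = p := hs.card_eq
  have hpos : 0 < s.card := by omega
  obtain ⟨v, _⟩ := Finset.card_pos.mp hpos
  have h1 : (sub G T).length ≤ G.length := by
    unfold sub nbr
    rw [List.length_map]
    exact le_trans (List.length_filter_le _ _) (by simp)
  have := v.2
  omega

/-- The search for the tuple. -/
theorem rnd_eq (R' : List (List Bool) × Inst → Bool) (pad : List Bool) (G : Code) (r : ℕ)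
    (T : List ℕ) (a : List Bool)
    (h : ∃ j < pad.length, tst R' pad G a (T ++ tupl G.length r j) = true) :
    ∃ j < pad.length, rnd R' pad G r T a = T ++ tupl G.length r j ∧
      tst R' pad G a (T ++ tupl G.length r j) = true := by
  obtain ⟨j, hj, hjt⟩ := h
  have hsome : ((List.range pad.length).find?
      fun j => tst R' pad G a (T ++ tupl G.length r j)).isSome = true := by
    rw [List.find?_isSome]
    exact ⟨j, List.mem_range.mpr hj, hjt⟩
  obtain ⟨j0, hj0⟩ := Option.isSome_iff_exists.mp hsome
  have h1 : (fun j => tst R' pad G a (T ++ tupl G.length r j)) j0 = true :=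
    List.find?_some (p := fun j => tst R' pad G a (T ++ tupl G.length r j)) hj0
  refine ⟨j0, List.mem_range.mp (List.mem_of_find?_eq_some hj0), ?_, h1⟩
  unfold rnd
  rw [hj0]
  rfl

end I_RND

theorem pr_RND (hS : S_STEP) (hD : S_DIG) : S_RND := by
  intro R' pad G r p p' T a hrp hN hT hcl hc ha
  obtain ⟨j, hj, -, hcl', hc'⟩ := hS G T r p pad.length hrp hN hT hcl hc
  have hlen : ∀ j, (T ++ tupl G.length r j).length = T.length + r := by
    intro j
    rw [List.length_append, I_RND.tupl_length]
  have htst : ∃ j < pad.length, tst R' pad G a (T ++ tupl G.length r j) = true := by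
    refine ⟨j, hj, ?_⟩
    unfold tst
    rw [hcl', Bool.true_and]
    rcases ha with ha | ha
    · rw [decide_eq_true ha, Bool.true_or]
    · rw [(ha _ (hlen j)).1 hc', Bool.or_true]
  obtain ⟨j0, _, hr, ht⟩ := I_RND.rnd_eq R' pad G r T a htst
  rw [hr]
  have ht' := ht
  unfold tst at ht'
  rw [Bool.and_eq_true] at ht'
  refine ⟨hlen j0, ?_, ht'.1, ?_⟩
  · intro u hu
    rw [List.mem_append] at hu
    rcases hu with hu | hu
    · exact hT u hu
    · exact I_RND.tupl_lt hD G T r p j0 hrp hc u hu
  · intro hne
    rcases ha with ha | ha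
    · exact absurd ha hne
    · by_contra hno
      have h1 := (ha _ (hlen j0)).2 hno
      have h2 := ht'.2
      rw [h1, decide_eq_false hne] at h2
      exact absurd h2 (by simp)

end Pool.Agent.Work.MP_3154ac_lc

end

section

/-!
# STEP: a good tuple exists
-/

set_option autoImplicit false

namespace Pool.Agent.Work.MP_3154ac_lc

namespace I_STEP

theorem adjB_symm (G : Code) (u v : ℕ) : adjB G u v = adjB G v u := by
  unfold adjB
  rw [Bool.or_comm (entry G u v)]
  congr 1
  exact decide_eq_decide.2 ⟨fun h => h.symm, fun h => h.symm⟩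

theorem adjB_of_adj (G : Code) (i j : Fin G.length) (h : (graph G).Adj i j) :
    adjB G i j = true := by
  obtain ⟨h1, h2⟩ := h
  have h3 : (i : ℕ) ≠ (j : ℕ) := fun he => h1 (Fin.ext he)
  unfold adjB
  simp only [Bool.and_eq_true, decide_eq_true_eq, Bool.or_eq_true]
  exact ⟨h3, h2⟩

theorem cliqB_iff (G : Code) (T : List ℕ) : cliqB G T = true ↔
    ∀ a < T.length, ∀ b < T.length, a = b ∨ adjB G (T.getD a 0) (T.getD b 0) = true := by
  unfold cliqB
  simp only [List.all_eq_true, List.mem_range, Bool.or_eq_true, decide_eq_true_eq]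

theorem mem_tupl (n r j u : ℕ) : u ∈ tupl n r j ↔ ∃ a < r, dig n a j = u := by
  unfold tupl
  simp only [List.mem_map, List.mem_range]

theorem length_tupl (n r j : ℕ) : (tupl n r j).length = r := by
  unfold tupl
  simp

theorem getD_tupl (n r j a : ℕ) (h : a < r) : (tupl n r j).getD a 0 = dig n a j := by
  unfold tupl
  rw [List.getD_eq_getElem _ _ (by simpa using h)]
  simp

theorem getD_left (T S : List ℕ) (a : ℕ) (h : a < T.length) :
    (T ++ S).getD a 0 = T.getD a 0 := by
  rw [List.getD_append _ _ _ _ h]

theorem getD_right (T S : List ℕ) (a : ℕ) (h : T.length ≤ a) :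
    (T ++ S).getD a 0 = S.getD (a - T.length) 0 := by
  rw [List.getD_append_right _ _ _ _ h]

theorem getD_mem (T : List ℕ) (a : ℕ) (h : a < T.length) : T.getD a 0 ∈ T := by
  rw [List.getD_eq_getElem _ _ h]
  exact List.getElem_mem h

end I_STEP

open I_STEP in
theorem pr_STEP (hU : S_SUB) (hD : S_DIG) : S_STEP := by
  intro G T r p N hrp hN hT hcl hcq
  rcases Nat.eq_zero_or_pos r with h0 | hr
  · subst h0
    have ht : tupl G.length 0 0 = [] := by simp [tupl]
    refine ⟨0, ?_, ?_, ?_, ?_⟩
    · rw [pow_zero] at hN
      omega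
    · rw [ht]
      intro u hu
      simp at hu
    · rw [ht, List.append_nil]
      exact hcl
    · rw [ht, List.append_nil, Nat.sub_zero]
      exact hcq
  · obtain ⟨s, hs, hsT⟩ := (hU G T p).1 hcq
    have hscard : s.card = p := hs.2
    have hne : s.Nonempty := by
      rw [← Finset.card_pos]
      omega
    obtain ⟨v0, _⟩ := hne
    have hn : 1 ≤ G.length := lt_of_le_of_lt (Nat.zero_le _) v0.2
    obtain ⟨U, hUs, hUc⟩ := Finset.exists_subset_card_eq (s := s) (n := r) (by omega)
    obtain ⟨_, hdl, hde, _, _⟩ := hD G.length hn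
    set y := U.orderEmbOfFin hUc with hy
    have hyU : ∀ i, y i ∈ U := fun i => Finset.orderEmbOfFin_mem U hUc i
    have hyinj : Function.Injective y := y.injective
    obtain ⟨j, hj, hjd⟩ := hde r (fun a => if h : a < r then ((y ⟨a, h⟩ : Fin G.length) : ℕ) else 0)
      (by
        intro a ha
        simp only [ha, dif_pos]
        exact (y ⟨a, ha⟩).2)
    have hjd' : ∀ a (ha : a < r), dig G.length a j = ((y ⟨a, ha⟩ : Fin G.length) : ℕ) := by
      intro a ha
      rw [hjd a ha]
      simp only [ha, dif_pos]
    have hTy : ∀ a (ha : a < r), ∀ u ∈ T, adjB G u (dig G.length a j) = true := by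
      intro a ha u hu
      rw [hjd' a ha]
      exact hsT _ (hUs (hyU _)) u hu
    refine ⟨j, lt_of_lt_of_le hj hN, ?_, ?_, ?_⟩
    · intro u hu
      obtain ⟨a, _, rfl⟩ := (mem_tupl _ _ _ _).1 hu
      exact hdl a j
    · rw [cliqB_iff]
      rw [cliqB_iff] at hcl
      intro a ha b hb
      rw [List.length_append, length_tupl] at ha hb
      rcases lt_or_ge a T.length with ha1 | ha1
      · rcases lt_or_ge b T.length with hb1 | hb1
        · rw [getD_left _ _ _ ha1, getD_left _ _ _ hb1]
          exact hcl a ha1 b hb1
        · right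
          have hb2 : b - T.length < r := by omega
          rw [getD_left _ _ _ ha1, getD_right _ _ _ hb1, getD_tupl _ _ _ _ hb2]
          exact hTy _ hb2 _ (getD_mem _ _ ha1)
      · have ha2 : a - T.length < r := by omega
        rcases lt_or_ge b T.length with hb1 | hb1
        · right
          rw [getD_left _ _ _ hb1, getD_right _ _ _ ha1, getD_tupl _ _ _ _ ha2, adjB_symm]
          exact hTy _ ha2 _ (getD_mem _ _ hb1)
        · have hb2 : b - T.length < r := by omega
          by_cases hab : a = b
          · exact Or.inl hab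
          · right
            rw [getD_right _ _ _ ha1, getD_right _ _ _ hb1, getD_tupl _ _ _ _ ha2,
              getD_tupl _ _ _ _ hb2, hjd' _ ha2, hjd' _ hb2]
            apply adjB_of_adj
            apply hs.1 (hUs (hyU _)) (hUs (hyU _))
            intro he
            have h1 := hyinj he
            have h2 : a - T.length = b - T.length := congrArg Fin.val h1
            omega
    · rw [hU]
      refine ⟨s \ U, ⟨?_, ?_⟩, ?_⟩
      · exact hs.1.subset (by
          intro v hv
          exact Finset.mem_coe.2 (Finset.mem_sdiff.1 (Finset.mem_coe.1 hv)).1)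
      · rw [Finset.card_sdiff_of_subset hUs, hscard, hUc]
      · intro v hv u hu
        obtain ⟨hv1, hv2⟩ := Finset.mem_sdiff.1 hv
        rcases List.mem_append.1 hu with hu | hu
        · exact hsT v hv1 u hu
        · obtain ⟨a, ha, rfl⟩ := (mem_tupl _ _ _ _).1 hu
          rw [hjd' a ha]
          apply adjB_of_adj
          apply hs.1 (hUs (hyU _)) hv1
          intro he
          apply hv2
          rw [← he]
          exact hyU _

end Pool.Agent.Work.MP_3154ac_lc

end
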