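import Pool.Agent.Work.MP_3154ac_lc.Stmts3
import Pool.Agent.Work.MP_3154ac_lc.Bd.B01
import Pool.Agent.Work.PT.Auto
import Pool.Agent.Work.MP_cfa43e_lc.Q9
import Pool.Agent.Work.MP_46935e_lc.Frozen

/-! Bundle of small proof modules (one section per former module). -/

section

/-!
# APS: the search algorithm is computed in polynomial time
-/

set_option autoImplicit false

namespace Pool.Agent.Work.MP_3154ac_lc

open N68a2faeb Finset Pool.Agent.PT N487b59b3 Pool.Agent.Work.MP_5296b6_lc

namespace I_APS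

variable {α : Type} [Enc α]

theorem ptf_tupl {n r j : α → ℕ} (hn : PTF n) (hr : PTF r) (hj : PTF j) :
    PTF (fun t => tupl (n t) (r t) (j t)) := by
  unfold tupl
  refine PTF.map' (f := fun t a => dig (n t) a (j t)) ?_ hr.range
  exact I_RPT.ptf_dig (hn.comp PTF.fst) PTF.snd (hj.comp PTF.fst)

theorem ptf_cliqB {G : α → Code} {T : α → List ℕ} (hG : PTF G) (hT : PTF T) :
    PTF (fun t => cliqB (G t) (T t)) := by
  unfold cliqB
  refine PTF.all' (f := fun t a => (List.range (T t).length).all fun b =>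
    decide (a = b) || adjB (G t) ((T t).getD a 0) ((T t).getD b 0)) ?_ hT.length.range
  refine PTF.all' (f := fun (t : α × ℕ) b =>
    decide (t.2 = b) || adjB (G t.1) ((T t.1).getD t.2 0) ((T t.1).getD b 0)) ?_
    (hT.comp PTF.fst).length.range
  have h1 : PTF fun p : (α × ℕ) × ℕ => p.1.1 := PTF.fst.comp PTF.fst
  have h2 : PTF fun p : (α × ℕ) × ℕ => p.1.2 := PTF.snd.comp PTF.fst
  have h3 : PTF fun p : (α × ℕ) × ℕ => p.2 := PTF.snd
  have hT' := hT.comp h1
  exact (h2.eq h3).or (I_RPT.ptf_adjB (hG.comp h1) (hT'.getD h2 (PTF.const 0))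
    (hT'.getD h3 (PTF.const 0)))

theorem ptf_nbr {G : α → Code} {T : α → List ℕ} (hG : PTF G) (hT : PTF T) :
    PTF (fun t => nbr (G t) (T t)) := by
  unfold nbr
  refine PTF.filter' (f := fun t v => (T t).all fun u => adjB (G t) u v) ?_ hG.length.range
  refine PTF.all' (f := fun (t : α × ℕ) u => adjB (G t.1) u t.2) ?_ (hT.comp PTF.fst)
  have h1 : PTF fun p : (α × ℕ) × ℕ => p.1.1 := PTF.fst.comp PTF.fst
  have h2 : PTF fun p : (α × ℕ) × ℕ => p.1.2 := PTF.snd.comp PTF.fst
  exact I_RPT.ptf_adjB (hG.comp h1) PTF.snd h2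

theorem ptf_sub {G : α → Code} {T : α → List ℕ} (hG : PTF G) (hT : PTF T) :
    PTF (fun t => sub (G t) (T t)) := by
  unfold sub
  have hN := ptf_nbr hG hT
  refine PTF.map' (f := fun t u => (nbr (G t) (T t)).map fun v => adjB (G t) u v) ?_ hN
  refine PTF.map' (f := fun (t : α × ℕ) v => adjB (G t.1) t.2 v) ?_ (hN.comp PTF.fst)
  have h1 : PTF fun p : (α × ℕ) × ℕ => p.1.1 := PTF.fst.comp PTF.fst
  have h2 : PTF fun p : (α × ℕ) × ℕ => p.1.2 := PTF.snd.comp PTF.fst
  exact I_RPT.ptf_adjB (hG.comp h1) h2 PTF.snd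

theorem ptf_tst (hR : S_RPT) {R' : List (List Bool) × Inst → Bool} (hR' : PTF R')
    {pad : α → List Bool} {G : α → Code} {a : α → List Bool} {T : α → List ℕ}
    (hpad : PTF pad) (hG : PTF G) (ha : PTF a) (hT : PTF T) :
    PTF (fun t => tst R' (pad t) (G t) (a t) (T t)) := by
  unfold tst
  refine (ptf_cliqB hG hT).and ((ha.eq (PTF.const [])).or ?_)
  have h1 : PTF fun t => ((Pool.Agent.PEmb.IQ9.dLL (a t), pad t), sub (G t) (T t)) :=
    ((Pool.Agent.PEmb.IQ9.ptf_dLL.comp ha).pair hpad).pair (ptf_sub hG hT)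
  exact (I_APT.ptf_algA hR hR').comp h1

theorem ptf_rnd (hR : S_RPT) {R' : List (List Bool) × Inst → Bool} (hR' : PTF R')
    {pad : α → List Bool} {G : α → Code} {r : α → ℕ} {T : α → List ℕ} {a : α → List Bool}
    (hpad : PTF pad) (hG : PTF G) (hr : PTF r) (hT : PTF T) (ha : PTF a) :
    PTF (fun t => rnd R' (pad t) (G t) (r t) (T t) (a t)) := by
  unfold rnd
  refine PTF.optionGetD (PTF.optionMap' (f := fun t j => T t ++ tupl (G t).length (r t) j) ?_
    (PTF.find' (f := fun t j => tst R' (pad t) (G t) (a t)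
      (T t ++ tupl (G t).length (r t) j)) ?_ hpad.length.range)) hT
  · exact (hT.comp PTF.fst).append
      (ptf_tupl (hG.comp PTF.fst).length (hr.comp PTF.fst) PTF.snd)
  · exact ptf_tst hR hR' (hpad.comp PTF.fst) (hG.comp PTF.fst) (ha.comp PTF.fst)
      ((hT.comp PTF.fst).append
        (ptf_tupl (hG.comp PTF.fst).length (hr.comp PTF.fst) PTF.snd))

theorem iter_le (b a j : ℕ) : (fun y => y / b)^[a] j ≤ j := by
  induction a generalizing j with
  | zero => exact le_rfl
  | succ a ih =>
    rw [Function.iterate_succ_apply]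
    exact (ih _).trans (Nat.div_le_self _ _)

theorem dig_le (b a j : ℕ) : dig b a j ≤ j :=
  (Nat.mod_le _ _).trans (iter_le b a j)

theorem sz_le (l : List ℕ) (j : ℕ) (h : ∀ u ∈ l, u ≤ j) : sz l ≤ l.length * (2 * j + 2) + 1 := by
  induction l with
  | nil => simp [sz_nil]
  | cons u l ih =>
    rw [sz_cons, sz_nat, List.length_cons, Nat.add_mul, one_mul]
    have h1 := h u List.mem_cons_self
    have h2 := ih fun v hv => h v (List.mem_cons_of_mem _ hv)
    omega

theorem sz_tupl (n r j : ℕ) : sz (tupl n r j) ≤ r * (2 * j + 2) + 1 := by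
  have h := sz_le (tupl n r j) j (fun u hu => by
    unfold tupl at hu
    obtain ⟨a, -, rfl⟩ := List.mem_map.1 hu
    exact dig_le _ _ _)
  have hl : (tupl n r j).length = r := by unfold tupl; simp
  rwa [hl] at h

theorem sz_rnd (R' : List (List Bool) × Inst → Bool) (pad : List Bool) (G : Code) (r : ℕ)
    (T : List ℕ) (a : List Bool) :
    sz (rnd R' pad G r T a) ≤ sz T + r * (2 * pad.length + 2) := by
  unfold rnd
  rcases hf : (List.range pad.length).find? fun j => tst R' pad G a (T ++ tupl G.length r j) with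
    _ | j
  · simp
  · rw [Option.map_some, Option.getD_some]
    have hj : j < pad.length := List.mem_range.1 (List.mem_of_find?_eq_some hf)
    have h1 := sz_append T (tupl G.length r j)
    have h2 := sz_tupl G.length r j
    have h3 : r * (2 * j + 2) ≤ r * (2 * pad.length + 2) := Nat.mul_le_mul_left _ (by omega)
    omega

/-- The search algorithm, as a function of the auxiliary data, the padding and the graph. -/
def srchA (R' : List (List Bool) × Inst → Bool)
    (y : (List (List Bool) × List Bool) × Code) : List ℕ :=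
  (y.1.1.drop 1).foldl (rnd R' y.1.2 y.2 (y.1.1.getD 0 []).length) []

theorem ptf_srchA (hR : S_RPT) {R' : List (List Bool) × Inst → Bool} (hR' : PTF R') :
    PTF (srchA R') := by
  have haux : PTF (fun y : (List (List Bool) × List Bool) × Code => y.1.1) :=
    PTF.fst.comp PTF.fst
  have hpad : PTF (fun y : (List (List Bool) × List Bool) × Code => y.1.2) :=
    PTF.snd.comp PTF.fst
  have hG : PTF (fun y : (List (List Bool) × List Bool) × Code => y.2) := PTF.snd
  have hr : PTF (fun y : (List (List Bool) × List Bool) × Code => (y.1.1.getD 0 []).length) :=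
    (haux.getD (PTF.const 0) (PTF.const [])).length
  unfold srchA
  refine PTF.foldl_add (step := fun p : ((List (List Bool) × List Bool) × Code) ×
      (List ℕ × List Bool) => rnd R' p.1.1.2 p.1.2 (p.1.1.1.getD 0 []).length p.2.1 p.2.2)
    (init := fun _ => []) (haux.drop (PTF.const 1)) (PTF.const [])
    (ptf_rnd hR hR' (hpad.comp PTF.fst) (hG.comp PTF.fst) (hr.comp PTF.fst)
      (PTF.fst.comp PTF.snd) (PTF.snd.comp PTF.snd))
    (fun y => sz (y.1.1.getD 0 []) * (2 * sz y.1.2 + 2)) ?_ ?_
  · exact (haux.getD (PTF.const 0) (PTF.const [])).size.mul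
      (((PB.const 2).mul hpad.size).add (PB.const 2))
  · intro y s b _
    refine (sz_rnd R' y.1.2 y.2 (y.1.1.getD 0 []).length s b).trans ?_
    refine Nat.add_le_add_left ?_ _
    exact Nat.mul_le_mul (length_le_sz _) (by have := length_le_sz y.1.2; omega)

end I_APS

open I_APS in
/-- APS: the search algorithm is computed in polynomial time. -/
theorem pr_APS : S_APS := by
  intro hR R' hR'
  have henc : EncP (List (List Bool) × Inst) :=
    EncP.prod (EncP.list (EncP.list EncP.bool))
      (EncP.prod (EncP.list (EncP.list EncP.bool)) (EncP.prod EncP.nat (EncP.list EncP.nat)))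
  have h1 : PTF R' := Pool.Agent.Work.MP_46935e_lc.ptf_of_tm2
    (d := fun l => l.headD false) hR' henc (PTF.id.headD (PTF.const false)) (fun _ => rfl)
  have h2 : PTF (fun x : List Bool => srchA R' (I_APT.dec x)) :=
    (ptf_srchA hR h1).comp I_APT.ptf_dec
  unfold IsPolyTime IsPolyTimeWithEncoding
  refine tm2_of (g := fun x => bitEncode (srchA R' (I_APT.dec x)))
    ((EncP.list EncP.nat).apply h2) ?_
  intro x
  show bitEncode (srchA R' (I_APT.dec (bitEncode x))) = bitEncode (srch R' x)
  rw [I_APT.dec_eq]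
  rfl

end Pool.Agent.Work.MP_3154ac_lc

end

section

/-!
# OUT: the output is a clique list
-/

set_option autoImplicit false

namespace Pool.Agent.Work.MP_3154ac_lc

open N68a2faeb

namespace I_OUT

theorem adj_of_cliqB {G : Code} {T : List ℕ} (h : cliqB G T = true) (a b : ℕ)
    (ha : a < T.length) (hb : b < T.length) (hab : a ≠ b) : adjB G T[a] T[b] = true := by
  unfold cliqB at h
  rw [List.all_eq_true] at h
  have h1 := h a (List.mem_range.mpr ha)
  rw [List.all_eq_true] at h1
  have h2 := h1 b (List.mem_range.mpr hb)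
  rw [Bool.or_eq_true] at h2
  rcases h2 with h2 | h2
  · exact absurd (of_decide_eq_true h2) hab
  · rw [List.getD_eq_getElem T 0 ha, List.getD_eq_getElem T 0 hb] at h2
    exact h2

end I_OUT

theorem pr_OUT : S_OUT := by
  intro G T m hm hT hc
  refine ⟨T.length, fun a => ⟨T[a], hT _ (List.getElem_mem _)⟩, hm, ?_, ?_⟩
  · intro a b hab
    have h1 := I_OUT.adj_of_cliqB hc a b a.isLt b.isLt (fun h => hab (Fin.ext h))
    unfold adjB at h1
    rw [Bool.and_eq_true, Bool.or_eq_true] at h1
    obtain ⟨h2, h3⟩ := h1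
    refine ⟨?_, h3⟩
    intro h4
    have h5 := congrArg Fin.val h4
    exact of_decide_eq_true h2 h5
  · apply List.ext_getElem
    · rw [List.length_ofFn]
    · intro i h1 h2
      rw [List.getElem_ofFn]
      rfl

end Pool.Agent.Work.MP_3154ac_lc

end
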