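import Pool.Agent.Work.MP_3154ac_lc.Stmts
import Pool.Agent.Work.MP_3154ac_lc.Bd.B01
import Pool.Agent.Work.MP_3154ac_lc.I_MM
import Pool.Agent.Work.MP_3154ac_lc.Stmts2

/-! Bundle of small proof modules (one section per former module). -/

section

/-!
# ABS: abstract soundness
-/

set_option autoImplicit false

namespace Pool.Agent.Work.MP_3154ac_lc

open Finset

namespace I_ABS

theorem sum_blocks (f : ℕ → ℕ) (n R : ℕ) :
    ∑ p ∈ range (R * n), f p = ∑ r ∈ range R, ∑ α ∈ range n, f (r * n + α) := by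
  induction R with
  | zero => simp
  | succ R ih =>
    rw [Finset.sum_range_succ, ← ih, Nat.succ_mul, Finset.sum_range_add]

open Classical in
theorem split (P : ℕ → ℕ → Prop) (n R L : ℕ) (hL : L = R * n) :
    (((range L) ×ˢ (range L)).filter fun p : ℕ × ℕ => P p.1 p.2).card =
      ∑ r ∈ range R, ∑ i ∈ range L, ((range n).filter fun α => P (r * n + α) i).card := by
  rw [Finset.card_filter, Finset.sum_product_right]
  conv_rhs => rw [Finset.sum_comm]
  apply Finset.sum_congr rfl
  intro i _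
  rw [hL, sum_blocks]
  apply Finset.sum_congr rfl
  intro r _
  rw [Finset.card_filter]

end I_ABS

open Classical in
theorem pr_ABS (hB : S_BAD) (hG : S_GLO) : S_ABS := by
  intro G s K L N q c0 hs hK hN hc0 hL hlen hcl hH x z hx
  set R := 2 * K ^ (s + 1) * s ^ 2 with hR
  have hL' : L = R * K ^ s := by rw [hL, mul_comm]
  rw [I_ABS.split (fun p i => cons G s K L.factorial N x z p i) (K ^ s) R L hL']
  -- one class
  have hone : ∀ r ∈ range R, 2 * c0 * ∑ i ∈ range L, ((range (K ^ s)).filter fun α =>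
      cons G s K L.factorial N x z (r * K ^ s + α) i).card ≤ (2 * c0 - 1) * (K ^ s * L) := by
    intro r _
    have hbad := hB s K L N G.length x r hK hN hlen hx
    have hi : ∀ i ∈ range L, 2 * c0 * ((range (K ^ s)).filter fun α =>
        cons G s K L.factorial N x z (r * K ^ s + α) i).card ≤
        2 * (c0 - 1) * K ^ s + (if bad s K L.factorial N x r i then 2 * K ^ s else 0) := by
      intro i _
      by_cases hb : bad s K L.factorial N x r i
      · rw [if_pos hb]
        have h1 : ((range (K ^ s)).filter fun α =>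
            cons G s K L.factorial N x z (r * K ^ s + α) i).card ≤ K ^ s := by
          have := Finset.card_filter_le (range (K ^ s)) (fun α =>
            cons G s K L.factorial N x z (r * K ^ s + α) i)
          rwa [Finset.card_range] at this
        obtain ⟨c, rfl⟩ : ∃ c, c0 = c + 1 := ⟨c0 - 1, by omega⟩
        rw [Nat.add_sub_cancel]
        calc 2 * (c + 1) * ((range (K ^ s)).filter fun α =>
            cons G s K L.factorial N x z (r * K ^ s + α) i).card ≤ 2 * (c + 1) * K ^ s :=
              Nat.mul_le_mul_left _ h1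
          _ = 2 * c * K ^ s + 2 * K ^ s := by ring
      · rw [if_neg hb, add_zero]
        have h1 := hG G s K L.factorial N q c0 x z r i hs hK hcl hH hx hb
        calc 2 * c0 * ((range (K ^ s)).filter fun α =>
            cons G s K L.factorial N x z (r * K ^ s + α) i).card =
            2 * (c0 * ((range (K ^ s)).filter fun α =>
            cons G s K L.factorial N x z (r * K ^ s + α) i).card) := by ring
          _ ≤ 2 * ((c0 - 1) * K ^ s) := Nat.mul_le_mul_left _ h1
          _ = 2 * (c0 - 1) * K ^ s := by ring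
    rw [Finset.mul_sum]
    refine (Finset.sum_le_sum hi).trans ?_
    rw [Finset.sum_add_distrib, Finset.sum_const, Finset.card_range, ← Finset.sum_filter,
      Finset.sum_const, smul_eq_mul, smul_eq_mul]
    have h2 : 2 * ((range L).filter fun i => bad s K L.factorial N x r i).card ≤ L := by
      calc 2 * ((range L).filter fun i => bad s K L.factorial N x r i).card ≤
            2 * ((K ^ s * s) ^ 2 * K) := Nat.mul_le_mul_left _ hbad
        _ = L := by
            rw [hL, hR]
            ring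
    obtain ⟨c, rfl⟩ : ∃ c, c0 = c + 1 := ⟨c0 - 1, by omega⟩
    have e1 : 2 * (c + 1) - 1 = 2 * c + 1 := by omega
    rw [Nat.add_sub_cancel, e1]
    calc L * (2 * c * K ^ s) +
          ((range L).filter fun i => bad s K L.factorial N x r i).card * (2 * K ^ s)
        = L * (2 * c * K ^ s) +
          (2 * ((range L).filter fun i => bad s K L.factorial N x r i).card) * K ^ s := by ring
      _ ≤ L * (2 * c * K ^ s) + L * K ^ s :=
          Nat.add_le_add_left (Nat.mul_le_mul_right _ h2) _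
      _ = (2 * c + 1) * (K ^ s * L) := by ring
  rw [Finset.mul_sum]
  refine (Finset.sum_le_sum hone).trans ?_
  rw [Finset.sum_const, Finset.card_range, smul_eq_mul]
  apply le_of_eq
  have e2 : L ^ 2 = (R * K ^ s) * L := by rw [← hL', sq]
  rw [e2]
  ring

end Pool.Agent.Work.MP_3154ac_lc

end

section

/-!
# Item AUX : computability of the auxiliary data
-/

set_option autoImplicit false

namespace Pool.Agent.Work.MP_3154ac_lc

namespace I_AUX

theorem pw : Primrec₂ ((· ^ ·) : ℕ → ℕ → ℕ) := Primrec₂.unpaired'.1 Nat.Primrec.pow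

theorem fac : Primrec Nat.factorial := by
  have h : Primrec₂ fun (n ih : ℕ) => (n + 1) * ih :=
    Primrec.nat_mul.comp (Primrec.succ.comp Primrec.fst) Primrec.snd
  refine (Primrec.nat_rec₁ 1 h).of_eq fun n => ?_
  induction n with
  | zero => rfl
  | succ n ih => rw [Nat.factorial_succ, ← ih]

theorem rep : Primrec fun n : ℕ => List.replicate n true := by
  have h : Primrec₂ fun (_ : ℕ) (l : List Bool) => true :: l :=
    Primrec.list_cons.comp (Primrec.const true) Primrec.snd
  refine (Primrec.nat_rec₁ [] h).of_eq fun n => ?_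
  induction n with
  | zero => rfl
  | succ n ih => rw [List.replicate_succ, ← ih]

variable {α : Type} [Primcodable α]

theorem cnd (a b : ℕ) {q : α → ℕ} (hq : Primrec q) :
    PrimrecPred fun x => a ≤ (a - b) * (q x - 1) :=
  Primrec.nat_le.comp (Primrec.const a)
    (Primrec.nat_mul.comp (Primrec.const (a - b)) (Primrec.nat_sub.comp hq (Primrec.const 1)))

theorem sSp (a b : ℕ) {q : α → ℕ} (hq : Primrec q) : Primrec fun x => sS a b (q x) := by
  unfold sS
  refine Primrec.ite (cnd a b hq) ?_ (Primrec.const 2)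
  refine Primrec.succ.comp (Primrec.nat_sqrt.comp ?_)
  exact Primrec.nat_div.comp (Primrec.nat_mul.comp (Primrec.const (2 * (a - b)))
    (Primrec.nat_sub.comp hq (Primrec.const 1))) (Primrec.const a)

theorem kKp (a b : ℕ) {q k : α → ℕ} (hq : Primrec q) (hk : Primrec k) :
    Primrec fun x => kK a b (q x) (k x) := by
  unfold kK
  exact Primrec.ite (cnd a b hq) hk hq

theorem Lp {s K : α → ℕ} (hs : Primrec s) (hK : Primrec K) :
    Primrec fun x => K x ^ s x * (2 * K x ^ (s x + 1) * s x ^ 2) := by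
  refine Primrec.nat_mul.comp (pw.comp hK hs) ?_
  refine Primrec.nat_mul.comp ?_ (pw.comp hs (Primrec.const 2))
  exact Primrec.nat_mul.comp (Primrec.const 2) (pw.comp hK (Primrec.succ.comp hs))

theorem auxPp (a b : ℕ) {q k : α → ℕ} (hq : Primrec q) (hk : Primrec k) :
    Primrec fun x => auxP a b (q x) (k x) := by
  have hs := sSp a b hq
  have hK := kKp a b hq hk
  have hL := Lp hs hK
  have hF := fac.comp hL
  have hA : Primrec fun x => (2 * ((kK a b (q x) (k x) ^ sS a b (q x) *
      (2 * kK a b (q x) (k x) ^ (sS a b (q x) + 1) * sS a b (q x) ^ 2)) *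
      (kK a b (q x) (k x) ^ sS a b (q x) *
      (2 * kK a b (q x) (k x) ^ (sS a b (q x) + 1) * sS a b (q x) ^ 2)).factorial + 1)) ^
        kK a b (q x) (k x) := by
    refine pw.comp ?_ hK
    refine Primrec.nat_mul.comp (Primrec.const 2) (Primrec.succ.comp ?_)
    exact Primrec.nat_mul.comp hL hF
  have hnil : Primrec fun _ : α => ([] : List (List Bool)) := Primrec.const []
  unfold auxP
  refine Primrec.ite (Primrec.nat_le.comp hq (Primrec.const 1)) ?_ ?_
  · exact Primrec.list_cons.comp (Primrec.const []) (Primrec.list_cons.comp (rep.comp hq) hnil)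
  · exact Primrec.list_cons.comp (Primrec.const [true])
      (Primrec.list_cons.comp (rep.comp hs) (Primrec.list_cons.comp (rep.comp hK)
        (Primrec.list_cons.comp (rep.comp hL) (Primrec.list_cons.comp (rep.comp hF)
          (Primrec.list_cons.comp (rep.comp hA) hnil)))))

end I_AUX

open I_AUX in
theorem pr_AUX : S_AUX := by
  intro a b
  constructor
  · exact (auxPp a b Primrec.fst Primrec.snd).to_comp
  · have h : Primrec fun p : ℕ × ℕ => newK a b p.1 p.2 := by
      unfold newK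
      exact Primrec.nat_mul.comp (Primrec.const 2)
        (Lp (sSp a b Primrec.fst) (kKp a b Primrec.fst Primrec.snd))
    exact h.to_comp

end Pool.Agent.Work.MP_3154ac_lc

end

section

set_option autoImplicit false

namespace Pool.Agent.Work.MP_3154ac_lc

open Finset

open Classical in
theorem pr_BAD (hH : S_HASH) : S_BAD := by
  intro s K L N n x r hK hN hn hx
  let P : Finset ((ℕ × ℕ) × (ℕ × ℕ)) :=
    (range (K ^ s) ×ˢ range s) ×ˢ (range (K ^ s) ×ˢ range s)
  let F : ((ℕ × ℕ) × (ℕ × ℕ)) → Finset ℕ := fun p =>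
    if x (r * K ^ s + p.1.1) p.1.2 ≠ x (r * K ^ s + p.2.1) p.2.2 then
      (range L).filter fun i => x (r * K ^ s + p.1.1) p.1.2 % mi L.factorial N i =
        x (r * K ^ s + p.2.1) p.2.2 % mi L.factorial N i
    else ∅
  have hsub : ((range L).filter fun i => bad s K L.factorial N x r i) ⊆ P.biUnion F := by
    intro i hi
    obtain ⟨hi1, α, hα, a, ha, α', hα', a', ha', hne, heq⟩ := mem_filter.1 hi
    rw [mem_biUnion]
    refine ⟨((α, a), (α', a')), ?_, ?_⟩
    · simp only [P, mem_product, mem_range]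
      exact ⟨⟨hα, ha⟩, hα', ha'⟩
    · simp only [F]
      rw [if_pos hne, mem_filter]
      exact ⟨hi1, heq⟩
  have hcard : ∀ p ∈ P, (F p).card ≤ K := by
    intro p _
    simp only [F]
    split_ifs with h
    · exact (hH L N n K hN hK hn _ _ (hx _ _) (hx _ _) h).le
    · simp
  calc ((range L).filter fun i => bad s K L.factorial N x r i).card
      ≤ (P.biUnion F).card := card_le_card hsub
    _ ≤ P.card * K := card_biUnion_le_card_mul P F K hcard
    _ = (K ^ s * s) ^ 2 * K := by
        simp only [P, card_product, card_range]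
        ring

end Pool.Agent.Work.MP_3154ac_lc

end

section

/-!
# Item BON: an upper bound for falling factorials
-/

set_option autoImplicit false

namespace Pool.Agent.Work.MP_3154ac_lc

namespace I_BON

theorem sum_range_real (s : ℕ) : ∑ i ∈ Finset.range s, (i : ℝ) = (s * (s - 1) : ℝ) / 2 := by
  induction s with
  | zero => simp
  | succ n ih =>
    rw [Finset.sum_range_succ, ih]
    push_cast
    ring

theorem exp_neg_le (y : ℝ) (hy : 0 ≤ y) : Real.exp (-y) ≤ 1 - y + y ^ 2 / 2 := by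
  have h1 := Real.quadratic_le_exp_of_nonneg hy
  have h2 : 0 < 1 - y + y ^ 2 / 2 := by nlinarith [sq_nonneg (y - 1)]
  rw [Real.exp_neg]
  have h3 : 0 < 1 + y + y ^ 2 / 2 := by positivity
  calc (Real.exp y)⁻¹ ≤ (1 + y + y ^ 2 / 2)⁻¹ := inv_anti₀ h3 h1
    _ ≤ 1 - y + y ^ 2 / 2 := by
      rw [inv_le_iff_one_le_mul₀ h3]
      nlinarith [sq_nonneg (y ^ 2)]

theorem factor_le (m i : ℕ) (hm : 1 ≤ m) : ((m - i : ℕ) : ℝ) ≤ m * Real.exp (-(i / m : ℝ)) := by
  have hm0 : (0 : ℝ) < m := by exact_mod_cast hm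
  rcases le_total i m with h | h
  · rw [Nat.cast_sub h]
    have h1 := Real.one_sub_le_exp_neg ((i : ℝ) / m)
    calc (m : ℝ) - i = m * (1 - i / m) := by field_simp
      _ ≤ _ := mul_le_mul_of_nonneg_left h1 hm0.le
  · rw [Nat.sub_eq_zero_of_le h]
    push_cast
    positivity

end I_BON

open I_BON in
theorem pr_BON : S_BON := by
  intro m s hm
  have hm0 : (0 : ℝ) < m := by exact_mod_cast hm
  set y : ℝ := (s * (s - 1) : ℝ) / (2 * m) with hy
  have hy0 : 0 ≤ y := by
    rw [hy]
    apply div_nonneg _ (by positivity)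
    rcases Nat.eq_zero_or_pos s with h | h
    · simp [h]
    · have : (1 : ℝ) ≤ s := by exact_mod_cast h
      exact mul_nonneg (by linarith) (by linarith)
  rw [Nat.descFactorial_eq_prod_range]
  push_cast
  calc ∏ i ∈ Finset.range s, ((m - i : ℕ) : ℝ)
      ≤ ∏ i ∈ Finset.range s, ((m : ℝ) * Real.exp (-(i / m : ℝ))) :=
        Finset.prod_le_prod (fun i _ => by positivity) (fun i _ => factor_le m i hm)
    _ = (m : ℝ) ^ s * Real.exp (-y) := by
        rw [Finset.prod_mul_distrib, Finset.prod_const, Finset.card_range, ← Real.exp_sum]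
        congr 2
        rw [Finset.sum_neg_distrib, ← Finset.sum_div, sum_range_real, hy]
        field_simp
    _ ≤ (m : ℝ) ^ s * (1 - y + y ^ 2 / 2) :=
        mul_le_mul_of_nonneg_left (exp_neg_le y hy0) (by positivity)

end Pool.Agent.Work.MP_3154ac_lc

end

section

/-!
# CNT: a random tuple contains a violated pair with constant probability
-/

set_option autoImplicit false

namespace Pool.Agent.Work.MP_3154ac_lc

open Finset

namespace I_CNT

/-- the real inequality: `e` is `η`, `T = 2 η m`, `r = s - 1` -/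
theorem real_ineq (e m r : ℝ) (he : 0 < e) (hm : 0 < m) (hem : 1 ≤ e * m) (hr : 1 ≤ r)
    (h1 : r ^ 2 ≤ 2 * e * m) (h2 : 2 * e * m < (r + 1) ^ 2) :
    (1 / 16) * e ^ 2 ≤ (r * (r + 1) / (2 * m)) * (e - (r * (r + 1) / (2 * m)) / 2) := by
  have h3 : r ≤ 0.71 * (2 * e * m) := by
    by_contra hcon
    push Not at hcon
    nlinarith
  have hy1 : r * (r + 1) / (2 * m) ≤ 1.71 * e := by
    rw [div_le_iff₀ (by positivity)]
    nlinarith
  have hy2 : e / 2 ≤ r * (r + 1) / (2 * m) := by
    rw [le_div_iff₀ (by positivity)]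
    nlinarith
  have h4 : 0.145 * e ≤ e - (r * (r + 1) / (2 * m)) / 2 := by linarith
  calc (1 / 16) * e ^ 2 ≤ (e / 2) * (0.145 * e) := by nlinarith
    _ ≤ _ := mul_le_mul hy2 h4 (by positivity) (le_trans (by positivity) hy2)

theorem case1 (hT : S_TUR) (hN : S_NV) (hB : S_BON) (a b q k : ℕ) (hb : 0 < b) (hba : b < a)
    (hq : 2 ≤ q) (hk : a * q ≤ b * k) (hc : a ≤ (a - b) * (q - 1)) (H : SimpleGraph (Fin k))
    [DecidableRel H.Adj] (h0 : cq H q = 0) :
    16 * a ^ 2 * nv H (Nat.sqrt (2 * (a - b) * (q - 1) / a) + 1) ≤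
      (16 * a ^ 2 - 1) * k ^ (Nat.sqrt (2 * (a - b) * (q - 1) / a) + 1) := by
  obtain ⟨m, rfl⟩ : ∃ m, q = m + 1 := ⟨q - 1, by omega⟩
  obtain ⟨d, rfl⟩ : ∃ d, a = b + d := ⟨a - b, by omega⟩
  have hm : 1 ≤ m := by omega
  have hd : 1 ≤ d := by omega
  simp only [Nat.add_sub_cancel, Nat.add_sub_cancel_left] at hc ⊢
  obtain ⟨r, hr⟩ : ∃ r, r = Nat.sqrt (2 * d * m / (b + d)) := ⟨_, rfl⟩
  rw [← hr]
  have ha : 0 < b + d := by omega
  have hk0 : 0 < k := by
    rcases Nat.eq_zero_or_pos k with h | h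
    · subst h
      have : 0 < (b + d) * (m + 1) := Nat.mul_pos ha (by omega)
      omega
    · exact h
  have r1 : r * r * (b + d) ≤ 2 * d * m := by
    rw [← Nat.le_div_iff_mul_le ha, hr]
    exact Nat.sqrt_le _
  have r2 : 2 * d * m < (r + 1) * (r + 1) * (b + d) := by
    rw [← Nat.div_lt_iff_lt_mul ha, hr]
    exact Nat.lt_succ_sqrt _
  have r3 : 1 ≤ r := by
    rw [hr, Nat.le_sqrt, Nat.le_div_iff_mul_le ha]
    nlinarith
  -- counting
  have e1 := hT (Fin k) H m hm h0 (r + 1)
  have e2 := hN (Fin k) H (r + 1) (by omega)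
  have e3 := hB m (r + 1) hm
  rw [Fintype.card_fin] at e1 e2
  simp only [Nat.add_sub_cancel] at e2
  -- pass to the reals
  have hmR : (0 : ℝ) < m := by exact_mod_cast hm
  have hkR : (0 : ℝ) < k := by exact_mod_cast hk0
  have haR : (0 : ℝ) < (b : ℝ) + d := by exact_mod_cast ha
  have hdR : (1 : ℝ) ≤ d := by exact_mod_cast hd
  have hrR : (1 : ℝ) ≤ r := by exact_mod_cast r3
  obtain ⟨e, he⟩ : ∃ e : ℝ, e = d / ((b : ℝ) + d) := ⟨_, rfl⟩
  have hea : e * ((b : ℝ) + d) = d := by rw [he]; field_simp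
  have he0 : 0 < e := by rw [he]; positivity
  have hem : 1 ≤ e * m := by
    have h : ((b : ℝ) + d) ≤ d * m := by exact_mod_cast hc
    rw [he, div_mul_eq_mul_div, le_div_iff₀ haR, one_mul]
    exact h
  have h1 : (r : ℝ) ^ 2 ≤ 2 * e * m := by
    have h : (r : ℝ) * r * ((b : ℝ) + d) ≤ 2 * d * m := by exact_mod_cast r1
    have h' : (r : ℝ) ^ 2 * ((b : ℝ) + d) ≤ (2 * e * m) * ((b : ℝ) + d) := by
      rw [show (2 * e * m) * ((b : ℝ) + d) = 2 * (e * ((b : ℝ) + d)) * m by ring, hea]
      rw [sq]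
      exact h
    exact le_of_mul_le_mul_right h' haR
  have h2 : 2 * e * m < ((r : ℝ) + 1) ^ 2 := by
    have h : 2 * (d : ℝ) * m < ((r : ℝ) + 1) * (r + 1) * ((b : ℝ) + d) := by exact_mod_cast r2
    have h' : (2 * e * m) * ((b : ℝ) + d) < ((r : ℝ) + 1) ^ 2 * ((b : ℝ) + d) := by
      rw [show (2 * e * m) * ((b : ℝ) + d) = 2 * (e * ((b : ℝ) + d)) * m by ring, hea]
      rw [sq]
      exact h
    exact lt_of_mul_lt_mul_right h' haR.le
  have key := real_ineq e m r he0 hmR hem hrR h1 h2
  obtain ⟨y, hy⟩ : ∃ y : ℝ, y = (r : ℝ) * (r + 1) / (2 * m) := ⟨_, rfl⟩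
  rw [← hy] at key
  have hy0 : 0 < y := by rw [hy]; positivity
  have hym : 2 * (y * m) = r * (r + 1) := by rw [hy]; field_simp
  have f1 : (cq H (r + 1) : ℝ) ≤ (k : ℝ) ^ (r + 1) * (1 - y + y ^ 2 / 2) := by
    have g1 : (cq H (r + 1) : ℝ) * (m : ℝ) ^ (r + 1) ≤
        (k : ℝ) ^ (r + 1) * ((m.descFactorial (r + 1) : ℕ) : ℝ) := by exact_mod_cast e1
    have g2 : ((m.descFactorial (r + 1) : ℕ) : ℝ) ≤ (m : ℝ) ^ (r + 1) * (1 - y + y ^ 2 / 2) := by
      refine e3.trans_eq ?_
      rw [hy]
      push_cast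
      ring
    have g3 : (cq H (r + 1) : ℝ) * (m : ℝ) ^ (r + 1) ≤
        ((k : ℝ) ^ (r + 1) * (1 - y + y ^ 2 / 2)) * (m : ℝ) ^ (r + 1) := by
      calc _ ≤ _ := g1
        _ ≤ (k : ℝ) ^ (r + 1) * ((m : ℝ) ^ (r + 1) * (1 - y + y ^ 2 / 2)) :=
          mul_le_mul_of_nonneg_left g2 (by positivity)
        _ = _ := by ring
    exact le_of_mul_le_mul_right g3 (by positivity)
  have f2 : (nv H (r + 1) : ℝ) ≤ cq H (r + 1) + y * m * (k : ℝ) ^ r := by
    have g1 : 2 * (nv H (r + 1) : ℝ) ≤ 2 * cq H (r + 1) + (r + 1) * r * (k : ℝ) ^ r := by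
      exact_mod_cast e2
    have g2 : ((r : ℝ) + 1) * r * (k : ℝ) ^ r = 2 * (y * m) * (k : ℝ) ^ r := by
      rw [hym]
      ring
    rw [g2] at g1
    linarith
  have f3 : y * m * (k : ℝ) ^ r ≤ (k : ℝ) ^ (r + 1) * (y * (1 - e)) := by
    have g1 : (m : ℝ) ≤ k * (1 - e) := by
      have g2 : ((b : ℝ) + d) * ((m : ℝ) + 1) ≤ b * k := by exact_mod_cast hk
      have g3 : (m : ℝ) * ((b : ℝ) + d) ≤ (k * (1 - e)) * ((b : ℝ) + d) := by
        rw [show (k * (1 - e)) * ((b : ℝ) + d) = k * (((b : ℝ) + d) - e * ((b : ℝ) + d)) by ring,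
          hea]
        nlinarith
      exact le_of_mul_le_mul_right g3 haR
    calc y * m * (k : ℝ) ^ r ≤ y * (k * (1 - e)) * (k : ℝ) ^ r := by gcongr
      _ = _ := by ring
  have f4 : (nv H (r + 1) : ℝ) ≤ (k : ℝ) ^ (r + 1) * (1 - (1 / 16) * e ^ 2) := by
    calc (nv H (r + 1) : ℝ) ≤ (k : ℝ) ^ (r + 1) * (1 - y + y ^ 2 / 2) +
          (k : ℝ) ^ (r + 1) * (y * (1 - e)) := by linarith
      _ = (k : ℝ) ^ (r + 1) * (1 - y * (e - y / 2)) := by ring
      _ ≤ _ := by gcongr
  have f5 : 1 ≤ e ^ 2 * ((b : ℝ) + d) ^ 2 := by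
    rw [← mul_pow, hea]
    exact one_le_pow₀ hdR
  have f6 : 16 * ((b : ℝ) + d) ^ 2 * (nv H (r + 1) : ℝ) ≤
      (16 * ((b : ℝ) + d) ^ 2 - 1) * (k : ℝ) ^ (r + 1) := by
    have g1 : 0 < (k : ℝ) ^ (r + 1) := by positivity
    calc 16 * ((b : ℝ) + d) ^ 2 * (nv H (r + 1) : ℝ) ≤
        16 * ((b : ℝ) + d) ^ 2 * ((k : ℝ) ^ (r + 1) * (1 - (1 / 16) * e ^ 2)) := by gcongr
      _ = (16 * ((b : ℝ) + d) ^ 2 - e ^ 2 * ((b : ℝ) + d) ^ 2) * (k : ℝ) ^ (r + 1) := by ring
      _ ≤ _ := by
        apply mul_le_mul_of_nonneg_right _ g1.le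
        linarith
  have f7 : 1 ≤ 16 * (b + d) ^ 2 := by
    have : 0 < (b + d) ^ 2 := Nat.pow_pos ha
    omega
  have f8 : (((16 * (b + d) ^ 2 - 1 : ℕ)) : ℝ) = 16 * ((b : ℝ) + d) ^ 2 - 1 := by
    rw [Nat.cast_sub f7]
    push_cast
    ring
  have f9 : ((16 * (b + d) ^ 2 * nv H (r + 1) : ℕ) : ℝ) ≤
      (((16 * (b + d) ^ 2 - 1) * k ^ (r + 1) : ℕ) : ℝ) := by
    rw [Nat.cast_mul (16 * (b + d) ^ 2 - 1), f8]
    push_cast
    exact f6
  exact_mod_cast f9

theorem case2 (a q : ℕ) (hq : 2 ≤ q) (hqa : q ≤ a) (H : SimpleGraph (Fin q))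
    [DecidableRel H.Adj] (h0 : cq H q = 0) :
    16 * a ^ 2 * nv H 2 ≤ (16 * a ^ 2 - 1) * q ^ 2 := by
  obtain ⟨u, v, huv, hA⟩ : ∃ u v : Fin q, u ≠ v ∧ ¬ H.Adj u v := by
    by_contra hcon
    push Not at hcon
    have : (id : Fin q → Fin q) ∈ (univ.filter fun f : Fin q → Fin q =>
        ∀ a b, a ≠ b → H.Adj (f a) (f b)) := by
      rw [mem_filter]
      exact ⟨mem_univ _, fun a b h => hcon a b h⟩
    rw [cq, card_eq_zero] at h0
    rw [h0] at this
    exact absurd this (notMem_empty _)
  have h1 : nv H 2 < q ^ 2 := by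
    have h2 : nv H 2 < (univ : Finset (Fin 2 → Fin q)).card := by
      refine card_lt_card (filter_ssubset.2 ⟨![u, v], mem_univ _, ?_⟩)
      intro h
      have := h 0 1
      simp only [Matrix.cons_val_zero, Matrix.cons_val_one] at this
      exact this.elim huv hA
    simpa using h2
  have h3 : q ^ 2 ≤ a ^ 2 := Nat.pow_le_pow_left hqa 2
  have h4 : 0 < q ^ 2 := Nat.pow_pos (by omega)
  have h5 : 16 * a ^ 2 * nv H 2 ≤ 16 * a ^ 2 * (q ^ 2 - 1) := Nat.mul_le_mul_left _ (by omega)
  have h6 : 16 * a ^ 2 * (q ^ 2 - 1) = 16 * a ^ 2 * q ^ 2 - 16 * a ^ 2 := by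
    rw [Nat.mul_sub, Nat.mul_one]
  have h7 : (16 * a ^ 2 - 1) * q ^ 2 = 16 * a ^ 2 * q ^ 2 - q ^ 2 := by
    rw [Nat.sub_mul, Nat.one_mul]
  omega

end I_CNT

open I_CNT in
theorem pr_CNT (hT : S_TUR) (hN : S_NV) (hB : S_BON) : S_CNT := by
  intro a b hb hba
  have ha : 0 < a := by omega
  refine ⟨16 * a ^ 2, by positivity, fun q k hq hk => ?_⟩
  by_cases hc : a ≤ (a - b) * (q - 1)
  · have hK : kK a b q k = k := if_pos hc
    have hs : sS a b q = Nat.sqrt (2 * (a - b) * (q - 1) / a) + 1 := if_pos hc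
    rw [hK, hs]
    intro H _ h0
    exact case1 hT hN hB a b q k hb hba hq hk hc H h0
  · have hK : kK a b q k = q := if_neg hc
    have hs : sS a b q = 2 := if_neg hc
    rw [hK, hs]
    intro H _ h0
    refine case2 a q hq ?_ H h0
    push Not at hc
    have h1 : 1 * (q - 1) ≤ (a - b) * (q - 1) := Nat.mul_le_mul_right _ (by omega)
    omega

end Pool.Agent.Work.MP_3154ac_lc

end

section

/-!
# Item CPL: completeness of the reduction
-/

set_option autoImplicit false

namespace Pool.Agent.Work.MP_3154ac_lc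

open Finset

namespace I_CPL

theorem card_lt (m : ℕ) :
    ((univ : Finset (Fin m × Fin m)).filter fun p => p.1 < p.2).card = m.choose 2 := by
  have h1 : ((univ : Finset (Fin m × Fin m)).filter fun p => p.1 < p.2).card =
      ∑ b : Fin m, ((univ : Finset (Fin m)).filter fun a => a < b).card := by
    simp only [Finset.card_filter]
    rw [Fintype.sum_prod_type, Finset.sum_comm]
  have h2 : ∀ b : Fin m, ((univ : Finset (Fin m)).filter fun a => a < b).card = (b : ℕ) := by
    intro b
    have : ((univ : Finset (Fin m)).filter fun a => a < b) = Finset.Iio b := by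
      ext a
      simp
    rw [this, Fin.card_Iio]
  rw [h1, Finset.sum_congr rfl fun b _ => h2 b, Fin.sum_univ_eq_sum_range (fun i => i) m,
    Finset.sum_range_id, Nat.choose_two_right]

theorem entry_map (m : ℕ) (f : ℕ → ℕ → Bool) (u v : ℕ) (hu : u < m) (hv : v < m) :
    entry ((List.range m).map fun u => (List.range m).map fun v => f u v) u v = f u v := by
  unfold entry
  simp [List.getD_eq_getElem?_getD, hu, hv]

theorem exists_y (G : Code) (K : ℕ) (hn : 1 ≤ G.length) (h : HasClique G K) :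
    ∃ y : ℕ → ℕ, (∀ a, y a < G.length) ∧
      ∀ a < K, ∀ b < K, a ≠ b → adjB G (y a) (y b) = true := by
  obtain ⟨S, hS⟩ := h
  have hcl := hS.1
  have hcard : S.card = K := hS.2
  let e := S.orderEmbOfFin hcard
  refine ⟨fun a => if h : a < K then ((e ⟨a, h⟩ : Fin G.length) : ℕ) else 0, ?_, ?_⟩
  · intro a
    dsimp only
    split_ifs with h
    · exact (e ⟨a, h⟩).isLt
    · exact hn
  · intro a ha b hb hab
    dsimp only
    rw [dif_pos ha, dif_pos hb]
    have hne : e ⟨a, ha⟩ ≠ e ⟨b, hb⟩ := by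
      intro h
      have := e.injective h
      simp at this
      exact hab this
    have hadj : (graph G).Adj (e ⟨a, ha⟩) (e ⟨b, hb⟩) :=
      hcl (Finset.orderEmbOfFin_mem S hcard _) (Finset.orderEmbOfFin_mem S hcard _) hne
    have h1 : ((e ⟨a, ha⟩ : Fin G.length) : ℕ) ≠ ((e ⟨b, hb⟩ : Fin G.length) : ℕ) :=
      fun h => hne (Fin.ext h)
    have h2 : entry G (e ⟨a, ha⟩) (e ⟨b, hb⟩) = true ∨ entry G (e ⟨b, hb⟩) (e ⟨a, ha⟩) = true :=
      hadj.2
    unfold adjB
    rw [Bool.and_eq_true, Bool.or_eq_true]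
    exact ⟨by simpa using h1, h2⟩

theorem va_true (G : Code) (s K : ℕ) (hD2 : ∀ a j, dig K a j < K) (y : ℕ → ℕ)
    (hy : ∀ a < K, ∀ b < K, a ≠ b → adjB G (y a) (y b) = true) (p j : ℕ)
    (hj : ∀ a < s, dig G.length a j = y (dig K a p)) : vaB s K G p j = true := by
  unfold vaB
  rw [List.all_eq_true]
  intro a ha
  rw [List.all_eq_true]
  intro b hb
  rw [List.mem_range] at ha hb
  rw [hj a ha, hj b hb]
  split_ifs with h
  · rw [h]; simp
  · exact hy _ (hD2 _ _) _ (hD2 _ _) h

theorem co_true (s K n m : ℕ) (hD2 : ∀ a j, dig K a j < K) (y : ℕ → ℕ) (p j j' : ℕ)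
    (hj : ∀ a < s, dig n a j = y (dig K a p)) (hj' : ∀ κ < K, dig m κ j' = y κ % m) :
    coB s K n m p j j' = true := by
  unfold coB
  rw [List.all_eq_true]
  intro a ha
  rw [List.mem_range] at ha
  rw [hj a ha, hj' _ (hD2 _ _)]
  simp

theorem mi_pow (L W N K n i M : ℕ) (hi : i < L) (hN : 1 ≤ N) (hNK : N ^ K ≤ 2 ^ K * n)
    (hM : (2 * (L * W + 1)) ^ K * n ≤ M) : mi W N i ^ K ≤ M := by
  have h1 : mi W N i ≤ (L * W + 1) * N := by
    unfold mi
    have : (i + 1) * (W * N) ≤ L * (W * N) := Nat.mul_le_mul_right _ hi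
    calc (i + 1) * (W * N) + 1 ≤ L * (W * N) + N := by omega
      _ = (L * W + 1) * N := by ring
  calc mi W N i ^ K ≤ ((L * W + 1) * N) ^ K := Nat.pow_le_pow_left h1 K
    _ = (L * W + 1) ^ K * N ^ K := Nat.mul_pow _ _ _
    _ ≤ (L * W + 1) ^ K * (2 ^ K * n) := Nat.mul_le_mul_left _ hNK
    _ = (2 * (L * W + 1)) ^ K * n := by rw [Nat.mul_pow 2]; ring
    _ ≤ M := hM

end I_CPL

open I_CPL in
theorem pr_CPL (hR : S_ROOT) (hD : S_DIG) (hV : S_VLD) : S_CPL := by
  classical
  intro G s K L W M hs hK hL hn hM1 hM2 hC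
  obtain ⟨y, hyn, hy⟩ := exists_y G K hn hC
  obtain ⟨hN1, hN2, hN3⟩ := hR G.length K hn hK
  obtain ⟨-, hK2, -, -, -⟩ := hD K hK
  obtain ⟨-, -, hn3, -, -⟩ := hD G.length hn
  have hM : 1 ≤ M := le_trans (Nat.one_le_pow _ _ hn) hM1
  refine ⟨hV G s K L W M hM, ?_⟩
  have hjp : ∀ p : ℕ, ∃ j < G.length ^ s, ∀ a < s, dig G.length a j = y (dig K a p) :=
    fun p => hn3 s (fun a => y (dig K a p)) fun a _ => hyn _
  choose jp hjp1 hjp2 using hjp
  have hjq : ∀ i : ℕ, ∃ j < mi W (root G.length K) i ^ K, ∀ κ < K,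
      dig (mi W (root G.length K) i) κ j = y κ % mi W (root G.length K) i := by
    intro i
    have hm : 1 ≤ mi W (root G.length K) i := Nat.le_add_left 1 _
    exact (hD _ hm).2.2.1 K (fun κ => y κ % mi W (root G.length K) i)
      fun a _ => Nat.mod_lt _ hm
  choose jq hjq1 hjq2 using hjq
  set N := root G.length K with hN
  obtain ⟨r, hr⟩ : ∃ r : ℕ → ℕ, r = fun p => if p < L then jp p else jq (p - L) := ⟨_, rfl⟩
  have hrM : ∀ p < 2 * L, r p < M := by
    intro p hp
    rw [hr]
    dsimp only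
    split_ifs with h
    · exact lt_of_lt_of_le (hjp1 p) hM1
    · exact lt_of_lt_of_le (hjq1 _)
        (mi_pow L W N K G.length (p - L) M (by omega) hN1 hN3 hM2)
  have hdiv : ∀ p < 2 * L, (p * M + r p) / M = p := by
    intro p hp
    rw [Nat.add_comm, Nat.add_mul_div_right _ _ hM, Nat.div_eq_of_lt (hrM p hp), Nat.zero_add]
  have hmod : ∀ p < 2 * L, (p * M + r p) % M = r p := by
    intro p hp
    rw [Nat.add_comm, Nat.add_mul_mod_self_right, Nat.mod_eq_of_lt (hrM p hp)]
  have hlt : ∀ p < 2 * L, p * M + r p < 2 * L * M := by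
    intro p hp
    have h1 := hrM p hp
    calc p * M + r p < p * M + M := by omega
      _ = (p + 1) * M := by ring
      _ ≤ 2 * L * M := Nat.mul_le_mul_right _ hp
  have hlen : (red s K L W M G).1.length = 2 * L * M := by
    unfold red
    simp
  have hhB : ∀ p q, p < q → q < 2 * L →
      hB s K L W N M G (p * M + r p) (q * M + r q) = true := by
    intro p q hpq hq
    unfold hB
    rw [hdiv p (by omega), hdiv q hq, hmod p (by omega), hmod q hq, if_neg (by omega)]
    split_ifs with h1 h2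
    · have e1 : r p = jp p := by rw [hr]; simp [h1.1]
      have e2 : r q = jq (q - L) := by
        rw [hr]
        have : ¬ q < L := by omega
        simp [this]
      unfold eB
      rw [e1, e2, va_true G s K hK2 y hy p (jp p) (hjp2 p),
        co_true s K G.length _ hK2 y p (jp p) (jq (q - L)) (hjp2 p) (hjq2 (q - L))]
      rfl
    · omega
    · rfl
  refine ⟨fun p => ⟨(p : ℕ) * M + r p, by rw [hlen]; exact hlt p p.isLt⟩, ?_, ?_⟩
  · intro p
    have h1 := hlt p p.isLt
    have h2 := hdiv p p.isLt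
    unfold red
    simp only [List.getElem?_map, List.getElem?_range h1, Option.map_some, h2]
  · unfold value
    have hcl : (red s K L W M G).2.1.choose 2 = (2 * L).choose 2 := rfl
    rw [hcl, ← card_lt (2 * L)]
    refine congrArg Finset.card ?_
    refine Finset.filter_congr fun p _ => ?_
    constructor
    · intro h
      exact h.1
    · intro h
      refine ⟨h, ?_, Or.inl ?_⟩
      · intro he
        have h1 : (p.1 : ℕ) * M + r p.1 = (p.2 : ℕ) * M + r p.2 := congrArg Fin.val he
        have h2 := hdiv p.1 p.1.isLt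
        have h3 := hdiv p.2 p.2.isLt
        rw [h1, h3] at h2
        have h4 : (p.1 : ℕ) < (p.2 : ℕ) := h
        omega
      · have h5 := hhB p.1 p.2 h p.2.isLt
        have h6 := entry_map (2 * L * M) (fun u v => hB s K L W N M G u v)
          ((p.1 : ℕ) * M + r p.1) ((p.2 : ℕ) * M + r p.2) (hlt p.1 p.1.isLt) (hlt p.2 p.2.isLt)
        exact h6.trans h5

end Pool.Agent.Work.MP_3154ac_lc

end

section

set_option autoImplicit false

namespace Pool.Agent.Work.MP_3154ac_lc

open N68a2faeb Finset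

namespace I_GLO

theorem adjB_comm (G : Code) (u v : ℕ) : adjB G u v = adjB G v u := by
  unfold adjB
  have h : (u ≠ v) ↔ (v ≠ u) := ⟨fun h => h.symm, fun h => h.symm⟩
  rw [Bool.or_comm, decide_eq_decide.mpr h]

theorem adjB_adj {G : Code} {u v : ℕ} (hu : u < G.length) (hv : v < G.length)
    (h : adjB G u v = true) : (graph G).Adj ⟨u, hu⟩ ⟨v, hv⟩ := by
  unfold adjB at h
  rw [Bool.and_eq_true, Bool.or_eq_true, decide_eq_true_eq] at h
  exact ⟨fun e => h.1 (congrArg Fin.val e), h.2⟩

/-- the graph of a global assignment -/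
def gr (G : Code) (K : ℕ) (y : ℕ → ℕ) : SimpleGraph (Fin K) where
  Adj a b := a ≠ b ∧ adjB G (y a) (y b) = true
  symm := ⟨fun a b h => ⟨h.1.symm, by rw [adjB_comm]; exact h.2⟩⟩
  loopless := ⟨fun _ h => h.1 rfl⟩

theorem clique {G : Code} {K q : ℕ} (y : ℕ → ℕ) (hy : ∀ κ, y κ < G.length) (f : Fin q → Fin K)
    (hf : ∀ a b, a ≠ b → (gr G K y).Adj (f a) (f b)) : HasClique G q := by
  classical
  have hA : ∀ a b, a ≠ b → (graph G).Adj ⟨y (f a), hy _⟩ ⟨y (f b), hy _⟩ :=
    fun a b hab => adjB_adj (hy _) (hy _) (hf a b hab).2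
  refine ⟨univ.image fun a : Fin q => (⟨y (f a), hy _⟩ : Fin G.length), ?_, ?_⟩
  · intro u hu v hv huv
    simp only [coe_image, coe_univ, Set.image_univ, Set.mem_range] at hu hv
    obtain ⟨a, rfl⟩ := hu
    obtain ⟨b, rfl⟩ := hv
    exact hA a b (fun e => huv (by rw [e]))
  · rw [Finset.card_image_of_injective]
    · simp
    · intro a b hab
      by_contra hne
      exact (hA a b hne).ne hab

open Classical in
theorem main (G : Code) (s K W N q c0 : ℕ) (x z : ℕ → ℕ → ℕ) (r i : ℕ)
    (hD : (∀ a j, dig K a j < K) ∧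
      (∀ t j j', j < K ^ t → j' < K ^ t → (∀ a < t, dig K a j = dig K a j') → j = j') ∧
      (∀ t r j a, a < t → dig K a (r * K ^ t + j) = dig K a j))
    (hcl : ¬ HasClique G q)
    (hc0 : ∀ (H : SimpleGraph (Fin K)) [DecidableRel H.Adj], cq H q = 0 →
      c0 * nv H s ≤ (c0 - 1) * K ^ s)
    (hx : ∀ π a, x π a < G.length) (hb : ¬ bad s K W N x r i) :
    c0 * ((range (K ^ s)).filter fun α => cons G s K W N x z (r * K ^ s + α) i).card ≤
      (c0 - 1) * K ^ s := by
  obtain ⟨hlt, hinj, hdig⟩ := hD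
  -- the global assignment
  obtain ⟨y, hy, hyx⟩ : ∃ y : ℕ → ℕ, (∀ κ, y κ < G.length) ∧
      ∀ α < K ^ s, cons G s K W N x z (r * K ^ s + α) i → ∀ a < s,
        x (r * K ^ s + α) a = y (dig K a α) := by
    refine ⟨fun κ => if h : ∃ α a, (α < K ^ s ∧ cons G s K W N x z (r * K ^ s + α) i) ∧ a < s ∧
      dig K a α = κ then x (r * K ^ s + h.choose) h.choose_spec.choose else x 0 0, ?_, ?_⟩
    · intro κ
      dsimp only
      split_ifs
      · exact hx _ _
      · exact hx _ _
    · intro α hα hc a ha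
      have h : ∃ α' a', (α' < K ^ s ∧ cons G s K W N x z (r * K ^ s + α') i) ∧ a' < s ∧
        dig K a' α' = dig K a α := ⟨α, a, ⟨hα, hc⟩, ha, rfl⟩
      dsimp only
      rw [dif_pos h]
      obtain ⟨⟨hα', hc'⟩, ha', hd'⟩ := h.choose_spec.choose_spec
      by_contra hne
      refine hb ⟨α, hα, a, ha, _, hα', _, ha', hne, ?_⟩
      have e1 := hc.2 a ha
      have e2 := hc'.2 _ ha'
      rw [hdig s r _ _ ha] at e1
      rw [hdig s r _ _ ha', hd'] at e2
      rw [e1, e2]
  have hcq : cq (gr G K y) q = 0 := by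
    unfold cq
    rw [Finset.card_eq_zero, Finset.filter_eq_empty_iff]
    intro f _ hf
    exact hcl (clique y hy f hf)
  have h1 := hc0 (gr G K y) hcq
  refine le_trans (Nat.mul_le_mul_left _ ?_) h1
  unfold nv
  refine Finset.card_le_card_of_injOn
    (fun α => fun a : Fin s => (⟨dig K a α, hlt _ _⟩ : Fin K)) ?_ ?_
  · intro α hα
    rw [Finset.mem_coe, Finset.mem_filter, Finset.mem_range] at hα
    rw [Finset.mem_coe, Finset.mem_filter]
    refine ⟨Finset.mem_univ _, fun a b => ?_⟩
    by_cases hab : dig K a α = dig K b α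
    · left
      exact Fin.ext hab
    · right
      have h2 := hα.2.1 a a.2 b b.2
      rw [hdig s r _ _ a.2, hdig s r _ _ b.2, if_neg hab, hyx α hα.1 hα.2 a a.2,
        hyx α hα.1 hα.2 b b.2] at h2
      exact ⟨fun e => hab (congrArg Fin.val e), h2⟩
  · intro α hα α' hα' he
    rw [Finset.mem_coe, Finset.mem_filter, Finset.mem_range] at hα hα'
    refine hinj s α α' hα.1 hα'.1 fun a ha => ?_
    exact congrArg Fin.val (congrFun he ⟨a, ha⟩)

end I_GLO

/-- Item GLO. -/
theorem pr_GLO (hD : S_DIG) : S_GLO := by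
  intro G s K W N q c0 x z r i _ hK hcl hc0 hx hb
  obtain ⟨_, h2, _, h4, h5⟩ := hD K hK
  exact I_GLO.main G s K W N q c0 x z r i ⟨h2, h4, h5⟩ hcl hc0 hx hb

end Pool.Agent.Work.MP_3154ac_lc

end

section

/-!
# HASH: two different numbers collide for few moduli
-/

set_option autoImplicit false

namespace Pool.Agent.Work.MP_3154ac_lc

open Finset

namespace I_HASH

theorem cop {L X i j : ℕ} (hX : L.factorial ∣ X) (hj : j < L) (h : i < j) :
    Nat.Coprime ((i + 1) * X + 1) ((j + 1) * X + 1) := by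
  rw [Nat.coprime_iff_gcd_eq_one]
  by_contra hne
  obtain ⟨p, hp, hpd⟩ := Nat.exists_prime_and_dvd hne
  have h1 : p ∣ (i + 1) * X + 1 := hpd.trans (Nat.gcd_dvd_left _ _)
  have h2 : p ∣ (j + 1) * X + 1 := hpd.trans (Nat.gcd_dvd_right _ _)
  have h3 : p ∣ (j - i) * X := by
    have h4 := (Nat.dvd_sub h2 h1)
    have h5 : (j + 1) * X + 1 - ((i + 1) * X + 1) = (j - i) * X := by
      obtain ⟨d, rfl⟩ : ∃ d, j = i + d := ⟨j - i, by omega⟩
      have : (i + d + 1) * X + 1 = (i + 1) * X + 1 + d * X := by ring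
      rw [this, Nat.add_sub_cancel_left, Nat.add_sub_cancel_left]
    rwa [h5] at h4
  have h6 : ¬ p ∣ X := by
    intro h7
    have h8 : p ∣ (i + 1) * X := h7.mul_left _
    have h9 := (Nat.dvd_add_right h8).1 h1
    exact hp.one_lt.ne' (Nat.dvd_one.1 h9)
  rcases (hp.dvd_mul).1 h3 with h7 | h7
  · have h8 : p ≤ j - i := Nat.le_of_dvd (by omega) h7
    have h9 : p ∣ L.factorial := (hp.dvd_factorial).2 (by omega)
    exact h6 (h9.trans hX)
  · exact h6 h7

end I_HASH

open I_HASH in
theorem pr_HASH : S_HASH := by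
  intro L N n D hN hD hn u v hu hv huv
  by_contra hcon
  push Not at hcon
  wlog h : v < u generalizing u v
  · refine this v u hv hu huv.symm ?_ (by omega)
    simpa only [eq_comm] using hcon
  set X := L.factorial * N with hXdef
  set S := (range L).filter fun i => u % mi L.factorial N i = v % mi L.factorial N i with hS
  have hdiv : ∀ i ∈ S, mi L.factorial N i ∣ u - v := by
    intro i hi
    have h1 := (mem_filter.1 hi).2
    exact (Nat.modEq_iff_dvd' h.le).1 h1.symm
  have hprod : ∏ i ∈ S, mi L.factorial N i ∣ u - v := by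
    refine Finset.prod_dvd_of_isRelPrime ?_ hdiv
    intro i hi j hj hij
    have hi' := mem_range.1 (mem_filter.1 hi).1
    have hj' := mem_range.1 (mem_filter.1 hj).1
    rcases Nat.lt_or_gt_of_ne hij with h1 | h1
    · exact Nat.coprime_iff_isRelPrime.1 (cop (X := L.factorial * N) (Dvd.intro _ rfl) hj' h1)
    · exact Nat.coprime_iff_isRelPrime.1
        (cop (X := L.factorial * N) (Dvd.intro _ rfl) hi' h1).symm
  have h1 : ∏ i ∈ S, mi L.factorial N i ≤ u - v := Nat.le_of_dvd (by omega) hprod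
  have h2 : (N + 1) ^ S.card ≤ ∏ i ∈ S, mi L.factorial N i := by
    refine Finset.pow_card_le_prod _ _ _ fun i _ => ?_
    have h3 : 1 ≤ L.factorial := Nat.succ_le_of_lt (Nat.factorial_pos L)
    have h4 : N ≤ L.factorial * N := Nat.le_mul_of_pos_left _ h3
    have h5 : L.factorial * N ≤ (i + 1) * (L.factorial * N) := Nat.le_mul_of_pos_left _ (by omega)
    rw [mi]
    omega
  have h3 : N ^ D < (N + 1) ^ D := Nat.pow_lt_pow_left (by omega) (by omega)
  have h4 : (N + 1) ^ D ≤ (N + 1) ^ S.card := Nat.pow_le_pow_right (by omega) hcon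
  omega

end Pool.Agent.Work.MP_3154ac_lc

end

section

/-!
# NV: tuples without a violated pair
-/

set_option autoImplicit false

namespace Pool.Agent.Work.MP_3154ac_lc

open Finset

namespace I_NV

/-- the tuples with a repetition at a given pair of positions -/
lemma pair_card {V : Type} [Fintype V] [DecidableEq V] (r : ℕ) (a b : Fin (r + 1))
    (hab : a ≠ b) :
    (univ.filter fun f : Fin (r + 1) → V => f a = f b).card ≤ Fintype.card V ^ r := by
  have h1 : (univ.filter fun f : Fin (r + 1) → V => f a = f b).card ≤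
      (univ : Finset (Fin r → V)).card := by
    refine card_le_card_of_injOn (fun f j => f (b.succAbove j)) (fun _ _ => mem_univ _) ?_
    intro f hf g hg h
    rw [mem_coe, mem_filter] at hf hg
    have key : ∀ i, i ≠ b → f i = g i := by
      intro i hi
      obtain ⟨j, rfl⟩ := Fin.exists_succAbove_eq hi
      exact congrFun h j
    funext i
    by_cases hi : i = b
    · rw [hi, ← hf.2, ← hg.2, key a hab]
    · exact key i hi
  rw [card_univ, Fintype.card_fun, Fintype.card_fin] at h1
  exact h1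

/-- the tuples with a repetition -/
lemma rep_card {V : Type} [Fintype V] [DecidableEq V] (r : ℕ) :
    2 * (univ.filter fun f : Fin (r + 1) → V => ∃ a b, a ≠ b ∧ f a = f b).card ≤
      (r + 1) * r * Fintype.card V ^ r := by
  have h1 : ∀ f ∈ univ.filter (fun f : Fin (r + 1) → V => ∃ a b, a ≠ b ∧ f a = f b),
      2 ≤ ((univ : Finset (Fin (r + 1))).offDiag.filter fun p => f p.1 = f p.2).card := by
    intro f hf
    obtain ⟨_, a, b, hab, he⟩ := mem_filter.1 hf
    have h2 : ({(a, b), (b, a)} : Finset (Fin (r + 1) × Fin (r + 1))) ⊆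
        (univ : Finset (Fin (r + 1))).offDiag.filter fun p => f p.1 = f p.2 := by
      intro p hp
      rw [mem_insert, mem_singleton] at hp
      rw [mem_filter, mem_offDiag]
      rcases hp with rfl | rfl
      · exact ⟨⟨mem_univ _, mem_univ _, hab⟩, he⟩
      · exact ⟨⟨mem_univ _, mem_univ _, hab.symm⟩, he.symm⟩
    refine le_trans ?_ (card_le_card h2)
    rw [card_pair (fun h => hab (congrArg Prod.fst h))]
  calc 2 * (univ.filter fun f : Fin (r + 1) → V => ∃ a b, a ≠ b ∧ f a = f b).card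
      = ∑ _f ∈ univ.filter (fun f : Fin (r + 1) → V => ∃ a b, a ≠ b ∧ f a = f b), 2 := by
        rw [sum_const, smul_eq_mul, mul_comm]
    _ ≤ ∑ f ∈ univ.filter (fun f : Fin (r + 1) → V => ∃ a b, a ≠ b ∧ f a = f b),
        ((univ : Finset (Fin (r + 1))).offDiag.filter fun p => f p.1 = f p.2).card :=
        sum_le_sum h1
    _ ≤ ∑ f : Fin (r + 1) → V,
        ((univ : Finset (Fin (r + 1))).offDiag.filter fun p => f p.1 = f p.2).card :=
        sum_le_sum_of_subset (filter_subset _ _)
    _ = ∑ f : Fin (r + 1) → V, ∑ p ∈ (univ : Finset (Fin (r + 1))).offDiag,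
        if f p.1 = f p.2 then 1 else 0 := by
        refine sum_congr rfl fun f _ => ?_
        rw [card_filter]
    _ = ∑ p ∈ (univ : Finset (Fin (r + 1))).offDiag, ∑ f : Fin (r + 1) → V,
        if f p.1 = f p.2 then 1 else 0 := sum_comm
    _ ≤ ∑ _p ∈ (univ : Finset (Fin (r + 1))).offDiag, Fintype.card V ^ r := by
        refine sum_le_sum fun p hp => ?_
        rw [← card_filter]
        exact pair_card r p.1 p.2 (mem_offDiag.1 hp).2.2
    _ = (r + 1) * r * Fintype.card V ^ r := by
        rw [sum_const, smul_eq_mul, offDiag_card, card_univ, Fintype.card_fin]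
        congr 1
        rw [← Nat.mul_sub_one, Nat.add_sub_cancel]

end I_NV

theorem pr_NV : S_NV := by
  intro V _ _ H _ s hs
  obtain ⟨r, rfl⟩ : ∃ r, s = r + 1 := ⟨s - 1, by omega⟩
  rw [Nat.add_sub_cancel]
  have h1 : nv H (r + 1) ≤ cq H (r + 1) +
      (univ.filter fun f : Fin (r + 1) → V => ∃ a b, a ≠ b ∧ f a = f b).card := by
    unfold nv cq
    refine le_trans (card_le_card ?_) (card_union_le _ _)
    intro f hf
    rw [mem_filter] at hf
    rw [mem_union, mem_filter, mem_filter]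
    by_cases h : ∃ a b, a ≠ b ∧ f a = f b
    · exact Or.inr ⟨mem_univ _, h⟩
    · left
      refine ⟨mem_univ _, fun a b hab => ?_⟩
      rcases hf.2 a b with h2 | h2
      · exact absurd ⟨a, b, hab, h2⟩ h
      · exact h2
  have h2 := I_NV.rep_card (V := V) r
  omega

end Pool.Agent.Work.MP_3154ac_lc

end

section

/-!
# ROOT: the capped root
-/

set_option autoImplicit false

namespace Pool.Agent.Work.MP_3154ac_lc

namespace I_ROOT

theorem cpw_eq (n N : ℕ) (hn : 1 ≤ n) (hN : 1 ≤ N) (K : ℕ) : cpw n K N = min (N ^ K) n := by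
  unfold cpw
  induction K with
  | zero => simp [hn]
  | succ K ih =>
    rw [Function.iterate_succ_apply', ih, pow_succ]
    rcases le_total (N ^ K) n with h | h
    · rw [min_eq_left h]
    · rw [min_eq_right h]
      have h1 : n ≤ n * N := Nat.le_mul_of_pos_right n hN
      have h2 : n ≤ N ^ K * N := le_trans h (Nat.le_mul_of_pos_right _ hN)
      rw [min_eq_right h1, min_eq_right h2]

theorem p_iff (n K : ℕ) (hn : 1 ≤ n) (N : ℕ) :
    (decide (1 ≤ N) && decide (cpw n K N = n)) = true ↔ 1 ≤ N ∧ n ≤ N ^ K := by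
  rw [Bool.and_eq_true, decide_eq_true_iff, decide_eq_true_iff]
  refine and_congr_right fun hN => ?_
  rw [cpw_eq n N hn hN K]
  exact min_eq_right_iff

theorem find_spec (n K : ℕ) (hn : 1 ≤ n) (hK : 1 ≤ K) :
    ∃ r, root n K = r ∧ 1 ≤ r ∧ n ≤ r ^ K ∧ ∀ j < r, ¬ (1 ≤ j ∧ n ≤ j ^ K) := by
  have h1 : ((List.range (n + 1)).find? fun N =>
      decide (1 ≤ N) && decide (cpw n K N = n)).isSome := by
    rw [List.find?_isSome]
    refine ⟨n, List.mem_range.mpr (Nat.lt_succ_self n), ?_⟩
    rw [p_iff n K hn n]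
    exact ⟨hn, Nat.le_self_pow (by omega) n⟩
  obtain ⟨r, hr⟩ := Option.isSome_iff_exists.mp h1
  refine ⟨r, by unfold root; rw [hr]; rfl, ?_⟩
  rw [List.find?_range_eq_some] at hr
  obtain ⟨h2, -, h3⟩ := hr
  rw [p_iff n K hn r] at h2
  refine ⟨h2.1, h2.2, fun j hj hc => ?_⟩
  have h4 := h3 j hj
  rw [(p_iff n K hn j).mpr hc] at h4
  simp at h4

end I_ROOT

theorem pr_ROOT : S_ROOT := by
  intro n K hn hK
  obtain ⟨r, hr, h1, h2, h3⟩ := I_ROOT.find_spec n K hn hK
  rw [hr]
  refine ⟨h1, h2, ?_⟩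
  rcases Nat.lt_or_ge r 2 with h | h
  · have : r = 1 := by omega
    subst this
    rw [one_pow]
    exact Nat.mul_pos (Nat.pos_of_ne_zero (by positivity)) hn
  · have h4 : (r - 1) ^ K < n := by
      by_contra hc
      exact h3 (r - 1) (by omega) ⟨by omega, not_lt.mp hc⟩
    calc r ^ K ≤ (2 * (r - 1)) ^ K := Nat.pow_le_pow_left (by omega) K
      _ = 2 ^ K * (r - 1) ^ K := mul_pow _ _ _
      _ ≤ 2 ^ K * n := Nat.mul_le_mul_left _ h4.le

end Pool.Agent.Work.MP_3154ac_lc

end

section

/-!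
# Item SND: soundness of the reduction
-/

set_option autoImplicit false

namespace Pool.Agent.Work.MP_3154ac_lc

open N68a2faeb Finset Pool.Agent.PT

namespace I_SND

theorem card_lt (n : ℕ) :
    (univ.filter fun p : Fin n × Fin n => p.1 < p.2).card = n.choose 2 := by
  rw [Finset.card_filter, Fintype.sum_prod_type_right, Nat.choose_two_right,
    ← Finset.sum_range_id, ← Fin.sum_univ_eq_sum_range (fun i => i)]
  refine Finset.sum_congr rfl fun j _ => ?_
  rw [← Finset.card_filter, Finset.filter_gt_eq_Iio, Fin.card_Iio]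

theorem card_cross (L : ℕ) :
    L ^ 2 ≤ (univ.filter fun p : Fin (2 * L) × Fin (2 * L) =>
      (p.1 : ℕ) < L ∧ L ≤ (p.2 : ℕ)).card := by
  have h : (univ : Finset (Fin L × Fin L)).card ≤ (univ.filter
      fun p : Fin (2 * L) × Fin (2 * L) => (p.1 : ℕ) < L ∧ L ≤ (p.2 : ℕ)).card := by
    refine Finset.card_le_card_of_injOn
      (fun p => ((⟨(p.1 : ℕ), by have := p.1.2; omega⟩ : Fin (2 * L)),
        (⟨L + (p.2 : ℕ), by have := p.2.2; omega⟩ : Fin (2 * L)))) ?_ ?_
    · intro p _
      rw [Finset.mem_coe, Finset.mem_filter]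
      exact ⟨Finset.mem_univ _, p.1.2, Nat.le_add_right _ _⟩
    · intro p _ p' _ h
      simp only [Prod.mk.injEq, Fin.mk.injEq] at h
      refine Prod.ext (Fin.ext h.1) (Fin.ext ?_)
      omega
  rw [Finset.card_univ, Fintype.card_prod, Fintype.card_fin, ← sq] at h
  exact h

theorem entry_red (s K L W M : ℕ) (G : Code) (u v : ℕ) (hu : u < 2 * L * M)
    (hv : v < 2 * L * M) :
    entry (red s K L W M G).1 u v = hB s K L W (root G.length K) M G u v := by
  unfold entry red
  simp [hu, hv]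

theorem sol_red {s K L W M : ℕ} {G : Code} {t : Fin (2 * L) → Fin (red s K L W M G).1.length}
    (ht : IsSol (red s K L W M G) t) (i : Fin (2 * L)) :
    (t i : ℕ) < 2 * L * M ∧ (t i : ℕ) / M = (i : ℕ) := by
  have h := ht i
  have hlt : (t i : ℕ) < 2 * L * M := by
    have := (t i).2
    simpa [red] using this
  refine ⟨hlt, ?_⟩
  unfold red at h
  simp only [List.getElem?_map, List.getElem?_range hlt, Option.map_some, Option.some.injEq] at h
  exact h

theorem hB_cross {s K L W N M : ℕ} {G : Code} {u v p q : ℕ} (hu : u / M = p) (hv : v / M = q)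
    (hp : p < L) (hq : L ≤ q) :
    hB s K L W N M G u v = eB s K W N G p (u % M) (q - L) (v % M) ∧
    hB s K L W N M G v u = eB s K W N G p (u % M) (q - L) (v % M) := by
  unfold hB
  rw [hu, hv]
  have h1 : p ≠ q := by omega
  have h2 : ¬ (q < L ∧ L ≤ p) := by omega
  constructor
  · rw [if_neg h1, if_pos ⟨hp, hq⟩]
  · rw [if_neg (Ne.symm h1), if_neg h2, if_pos ⟨hp, hq⟩]

end I_SND

open I_SND

theorem pr_SND (hA : S_ABS) (hR : S_ROOT) (hD : S_DIG) : S_SND := by
  classical
  intro G s K L M q c0 hs hK hM hn hc0 hL hcl hcq t ht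
  obtain ⟨hN1, hN2, -⟩ := hR G.length K hn hK
  set N := root G.length K with hNd
  have hDn := (hD G.length hn).2.1
  -- the chosen vertices
  have ht1 : ∀ i : Fin (2 * L), (t i : ℕ) < 2 * L * M ∧ (t i : ℕ) / M = (i : ℕ) := by
    intro i
    exact sol_red (s := s) (K := K) (W := L.factorial) (G := G) ht i
  obtain ⟨u, hu⟩ : ∃ u : Fin (2 * L) → ℕ, ∀ i : Fin (2 * L), u i = (t i : ℕ) :=
    ⟨fun i => (t i : ℕ), fun _ => rfl⟩
  set x : ℕ → ℕ → ℕ := fun π a =>
    if h : π < 2 * L then dig G.length a (u ⟨π, h⟩ % M) else 0 with hx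
  set z : ℕ → ℕ → ℕ := fun i κ =>
    if h : L + i < 2 * L then dig (mi L.factorial N i) κ (u ⟨L + i, h⟩ % M) else 0 with hz
  have hxn : ∀ π a, x π a < G.length := by
    intro π a
    rw [hx]
    simp only
    split_ifs with h
    · exact hDn _ _
    · exact hn
  have habs := hA G s K L N q c0 hs hK hN1 hc0 hL hN2 hcl hcq x z hxn
  set B := ((range L) ×ˢ (range L)).filter fun p : ℕ × ℕ =>
      cons G s K L.factorial N x z p.1 p.2 with hB'
  have hcons : ∀ (p q' : Fin (2 * L)), (p : ℕ) < L → L ≤ (q' : ℕ) →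
      (graph (red s K L L.factorial M G).1).Adj (t p) (t q') →
      cons G s K L.factorial N x z (p : ℕ) ((q' : ℕ) - L) := by
    intro p q' hp hq hadj
    obtain ⟨hp1, hp2⟩ := ht1 p
    obtain ⟨hq1, hq2⟩ := ht1 q'
    have hcr := hB_cross (s := s) (K := K) (L := L) (W := L.factorial) (N := N) (M := M) (G := G)
      hp2 hq2 hp hq
    have he : eB s K L.factorial N G (p : ℕ) ((t p : ℕ) % M) ((q' : ℕ) - L)
        ((t q' : ℕ) % M) = true := by
      rcases hadj.2 with h | h
      · rw [entry_red s K L L.factorial M G _ _ hp1 hq1, ← hNd, hcr.1] at h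
        exact h
      · rw [entry_red s K L L.factorial M G _ _ hq1 hp1, ← hNd, hcr.2] at h
        exact h
    unfold eB at he
    rw [Bool.and_eq_true] at he
    obtain ⟨hva, hco⟩ := he
    have hxp : ∀ a, x (p : ℕ) a = dig G.length a ((t p : ℕ) % M) := by
      intro a
      rw [hx, ← hu p]
      simp only
      rw [dif_pos p.2]
    have hzq : ∀ κ, z ((q' : ℕ) - L) κ =
        dig (mi L.factorial N ((q' : ℕ) - L)) κ ((t q' : ℕ) % M) := by
      intro κ
      rw [hz, ← hu q']
      simp only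
      have h1 : L + ((q' : ℕ) - L) < 2 * L := by have := q'.2; omega
      rw [dif_pos h1]
      have h2 : (⟨L + ((q' : ℕ) - L), h1⟩ : Fin (2 * L)) = q' := Fin.ext (by simp only; omega)
      rw [h2]
    constructor
    · intro a ha b hb
      unfold vaB at hva
      rw [List.all_eq_true] at hva
      have h1 := hva a (List.mem_range.2 ha)
      rw [List.all_eq_true] at h1
      have h2 := h1 b (List.mem_range.2 hb)
      rw [hxp, hxp]
      split_ifs with h
      · rw [if_pos h] at h2
        exact of_decide_eq_true h2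
      · rw [if_neg h] at h2
        exact h2
    · intro a ha
      unfold coB at hco
      rw [List.all_eq_true] at hco
      have h1 := of_decide_eq_true (hco a (List.mem_range.2 ha))
      rw [hxp, hzq]
      exact h1
  -- count
  set C := (univ.filter fun p : Fin (2 * L) × Fin (2 * L) => p.1 < p.2) with hC
  set X := (univ.filter fun p : Fin (2 * L) × Fin (2 * L) => (p.1 : ℕ) < L ∧ L ≤ (p.2 : ℕ))
    with hX
  have hXC : X ⊆ C := by
    intro p hp
    rw [hX, Finset.mem_filter] at hp
    rw [hC, Finset.mem_filter]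
    refine ⟨Finset.mem_univ _, ?_⟩
    show (p.1 : ℕ) < (p.2 : ℕ)
    omega
  set S := (univ.filter fun p : Fin (2 * L) × Fin (2 * L) => p.1 < p.2 ∧
    (graph (red s K L L.factorial M G).1).Adj (t p.1) (t p.2)) with hS
  have hval : value (red s K L L.factorial M G) t = S.card := by
    unfold value
    congr 1
  have hSle : S.card ≤ (C \ X).card + B.card := by
    have h1 : S ⊆ (C \ X) ∪ (S ∩ X) := by
      intro p hp
      rw [Finset.mem_union, Finset.mem_sdiff, Finset.mem_inter]
      by_cases hpX : p ∈ X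
      · exact Or.inr ⟨hp, hpX⟩
      · refine Or.inl ⟨?_, hpX⟩
        rw [hS, Finset.mem_filter] at hp
        rw [hC, Finset.mem_filter]
        exact ⟨hp.1, hp.2.1⟩
    have h2 : (S ∩ X).card ≤ B.card := by
      refine Finset.card_le_card_of_injOn (fun p => ((p.1 : ℕ), (p.2 : ℕ) - L)) ?_ ?_
      · intro p hp
        rw [Finset.mem_coe, Finset.mem_inter, hS, hX, Finset.mem_filter, Finset.mem_filter] at hp
        obtain ⟨⟨-, -, hadj⟩, -, hp1, hp2⟩ := hp
        rw [Finset.mem_coe, hB', Finset.mem_filter, Finset.mem_product, Finset.mem_range,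
          Finset.mem_range]
        refine ⟨⟨hp1, ?_⟩, hcons p.1 p.2 hp1 hp2 hadj⟩
        have := p.2.2
        simp only
        omega
      · intro p hp p' hp' h
        have h3 := (Finset.mem_inter.1 hp).2
        have h4 := (Finset.mem_inter.1 hp').2
        rw [hX, Finset.mem_filter] at h3 h4
        simp only [Prod.mk.injEq] at h
        refine Prod.ext (Fin.ext h.1) (Fin.ext ?_)
        have h5 := h3.2.2
        have h6 := h4.2.2
        omega
    calc S.card ≤ ((C \ X) ∪ (S ∩ X)).card := Finset.card_le_card h1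
      _ ≤ (C \ X).card + (S ∩ X).card := Finset.card_union_le _ _
      _ ≤ _ := Nat.add_le_add_left h2 _
  have hCX : (C \ X).card + X.card = C.card := Finset.card_sdiff_add_card_eq_card hXC
  have hXL : L ^ 2 ≤ X.card := card_cross L
  have hCc : C.card = (2 * L).choose 2 := card_lt (2 * L)
  have hch : (2 * L).choose 2 ≤ 2 * L ^ 2 := by
    rw [Nat.choose_two_right]
    calc 2 * L * (2 * L - 1) / 2 ≤ 2 * L * (2 * L) / 2 :=
          Nat.div_le_div_right (Nat.mul_le_mul_left _ (Nat.sub_le _ _))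
      _ = 2 * L ^ 2 := by
          rw [show 2 * L * (2 * L) = 2 * (2 * L ^ 2) by ring, Nat.mul_div_cancel_left _ (by norm_num)]
  rw [hval]
  rw [hCc] at hCX
  have habs' : 2 * c0 * B.card ≤ (2 * c0 - 1) * L ^ 2 := habs
  obtain ⟨e, he⟩ : ∃ e, c0 = e + 1 := ⟨c0 - 1, by omega⟩
  have h2c : 2 * c0 - 1 = 2 * e + 1 := by omega
  have h4c : 4 * c0 - 1 = 4 * e + 3 := by omega
  rw [h2c] at habs'
  rw [h4c]
  subst he
  nlinarith [Nat.mul_le_mul_left (4 * (e + 1)) hSle, Nat.mul_le_mul_left (4 * (e + 1)) hXL]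

end Pool.Agent.Work.MP_3154ac_lc

end

section

/-!
# SQR: the length of the tuples
-/

set_option autoImplicit false

namespace Pool.Agent.Work.MP_3154ac_lc

theorem pr_SQR : S_SQR := by
  intro a b q hb hab hq
  have hr : 0 < Nat.sqrt q := Nat.sqrt_pos.mpr (by omega)
  unfold sS
  split_ifs with h
  · refine ⟨by omega, ?_⟩
    have h1 : 2 * (a - b) * (q - 1) / a ≤ 2 * (q - 1) := by
      refine Nat.div_le_of_le_mul ?_
      calc 2 * (a - b) * (q - 1) = (a - b) * (2 * (q - 1)) := by ring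
        _ ≤ a * (2 * (q - 1)) := Nat.mul_le_mul_right _ (Nat.sub_le a b)
    have h2 : q < (Nat.sqrt q + 1) * (Nat.sqrt q + 1) := Nat.lt_succ_sqrt q
    have h3 : Nat.sqrt (2 * (a - b) * (q - 1) / a) < 4 * Nat.sqrt q := by
      rw [Nat.sqrt_lt']
      refine lt_of_le_of_lt h1 ?_
      set r := Nat.sqrt q with hrdef
      have h4 : (r + 1) * (r + 1) ≤ (2 * r) * (2 * r) := Nat.mul_le_mul (by omega) (by omega)
      have h5 : 2 * (q - 1) < 2 * ((2 * r) * (2 * r)) := by omega
      calc 2 * (q - 1) < 2 * ((2 * r) * (2 * r)) := h5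
        _ ≤ (4 * r) ^ 2 := by nlinarith
    omega
  · exact ⟨by norm_num, by omega⟩

end Pool.Agent.Work.MP_3154ac_lc

end

section

/-!
# TUR: number of cliques in graphs without cliques of size `m + 1`
-/

set_option autoImplicit false

namespace Pool.Agent.Work.MP_3154ac_lc

open Finset

namespace I_TUR

theorem zero_of_ge (hMM : S_MM) (V : Type) [Fintype V] [DecidableEq V] (H : SimpleGraph V)
    [DecidableRel H.Adj] (m : ℕ) (h : cq H m = 0) (d : ℕ) : cq H (m + d) = 0 := by
  induction d with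
  | zero => exact h
  | succ d ih =>
    have h1 := hMM V H (m + d)
    rw [ih, zero_mul] at h1
    have h2 : (m + d + 1) * cq H (m + d + 1) ^ 2 = 0 := Nat.le_zero.1 h1
    rcases Nat.mul_eq_zero.1 h2 with h3 | h3
    · omega
    · exact pow_eq_zero_iff (two_ne_zero) |>.1 h3

theorem ratio (hMM : S_MM) (V : Type) [Fintype V] [DecidableEq V] (H : SimpleGraph V)
    [DecidableRel H.Adj] (m : ℕ) (h : cq H (m + 1) = 0) (j : ℕ) :
    ∀ s, s + j = m → m * cq H (s + 1) ≤ j * Fintype.card V * cq H s := by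
  induction j with
  | zero =>
    intro s hs
    have hs' : s = m := by omega
    subst hs'
    rw [h, mul_zero]
    exact Nat.zero_le _
  | succ j ih =>
    intro s hs
    have h1 := ih (s + 1) (by omega)
    have h2 := hMM V H s
    rcases Nat.eq_zero_or_pos (cq H (s + 1)) with h3 | h3
    · rw [h3, mul_zero]
      exact Nat.zero_le _
    · have h4 : (s + 1) * cq H (s + 1) * (m * cq H (s + 1)) ≤
          (s + 1) * cq H (s + 1) * ((j + 1) * Fintype.card V * cq H s) := by
        calc (s + 1) * cq H (s + 1) * (m * cq H (s + 1))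
            = m * ((s + 1) * cq H (s + 1) ^ 2) := by ring
          _ ≤ m * (cq H s * (Fintype.card V * cq H (s + 1) + s * cq H (s + 2))) :=
              Nat.mul_le_mul_left _ h2
          _ = cq H s * (m * Fintype.card V * cq H (s + 1) + s * (m * cq H (s + 2))) := by ring
          _ ≤ cq H s * (m * Fintype.card V * cq H (s + 1) +
                s * (j * Fintype.card V * cq H (s + 1))) :=
              Nat.mul_le_mul_left _ (Nat.add_le_add_left (Nat.mul_le_mul_left _ h1) _)
          _ = (s + 1) * cq H (s + 1) * ((j + 1) * Fintype.card V * cq H s) := by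
              subst hs
              ring
      exact Nat.le_of_mul_le_mul_left h4 (Nat.mul_pos (Nat.succ_pos s) h3)

theorem cq_zero_le (V : Type) [Fintype V] [DecidableEq V] (H : SimpleGraph V)
    [DecidableRel H.Adj] : cq H 0 ≤ 1 := by
  unfold cq
  refine le_trans (Finset.card_filter_le _ _) ?_
  rw [Finset.card_univ]
  simp

end I_TUR

theorem pr_TUR (hMM : S_MM) : S_TUR := by
  intro V _ _ H _ m hm h s
  induction s with
  | zero =>
    rw [pow_zero, mul_one, pow_zero, one_mul, Nat.descFactorial_zero]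
    exact I_TUR.cq_zero_le V H
  | succ s ih =>
    rcases Nat.lt_or_ge m s with hs | hs
    · have h1 : cq H (s + 1) = 0 := by
        have h2 := I_TUR.zero_of_ge hMM V H (m + 1) h (s - m)
        have h3 : m + 1 + (s - m) = s + 1 := by omega
        rwa [h3] at h2
      rw [h1, zero_mul]
      exact Nat.zero_le _
    · have h1 := I_TUR.ratio hMM V H m h (m - s) s (by omega)
      calc cq H (s + 1) * m ^ (s + 1) = m * cq H (s + 1) * m ^ s := by ring
        _ ≤ (m - s) * Fintype.card V * cq H s * m ^ s := Nat.mul_le_mul_right _ h1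
        _ = (m - s) * Fintype.card V * (cq H s * m ^ s) := by ring
        _ ≤ (m - s) * Fintype.card V * (Fintype.card V ^ s * m.descFactorial s) :=
            Nat.mul_le_mul_left _ ih
        _ = Fintype.card V ^ (s + 1) * m.descFactorial (s + 1) := by
            rw [Nat.descFactorial_succ]
            ring

end Pool.Agent.Work.MP_3154ac_lc

end

section

/-!
# VLD: the new instance is valid
-/

set_option autoImplicit false

namespace Pool.Agent.Work.MP_3154ac_lc

theorem pr_VLD : S_VLD := by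
  intro G s K L W M hM
  refine ⟨?_, ?_, ?_⟩
  · simp [red]
  · intro p hp
    simp only [red, List.mem_map, List.mem_range] at hp ⊢
    obtain ⟨u, hu, rfl⟩ := hp
    apply Nat.div_lt_of_lt_mul
    rwa [Nat.mul_comm M (2 * L)]
  · intro i hi
    simp only [red, List.mem_map, List.mem_range] at hi ⊢
    refine ⟨i * M, ?_, ?_⟩
    · exact Nat.mul_lt_mul_of_pos_right hi hM
    · exact Nat.mul_div_cancel i hM

end Pool.Agent.Work.MP_3154ac_lc

end

section

/-!
# The main theorem
-/

set_option autoImplicit false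

namespace Pool.Agent.Work.MP_3154ac_lc

theorem main : Main := by
  have hABS := pr_ABS (pr_BAD pr_HASH) (pr_GLO pr_DIG)
  exact asm pr_AUX pr_APT pr_RPT (pr_CNT (pr_TUR pr_MM) pr_NV pr_BON)
    (pr_SND hABS pr_ROOT pr_DIG) (pr_CPL pr_ROOT pr_DIG pr_VLD) pr_VLD pr_SQR

end Pool.Agent.Work.MP_3154ac_lc

end

section

/-!
# Item AUX2 : computability of the auxiliary data, general gap
-/

set_option autoImplicit false

namespace Pool.Agent.Work.MP_3154ac_lc

namespace I_AUX2

theorem pw : Primrec₂ ((· ^ ·) : ℕ → ℕ → ℕ) := Primrec₂.unpaired'.1 Nat.Primrec.pow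

theorem fac : Primrec Nat.factorial := by
  have h : Primrec₂ fun (n ih : ℕ) => (n + 1) * ih :=
    Primrec.nat_mul.comp (Primrec.succ.comp Primrec.fst) Primrec.snd
  refine (Primrec.nat_rec₁ 1 h).of_eq fun n => ?_
  induction n with
  | zero => rfl
  | succ n ih => rw [Nat.factorial_succ, ← ih]

theorem rep : Primrec fun n : ℕ => List.replicate n true := by
  have h : Primrec₂ fun (_ : ℕ) (l : List Bool) => true :: l :=
    Primrec.list_cons.comp (Primrec.const true) Primrec.snd
  refine (Primrec.nat_rec₁ [] h).of_eq fun n => ?_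
  induction n with
  | zero => rfl
  | succ n ih => rw [List.replicate_succ, ← ih]

variable {α : Type} [Primcodable α]

theorem cnd (a b : ℕ) {q : α → ℕ} (hq : Primrec q) :
    PrimrecPred fun x => a ≤ (a - b) * (q x - 1) :=
  Primrec.nat_le.comp (Primrec.const a)
    (Primrec.nat_mul.comp (Primrec.const (a - b)) (Primrec.nat_sub.comp hq (Primrec.const 1)))

theorem sSp (a b : ℕ) {q : α → ℕ} (hq : Primrec q) : Primrec fun x => sS a b (q x) := by
  unfold sS
  refine Primrec.ite (cnd a b hq) ?_ (Primrec.const 2)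
  refine Primrec.succ.comp (Primrec.nat_sqrt.comp ?_)
  exact Primrec.nat_div.comp (Primrec.nat_mul.comp (Primrec.const (2 * (a - b)))
    (Primrec.nat_sub.comp hq (Primrec.const 1))) (Primrec.const a)

theorem kKp (a b : ℕ) {q k : α → ℕ} (hq : Primrec q) (hk : Primrec k) :
    Primrec fun x => kK a b (q x) (k x) := by
  unfold kK
  exact Primrec.ite (cnd a b hq) hk hq

theorem cnd2 {q k : α → ℕ} (hq : Primrec q) (hk : Primrec k) :
    PrimrecPred fun x => 2 * q x ≤ k x :=
  Primrec.nat_le.comp (Primrec.nat_mul.comp (Primrec.const 2) hq) hk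

theorem ssp {q k : α → ℕ} (hq : Primrec q) (hk : Primrec k) :
    Primrec fun x => ss (q x) (k x) := by
  unfold ss
  refine Primrec.ite (cnd2 hq hk) (sSp 2 1 hq) ?_
  refine Primrec.nat_mul.comp (Primrec.const 2) (Primrec.succ.comp (Primrec.nat_sqrt.comp ?_))
  exact Primrec.nat_div.comp (Primrec.nat_mul.comp hk hk) (Primrec.nat_sub.comp hk hq)

theorem kkp {q k : α → ℕ} (hq : Primrec q) (hk : Primrec k) :
    Primrec fun x => kk (q x) (k x) := by
  unfold kk
  exact Primrec.ite (cnd2 hq hk) (kKp 2 1 hq hk) hk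

theorem Lp {s K : α → ℕ} (hs : Primrec s) (hK : Primrec K) :
    Primrec fun x => K x ^ s x * (2 * K x ^ (s x + 1) * s x ^ 2) := by
  refine Primrec.nat_mul.comp (pw.comp hK hs) ?_
  refine Primrec.nat_mul.comp ?_ (pw.comp hs (Primrec.const 2))
  exact Primrec.nat_mul.comp (Primrec.const 2) (pw.comp hK (Primrec.succ.comp hs))

theorem auxPp {q k : α → ℕ} (hq : Primrec q) (hk : Primrec k) :
    Primrec fun x => auxP2 (q x) (k x) := by
  have hs := ssp hq hk
  have hK := kkp hq hk
  have hL := Lp hs hK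
  have hF := fac.comp hL
  have hA : Primrec fun x => (2 * ((kk (q x) (k x) ^ ss (q x) (k x) *
      (2 * kk (q x) (k x) ^ (ss (q x) (k x) + 1) * ss (q x) (k x) ^ 2)) *
      (kk (q x) (k x) ^ ss (q x) (k x) *
      (2 * kk (q x) (k x) ^ (ss (q x) (k x) + 1) * ss (q x) (k x) ^ 2)).factorial + 1)) ^
        kk (q x) (k x) := by
    refine pw.comp ?_ hK
    refine Primrec.nat_mul.comp (Primrec.const 2) (Primrec.succ.comp ?_)
    exact Primrec.nat_mul.comp hL hF
  have hnil : Primrec fun _ : α => ([] : List (List Bool)) := Primrec.const []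
  unfold auxP2
  refine Primrec.ite (Primrec.nat_le.comp hq (Primrec.const 1)) ?_ ?_
  · exact Primrec.list_cons.comp (Primrec.const []) (Primrec.list_cons.comp (rep.comp hq) hnil)
  · exact Primrec.list_cons.comp (Primrec.const [true])
      (Primrec.list_cons.comp (rep.comp hs) (Primrec.list_cons.comp (rep.comp hK)
        (Primrec.list_cons.comp (rep.comp hL) (Primrec.list_cons.comp (rep.comp hF)
          (Primrec.list_cons.comp (rep.comp hA) hnil)))))

end I_AUX2

open I_AUX2 in
theorem pr_AUX2 : S_AUX2 := by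
  constructor
  · exact (auxPp Primrec.fst Primrec.snd).to_comp
  · have h : Primrec fun p : ℕ × ℕ => newK2 p.1 p.2 := by
      unfold newK2
      exact Primrec.nat_mul.comp (Primrec.const 2)
        (Lp (ssp Primrec.fst Primrec.snd) (kkp Primrec.fst Primrec.snd))
    exact h.to_comp

end Pool.Agent.Work.MP_3154ac_lc

end
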