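import Pool.Agent.Work.MP_3154ac_lc.E.Stmts

/-! Bundle of small proof modules (one section per former module). -/

section

/-! # CHK: meaning of `chk` -/

set_option autoImplicit false

namespace Pool.Agent.Work.MP_3154ac_lc.E

theorem pr_CHK (hC : S_CST) : S_CHK := by
  intro q e1 e2 n x y _ p P
  obtain ⟨-, -, -, -, -, h⟩ := hC q
  unfold chk
  rw [List.all_eq_true]
  simp only [List.mem_range, decide_eq_true_eq]
  refine forall_congr' fun l => forall_congr' fun _ => ?_
  obtain ⟨h1, h2⟩ := h e1 (fun i => p i l) x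
  obtain ⟨h3, h4⟩ := h e2 (fun i => P i l) y
  rw [← h2, ← h4, ZMod.natCast_eq_natCast_iff', Nat.mod_eq_of_lt h1, Nat.mod_eq_of_lt h3]

end Pool.Agent.Work.MP_3154ac_lc.E

end

section

/-!
# CLQ: cliques and the adjacency function
-/

set_option autoImplicit false

namespace Pool.Agent.Work.MP_3154ac_lc.E

open N68a2faeb Finset Pool.Agent.PT

namespace CLQ

theorem adE_iff (G : Code) (u v : ℕ) (hu : u < G.length) (hv : v < G.length) :
    adE G u v = true ↔ (graph G).Adj ⟨u, hu⟩ ⟨v, hv⟩ := by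
  unfold adE adjB graph
  simp only [Bool.and_eq_true, decide_eq_true_eq, Bool.or_eq_true, ne_eq, Fin.mk.injEq]
  tauto

end CLQ

open CLQ in
theorem pr_CLQ : S_CLQ := by
  intro G k
  constructor
  · rintro ⟨s, hs⟩
    obtain ⟨hs1, hs2⟩ := hs
    have e := (s.equivFinOfCardEq hs2).symm
    refine ⟨fun i => if h : i < k then ((e ⟨i, h⟩ : Fin G.length) : ℕ) else 0, ?_, ?_⟩
    · intro i hi
      simp only [hi, dif_pos]
      exact (e ⟨i, hi⟩ : Fin G.length).2
    · intro i hi j hj hij
      simp only [hi, hj, dif_pos]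
      rw [adE_iff G _ _ (e ⟨i, hi⟩ : Fin G.length).2 (e ⟨j, hj⟩ : Fin G.length).2]
      refine hs1 (Finset.mem_coe.mpr (e ⟨i, hi⟩).2) (Finset.mem_coe.mpr (e ⟨j, hj⟩).2) ?_
      intro h
      have h2 : e ⟨i, hi⟩ = e ⟨j, hj⟩ := Subtype.ext h
      have h3 := e.injective h2
      exact hij (congrArg Fin.val h3)
  · rintro ⟨v, hv1, hv2⟩
    let f : Fin k → Fin G.length := fun i => ⟨v i, hv1 i i.2⟩
    have hadj : ∀ i j : Fin k, i ≠ j → (graph G).Adj (f i) (f j) := by
      intro i j hij
      exact (adE_iff G _ _ _ _).mp (hv2 i i.2 j j.2 fun h => hij (Fin.ext h))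
    have hinj : Function.Injective f := by
      intro i j hij
      by_contra h
      have := hadj i j h
      rw [hij] at this
      exact (graph G).loopless.irrefl _ this
    refine ⟨Finset.univ.map ⟨f, hinj⟩, ?_, ?_⟩
    · intro x hx y hy hxy
      rw [Finset.mem_coe, Finset.mem_map] at hx hy
      obtain ⟨i, -, rfl⟩ := hx
      obtain ⟨j, -, rfl⟩ := hy
      exact hadj i j fun h => hxy (by rw [h])
    · rw [Finset.card_map, Finset.card_univ, Fintype.card_fin]

end Pool.Agent.Work.MP_3154ac_lc.E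

end

section

/-!
# CNA: completeness, abstract form
-/

set_option autoImplicit false

namespace Pool.Agent.Work.MP_3154ac_lc.E

open N68a2faeb Finset Pool.Agent.PT Polynomial

theorem pr_CNA (hA : S_CPA) (hB : S_CPB) (hI : S_IDC) (hD : S_DIG) : S_CNA := by
  intro q k h d e N M n _ adj I J v hadm hIdeg hJdeg hIev hJev hvN hadj
  have hk : 2 ≤ k := hadm.hk
  have hh : 1 ≤ h := hadm.hh
  have hk3 : 0 < k ^ 3 := by positivity
  have hhk : k ^ 3 ≤ h * k ^ 3 := Nat.le_mul_of_pos_left _ hh
  have hhk2 : h ≤ h * k ^ 3 := Nat.le_mul_of_pos_right _ hk3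
  have h1 := hadm.h1
  have hkk : k * k ≤ k ^ 3 := by
    rw [← pow_two]
    exact Nat.pow_le_pow_right (by omega) (by omega)
  have hkq : k * k ≤ q := by omega
  have hhq : h ≤ q := by omega
  have hIs : ∀ s < k, I.eval (s : ZMod q) = s := by
    intro s hs
    have hs2 : s < k * k := lt_of_lt_of_le hs (Nat.le_mul_of_pos_left _ (by omega))
    rw [hIev s hs2, Nat.mod_eq_of_lt hs]
  have hdig : ∀ c i : ℕ, dig h c (v i) < h := fun c i => (hD h hh).2.1 c (v i)
  choose QA QR hQA hQR using fun c : ℕ => hA q k h I (fun i => dig h c (v i)) (by omega) hkq hh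
    hIdeg hIs (fun i _ => hdig c i)
  have hPhi : ∀ s < k * k, s % k ≠ s / k →
      Phi h (d * d) N adj (fun c => ev k (fun s => QA c s) (I.eval (s : ZMod q)))
        (fun c => ev k (fun s => QA c s) (J.eval (s : ZMod q))) = 0 := by
    intro s hs hne
    have hs1 : s % k < k := Nat.mod_lt _ (by omega)
    have hs2 : s / k < k := Nat.div_lt_of_lt_mul hs
    rw [hIev s hs, hJev s hs]
    refine (hI q h (d * d) N adj _ _ (v (s % k)) (v (s / k)) hh hhq hadm.h9 (hvN _ hs1)
      (hvN _ hs2) ?_ ?_).2 (hadj _ hs1 _ hs2 hne)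
    · intro c _
      exact hQA c _ hs1
    · intro c _
      exact hQA c _ hs2
  have h6 : 2 * (d * d * h * k ^ 3) < e ^ 3 := by
    have := hadm.h6
    rw [pow_two] at this
    exact this
  obtain ⟨QW, hQW⟩ := hB q k h (d * d) e N adj I J (fun s c => QA c s) (by omega) hadm.he hkq h6
    hIdeg hJdeg hPhi
  exact ⟨fun s c => QA c s, fun s c => QR c s, QW, fun x => ⟨fun c _ => hQR c x, hQW x⟩⟩

end Pool.Agent.Work.MP_3154ac_lc.E

end

section

/-!
# COD: codes with given digits
-/

set_option autoImplicit false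

namespace Pool.Agent.Work.MP_3154ac_lc.E

theorem pr_COD (hD : S_DIG) : S_COD := by
  intro q n M hq f hM
  have hq1 : 1 ≤ q := hq.out.one_lt.le
  haveI : NeZero q := ⟨by omega⟩
  obtain ⟨j, hj, h⟩ := (hD q hq1).2.2.1 n (fun a => (f a).val) (fun a _ => ZMod.val_lt (f a))
  refine ⟨j, lt_of_lt_of_le hj hM, fun c hc => ?_⟩
  rw [h c hc]
  exact ZMod.natCast_zmod_val (f c)

end Pool.Agent.Work.MP_3154ac_lc.E

end

section

/-! Item CPA: the polynomials `A`, `R` of one coordinate. -/

set_option autoImplicit false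

namespace Pool.Agent.Work.MP_3154ac_lc.E

open N68a2faeb Finset Pool.Agent.PT Polynomial

namespace CPA

theorem ev_coeff {F : Type} [Field F] (p : F[X]) {n : ℕ} (h : p.natDegree < n) (x : F) :
    ev n p.coeff x = p.eval x := by
  unfold ev
  exact (Polynomial.eval_eq_sum_range' h x).symm

theorem cast_ne {q k i j : ℕ} (hq : k ≤ q) (hi : i < k) (hj : j < k) (h : i ≠ j) :
    (i : ZMod q) ≠ (j : ZMod q) := by
  intro h1
  rw [ZMod.natCast_eq_natCast_iff', Nat.mod_eq_of_lt (by omega), Nat.mod_eq_of_lt (by omega)] at h1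
  exact h h1

end CPA

open CPA in
theorem pr_CPA : S_CPA := by
  intro q k h _ I y hk hkq hh hI hIe hy
  have hkk : k ≤ k * k := Nat.le_mul_self k
  have hkq' : k ≤ q := hkk.trans hkq
  have hinj : Set.InjOn (fun i : ℕ => (i : ZMod q)) (range k : Set ℕ) := by
    intro i hi j hj hij
    by_contra hne
    exact cast_ne hkq' (by simpa using hi) (by simpa using hj) hne hij
  set A : (ZMod q)[X] := Lagrange.interpolate (range k) (fun i : ℕ => (i : ZMod q))
    (fun i : ℕ => ((y i : ℕ) : ZMod q)) with hA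
  have hAd : A.natDegree < k := by
    have h1 := Lagrange.degree_interpolate_lt (fun i : ℕ => ((y i : ℕ) : ZMod q)) hinj
    rw [card_range] at h1
    by_cases h0 : A = 0
    · rw [h0, natDegree_zero]
      omega
    · exact (natDegree_lt_iff_degree_lt h0).mpr h1
  have hAe : ∀ i < k, A.eval (i : ZMod q) = ((y i : ℕ) : ZMod q) := fun i hi =>
    Lagrange.eval_interpolate_at_node (fun i : ℕ => ((y i : ℕ) : ZMod q)) hinj (mem_range.mpr hi)
  have hId : I.natDegree ≤ k * k - 1 := by
    by_cases h0 : I = 0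
    · rw [h0, natDegree_zero]
      exact Nat.zero_le _
    · have := (natDegree_lt_iff_degree_lt h0).mpr hI
      omega
  set B : (ZMod q)[X] := ∏ η ∈ range h, (A.comp I - C ((η : ℕ) : ZMod q)) with hB
  have hBe : ∀ x, B.eval x = ∏ η ∈ range h, (A.eval (I.eval x) - ((η : ℕ) : ZMod q)) := by
    intro x
    rw [hB, eval_prod]
    refine prod_congr rfl fun η _ => ?_
    rw [eval_sub, eval_comp, eval_C]
  have hcd : (A.comp I).natDegree ≤ (k - 1) * (k * k - 1) := by
    refine natDegree_comp_le.trans ?_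
    exact Nat.mul_le_mul (by omega) hId
  have hBd : B.natDegree ≤ h * ((k - 1) * (k * k - 1)) := by
    rw [hB]
    refine (natDegree_prod_le _ _).trans ?_
    have h1 : ∀ η ∈ range h, (A.comp I - C ((η : ℕ) : ZMod q)).natDegree ≤
        (k - 1) * (k * k - 1) := by
      intro η _
      rw [natDegree_sub_C]
      exact hcd
    refine (sum_le_card_nsmul _ _ _ h1).trans ?_
    rw [card_range, smul_eq_mul]
  have hdvd : (∏ s ∈ range k, (X - C ((s : ℕ) : ZMod q))) ∣ B := by
    refine prod_dvd_of_coprime ?_ ?_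
    · intro i hi j hj hij
      have h1 := cast_ne hkq' (by simpa using hi) (by simpa using hj) hij
      exact isCoprime_X_sub_C_of_isUnit_sub (sub_ne_zero.mpr h1).isUnit
    · intro s hs
      have hs' := mem_range.mp hs
      rw [dvd_iff_isRoot, IsRoot.def, hBe, hIe s hs', hAe s hs']
      exact prod_eq_zero (mem_range.mpr (hy s hs')) (sub_self _)
  obtain ⟨R, hR⟩ := hdvd
  have hlt : (k - 1) * (k * k - 1) < k ^ 3 := by
    have e1 : (k - 1) * (k * k - 1) ≤ (k - 1) * (k * k) := Nat.mul_le_mul_left _ (Nat.sub_le _ _)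
    have e2 : (k - 1) * (k * k) < k * (k * k) :=
      Nat.mul_lt_mul_of_pos_right (by omega) (Nat.mul_pos (by omega) (by omega))
    have e3 : k * (k * k) = k ^ 3 := by ring
    omega
  have hRd : R.natDegree < h * k ^ 3 := by
    by_cases h0 : R = 0
    · rw [h0, natDegree_zero]
      positivity
    · have hm : (∏ s ∈ range k, (X - C ((s : ℕ) : ZMod q))).Monic :=
        monic_prod_of_monic _ _ fun s _ => monic_X_sub_C _
      have h1 : R.natDegree ≤ B.natDegree := by
        rw [hR, natDegree_mul hm.ne_zero h0]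
        exact Nat.le_add_left _ _
      have h2 : h * ((k - 1) * (k * k - 1)) < h * k ^ 3 :=
        Nat.mul_lt_mul_of_pos_left hlt (by omega)
      omega
  refine ⟨A.coeff, R.coeff, ?_, ?_⟩
  · intro i hi
    rw [ev_coeff A hAd, hAe i hi]
  · intro x
    rw [ev_coeff R hRd]
    have h1 : ∀ η ∈ range h, ev k A.coeff (I.eval x) - ((η : ℕ) : ZMod q) =
        A.eval (I.eval x) - ((η : ℕ) : ZMod q) := by
      intro η _
      rw [ev_coeff A hAd]
    rw [prod_congr rfl h1, ← hBe x, hR, eval_mul, eval_prod]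
    unfold Zk
    simp only [eval_sub, eval_X, eval_C]

end Pool.Agent.Work.MP_3154ac_lc.E

end

section

set_option autoImplicit false

namespace Pool.Agent.Work.MP_3154ac_lc.E

open N68a2faeb Finset Pool.Agent.PT Polynomial

theorem pr_CPB (hP : S_POL) (hF : S_FLD) : S_CPB := by
  classical
  intro q k h m e N _ adj I J QA hk he hkq hdeg hI hJ hz
  obtain ⟨P, hPd, hPe⟩ := hP q k h m N adj I J QA hk hI hJ
  set A := (range (k * k)).filter (fun s => s % k ≠ s / k) with hA
  set D : (ZMod q)[X] := ∏ s ∈ A, (X - C ((s : ℕ) : ZMod q)) with hD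
  have hDm : D.Monic := monic_prod_of_monic _ _ (fun s _ => monic_X_sub_C _)
  have hdvd : D ∣ P := by
    apply Finset.prod_dvd_of_coprime
    · intro a ha b hb hab
      have ha' := Finset.mem_range.1 (Finset.mem_filter.1 (Finset.mem_coe.1 ha)).1
      have hb' := Finset.mem_range.1 (Finset.mem_filter.1 (Finset.mem_coe.1 hb)).1
      apply isCoprime_X_sub_C_of_isUnit_sub
      apply IsUnit.mk0
      rw [sub_ne_zero]
      intro hc
      apply hab
      have h1 := (ZMod.natCast_eq_natCast_iff' a b q).1 hc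
      rwa [Nat.mod_eq_of_lt (lt_of_lt_of_le ha' hkq), Nat.mod_eq_of_lt (lt_of_lt_of_le hb' hkq)] at h1
    · intro s hs
      rw [dvd_iff_isRoot]
      have hs' := Finset.mem_filter.1 hs
      have := hz s (Finset.mem_range.1 hs'.1) hs'.2
      rw [← hPe] at this
      exact this
  obtain ⟨R, hR⟩ : ∃ R : (ZMod q)[X], P = D * R ∧ R.natDegree ≤ P.natDegree := by
    obtain ⟨R, hR⟩ := hdvd
    by_cases h0 : R = 0
    · exact ⟨0, by rw [hR, h0], by simp⟩
    · refine ⟨R, hR, ?_⟩
      rw [hR, hDm.natDegree_mul' h0]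
      omega
  obtain ⟨QW, hQW⟩ := (hF (ZMod q) e he).2 R (by
    have := hR.2
    omega)
  refine ⟨QW, fun x => ?_⟩
  rw [← hPe x, hR.1, eval_mul, hQW x]
  congr 1
  rw [hD, eval_prod, Zp]
  apply Finset.prod_congr (by rw [hA])
  intro s _
  simp

end Pool.Agent.Work.MP_3154ac_lc.E

end

section

set_option autoImplicit false

namespace Pool.Agent.Work.MP_3154ac_lc.E

open Finset

namespace CPC

variable {F : Type} [Field F]

theorem ev_congr {e : ℕ} {c c' : ℕ → F} (h : ∀ i < e, c i = c' i) (x : F) :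
    ev e c x = ev e c' x := by
  unfold ev
  refine Finset.sum_congr rfl fun i hi => ?_
  rw [h i (Finset.mem_range.1 hi)]

theorem ev_swap (e1 e2 : ℕ) (Q : ℕ → ℕ → F) (x y : F) :
    ev e2 (fun i => ev e1 (fun s => Q s i) x) y = ev e1 (fun s => ev e2 (fun i => Q s i) y) x := by
  unfold ev
  simp only [Finset.sum_mul]
  rw [Finset.sum_comm]
  refine Finset.sum_congr rfl fun s _ => Finset.sum_congr rfl fun i _ => ?_
  ring

theorem ex12 {e1 e2 e3 : ℕ} {ι : F → F} {p1 p2 : F → ℕ → ℕ → F} {a b : F}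
    (Q : ℕ → ℕ → ℕ → F)
    (h1 : ∀ i < e2, ∀ l < e3, p1 a i l = ev e1 (fun s => Q s i l) (ι a))
    (h2 : ∀ s < e1, ∀ l < e3, p2 b s l = ev e2 (fun i => Q s i l) b) :
    ¬ In12 e1 e2 e3 ι p1 p2 a b := by
  rintro ⟨l, hl, hne⟩
  apply hne
  rw [ev_congr (c' := fun i => ev e1 (fun s => Q s i l) (ι a)) (fun i hi => h1 i hi l hl),
    ev_congr (c' := fun s => ev e2 (fun i => Q s i l) b) (fun s hs => h2 s hs l hl)]
  exact ev_swap e1 e2 (fun s i => Q s i l) _ _

theorem ex13 {e1 e2 e3 : ℕ} {ι : F → F} {p1 p3 : F → ℕ → ℕ → F} {a c : F}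
    (Q : ℕ → ℕ → ℕ → F)
    (h1 : ∀ i < e2, ∀ l < e3, p1 a i l = ev e1 (fun s => Q s i l) (ι a))
    (h3 : ∀ s < e1, ∀ i < e2, p3 c s i = ev e3 (fun l => Q s i l) c) :
    ¬ In13 e1 e2 e3 ι p1 p3 a c := by
  rintro ⟨i, hi, hne⟩
  apply hne
  rw [ev_congr (c' := fun l => ev e1 (fun s => Q s i l) (ι a)) (fun l hl => h1 i hi l hl),
    ev_congr (c' := fun s => ev e3 (fun l => Q s i l) c) (fun s hs => h3 s hs i hi)]
  exact ev_swap e1 e3 (fun s l => Q s i l) _ _

theorem ex23 {e1 e2 e3 : ℕ} {p2 p3 : F → ℕ → ℕ → F} {b c : F}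
    (Q : ℕ → ℕ → ℕ → F)
    (h2 : ∀ s < e1, ∀ l < e3, p2 b s l = ev e2 (fun i => Q s i l) b)
    (h3 : ∀ s < e1, ∀ i < e2, p3 c s i = ev e3 (fun l => Q s i l) c) :
    ¬ In23 e1 e2 e3 p2 p3 b c := by
  rintro ⟨s, hs, hne⟩
  apply hne
  rw [ev_congr (c' := fun l => ev e2 (fun i => Q s i l) b) (fun l hl => h2 s hs l hl),
    ev_congr (c' := fun i => ev e3 (fun l => Q s i l) c) (fun i hi => h3 s hs i hi)]
  exact ev_swap e2 e3 (fun i l => Q s i l) _ _

theorem ind_congr {h m u : ℕ} {α α' : ℕ → F} (hα : ∀ c < m, α c = α' c) :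
    Ind h m u α = Ind h m u α' := by
  unfold Ind
  refine Finset.prod_congr rfl fun c hc => ?_
  rw [hα c (Finset.mem_range.1 hc)]

theorem t2_congr {k h d e N : ℕ} {adj : ℕ → ℕ → Bool} {x : F} {α β ρ α' β' ρ' : ℕ → F}
    {ω ω' : ℕ → ℕ → F} (hα : ∀ c < d * d, α c = α' c) (hβ : ∀ c < d * d, β c = β' c)
    (hρ : ∀ c < d * d, ρ c = ρ' c) (hω : ∀ i < e, ∀ l < e, ω i l = ω' i l)
    (H : T2 k h d e N adj x α' β' ρ' ω') : T2 k h d e N adj x α β ρ ω := by
  refine ⟨fun c hc => ?_, ?_⟩
  · rw [hα c hc, hρ c hc]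
    exact H.1 c hc
  · have h1 : Phi h (d * d) N adj α β = Phi h (d * d) N adj α' β' := by
      unfold Phi
      refine Finset.sum_congr rfl fun u _ => Finset.sum_congr rfl fun v _ => ?_
      rw [ind_congr hα, ind_congr hβ]
    have h2 : ev e (fun i => ev e (fun l => ω i l) (x ^ (e * e))) (x ^ e) =
        ev e (fun i => ev e (fun l => ω' i l) (x ^ (e * e))) (x ^ e) :=
      ev_congr (fun i hi => ev_congr (fun l hl => hω i hi l hl) _) _
    rw [h1, h2]
    exact H.2

theorem idx {d i l : ℕ} (hi : i < d) (hl : l < d) : d * i + l < d * d := by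
  calc d * i + l < d * i + d := by omega
    _ = d * (i + 1) := by ring
    _ ≤ d * d := Nat.mul_le_mul_left d hi

end CPC

open CPC in
theorem pr_CPC : S_CPC := by
  intro F _ k h d e N adj I J QA QR QW α β ρ ω A2 R2 W2 A3 R3 W3 hT hαβρ hω hA hR hW x y
  have hTx : ∀ z, T2 k h d e N adj z (α z) (β z) (ρ z) (ω z) := fun z =>
    t2_congr (fun c hc => (hαβρ z c hc).1) (fun c hc => (hαβρ z c hc).2.1)
      (fun c hc => (hαβρ z c hc).2.2) (fun i hi l hl => hω z i hi l hl) (hT z)
  refine ⟨?_, ?_, ?_⟩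
  · rintro (h1 | h1 | h1 | h1 | h1)
    · exact h1 (hTx x)
    · exact ex12 (fun s i l => QA s (d * i + l))
        (fun i hi l hl => (hαβρ x _ (idx hi hl)).1) (fun s hs l hl => (hA y s hs l hl).1) h1
    · exact ex12 (fun s i l => QA s (d * i + l))
        (fun i hi l hl => (hαβρ x _ (idx hi hl)).2.1) (fun s hs l hl => (hA y s hs l hl).1) h1
    · exact ex12 (fun s i l => QR s (d * i + l))
        (fun i hi l hl => (hαβρ x _ (idx hi hl)).2.2) (fun s hs l hl => (hR y s hs l hl).1) h1
    · exact ex12 (fun s i l => QW s i l)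
        (fun i hi l hl => hω x i hi l hl) (fun s hs l hl => (hW y s hs l hl).1) h1
  · rintro (h1 | h1 | h1 | h1 | h1)
    · exact h1 (hTx x)
    · exact ex13 (fun s i l => QA s (d * i + l))
        (fun i hi l hl => (hαβρ x _ (idx hi hl)).1) (fun s hs i hi => (hA y s hs i hi).2) h1
    · exact ex13 (fun s i l => QA s (d * i + l))
        (fun i hi l hl => (hαβρ x _ (idx hi hl)).2.1) (fun s hs i hi => (hA y s hs i hi).2) h1
    · exact ex13 (fun s i l => QR s (d * i + l))
        (fun i hi l hl => (hαβρ x _ (idx hi hl)).2.2) (fun s hs i hi => (hR y s hs i hi).2) h1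
    · exact ex13 (fun s i l => QW s i l)
        (fun i hi l hl => hω x i hi l hl) (fun s hs i hi => (hW y s hs i hi).2) h1
  · rintro (h1 | h1 | h1)
    · exact ex23 (fun s i l => QA s (d * i + l))
        (fun s hs l hl => (hA x s hs l hl).1) (fun s hs i hi => (hA y s hs i hi).2) h1
    · exact ex23 (fun s i l => QR s (d * i + l))
        (fun s hs l hl => (hR x s hs l hl).1) (fun s hs i hi => (hR y s hs i hi).2) h1
    · exact ex23 (fun s i l => QW s i l)
        (fun s hs l hl => (hW x s hs l hl).1) (fun s hs i hi => (hW y s hs i hi).2) h1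

end Pool.Agent.Work.MP_3154ac_lc.E

end

section

/-! Item CST (helper42): the operations modulo a prime. -/

set_option autoImplicit false

namespace Pool.Agent.Work.MP_3154ac_lc.E

open N68a2faeb Finset Pool.Agent.PT Polynomial

namespace CST

theorem md_lt (q x : ℕ) [Fact q.Prime] : md q x < q := by
  have hq : 0 < q := (Fact.out : q.Prime).pos
  unfold md
  rw [if_neg hq.ne']
  exact Nat.mod_lt _ hq

theorem md_cast (q x : ℕ) [Fact q.Prime] : ((md q x : ℕ) : ZMod q) = x := by
  have hq : 0 < q := (Fact.out : q.Prime).pos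
  unfold md
  rw [if_neg hq.ne', ZMod.natCast_mod]

theorem pm_lt (q n : ℕ) (f : ℕ → ℕ) [Fact q.Prime] : pm q n f < q := by
  have hq : 1 < q := (Fact.out : q.Prime).one_lt
  unfold pm
  cases n with
  | zero => simpa using hq
  | succ n =>
    rw [List.range_succ, List.foldl_append]
    exact md_lt q _

theorem pm_cast (q n : ℕ) (f : ℕ → ℕ) [Fact q.Prime] :
    ((pm q n f : ℕ) : ZMod q) = ∏ i ∈ range n, ((f i : ℕ) : ZMod q) := by
  unfold pm
  induction n with
  | zero => simp
  | succ n ih =>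
    rw [List.range_succ, List.foldl_append, prod_range_succ, ← ih]
    simp only [List.foldl_cons, List.foldl_nil]
    rw [md_cast, Nat.cast_mul]

theorem sm_eq (n : ℕ) (f : ℕ → ℕ) : sm n f = ∑ i ∈ range n, f i := by
  unfold sm
  induction n with
  | zero => simp
  | succ n ih =>
    rw [List.range_succ, List.map_append, List.sum_append, sum_range_succ, ih]
    simp

theorem dm_cast (q x y : ℕ) [Fact q.Prime] : ((dm q x y : ℕ) : ZMod q) = (x : ZMod q) - y := by
  unfold dm
  rw [Nat.cast_add, Nat.cast_sub (md_lt q y).le, md_cast, ZMod.natCast_self]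
  ring

theorem wm_lt (q b i : ℕ) [Fact q.Prime] : wm q b i < q := pm_lt q i _

theorem wm_cast (q b i : ℕ) [Fact q.Prime] : ((wm q b i : ℕ) : ZMod q) = (b : ZMod q) ^ i := by
  unfold wm
  rw [pm_cast, prod_const, card_range]

end CST

theorem pr_CST : S_CST := by
  intro q _
  refine ⟨fun x => ⟨CST.md_lt q x, CST.md_cast q x⟩, fun n f => ⟨CST.pm_lt q n f, CST.pm_cast q n f⟩,
    CST.sm_eq, fun x y => CST.dm_cast q x y, fun b i => ⟨CST.wm_lt q b i, CST.wm_cast q b i⟩, fun e c x =>
    ⟨CST.md_lt q _, ?_⟩⟩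
  unfold evn ev
  rw [CST.md_cast, CST.sm_eq, Nat.cast_sum]
  exact sum_congr rfl fun i _ => by rw [Nat.cast_mul, CST.wm_cast]

end Pool.Agent.Work.MP_3154ac_lc.E

end

section

/-!
# EDG: meaning of the edges of the new graph
-/

set_option autoImplicit false

namespace Pool.Agent.Work.MP_3154ac_lc.E

open N68a2faeb Finset Pool.Agent.PT Polynomial

namespace EDG

theorem not_in12 {F : Type} [Field F] (e1 e2 e3 : ℕ) (ι : F → F) (p1 p2 : F → ℕ → ℕ → F)
    (a b : F) : ¬ In12 e1 e2 e3 ι p1 p2 a b ↔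
      ∀ l < e3, ev e2 (fun i => p1 a i l) b = ev e1 (fun s => p2 b s l) (ι a) := by
  unfold In12
  push Not
  exact Iff.rfl

theorem not_in13 {F : Type} [Field F] (e1 e2 e3 : ℕ) (ι : F → F) (p1 p3 : F → ℕ → ℕ → F)
    (a c : F) : ¬ In13 e1 e2 e3 ι p1 p3 a c ↔
      ∀ i < e2, ev e3 (fun l => p1 a i l) c = ev e1 (fun s => p3 c s i) (ι a) := by
  unfold In13
  push Not
  exact Iff.rfl

theorem not_in23 {F : Type} [Field F] (e1 e2 e3 : ℕ) (p2 p3 : F → ℕ → ℕ → F)
    (b c : F) : ¬ In23 e1 e2 e3 p2 p3 b c ↔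
      ∀ s < e1, ev e3 (fun l => p2 b s l) c = ev e2 (fun i => p3 c s i) b := by
  unfold In23
  push Not
  exact Iff.rfl

theorem false_iff {b : Bool} {P : Prop} (h : b = true ↔ ¬ P) : b = false ↔ P := by
  cases b with
  | false => simpa using h
  | true => simpa using h

theorem arA_eq {q : ℕ} (off : ℕ) (j : ℕ → ℕ) {a : ℕ} (h : ((a : ZMod q)).val = a) (c : ℕ) :
    arA q off j (a : ZMod q) c = ((dig q (off + c) (j a) : ℕ) : ZMod q) := by
  unfold arA
  rw [h]

theorem arB_eq {q : ℕ} (off d : ℕ) (j : ℕ → ℕ) {a : ℕ} (h : ((a : ZMod q)).val = a) (i l : ℕ) :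
    arB q off d j (a : ZMod q) i l = ((blk q off d (j a) i l : ℕ) : ZMod q) := by
  unfold arB
  rw [h]

theorem arA_blk {q : ℕ} (off d : ℕ) (j : ℕ → ℕ) {a : ℕ} (h : ((a : ZMod q)).val = a) (i l : ℕ) :
    arA q off j (a : ZMod q) (d * i + l) = ((blk q off d (j a) i l : ℕ) : ZMod q) := by
  rw [arA_eq off j h]
  rfl

end EDG

open EDG in
theorem pr_EDG (hK : S_CHK) (hT : S_TST) (hI : S_ITP) : S_EDG := by
  intro q k h d e N hq G hk hkq
  have hkk : 1 ≤ k * k := Nat.one_le_iff_ne_zero.mpr (Nat.mul_ne_zero (by omega) (by omega))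
  obtain ⟨I, hI1, hI2, hI3⟩ := hI q (k * k) (fun s => s % k) hkk hkq
  obtain ⟨J, hJ1, hJ2, hJ3⟩ := hI q (k * k) (fun s => s / k) hkk hkq
  refine ⟨I, J, hI1, hJ1, hI3, hJ3, fun j1 j2 j3 a ha b hb => ?_⟩
  have va : ((a : ZMod q)).val = a := ZMod.val_natCast_of_lt ha
  have vb : ((b : ZMod q)).val = b := ZMod.val_natCast_of_lt hb
  have cI' : ((cI q k a : ℕ) : ZMod q) = I.eval (a : ZMod q) := (hI2 a).2
  have cJ' : ((cJ q k a : ℕ) : ZMod q) = J.eval (a : ZMod q) := (hJ2 a).2
  have e0 : arA q 0 j1 (a : ZMod q) = fun c => ((dig q c (j1 a) : ℕ) : ZMod q) := by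
    funext c
    rw [arA_eq 0 j1 va, zero_add]
  have e1 : arA q (d * d) j1 (a : ZMod q) = fun c => ((dig q (d * d + c) (j1 a) : ℕ) : ZMod q) := by
    funext c
    rw [arA_eq _ j1 va]
  have e2 : arA q (2 * (d * d)) j1 (a : ZMod q)
      = fun c => ((dig q (2 * (d * d) + c) (j1 a) : ℕ) : ZMod q) := by
    funext c
    rw [arA_eq _ j1 va]
  have e3 : arB q (3 * (d * d)) e j1 (a : ZMod q)
      = fun i l => ((blk q (3 * (d * d)) e (j1 a) i l : ℕ) : ZMod q) := by
    funext i l
    rw [arB_eq _ e j1 va]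
  have hT2 : T2 k h d e N (adE G) (a : ZMod q) (arA q 0 j1 (a : ZMod q))
      (arA q (d * d) j1 (a : ZMod q)) (arA q (2 * (d * d)) j1 (a : ZMod q))
      (arB q (3 * (d * d)) e j1 (a : ZMod q)) ↔ tst q k h d e N G a (j1 a) = true := by
    rw [e0, e1, e2, e3]
    exact (hT q k h d e N G a (j1 a)).symm
  refine ⟨false_iff ?_, false_iff ?_, false_iff ?_⟩
  · unfold Bad12 e01
    simp only [Bool.and_eq_true, not_or, not_not, and_assoc]
    rw [hT2, hK, hK, hK, hK, not_in12, not_in12, not_in12, not_in12, cI', cJ']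
    simp only [arA_blk _ d _ va, arB_eq _ _ _ va, arB_eq _ _ _ vb, id]
  · unfold Bad13 e02
    simp only [Bool.and_eq_true, not_or, not_not, and_assoc]
    rw [hT2, hK, hK, hK, hK, not_in13, not_in13, not_in13, not_in13, cI', cJ']
    simp only [arA_blk _ d _ va, arB_eq _ _ _ va, arB_eq _ _ _ vb, id]
  · unfold Bad23 e12
    simp only [Bool.and_eq_true, not_or, and_assoc]
    rw [hK, hK, hK, not_in23, not_in23, not_in23]
    simp only [arB_eq _ _ _ va, arB_eq _ _ _ vb]

end Pool.Agent.Work.MP_3154ac_lc.E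

end

section

/-! Item FLD (helper42): folding of a polynomial in one variable. -/

set_option autoImplicit false

namespace Pool.Agent.Work.MP_3154ac_lc.E

open N68a2faeb Finset Pool.Agent.PT Polynomial

namespace FLD

theorem sum_mul_range {M : Type} [AddCommMonoid M] (e n : ℕ) (f : ℕ → M) :
    ∑ j ∈ range (e * n), f j = ∑ t ∈ range n, ∑ s ∈ range e, f (s + e * t) := by
  induction n with
  | zero => simp
  | succ n ih =>
    rw [Nat.mul_succ, Finset.sum_range_add, ih, Finset.sum_range_succ]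
    congr 1
    exact Finset.sum_congr rfl fun s _ => by rw [Nat.add_comm]

theorem unfold3 {F : Type} [Field F] (e : ℕ) (QW : ℕ → ℕ → ℕ → F) (x : F) :
    ev e (fun i => ev e (fun l => ev e (fun s => QW s i l) x) (x ^ (e * e))) (x ^ e) =
      ∑ i ∈ range e, ∑ l ∈ range e, ∑ s ∈ range e, QW s i l * x ^ (s + e * (i + e * l)) := by
  unfold ev
  refine Finset.sum_congr rfl fun i _ => ?_
  rw [Finset.sum_mul]
  refine Finset.sum_congr rfl fun l _ => ?_
  rw [Finset.sum_mul, Finset.sum_mul]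
  refine Finset.sum_congr rfl fun s _ => ?_
  have : x ^ (s + e * (i + e * l)) = x ^ s * (x ^ (e * e)) ^ l * (x ^ e) ^ i := by
    rw [← pow_mul, ← pow_mul, ← pow_add, ← pow_add]
    congr 1
    ring
  rw [this]
  ring

theorem exp_lt {e i l s : ℕ} (hi : i < e) (hl : l < e) (hs : s < e) :
    s + e * (i + e * l) < e ^ 3 := by
  have h1 : i + e * l < e * e := by
    calc i + e * l < e + e * l := by omega
      _ = e * (l + 1) := by ring
      _ ≤ e * e := Nat.mul_le_mul_left e hl
  calc s + e * (i + e * l) < e + e * (i + e * l) := by omega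
    _ = e * (i + e * l + 1) := by ring
    _ ≤ e * (e * e) := Nat.mul_le_mul_left e h1
    _ = e ^ 3 := by ring

end FLD

theorem pr_FLD : S_FLD := by
  intro F _ e he
  constructor
  · intro QW
    refine ⟨∑ i ∈ range e, ∑ l ∈ range e, ∑ s ∈ range e, C (QW s i l) * X ^ (s + e * (i + e * l)), ?_, ?_⟩
    · have hpos : 0 < e ^ 3 := by positivity
      have hle : (∑ i ∈ range e, ∑ l ∈ range e, ∑ s ∈ range e,
          C (QW s i l) * X ^ (s + e * (i + e * l)) : F[X]).natDegree ≤ e ^ 3 - 1 := by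
        refine natDegree_sum_le_of_forall_le _ _ fun i hi => ?_
        refine natDegree_sum_le_of_forall_le _ _ fun l hl => ?_
        refine natDegree_sum_le_of_forall_le _ _ fun s hs => ?_
        refine (natDegree_C_mul_X_pow_le _ _).trans ?_
        have := FLD.exp_lt (mem_range.1 hi) (mem_range.1 hl) (mem_range.1 hs)
        omega
      omega
    · intro x
      rw [FLD.unfold3]
      simp only [eval_finsetSum, eval_mul, eval_C, eval_pow, eval_X]
  · intro P hP
    refine ⟨fun s i l => P.coeff (s + e * (i + e * l)), fun x => ?_⟩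
    rw [FLD.unfold3, eval_eq_sum_range' hP]
    have h3 : e ^ 3 = e * (e * e) := by ring
    rw [h3, FLD.sum_mul_range e (e * e), FLD.sum_mul_range e e, Finset.sum_comm]

end Pool.Agent.Work.MP_3154ac_lc.E

end

section

/-!
# Item IDA: the coordinates lie in `{0, ..., h - 1}`
-/

set_option autoImplicit false

namespace Pool.Agent.Work.MP_3154ac_lc.E

open Finset Polynomial

namespace IDA

variable {F : Type} [Field F]

/-- the polynomial with the coefficients `c 0, ..., c (e - 1)` -/
noncomputable def pol (e : ℕ) (c : ℕ → F) : F[X] := ∑ i ∈ range e, C (c i) * X ^ i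

lemma eval_pol (e : ℕ) (c : ℕ → F) (x : F) : (pol e c).eval x = ev e c x := by
  unfold pol ev
  rw [eval_finsetSum]
  exact sum_congr rfl fun i _ => by rw [eval_mul, eval_C, eval_pow, eval_X]

lemma deg_pol (e : ℕ) (c : ℕ → F) : (pol e c).natDegree ≤ e := by
  unfold pol
  refine natDegree_sum_le_of_forall_le _ _ fun i hi => ?_
  exact (natDegree_C_mul_X_pow_le _ _).trans (mem_range.1 hi).le

/-- the first product -/
noncomputable def prodA (k h : ℕ) (QA : ℕ → F) (I : F[X]) : F[X] :=
  ∏ η ∈ range h, ((pol k QA).comp I - C (η : F))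

lemma eval_prodA (k h : ℕ) (QA : ℕ → F) (I : F[X]) (x : F) :
    (prodA k h QA I).eval x = ∏ η ∈ range h, (ev k QA (I.eval x) - (η : F)) := by
  unfold prodA
  rw [eval_prod]
  exact prod_congr rfl fun η _ => by rw [eval_sub, eval_comp, eval_pol, eval_C]

lemma deg_prodA {k h : ℕ} (QA : ℕ → F) {I : F[X]} (hI : I.natDegree ≤ k * k) :
    (prodA k h QA I).natDegree ≤ h * k ^ 3 := by
  unfold prodA
  refine (natDegree_prod_le _ _).trans ?_
  calc ∑ η ∈ range h, ((pol k QA).comp I - C (η : F)).natDegree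
      ≤ ∑ _η ∈ range h, k ^ 3 := by
        refine sum_le_sum fun η _ => ?_
        refine (natDegree_sub_le _ _).trans ?_
        rw [natDegree_C, Nat.max_zero]
        calc ((pol k QA).comp I).natDegree ≤ (pol k QA).natDegree * I.natDegree :=
              natDegree_comp_le
          _ ≤ k * (k * k) := Nat.mul_le_mul (deg_pol k QA) hI
          _ = k ^ 3 := by ring
    _ = h * k ^ 3 := by rw [sum_const, card_range, smul_eq_mul]

/-- the second product -/
noncomputable def prodZ (k r : ℕ) (QR : ℕ → F) : F[X] :=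
  (∏ s ∈ range k, (X - C (s : F))) * pol r QR

lemma eval_prodZ (k r : ℕ) (QR : ℕ → F) (x : F) :
    (prodZ k r QR).eval x = Zk k x * ev r QR x := by
  unfold prodZ Zk
  rw [eval_mul, eval_pol, eval_prod]
  congr 1
  exact prod_congr rfl fun s _ => by rw [eval_sub, eval_X, eval_C]

lemma deg_prodZ (k r : ℕ) (QR : ℕ → F) : (prodZ k r QR).natDegree ≤ k + r := by
  unfold prodZ
  refine natDegree_mul_le.trans (Nat.add_le_add ?_ (deg_pol r QR))
  refine (natDegree_prod_le _ _).trans ?_
  calc ∑ s ∈ range k, (X - C (s : F)).natDegree = ∑ _s ∈ range k, 1 :=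
        sum_congr rfl fun s _ => natDegree_X_sub_C _
    _ ≤ k := by rw [sum_const, card_range, smul_eq_mul, mul_one]

end IDA

theorem pr_IDA : S_IDA := by
  classical
  intro q k h r _ I QA QR hkq hI hIs h1 h2 s hs
  have hk : 0 < k := Nat.pos_of_ne_zero (by rintro rfl; exact absurd hs (Nat.not_lt_zero _))
  have hIn : I.natDegree ≤ k * k := natDegree_le_of_degree_le hI.le
  have hD : IDA.prodA k h QA I - IDA.prodZ k r QR = 0 := by
    apply eq_zero_of_natDegree_lt_card_of_eval_eq_zero' _ (univ.filter fun x : ZMod q =>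
      ∏ η ∈ range h, (ev k QA (I.eval x) - (η : ZMod q)) = Zk k x * ev r QR x)
    · intro x hx
      rw [eval_sub, IDA.eval_prodA, IDA.eval_prodZ, (mem_filter.1 hx).2, sub_self]
    · refine lt_of_le_of_lt (natDegree_sub_le _ _) (max_lt ?_ ?_)
      · exact lt_of_le_of_lt (IDA.deg_prodA QA hIn) (by convert h1)
      · exact lt_of_le_of_lt (IDA.deg_prodZ k r QR) (by convert h2)
  have h3 := congrArg (fun P : (ZMod q)[X] => P.eval (s : ZMod q)) hD
  simp only [eval_sub, eval_zero] at h3
  rw [IDA.eval_prodA, IDA.eval_prodZ, hIs s hs] at h3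
  have h4 : Zk k (s : ZMod q) = 0 := by
    unfold Zk
    exact prod_eq_zero (mem_range.2 hs) (sub_self _)
  rw [h4, zero_mul, sub_zero, prod_eq_zero_iff] at h3
  obtain ⟨η, hη, h5⟩ := h3
  exact ⟨η, mem_range.1 hη, sub_eq_zero.1 h5⟩

end Pool.Agent.Work.MP_3154ac_lc.E

end

section

/-! MP_3154ac_lc, module E, item IDC: the extension at the points of the grid -/

set_option autoImplicit false

namespace Pool.Agent.Work.MP_3154ac_lc.E

open N68a2faeb Finset Pool.Agent.PT Polynomial

namespace IDC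

variable {q : ℕ} [Fact q.Prime]

theorem cast_inj {h a b : ℕ} (hq : h ≤ q) (ha : a < h) (hb : b < h)
    (e : ((a : ℕ) : ZMod q) = ((b : ℕ) : ZMod q)) : a = b := by
  rw [ZMod.natCast_eq_natCast_iff'] at e
  rwa [Nat.mod_eq_of_lt (by omega), Nat.mod_eq_of_lt (by omega)] at e

theorem del_self {h η : ℕ} (hq : h ≤ q) (hη : η < h) : Del h η ((η : ℕ) : ZMod q) ≠ 0 := by
  unfold Del
  rw [Finset.prod_ne_zero_iff]
  intro η' h'
  rw [mem_erase, mem_range] at h'
  intro e
  rw [sub_eq_zero] at e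
  exact h'.1 (cast_inj hq hη h'.2 e).symm

theorem del_other {h η η' : ℕ} (hη : η < h) (hne : η ≠ η') : Del h η' ((η : ℕ) : ZMod q) = 0 := by
  unfold Del
  refine Finset.prod_eq_zero (i := η) ?_ (sub_self _)
  rw [mem_erase, mem_range]
  exact ⟨hne, hη⟩

theorem ind_self (hD : S_DIG) {h m u : ℕ} (h1 : 1 ≤ h) (hq : h ≤ q) {x : ℕ → ZMod q}
    (hx : ∀ c < m, x c = ((dig h c u : ℕ) : ZMod q)) : Ind h m u x ≠ 0 := by
  unfold Ind
  rw [Finset.prod_ne_zero_iff]
  intro c hc
  rw [mem_range] at hc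
  rw [hx c hc]
  exact del_self hq ((hD h h1).2.1 c u)

theorem ind_other (hD : S_DIG) {h m N u u' : ℕ} (h1 : 1 ≤ h) (hN : N = h ^ m) (hu : u < N) (hu' : u' < N)
    (hne : u' ≠ u) {x : ℕ → ZMod q}
    (hx : ∀ c < m, x c = ((dig h c u : ℕ) : ZMod q)) : Ind h m u' x = 0 := by
  obtain ⟨_, d2, _, d4, _⟩ := hD h h1
  have : ∃ c < m, dig h c u ≠ dig h c u' := by
    by_contra hcon
    push Not at hcon
    exact hne (d4 m u u' (hN ▸ hu) (hN ▸ hu') hcon).symm
  obtain ⟨c, hc, hd⟩ := this
  unfold Ind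
  refine Finset.prod_eq_zero (i := c) (mem_range.2 hc) ?_
  rw [hx c hc]
  exact del_other (d2 c u) hd

end IDC

theorem pr_IDC (hD : S_DIG) : S_IDC := by
  intro q h m N _ adj x y u v h1 hq hN hu hv hx hy
  have e : Phi h m N adj x y = if adj u v = true then 0 else Ind h m u x * Ind h m v y := by
    unfold Phi
    rw [Finset.sum_eq_single u, Finset.sum_eq_single v]
    · intro v' hv' hne
      rw [mem_range] at hv'
      rw [IDC.ind_other hD h1 hN hv hv' hne hy, mul_zero, ite_self]
    · intro h'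
      exact absurd (mem_range.2 hv) h'
    · intro u' hu' hne
      rw [mem_range] at hu'
      refine Finset.sum_eq_zero fun v' _ => ?_
      rw [IDC.ind_other hD h1 hN hu hu' hne hx, zero_mul, ite_self]
    · intro h'
      exact absurd (mem_range.2 hu) h'
  rw [e]
  split_ifs with hadj
  · simp [hadj]
  · constructor
    · intro h0
      rcases mul_eq_zero.1 h0 with h0 | h0
      · exact absurd h0 (IDC.ind_self hD h1 hq hx)
      · exact absurd h0 (IDC.ind_self hD h1 hq hy)
    · intro h0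
      exact absurd h0 hadj

end Pool.Agent.Work.MP_3154ac_lc.E

end

section

/-!
# Item ITP: interpolation modulo a prime
-/

set_option autoImplicit false

namespace Pool.Agent.Work.MP_3154ac_lc.E

open Finset Polynomial

namespace ITP

variable {q : ℕ} [Fact q.Prime]

/-- one basis polynomial -/
noncomputable def bas (q K : ℕ) [Fact q.Prime] (s : ℕ) : (ZMod q)[X] :=
  ∏ s' ∈ (range K).erase s, ((X - C (s' : ZMod q)) * C (((s : ZMod q) - s') ^ (q - 2)))

lemma prod_ite_self {M : Type} [CommMonoid M] (K s : ℕ) (g : ℕ → M) :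
    ∏ i ∈ range K, (if i = s then 1 else g i) = ∏ i ∈ (range K).erase s, g i := by
  by_cases hs : s ∈ range K
  · rw [← mul_prod_erase (range K) _ hs, if_pos rfl, one_mul]
    exact prod_congr rfl fun i hi => if_neg (mem_erase.1 hi).1
  · rw [erase_eq_of_notMem hs]
    refine prod_congr rfl fun i hi => if_neg ?_
    rintro rfl
    exact hs hi

lemma pow_inv {y : ZMod q} (hy : y ≠ 0) : y * y ^ (q - 2) = 1 := by
  have h2 := (Fact.out : q.Prime).two_le
  rw [← pow_succ', show q - 2 + 1 = q - 1 by omega]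
  exact ZMod.pow_card_sub_one_eq_one hy

lemma cast_ne {s s' : ℕ} {K : ℕ} (hK : K ≤ q) (h : s < K) (h' : s' < K) (hne : s' ≠ s) :
    (s : ZMod q) - s' ≠ 0 := by
  intro h0
  rw [sub_eq_zero, ZMod.natCast_eq_natCast_iff, Nat.ModEq, Nat.mod_eq_of_lt (by omega),
    Nat.mod_eq_of_lt (by omega)] at h0
  exact hne h0.symm

lemma bas_natDegree {K s : ℕ} (hs : s < K) : (bas q K s).natDegree ≤ K - 1 := by
  unfold bas
  refine (natDegree_prod_le _ _).trans ?_
  refine (sum_le_card_nsmul _ _ 1 fun s' _ => ?_).trans ?_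
  · refine natDegree_mul_le.trans ?_
    rw [natDegree_C, add_zero]
    exact natDegree_X_sub_C_le _
  · rw [card_erase_of_mem (mem_range.2 hs), card_range]
    simp

lemma bas_eval_ne {K s s0 : ℕ} (h0 : s0 < K) (hne : s ≠ s0) :
    (bas q K s).eval (s0 : ZMod q) = 0 := by
  unfold bas
  rw [eval_prod]
  refine prod_eq_zero (i := s0) (mem_erase.2 ⟨hne.symm, mem_range.2 h0⟩) ?_
  simp

lemma bas_eval_self {K s : ℕ} (hK : K ≤ q) (hs : s < K) : (bas q K s).eval (s : ZMod q) = 1 := by
  unfold bas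
  rw [eval_prod]
  refine prod_eq_one fun s' hs' => ?_
  rw [mem_erase, mem_range] at hs'
  rw [eval_mul, eval_sub, eval_X, eval_C, eval_C]
  exact pow_inv (cast_ne hK hs hs'.2 hs'.1)

end ITP

open ITP in
theorem pr_ITP (hC : S_CST) : S_ITP := by
  intro q K _ f hK hKq
  obtain ⟨hmd, hpm, hsm, hdm, hwm, -⟩ := hC q
  refine ⟨∑ s ∈ range K, C ((f s : ℕ) : ZMod q) * bas q K s, ?_, ?_, ?_⟩
  · rw [← mem_degreeLT]
    refine Submodule.sum_mem _ fun s hs => ?_
    rw [mem_degreeLT]
    have h1 : (C ((f s : ℕ) : ZMod q) * bas q K s).natDegree ≤ K - 1 :=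
      (natDegree_C_mul_le _ _).trans (bas_natDegree (mem_range.1 hs))
    refine lt_of_le_of_lt degree_le_natDegree ?_
    exact_mod_cast (show (C ((f s : ℕ) : ZMod q) * bas q K s).natDegree < K by omega)
  · intro x
    refine ⟨(hmd _).1, ?_⟩
    show ((md q (sm K fun s => f s * pm q K (fun s' =>
      if s' = s then 1 else dm q x s' * wm q (dm q s s') (q - 2))) : ℕ) : ZMod q) = _
    rw [(hmd _).2, hsm, Nat.cast_sum, eval_finsetSum]
    refine sum_congr rfl fun s _ => ?_
    rw [Nat.cast_mul, (hpm _ _).2, eval_mul, eval_C]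
    congr 1
    have h2 : ∀ i ∈ range K, (((if i = s then 1 else dm q x i * wm q (dm q s i) (q - 2) : ℕ)) : ZMod q)
        = if i = s then 1 else (((x : ZMod q) - i) * ((s : ZMod q) - i) ^ (q - 2)) := by
      intro i _
      split_ifs
      · exact Nat.cast_one
      · rw [Nat.cast_mul, hdm, (hwm _ _).2, hdm]
    rw [prod_congr rfl h2, prod_ite_self]
    unfold bas
    rw [eval_prod]
    refine prod_congr rfl fun i _ => ?_
    rw [eval_mul, eval_sub, eval_X, eval_C, eval_C]
  · intro s0 hs0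
    rw [eval_finsetSum, sum_eq_single s0]
    · rw [eval_mul, eval_C, bas_eval_self hKq hs0, mul_one]
    · intro s _ hne
      rw [eval_mul, bas_eval_ne hs0 hne, mul_zero]
    · intro h
      exact absurd (mem_range.2 hs0) h

end Pool.Agent.Work.MP_3154ac_lc.E

end

section

namespace Pool.Agent.Work.MP_3154ac_lc.E

theorem pr_LAG : S_LAG := by
  intro F _ _ S
  refine ⟨fun b i => (Lagrange.basis S id b).coeff i, ?_⟩
  intro b hb x hx
  have hinj : Set.InjOn (id : F → F) (S : Set F) := Function.injective_id.injOn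
  have hcard : 0 < S.card := Finset.card_pos.2 ⟨b, hb⟩
  have hdeg : (Lagrange.basis S id b).natDegree < S.card := by
    have h1 := Lagrange.degree_basis hinj hb
    have h2 : (Lagrange.basis S id b).natDegree = S.card - 1 :=
      Polynomial.natDegree_eq_of_degree_eq_some h1
    omega
  have hev : ev S.card (fun i => (Lagrange.basis S id b).coeff i) x =
      Polynomial.eval x (Lagrange.basis S id b) := by
    rw [Polynomial.eval_eq_sum_range' hdeg]
    rfl
  rw [hev]
  split_ifs with h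
  · subst h
    exact Lagrange.eval_basis_self hinj hb
  · exact Lagrange.eval_basis_of_ne (s := S) (v := (id : F → F)) (i := b) (j := x)
      (fun e => h e.symm) hx

end Pool.Agent.Work.MP_3154ac_lc.E

end

section

/-! # `chk` is computed in polynomial time -/

set_option autoImplicit false

namespace Pool.Agent.Work.MP_3154ac_lc.E

open N68a2faeb Finset Pool.Agent.PT Polynomial

theorem pr_PCH (hP : S_POP) : S_PCH := by
  intro α _ q e1 e2 n x y p P hq he1 he2 hn hx hy hp hPP
  obtain ⟨-, -, -, -, -, hE, -, -⟩ := hP (α × ℕ)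
  have hsw : PTF (fun s : (α × ℕ) × ℕ => ((s.1.1, s.2), s.1.2)) :=
    ((PTF.fst.comp PTF.fst).pair PTF.snd).pair (PTF.snd.comp PTF.fst)
  have h1 : PTF (fun r : α × ℕ => evn (q r.1) (e1 r.1) (fun i => p r.1 i r.2) (x r.1)) :=
    hE (fun r => q r.1) (fun r => e1 r.1) (fun r => x r.1) (fun r i => p r.1 i r.2)
      (hq.comp PTF.fst) (he1.comp PTF.fst) (hx.comp PTF.fst) (hp.comp hsw)
  have h2 : PTF (fun r : α × ℕ => evn (q r.1) (e2 r.1) (fun i => P r.1 i r.2) (y r.1)) :=
    hE (fun r => q r.1) (fun r => e2 r.1) (fun r => y r.1) (fun r i => P r.1 i r.2)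
      (hq.comp PTF.fst) (he2.comp PTF.fst) (hy.comp PTF.fst) (hPP.comp hsw)
  have hr : PTF (fun a => List.range (n a)) := PTF.range hn
  exact PTF.all' (f := fun a l => decide (evn (q a) (e1 a) (fun i => p a i l) (x a) =
    evn (q a) (e2 a) (fun i => P a i l) (y a))) (h1.eq h2) hr

end Pool.Agent.Work.MP_3154ac_lc.E

end

section

/-!
# The extension along the curve is a polynomial of small degree
-/

set_option autoImplicit false

namespace Pool.Agent.Work.MP_3154ac_lc.E

open N68a2faeb Finset Pool.Agent.PT Polynomial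

namespace POL

variable {F : Type} [Field F]

/-- the polynomial with the coefficients `c 0, ..., c (k - 1)` -/
noncomputable def pol (k : ℕ) (c : ℕ → F) : F[X] := ∑ i ∈ range k, C (c i) * X ^ i

theorem eval_pol (k : ℕ) (c : ℕ → F) (x : F) : (pol k c).eval x = ev k c x := by
  simp [pol, ev, eval_finsetSum]

theorem deg_pol (k : ℕ) (c : ℕ → F) : (pol k c).natDegree ≤ k := by
  unfold pol
  apply natDegree_sum_le_of_forall_le
  intro i hi
  exact (natDegree_C_mul_X_pow_le _ _).trans (mem_range.1 hi).le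

theorem deg_comp {k : ℕ} (c : ℕ → F) {I : F[X]} (hk : 1 ≤ k) (hI : I.degree < (k * k : ℕ)) :
    ((pol k c).comp I).natDegree ≤ k ^ 3 := by
  have h1 : I.natDegree ≤ k * k := by
    have hd : I.degree ≤ ((k * k : ℕ) : WithBot ℕ) := hI.le
    exact natDegree_le_of_degree_le hd
  calc ((pol k c).comp I).natDegree ≤ (pol k c).natDegree * I.natDegree := natDegree_comp_le
    _ ≤ k * (k * k) := Nat.mul_le_mul (deg_pol k c) h1
    _ = k ^ 3 := by ring

/-- the indicator polynomial composed with `Z` -/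
noncomputable def delP (h η : ℕ) (Z : F[X]) : F[X] :=
  ∏ η' ∈ (range h).erase η, (Z - C (η' : F))

theorem eval_delP (h η : ℕ) (Z : F[X]) (x : F) :
    (delP h η Z).eval x = Del h η (Z.eval x) := by
  simp [delP, Del, eval_prod]

theorem deg_delP {h η D : ℕ} {Z : F[X]} (hZ : Z.natDegree ≤ D) :
    (delP h η Z).natDegree ≤ h * D := by
  unfold delP
  calc (∏ η' ∈ (range h).erase η, (Z - C (η' : F))).natDegree
      ≤ ∑ η' ∈ (range h).erase η, (Z - C (η' : F)).natDegree := natDegree_prod_le _ _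
    _ ≤ ∑ η' ∈ (range h).erase η, D := by
        apply sum_le_sum
        intro η' _
        rw [natDegree_sub_C]
        exact hZ
    _ = ((range h).erase η).card * D := by rw [sum_const, smul_eq_mul]
    _ ≤ h * D := by
        apply Nat.mul_le_mul_right
        calc ((range h).erase η).card ≤ (range h).card := card_erase_le
          _ = h := card_range h

/-- the indicator of `u` -/
noncomputable def indP (h m u : ℕ) (Z : ℕ → F[X]) : F[X] := ∏ c ∈ range m, delP h (dig h c u) (Z c)

theorem eval_indP (h m u : ℕ) (Z : ℕ → F[X]) (x : F) :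
    (indP h m u Z).eval x = Ind h m u (fun c => (Z c).eval x) := by
  simp [indP, Ind, eval_prod, eval_delP]

theorem deg_indP {h m u D : ℕ} {Z : ℕ → F[X]} (hZ : ∀ c, (Z c).natDegree ≤ D) :
    (indP h m u Z).natDegree ≤ m * (h * D) := by
  unfold indP
  calc (∏ c ∈ range m, delP h (dig h c u) (Z c)).natDegree
      ≤ ∑ c ∈ range m, (delP h (dig h c u) (Z c)).natDegree := natDegree_prod_le _ _
    _ ≤ ∑ c ∈ range m, h * D := sum_le_sum fun c _ => deg_delP (hZ c)
    _ = m * (h * D) := by rw [sum_const, card_range, smul_eq_mul]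

end POL

theorem pr_POL : S_POL := by
  intro q k h m N _ adj I J QA hk hI hJ
  refine ⟨∑ u ∈ range N, ∑ v ∈ range N, if adj u v = true then 0 else
    POL.indP h m u (fun c => (POL.pol k (fun s => QA s c)).comp I) *
    POL.indP h m v (fun c => (POL.pol k (fun s => QA s c)).comp J), ?_, ?_⟩
  · apply natDegree_sum_le_of_forall_le
    intro u _
    apply natDegree_sum_le_of_forall_le
    intro v _
    split_ifs
    · simp
    · refine natDegree_mul_le.trans ?_
      have h1 := POL.deg_indP (h := h) (m := m) (u := u)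
        (Z := fun c => (POL.pol k (fun s => QA s c)).comp I) (D := k ^ 3)
        (fun c => POL.deg_comp _ hk hI)
      have h2 := POL.deg_indP (h := h) (m := m) (u := v)
        (Z := fun c => (POL.pol k (fun s => QA s c)).comp J) (D := k ^ 3)
        (fun c => POL.deg_comp _ hk hJ)
      calc _ ≤ m * (h * k ^ 3) + m * (h * k ^ 3) := Nat.add_le_add h1 h2
        _ = 2 * (m * h * k ^ 3) := by ring
  · intro x
    unfold Phi
    rw [eval_finsetSum]
    apply sum_congr rfl
    intro u _
    rw [eval_finsetSum]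
    apply sum_congr rfl
    intro v _
    split_ifs
    · simp
    · rw [eval_mul, POL.eval_indP, POL.eval_indP]
      simp only [eval_comp, POL.eval_pol]

end Pool.Agent.Work.MP_3154ac_lc.E

end
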