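import Pool.Agent.Work.MP_3154ac_lc.E.Stmts
import Pool.Agent.Work.PT.Auto
import Pool.Agent.Work.MP_3154ac_lc.Bd.B01
import Pool.Agent.Work.MP_46935e_lc.Frozen

/-! Bundle of small proof modules (one section per former module). -/

section

/-! Item POP: the modular operations are computed in polynomial time. -/

set_option autoImplicit false

namespace Pool.Agent.Work.MP_3154ac_lc.E

open Pool.Agent.PT Function

namespace POP

variable {α : Type} [Enc α]

theorem md_le (q x : ℕ) : md q x ≤ q := by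
  unfold md
  split_ifs with h
  · omega
  · exact (Nat.mod_lt x (by omega)).le

theorem ptf_md {q x : α → ℕ} (hq : PTF q) (hx : PTF x) : PTF fun a => md (q a) (x a) := by
  unfold md
  exact PTF.ite (hq.eq (PTF.const 0)) (PTF.const 0) (hx.mod hq)

theorem ptf_sm {n : α → ℕ} {f : α → ℕ → ℕ} (hn : PTF n)
    (hf : PTF (fun p : α × ℕ => f p.1 p.2)) : PTF fun a => sm (n a) (f a) := by
  unfold sm
  exact (PTF.map' hf hn.range).sum

theorem foldl_le (q : ℕ) (f : ℕ → ℕ) (l : List ℕ) : ∀ s, s ≤ q + 1 →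
    l.foldl (fun y i => md q (y * f i)) s ≤ q + 1 := by
  induction l with
  | nil => exact fun s hs => hs
  | cons b l ih =>
    intro s _
    exact ih _ ((md_le q _).trans (Nat.le_succ q))

theorem ptf_pm {q n : α → ℕ} {f : α → ℕ → ℕ} (hq : PTF q) (hn : PTF n)
    (hf : PTF (fun p : α × ℕ => f p.1 p.2)) : PTF fun a => pm (q a) (n a) (f a) := by
  unfold pm
  refine PTF.foldl (l := fun a => List.range (n a)) (init := fun _ => 1)
    (step := fun p : α × (ℕ × ℕ) => md (q p.1) (p.2.1 * f p.1 p.2.2)) hn.range (PTF.const 1)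
    ?_ (fun a => sz (q a) + 2) (hq.size.add (PB.const 2)) ?_
  · have h1 : PTF fun p : α × (ℕ × ℕ) => p.1 := PTF.fst
    have h2 : PTF fun p : α × (ℕ × ℕ) => p.2.1 := PTF.fst.comp PTF.snd
    have h3 : PTF fun p : α × (ℕ × ℕ) => p.2.2 := PTF.snd.comp PTF.snd
    exact ptf_md (hq.comp h1) (h2.mul (hf.comp (h1.pair h3)))
  · intro a l1 l2 _
    have h := foldl_le (q a) (f a) l1 1 (by omega)
    show sz (l1.foldl (fun y i => md (q a) (y * f a i)) 1) ≤ _
    rw [sz_nat, sz_nat]
    omega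

theorem ptf_dm {q x y : α → ℕ} (hq : PTF q) (hx : PTF x) (hy : PTF y) :
    PTF fun a => dm (q a) (x a) (y a) := by
  unfold dm
  exact hx.add (hq.sub (ptf_md hq hy))

theorem ptf_wm {q x n : α → ℕ} (hq : PTF q) (hx : PTF x) (hn : PTF n) :
    PTF fun a => wm (q a) (x a) (n a) := by
  unfold wm
  exact ptf_pm hq hn (f := fun a _ => x a) (hx.comp PTF.fst)

theorem ptf_evn {q n x : α → ℕ} {f : α → ℕ → ℕ} (hq : PTF q) (hn : PTF n) (hx : PTF x)
    (hf : PTF (fun p : α × ℕ => f p.1 p.2)) : PTF fun a => evn (q a) (n a) (f a) (x a) := by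
  unfold evn
  exact ptf_md hq (ptf_sm hn (f := fun a i => f a i * wm (q a) (x a) i)
    (hf.mul (ptf_wm (hq.comp PTF.fst) (hx.comp PTF.fst) PTF.snd)))

theorem ptf_itp {q n x : α → ℕ} {f : α → ℕ → ℕ} (hq : PTF q) (hn : PTF n) (hx : PTF x)
    (hf : PTF (fun p : α × ℕ => f p.1 p.2)) : PTF fun a => itp (q a) (n a) (f a) (x a) := by
  unfold itp
  refine ptf_md hq (ptf_sm hn (f := fun a s => f a s * pm (q a) (n a) (fun s' =>
    if s' = s then 1 else dm (q a) (x a) s' * wm (q a) (dm (q a) s s') (q a - 2))) ?_)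
  refine hf.mul ?_
  refine ptf_pm (q := fun p : α × ℕ => q p.1) (n := fun p : α × ℕ => n p.1)
    (f := fun (p : α × ℕ) s' => if s' = p.2 then 1 else dm (q p.1) (x p.1) s' *
      wm (q p.1) (dm (q p.1) p.2 s') (q p.1 - 2)) (hq.comp PTF.fst) (hn.comp PTF.fst) ?_
  have h1 : PTF fun p : (α × ℕ) × ℕ => p.1.1 := PTF.fst.comp PTF.fst
  have h2 : PTF fun p : (α × ℕ) × ℕ => p.1.2 := PTF.snd.comp PTF.fst
  have h3 : PTF fun p : (α × ℕ) × ℕ => p.2 := PTF.snd
  have hq1 := hq.comp h1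
  exact PTF.ite (h3.eq h2) (PTF.const 1) ((ptf_dm hq1 (hx.comp h1) h3).mul
    (ptf_wm hq1 (ptf_dm hq1 h2 h3) (hq1.sub (PTF.const 2))))

theorem ptf_dig {b i j : α → ℕ} (hb : PTF b) (hi : PTF i) (hj : PTF j) :
    PTF (fun t => dig (b t) (i t) (j t)) := by
  unfold dig
  refine PTF.mod ?_ hb
  refine PTF.nat_iterate_add (n := i) (init := j) (step := fun p : α × ℕ => p.2 / b p.1) hi hj
    (PTF.snd.div (hb.comp PTF.fst)) (fun _ => 0) (PB.const 0) (fun a s => ?_)
  show sz (s / b a) ≤ _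
  have := Nat.div_le_self s (b a)
  rw [sz_nat, sz_nat]
  omega

end POP

open POP in
theorem pr_POP : S_POP := by
  intro α _
  exact ⟨fun q x hq hx => ptf_md hq hx, fun n f hn hf => ptf_sm hn hf,
    fun q n f hq hn hf => ptf_pm hq hn hf, fun q x y hq hx hy => ptf_dm hq hx hy,
    fun q x n hq hx hn => ptf_wm hq hx hn, fun q n x f hq hn hx hf => ptf_evn hq hn hx hf,
    fun q n x f hq hn hx hf => ptf_itp hq hn hx hf, fun b i j hb hi hj => ptf_dig hb hi hj⟩

end Pool.Agent.Work.MP_3154ac_lc.E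

end

section

/-!
# PTT: the test of a plane of direction `0` is computed in polynomial time
-/

set_option autoImplicit false

namespace Pool.Agent.Work.MP_3154ac_lc.E

open N68a2faeb Pool.Agent.PT

namespace PTT

variable {α : Type} [Enc α]

theorem ptf_md (hP : S_POP) {q x : α → ℕ} (hq : PTF q) (hx : PTF x) :
    PTF fun a => md (q a) (x a) := (hP α).1 q x hq hx

theorem ptf_sm (hP : S_POP) {n : α → ℕ} {f : α → ℕ → ℕ} (hn : PTF n)
    (hf : PTF fun p : α × ℕ => f p.1 p.2) : PTF fun a => sm (n a) (f a) :=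
  (hP α).2.1 n f hn hf

theorem ptf_pm (hP : S_POP) {q n : α → ℕ} {f : α → ℕ → ℕ} (hq : PTF q) (hn : PTF n)
    (hf : PTF fun p : α × ℕ => f p.1 p.2) : PTF fun a => pm (q a) (n a) (f a) :=
  (hP α).2.2.1 q n f hq hn hf

theorem ptf_dm (hP : S_POP) {q x y : α → ℕ} (hq : PTF q) (hx : PTF x) (hy : PTF y) :
    PTF fun a => dm (q a) (x a) (y a) := (hP α).2.2.2.1 q x y hq hx hy

theorem ptf_wm (hP : S_POP) {q x n : α → ℕ} (hq : PTF q) (hx : PTF x) (hn : PTF n) :
    PTF fun a => wm (q a) (x a) (n a) := (hP α).2.2.2.2.1 q x n hq hx hn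

theorem ptf_evn (hP : S_POP) {q n x : α → ℕ} {f : α → ℕ → ℕ} (hq : PTF q) (hn : PTF n)
    (hx : PTF x) (hf : PTF fun p : α × ℕ => f p.1 p.2) :
    PTF fun a => evn (q a) (n a) (f a) (x a) := (hP α).2.2.2.2.2.1 q n x f hq hn hx hf

theorem ptf_dig (hP : S_POP) {b i j : α → ℕ} (hb : PTF b) (hi : PTF i) (hj : PTF j) :
    PTF fun a => dig (b a) (i a) (j a) := (hP α).2.2.2.2.2.2.2 b i j hb hi hj

theorem ptf_deln (hP : S_POP) {q h η z : α → ℕ} (hq : PTF q) (hh : PTF h) (hη : PTF η)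
    (hz : PTF z) : PTF fun a => deln (q a) (h a) (η a) (z a) := by
  unfold deln
  exact ptf_pm hP (f := fun a η' => if η' = η a then 1 else dm (q a) (z a) η') hq hh
    (PTF.ite (PTF.snd.eq (hη.comp PTF.fst)) (PTF.const 1)
      (ptf_dm hP (hq.comp PTF.fst) (hz.comp PTF.fst) PTF.snd))

theorem ptf_indn (hP : S_POP) {q h m u : α → ℕ} {f : α → ℕ → ℕ} (hq : PTF q) (hh : PTF h)
    (hm : PTF m) (hu : PTF u) (hf : PTF fun p : α × ℕ => f p.1 p.2) :
    PTF fun a => indn (q a) (h a) (m a) (u a) (f a) := by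
  unfold indn
  exact ptf_pm hP (f := fun a c => deln (q a) (h a) (dig (h a) c (u a)) (f a c)) hq hm
    (ptf_deln hP (hq.comp PTF.fst) (hh.comp PTF.fst)
      (ptf_dig hP (hh.comp PTF.fst) PTF.snd (hu.comp PTF.fst)) hf)

theorem ptf_adE {G : α → Code} {u v : α → ℕ} (hG : PTF G) (hu : PTF u) (hv : PTF v) :
    PTF fun a => adE (G a) (u a) (v a) := by
  unfold adE
  exact (hu.lt hG.length).and ((hv.lt hG.length).and (I_RPT.ptf_adjB hG hu hv))

theorem ptf_phin (hP : S_POP) {q h m N : α → ℕ} {G : α → Code} {f g : α → ℕ → ℕ} (hq : PTF q)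
    (hh : PTF h) (hm : PTF m) (hN : PTF N) (hG : PTF G) (hf : PTF fun p : α × ℕ => f p.1 p.2)
    (hg : PTF fun p : α × ℕ => g p.1 p.2) :
    PTF fun a => phin (q a) (h a) (m a) (N a) (G a) (f a) (g a) := by
  unfold phin
  refine ptf_md hP hq (ptf_sm hP (f := fun a u => sm (N a) fun v =>
    if adE (G a) u v = true then 0 else
      indn (q a) (h a) (m a) u (f a) * indn (q a) (h a) (m a) v (g a)) hN ?_)
  refine ptf_sm hP (f := fun (t : α × ℕ) v =>
    if adE (G t.1) t.2 v = true then 0 else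
      indn (q t.1) (h t.1) (m t.1) t.2 (f t.1) * indn (q t.1) (h t.1) (m t.1) v (g t.1))
    (hN.comp PTF.fst) ?_
  have h1 : PTF fun p : (α × ℕ) × ℕ => p.1.1 := PTF.fst.comp PTF.fst
  have h2 : PTF fun p : (α × ℕ) × ℕ => p.1.2 := PTF.snd.comp PTF.fst
  have h4 : PTF fun p : ((α × ℕ) × ℕ) × ℕ => (p.1.1.1, p.2) :=
    PTF.pair (h1.comp PTF.fst) PTF.snd
  have hF : PTF fun p : ((α × ℕ) × ℕ) × ℕ => f p.1.1.1 p.2 := hf.comp h4
  have hG' : PTF fun p : ((α × ℕ) × ℕ) × ℕ => g p.1.1.1 p.2 := hg.comp h4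
  have i1 := ptf_indn hP (q := fun p : (α × ℕ) × ℕ => q p.1.1) (h := fun p => h p.1.1)
    (m := fun p => m p.1.1) (u := fun p => p.1.2) (f := fun p c => f p.1.1 c)
    (hq.comp h1) (hh.comp h1) (hm.comp h1) h2 hF
  have i2 := ptf_indn hP (q := fun p : (α × ℕ) × ℕ => q p.1.1) (h := fun p => h p.1.1)
    (m := fun p => m p.1.1) (u := fun p => p.2) (f := fun p c => g p.1.1 c)
    (hq.comp h1) (hh.comp h1) (hm.comp h1) PTF.snd hG'
  have hA := ptf_adE (hG.comp h1) h2 (PTF.snd : PTF fun p : (α × ℕ) × ℕ => p.2)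
  have hA' : PTF fun p : (α × ℕ) × ℕ => decide (adE (G p.1.1) p.1.2 p.2 = true) :=
    hA.congr (fun a => by simp)
  exact PTF.ite hA' (PTF.const 0) (i1.mul i2)

theorem ptf_zkn (hP : S_POP) {q k x : α → ℕ} (hq : PTF q) (hk : PTF k) (hx : PTF x) :
    PTF fun a => zkn (q a) (k a) (x a) := by
  unfold zkn
  exact ptf_pm hP (f := fun a s => dm (q a) (x a) s) hq hk
    (ptf_dm hP (hq.comp PTF.fst) (hx.comp PTF.fst) PTF.snd)

theorem ptf_zpn (hP : S_POP) {q k x : α → ℕ} (hq : PTF q) (hk : PTF k) (hx : PTF x) :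
    PTF fun a => zpn (q a) (k a) (x a) := by
  unfold zpn
  refine ptf_pm hP (f := fun a s => if s % k a = s / k a then 1 else dm (q a) (x a) s) hq
    (hk.mul hk) ?_
  have hk' : PTF fun p : α × ℕ => k p.1 := hk.comp PTF.fst
  exact PTF.ite ((PTF.snd.mod hk').eq (PTF.snd.div hk')) (PTF.const 1)
    (ptf_dm hP (hq.comp PTF.fst) (hx.comp PTF.fst) PTF.snd)

theorem ptf_blk (hP : S_POP) {q off d j i l : α → ℕ} (hq : PTF q) (ho : PTF off) (hd : PTF d)
    (hj : PTF j) (hi : PTF i) (hl : PTF l) :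
    PTF fun a => blk (q a) (off a) (d a) (j a) (i a) (l a) := by
  unfold blk
  exact ptf_dig hP hq (ho.add ((hd.mul hi).add hl)) hj

theorem ptf_tst (hP : S_POP) {q k h d e N x j : α → ℕ} {G : α → Code} (hq : PTF q) (hk : PTF k)
    (hh : PTF h) (hd : PTF d) (he : PTF e) (hN : PTF N) (hx : PTF x) (hj : PTF j) (hG : PTF G) :
    PTF fun a => tst (q a) (k a) (h a) (d a) (e a) (N a) (G a) (x a) (j a) := by
  unfold tst
  have hdd := hd.mul hd
  have hf : PTF (Prod.fst : α × ℕ → α) := PTF.fst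
  have hs : PTF (Prod.snd : α × ℕ → ℕ) := PTF.snd
  refine PTF.and ?_ ?_
  · refine PTF.all' (f := fun a c =>
      decide (pm (q a) (h a) (fun η => dm (q a) (dig (q a) c (j a)) η) =
        md (q a) (zkn (q a) (k a) (x a) * dig (q a) (2 * (d a * d a) + c) (j a)))) ?_ hdd.range
    refine PTF.eq ?_ ?_
    · exact ptf_pm hP (f := fun (p : α × ℕ) η => dm (q p.1) (dig (q p.1) p.2 (j p.1)) η)
        (hq.comp hf) (hh.comp hf)
        (ptf_dm hP (hq.comp (hf.comp PTF.fst))
          (ptf_dig hP (hq.comp (hf.comp PTF.fst)) (hs.comp PTF.fst) (hj.comp (hf.comp PTF.fst)))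
          PTF.snd)
    · exact ptf_md hP (hq.comp hf) ((ptf_zkn hP (hq.comp hf) (hk.comp hf) (hx.comp hf)).mul
        (ptf_dig hP (hq.comp hf) (((PTF.const 2).mul (hdd.comp hf)).add hs) (hj.comp hf)))
  · refine PTF.eq ?_ ?_
    · exact ptf_phin hP (f := fun a c => dig (q a) c (j a))
        (g := fun a c => dig (q a) (d a * d a + c) (j a)) hq hh hdd hN hG
        (ptf_dig hP (hq.comp hf) hs (hj.comp hf))
        (ptf_dig hP (hq.comp hf) ((hdd.comp hf).add hs) (hj.comp hf))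
    · refine ptf_md hP hq ((ptf_zpn hP hq hk hx).mul ?_)
      refine ptf_evn hP (f := fun a i => evn (q a) (e a)
        (fun l => blk (q a) (3 * (d a * d a)) (e a) (j a) i l) (wm (q a) (x a) (e a * e a)))
        hq he (ptf_wm hP hq hx he) ?_
      refine ptf_evn hP (f := fun (p : α × ℕ) l =>
        blk (q p.1) (3 * (d p.1 * d p.1)) (e p.1) (j p.1) p.2 l)
        (hq.comp hf) (he.comp hf)
        (ptf_wm hP (hq.comp hf) (hx.comp hf) ((he.comp hf).mul (he.comp hf))) ?_
      have h1 : PTF fun p : (α × ℕ) × ℕ => p.1.1 := PTF.fst.comp PTF.fst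
      have h2 : PTF fun p : (α × ℕ) × ℕ => p.1.2 := PTF.snd.comp PTF.fst
      exact ptf_blk hP (hq.comp h1) ((PTF.const 3).mul (hdd.comp h1)) (he.comp h1) (hj.comp h1)
        h2 PTF.snd

end PTT

/-- PTT: the test of a plane of direction `0` is computed in polynomial time. -/
theorem pr_PTT (hP : S_POP) : S_PTT := by
  intro α _ q k h d e N x j G hq hk hh hd he hN hx hj hG
  exact PTT.ptf_tst hP hq hk hh hd he hN hx hj hG

end Pool.Agent.Work.MP_3154ac_lc.E

end

section

/-!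
# RPE: the reduction is computed in polynomial time
-/

set_option autoImplicit false

namespace Pool.Agent.Work.MP_3154ac_lc.E

open N68a2faeb Pool.Agent.PT

namespace RPE

variable {α : Type} [Enc α]

theorem ptf_dig (hP : S_POP) {b i j : α → ℕ} (hb : PTF b) (hi : PTF i) (hj : PTF j) :
    PTF (fun a => dig (b a) (i a) (j a)) := (hP α).2.2.2.2.2.2.2 b i j hb hi hj

theorem ptf_itp (hP : S_POP) {q n x : α → ℕ} {f : α → ℕ → ℕ} (hq : PTF q) (hn : PTF n)
    (hx : PTF x) (hf : PTF (fun p : α × ℕ => f p.1 p.2)) :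
    PTF fun a => itp (q a) (n a) (f a) (x a) := (hP α).2.2.2.2.2.2.1 q n x f hq hn hx hf

theorem ptf_blk (hP : S_POP) {q off d j i l : α → ℕ} (hq : PTF q) (ho : PTF off) (hd : PTF d)
    (hj : PTF j) (hi : PTF i) (hl : PTF l) :
    PTF (fun a => blk (q a) (off a) (d a) (j a) (i a) (l a)) := by
  unfold blk
  exact ptf_dig hP hq (ho.add ((hd.mul hi).add hl)) hj

/-- a block as a function of the two indices -/
theorem ptf_blk2 (hP : S_POP) {q off d j : α → ℕ} (hq : PTF q) (ho : PTF off) (hd : PTF d)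
    (hj : PTF j) :
    PTF (fun t : (α × ℕ) × ℕ => blk (q t.1.1) (off t.1.1) (d t.1.1) (j t.1.1) t.1.2 t.2) := by
  have h1 : PTF fun p : (α × ℕ) × ℕ => p.1.1 := PTF.fst.comp PTF.fst
  have h2 : PTF fun p : (α × ℕ) × ℕ => p.1.2 := PTF.snd.comp PTF.fst
  exact ptf_blk hP (hq.comp h1) (ho.comp h1) (hd.comp h1) (hj.comp h1) h2 PTF.snd

/-- the transposed block -/
theorem ptf_blk3 (hP : S_POP) {q off d j : α → ℕ} (hq : PTF q) (ho : PTF off) (hd : PTF d)
    (hj : PTF j) :
    PTF (fun t : (α × ℕ) × ℕ => blk (q t.1.1) (off t.1.1) (d t.1.1) (j t.1.1) t.2 t.1.2) := by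
  have h1 : PTF fun p : (α × ℕ) × ℕ => p.1.1 := PTF.fst.comp PTF.fst
  have h2 : PTF fun p : (α × ℕ) × ℕ => p.1.2 := PTF.snd.comp PTF.fst
  exact ptf_blk hP (hq.comp h1) (ho.comp h1) (hd.comp h1) (hj.comp h1) PTF.snd h2

theorem ptf_cI (hP : S_POP) {q k x : α → ℕ} (hq : PTF q) (hk : PTF k) (hx : PTF x) :
    PTF (fun a => cI (q a) (k a) (x a)) := by
  unfold cI
  exact ptf_itp hP (f := fun a s => s % k a) hq (hk.mul hk) hx (PTF.snd.mod (hk.comp PTF.fst))

theorem ptf_cJ (hP : S_POP) {q k x : α → ℕ} (hq : PTF q) (hk : PTF k) (hx : PTF x) :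
    PTF (fun a => cJ (q a) (k a) (x a)) := by
  unfold cJ
  exact ptf_itp hP (f := fun a s => s / k a) hq (hk.mul hk) hx (PTF.snd.div (hk.comp PTF.fst))

theorem ptf_e01 (hP : S_POP) (hT : S_PTT) (hC : S_PCH) {q k h d e N x j b j' : α → ℕ}
    {G : α → Code} (hq : PTF q) (hk : PTF k) (hh : PTF h) (hd : PTF d) (he : PTF e) (hN : PTF N)
    (hG : PTF G) (hx : PTF x) (hj : PTF j) (hb : PTF b) (hj' : PTF j') :
    PTF (fun a => e01 (q a) (k a) (h a) (d a) (e a) (N a) (G a) (x a) (j a) (b a) (j' a)) := by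
  unfold e01
  have h0 : PTF fun _ : α => (0 : ℕ) := PTF.const 0
  have hdd := hd.mul hd
  have hk3 := hh.mul (hk.pow_const 3)
  refine ((((hT α q k h d e N x j G hq hk hh hd he hN hx hj hG).and ?_).and ?_).and ?_).and ?_
  · exact hC α q d k d b (fun a => cI (q a) (k a) (x a)) (fun a => blk (q a) 0 (d a) (j a))
      (fun a => blk (q a) 0 (d a) (j' a)) hq hd hk hd hb (ptf_cI hP hq hk hx)
      (ptf_blk2 hP hq h0 hd hj) (ptf_blk2 hP hq h0 hd hj')
  · exact hC α q d k d b (fun a => cJ (q a) (k a) (x a))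
      (fun a => blk (q a) (d a * d a) (d a) (j a)) (fun a => blk (q a) 0 (d a) (j' a)) hq hd hk hd
      hb (ptf_cJ hP hq hk hx) (ptf_blk2 hP hq hdd hd hj) (ptf_blk2 hP hq h0 hd hj')
  · exact hC α q d (fun a => h a * k a ^ 3) d b x
      (fun a => blk (q a) (2 * (d a * d a)) (d a) (j a))
      (fun a => blk (q a) (d a * k a) (d a) (j' a)) hq hd hk3 hd
      hb hx (ptf_blk2 hP hq ((PTF.const 2).mul hdd) hd hj) (ptf_blk2 hP hq (hd.mul hk) hd hj')
  · exact hC α q e e e b x
      (fun a => blk (q a) (3 * (d a * d a)) (e a) (j a))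
      (fun a => blk (q a) (d a * (k a + h a * k a ^ 3)) (e a) (j' a)) hq he he he
      hb hx (ptf_blk2 hP hq ((PTF.const 3).mul hdd) he hj)
      (ptf_blk2 hP hq (hd.mul (hk.add hk3)) he hj')

theorem ptf_e02 (hP : S_POP) (hT : S_PTT) (hC : S_PCH) {q k h d e N x j c j' : α → ℕ}
    {G : α → Code} (hq : PTF q) (hk : PTF k) (hh : PTF h) (hd : PTF d) (he : PTF e) (hN : PTF N)
    (hG : PTF G) (hx : PTF x) (hj : PTF j) (hc : PTF c) (hj' : PTF j') :
    PTF (fun a => e02 (q a) (k a) (h a) (d a) (e a) (N a) (G a) (x a) (j a) (c a) (j' a)) := by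
  unfold e02
  have h0 : PTF fun _ : α => (0 : ℕ) := PTF.const 0
  have hdd := hd.mul hd
  have hk3 := hh.mul (hk.pow_const 3)
  refine ((((hT α q k h d e N x j G hq hk hh hd he hN hx hj hG).and ?_).and ?_).and ?_).and ?_
  · exact hC α q d k d c (fun a => cI (q a) (k a) (x a))
      (fun a l i => blk (q a) 0 (d a) (j a) i l)
      (fun a => blk (q a) 0 (d a) (j' a)) hq hd hk hd hc (ptf_cI hP hq hk hx)
      (ptf_blk3 hP hq h0 hd hj) (ptf_blk2 hP hq h0 hd hj')
  · exact hC α q d k d c (fun a => cJ (q a) (k a) (x a))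
      (fun a l i => blk (q a) (d a * d a) (d a) (j a) i l)
      (fun a => blk (q a) 0 (d a) (j' a)) hq hd hk hd
      hc (ptf_cJ hP hq hk hx) (ptf_blk3 hP hq hdd hd hj) (ptf_blk2 hP hq h0 hd hj')
  · exact hC α q d (fun a => h a * k a ^ 3) d c x
      (fun a l i => blk (q a) (2 * (d a * d a)) (d a) (j a) i l)
      (fun a => blk (q a) (d a * k a) (d a) (j' a)) hq hd hk3 hd
      hc hx (ptf_blk3 hP hq ((PTF.const 2).mul hdd) hd hj) (ptf_blk2 hP hq (hd.mul hk) hd hj')
  · exact hC α q e e e c x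
      (fun a l i => blk (q a) (3 * (d a * d a)) (e a) (j a) i l)
      (fun a => blk (q a) (d a * (k a + h a * k a ^ 3)) (e a) (j' a)) hq he he he
      hc hx (ptf_blk3 hP hq ((PTF.const 3).mul hdd) he hj)
      (ptf_blk2 hP hq (hd.mul (hk.add hk3)) he hj')

theorem ptf_e12 (hP : S_POP) (hC : S_PCH) {q k h d e b j c j' : α → ℕ}
    (hq : PTF q) (hk : PTF k) (hh : PTF h) (hd : PTF d) (he : PTF e)
    (hb : PTF b) (hj : PTF j) (hc : PTF c) (hj' : PTF j') :
    PTF (fun a => e12 (q a) (k a) (h a) (d a) (e a) (b a) (j a) (c a) (j' a)) := by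
  unfold e12
  have h0 : PTF fun _ : α => (0 : ℕ) := PTF.const 0
  have hk3 := hh.mul (hk.pow_const 3)
  refine ((?_ : PTF _).and ?_).and ?_
  · exact hC α q d d k c b (fun a l s => blk (q a) 0 (d a) (j a) s l)
      (fun a i s => blk (q a) 0 (d a) (j' a) s i) hq hd hd hk hc hb
      (ptf_blk3 hP hq h0 hd hj) (ptf_blk3 hP hq h0 hd hj')
  · exact hC α q d d (fun a => h a * k a ^ 3) c b
      (fun a l s => blk (q a) (d a * k a) (d a) (j a) s l)
      (fun a i s => blk (q a) (d a * k a) (d a) (j' a) s i) hq hd hd hk3 hc hb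
      (ptf_blk3 hP hq (hd.mul hk) hd hj) (ptf_blk3 hP hq (hd.mul hk) hd hj')
  · exact hC α q e e e c b
      (fun a l s => blk (q a) (d a * (k a + h a * k a ^ 3)) (e a) (j a) s l)
      (fun a i s => blk (q a) (d a * (k a + h a * k a ^ 3)) (e a) (j' a) s i) hq he he he hc hb
      (ptf_blk3 hP hq (hd.mul (hk.add hk3)) he hj) (ptf_blk3 hP hq (hd.mul (hk.add hk3)) he hj')

theorem ptf_hE (hP : S_POP) (hT : S_PTT) (hC : S_PCH) {q k h d e N M u v : α → ℕ}
    {G : α → Code} (hq : PTF q) (hk : PTF k) (hh : PTF h) (hd : PTF d) (he : PTF e) (hN : PTF N)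
    (hM : PTF M) (hG : PTF G) (hu : PTF u) (hv : PTF v) :
    PTF (fun a => hE (q a) (k a) (h a) (d a) (e a) (N a) (M a) (G a) (u a) (v a)) := by
  unfold hE
  have uM := hu.div hM
  have vM := hv.div hM
  have um := hu.mod hM
  have vm := hv.mod hM
  have ud := uM.div hq
  have vd := vM.div hq
  have ux := uM.mod hq
  have vx := vM.mod hq
  exact PTF.ite (ud.eq vd) (uM.ne vM)
    (PTF.ite ((ud.eq (PTF.const 0)).decide_and (vd.eq (PTF.const 1)))
      (ptf_e01 hP hT hC hq hk hh hd he hN hG ux um vx vm)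
      (PTF.ite ((ud.eq (PTF.const 0)).decide_and (vd.eq (PTF.const 2)))
        (ptf_e02 hP hT hC hq hk hh hd he hN hG ux um vx vm)
        (PTF.ite ((ud.eq (PTF.const 1)).decide_and (vd.eq (PTF.const 2)))
          (ptf_e12 hP hC hq hk hh hd he ux um vx vm) (PTF.const false))))

end RPE

open RPE in
theorem pr_RPE (hP : S_POP) (hT : S_PTT) (hC : S_PCH) : S_RPE := by
  intro α _ q k h d e N M G hq hk hh hd he hN hM hG
  unfold redE
  have h3 : PTF fun t => 3 * q t := (PTF.const 3).mul hq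
  have hr : PTF fun t => List.range (3 * q t * M t) := (h3.mul hM).range
  refine PTF.pair ?_ (PTF.pair h3 ?_)
  · refine PTF.map' (f := fun t u => (List.range (3 * q t * M t)).map fun v =>
      hE (q t) (k t) (h t) (d t) (e t) (N t) (M t) (G t) u v) ?_ hr
    refine PTF.map' (f := fun (t : α × ℕ) v =>
      hE (q t.1) (k t.1) (h t.1) (d t.1) (e t.1) (N t.1) (M t.1) (G t.1) t.2 v) ?_
      (hr.comp PTF.fst)
    have h1 : PTF fun p : (α × ℕ) × ℕ => p.1.1 := PTF.fst.comp PTF.fst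
    have h2 : PTF fun p : (α × ℕ) × ℕ => p.1.2 := PTF.snd.comp PTF.fst
    exact ptf_hE hP hT hC (hq.comp h1) (hk.comp h1) (hh.comp h1) (hd.comp h1) (he.comp h1)
      (hN.comp h1) (hM.comp h1) (hG.comp h1) h2 PTF.snd
  · refine PTF.map' (f := fun t u => u / M t) ?_ hr
    exact PTF.snd.div (hM.comp PTF.fst)

end Pool.Agent.Work.MP_3154ac_lc.E

end

section

/-!
# SNA: soundness, abstract form
-/

set_option autoImplicit false

namespace Pool.Agent.Work.MP_3154ac_lc.E

open N68a2faeb Finset Pool.Agent.PT Polynomial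

namespace SNA

/-- division with remainder for indices -/
theorem idx {d c : ℕ} (hc : c < d * d) : c / d < d ∧ c % d < d ∧ d * (c / d) + c % d = c := by
  have hd : 0 < d := by
    rcases Nat.eq_zero_or_pos d with h | h
    · subst h; simp at hc
    · exact h
  exact ⟨Nat.div_lt_of_lt_mul hc, Nat.mod_lt _ hd, Nat.div_add_mod c d⟩

theorem ev_congr {F : Type} [Field F] {e : ℕ} {c c' : ℕ → F} (h : ∀ i < e, c i = c' i) (x : F) :
    ev e c x = ev e c' x := by
  unfold ev
  exact Finset.sum_congr rfl fun i hi => by rw [h i (mem_range.1 hi)]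

theorem Phi_congr {F : Type} [Field F] {h m N : ℕ} (adj : ℕ → ℕ → Bool) {α β α' β' : ℕ → F}
    (h1 : ∀ c < m, α c = α' c) (h2 : ∀ c < m, β c = β' c) :
    Phi h m N adj α β = Phi h m N adj α' β' := by
  have e1 : ∀ u, Ind h m u α = Ind h m u α' := fun u => by
    unfold Ind
    exact Finset.prod_congr rfl fun c hc => by rw [h1 c (mem_range.1 hc)]
  have e2 : ∀ u, Ind h m u β = Ind h m u β' := fun u => by
    unfold Ind
    exact Finset.prod_congr rfl fun c hc => by rw [h2 c (mem_range.1 hc)]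
  unfold Phi
  simp only [e1, e2]

open Classical in
/-- counting subsets -/
theorem cnt3 {V : Type} [Fintype V] {B1 B2 B3 C1 C2 C3 : V → V → Prop} {K : ℕ}
    (h1 : ∀ a b, C1 a b → B1 a b) (h2 : ∀ a b, C2 a b → B2 a b) (h3 : ∀ a b, C3 a b → B3 a b)
    (h : 64 * ((univ.filter fun p : V × V => B1 p.1 p.2).card +
      (univ.filter fun p : V × V => B2 p.1 p.2).card +
      (univ.filter fun p : V × V => B3 p.1 p.2).card) ≤ K) :
    64 * ((univ.filter fun p : V × V => C1 p.1 p.2).card +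
      (univ.filter fun p : V × V => C2 p.1 p.2).card +
      (univ.filter fun p : V × V => C3 p.1 p.2).card) ≤ K := by
  have e1 : (univ.filter fun p : V × V => C1 p.1 p.2).card ≤
      (univ.filter fun p : V × V => B1 p.1 p.2).card :=
    card_le_card (monotone_filter_right _ fun p _ hp => h1 _ _ hp)
  have e2 : (univ.filter fun p : V × V => C2 p.1 p.2).card ≤
      (univ.filter fun p : V × V => B2 p.1 p.2).card :=
    card_le_card (monotone_filter_right _ fun p _ hp => h2 _ _ hp)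
  have e3 : (univ.filter fun p : V × V => C3 p.1 p.2).card ≤
      (univ.filter fun p : V × V => B3 p.1 p.2).card :=
    card_le_card (monotone_filter_right _ fun p _ hp => h3 _ _ hp)
  omega

open Classical in
/-- positions all of whose pairs are bad -/
theorem cntY {V : Type} [Fintype V] [Nonempty V] {B : V → V → Prop} {Y : V → Prop}
    (h1 : ∀ a b, Y a → B a b)
    (h : 64 * (univ.filter fun p : V × V => B p.1 p.2).card ≤ Fintype.card V ^ 2) :
    64 * (univ.filter fun a : V => Y a).card ≤ Fintype.card V := by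
  have e : (univ.filter fun a : V => Y a).card * Fintype.card V ≤
      (univ.filter fun p : V × V => B p.1 p.2).card := by
    rw [← card_univ, ← card_product]
    refine card_le_card fun p hp => ?_
    rw [mem_product, mem_filter] at hp
    rw [mem_filter]
    exact ⟨mem_univ _, h1 _ _ hp.1.2⟩
  have hV : 0 < Fintype.card V := Fintype.card_pos
  have h2 : (64 * (univ.filter fun a : V => Y a).card) * Fintype.card V ≤
      Fintype.card V * Fintype.card V := by
    calc (64 * (univ.filter fun a : V => Y a).card) * Fintype.card V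
        = 64 * ((univ.filter fun a : V => Y a).card * Fintype.card V) := by ring
      _ ≤ 64 * (univ.filter fun p : V × V => B p.1 p.2).card := Nat.mul_le_mul_left _ e
      _ ≤ _ := by rw [← pow_two]; exact h
  exact Nat.le_of_mul_le_mul_right h2 hV

open Classical in
/-- zeros of `ev k c (P a)` -/
theorem zeros (hC : S_CMP) {F : Type} [Field F] [Fintype F] (q k h : ℕ)
    (hq : Fintype.card F = q) (hh : 1 ≤ h)
    (h1 : 8 * (h * k ^ 3) ≤ q) (P : F[X]) (hP : P.degree < (k * k : ℕ))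
    (hne : ∃ x y, P.eval x ≠ P.eval y) (c : ℕ → F) (hc : ∃ s < k, c s ≠ 0) :
    8 * (univ.filter fun a => ev k c (P.eval a) = 0).card ≤ Fintype.card F := by
  have h2 := hC F (k * k) k P hP hne c hc
  rw [hq]
  have h3 : k * (k * k) = k ^ 3 := by ring
  have h4 : k ^ 3 ≤ h * k ^ 3 := Nat.le_mul_of_pos_left _ hh
  rw [h3] at h2
  omega

open Classical in
/-- zeros of `ev e c a` -/
theorem zeros' (hU : S_UNI) {F : Type} [Field F] [Fintype F] (q e : ℕ)
    (hq : Fintype.card F = q) (h1 : 8 * e ≤ q) (c : ℕ → F)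
    (hc : ∃ s < e, c s ≠ 0) :
    8 * (univ.filter fun a => ev e c (id a) = 0).card ≤ Fintype.card F := by
  rw [hq]
  by_contra hcon
  obtain ⟨s, hs, hs'⟩ := hc
  refine hs' (hU F e c (univ.filter fun a => ev e c (id a) = 0) (by omega) ?_ s hs)
  intro x hx
  rw [mem_filter] at hx
  exact hx.2

theorem natCast_ne {q : ℕ} [Fact q.Prime] {a b : ℕ} (ha : a < q) (hb : b < q) (h : a ≠ b) :
    (a : ZMod q) ≠ (b : ZMod q) := by
  intro e
  have := congrArg ZMod.val e
  rw [ZMod.val_natCast_of_lt ha, ZMod.val_natCast_of_lt hb] at this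
  exact h this

theorem code {k i j : ℕ} (hi : i < k) (hj : j < k) :
    i + k * j < k * k ∧ (i + k * j) % k = i ∧ (i + k * j) / k = j := by
  have hk : 0 < k := by omega
  refine ⟨?_, ?_, ?_⟩
  · have : k * (j + 1) ≤ k * k := Nat.mul_le_mul_left _ hj
    rw [Nat.mul_add] at this
    omega
  · rw [Nat.add_mul_mod_self_left, Nat.mod_eq_of_lt hi]
  · rw [Nat.add_mul_div_left _ _ hk, Nat.div_eq_of_lt hi, zero_add]

/-- the two polynomials of the planes of direction `1` agree -/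
theorem agree (hU : S_UNI) {F : Type} [Field F] [Fintype F] (k d : ℕ)
    (hd : 8 * d ≤ Fintype.card F) (A2 : F → ℕ → ℕ → F) (Q Q' : ℕ → ℕ → ℕ → F)
    (X X' : Finset F) (hX : 14 * X.card ≤ Fintype.card F) (hX' : 14 * X'.card ≤ Fintype.card F)
    (h : ∀ b, b ∉ X → ∀ s < k, ∀ l < d, A2 b s l = ev d (fun i => Q s i l) b)
    (h' : ∀ b, b ∉ X' → ∀ s < k, ∀ l < d, A2 b s l = ev d (fun i => Q' s i l) b) :
    ∀ s < k, ∀ i < d, ∀ l < d, Q s i l = Q' s i l := by
  classical
  intro s hs i hi l hl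
  have hF : 0 < Fintype.card F := Fintype.card_pos
  have h1 : d ≤ ((X ∪ X')ᶜ).card := by
    rw [card_compl]
    have := card_union_le X X'
    omega
  have h2 := hU F d (fun i => Q s i l - Q' s i l) ((X ∪ X')ᶜ) h1 (by
    intro x hx
    rw [mem_compl, mem_union, not_or] at hx
    have e1 := h x hx.1 s hs l hl
    have e2 := h' x hx.2 s hs l hl
    rw [e1] at e2
    have e3 : ev d (fun i => Q s i l - Q' s i l) x =
        ev d (fun i => Q s i l) x - ev d (fun i => Q' s i l) x := by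
      simp only [ev, sub_mul, sum_sub_distrib]
    rw [e3, e2, sub_self]) i hi
  exact sub_eq_zero.1 h2

end SNA

theorem pr_SNA (hT : S_TRI) (hC : S_CMP) (hA : S_IDA) (hB : S_IDB) (hI : S_IDC) (hD : S_DIG)
    (hU : S_UNI) : S_SNA := by
  classical
  intro q k h d e N M n _ adj I J α β ρ ω A2 R2 W2 A3 R3 W3 adm hIdeg hJdeg hIv hJv hbad
  obtain ⟨hprime, hk, hh, hd, he, h1, h2, h3, h4, h5, h6, h7, h8, h9, h10⟩ := adm
  have hqpos : 0 < q := hprime.pos
  have hcard : Fintype.card (ZMod q) = q := ZMod.card q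
  have hk3 : k * k ≤ k ^ 3 := by
    calc k * k = k ^ 2 := by ring
      _ ≤ k ^ 3 := Nat.pow_le_pow_right (by omega) (by norm_num)
  have hk3' : k ^ 3 ≤ h * k ^ 3 := Nat.le_mul_of_pos_left _ hh
  have hkk : k ≤ k * k := Nat.le_mul_of_pos_left _ (by omega)
  have hkq : k * k ≤ q := by omega
  have hIne : ∃ x y, I.eval x ≠ I.eval y := by
    refine ⟨((0 : ℕ) : ZMod q), ((1 : ℕ) : ZMod q), ?_⟩
    rw [hIv 0 (by omega), hIv 1 (by omega)]
    refine SNA.natCast_ne ?_ ?_ ?_
    · rw [Nat.zero_mod]; exact hqpos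
    · rw [Nat.mod_eq_of_lt (by omega)]; omega
    · rw [Nat.zero_mod, Nat.mod_eq_of_lt (by omega)]; omega
  have hJne : ∃ x y, J.eval x ≠ J.eval y := by
    refine ⟨((0 : ℕ) : ZMod q), ((k : ℕ) : ZMod q), ?_⟩
    rw [hJv 0 (by omega), hJv k (by nlinarith)]
    refine SNA.natCast_ne ?_ ?_ ?_
    · rw [Nat.zero_div]; exact hqpos
    · rw [Nat.div_self (by omega)]; omega
    · rw [Nat.zero_div, Nat.div_self (by omega)]; omega
  have hd8 : 8 * d ≤ Fintype.card (ZMod q) := by rw [hcard]; exact h2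
  have he8 : 8 * e ≤ Fintype.card (ZMod q) := by rw [hcard]; exact h3
  -- the four applications of TRI
  obtain ⟨Q1, Xa, Xa', hXa, hXa', ha1, ha2⟩ := hT (ZMod q) k d d (fun x => I.eval x)
    (fun a i l => α a (d * i + l)) A2 A3
    (SNA.zeros hC q k h hcard hh h1 I hIdeg hIne) hd8 hd8 (by
      rw [hcard]
      refine SNA.cnt3 (fun a b hab => ?_) (fun a b hab => ?_) (fun a b hab => ?_) hbad
      · exact Or.inr (Or.inl hab)
      · exact Or.inr (Or.inl hab)
      · exact Or.inl hab)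
  obtain ⟨Q2, Xb, Xb', hXb, hXb', hb1, hb2⟩ := hT (ZMod q) k d d (fun x => J.eval x)
    (fun a i l => β a (d * i + l)) A2 A3
    (SNA.zeros hC q k h hcard hh h1 J hJdeg hJne) hd8 hd8 (by
      rw [hcard]
      refine SNA.cnt3 (fun a b hab => ?_) (fun a b hab => ?_) (fun a b hab => ?_) hbad
      · exact Or.inr (Or.inr (Or.inl hab))
      · exact Or.inr (Or.inr (Or.inl hab))
      · exact Or.inl hab)
  obtain ⟨Q3, Xr, Xr', hXr, hXr', hr1, hr2⟩ := hT (ZMod q) (h * k ^ 3) d d id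
    (fun a i l => ρ a (d * i + l)) R2 R3
    (SNA.zeros' hU q (h * k ^ 3) hcard h1) hd8 hd8 (by
      rw [hcard]
      refine SNA.cnt3 (fun a b hab => ?_) (fun a b hab => ?_) (fun a b hab => ?_) hbad
      · exact Or.inr (Or.inr (Or.inr (Or.inl hab)))
      · exact Or.inr (Or.inr (Or.inr (Or.inl hab)))
      · exact Or.inr (Or.inl hab))
  obtain ⟨Q4, Xw, Xw', hXw, hXw', hw1, hw2⟩ := hT (ZMod q) e e e id ω W2 W3
    (SNA.zeros' hU q e hcard h3) he8 he8 (by
      rw [hcard]
      refine SNA.cnt3 (fun a b hab => ?_) (fun a b hab => ?_) (fun a b hab => ?_) hbad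
      · exact Or.inr (Or.inr (Or.inr (Or.inr hab)))
      · exact Or.inr (Or.inr (Or.inr (Or.inr hab)))
      · exact Or.inr (Or.inr hab))
  have hQ : ∀ s < k, ∀ i < d, ∀ l < d, Q1 s i l = Q2 s i l :=
    SNA.agree hU k d hd8 A2 Q1 Q2 Xa' Xb' hXa' hXb' ha2 hb2
  -- the failures of T2
  set Y := univ.filter fun a : ZMod q => ¬ T2 k h d e N adj a (α a) (β a) (ρ a) (ω a) with hY
  have hYc : 64 * Y.card ≤ q := by
    have := SNA.cntY (V := ZMod q)
      (B := Bad12 k h d e N adj (fun x => I.eval x) (fun x => J.eval x) α β ρ ω A2 R2 W2)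
      (Y := fun a => ¬ T2 k h d e N adj a (α a) (β a) (ρ a) (ω a))
      (fun a b hab => Or.inl hab) (by rw [hcard]; omega)
    rw [hcard] at this
    convert this
  set Z := (Xa ∪ Xb ∪ Xr ∪ Xw ∪ Y)ᶜ with hZ
  have hZc : q < 2 * Z.card := by
    rw [hZ, card_compl, hcard]
    rw [hcard] at hXa hXb hXr hXw
    have u1 := card_union_le (Xa ∪ Xb ∪ Xr ∪ Xw) Y
    have u2 := card_union_le (Xa ∪ Xb ∪ Xr) Xw
    have u3 := card_union_le (Xa ∪ Xb) Xr
    have u4 := card_union_le Xa Xb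
    omega
  have hZm : ∀ a ∈ Z, a ∉ Xa ∧ a ∉ Xb ∧ a ∉ Xr ∧ a ∉ Xw ∧
      T2 k h d e N adj a (α a) (β a) (ρ a) (ω a) := by
    intro a ha
    rw [hZ, mem_compl] at ha
    simp only [mem_union, not_or, hY, mem_filter, mem_univ, true_and, not_not] at ha
    exact ⟨ha.1.1.1.1, ha.1.1.1.2, ha.1.1.2, ha.1.2, ha.2⟩
  -- the global polynomials
  set QA : ℕ → ℕ → ZMod q := fun s c => Q1 s (c / d) (c % d) with hQA
  set QR : ℕ → ℕ → ZMod q := fun s c => Q3 s (c / d) (c % d) with hQR
  have gα : ∀ a ∈ Z, ∀ c < d * d, α a c = ev k (fun s => QA s c) (I.eval a) := by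
    intro a ha c hc
    obtain ⟨i1, i2, i3⟩ := SNA.idx hc
    have := ha1 a (hZm a ha).1 (c / d) i1 (c % d) i2
    simp only [i3] at this
    exact this
  have gβ : ∀ a ∈ Z, ∀ c < d * d, β a c = ev k (fun s => QA s c) (J.eval a) := by
    intro a ha c hc
    obtain ⟨i1, i2, i3⟩ := SNA.idx hc
    have := hb1 a (hZm a ha).2.1 (c / d) i1 (c % d) i2
    simp only [i3] at this
    rw [this]
    exact SNA.ev_congr (fun s hs => (hQ s hs _ i1 _ i2).symm) _
  have gρ : ∀ a ∈ Z, ∀ c < d * d, ρ a c = ev (h * k ^ 3) (fun s => QR s c) a := by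
    intro a ha c hc
    obtain ⟨i1, i2, i3⟩ := SNA.idx hc
    have := hr1 a (hZm a ha).2.2.1 (c / d) i1 (c % d) i2
    simp only [i3] at this
    exact this
  have gω : ∀ a ∈ Z, ∀ i < e, ∀ l < e, ω a i l = ev e (fun s => Q4 s i l) a := by
    intro a ha i hi l hl
    exact hw1 a (hZm a ha).2.2.2.1 i hi l hl
  -- first identity
  have hdig : ∀ c < d * d, ∀ s < k, ∃ η < h, ev k (fun s => QA s c) (s : ZMod q) = (η : ZMod q) := by
    intro c hc
    have hsub : Z ⊆ univ.filter fun x : ZMod q =>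
        ∏ η ∈ range h, (ev k (fun s => QA s c) (I.eval x) - (η : ZMod q)) =
          Zk k x * ev (h * k ^ 3) (fun s => QR s c) x := by
      intro a ha
      rw [mem_filter]
      refine ⟨mem_univ _, ?_⟩
      have := (hZm a ha).2.2.2.2.1 c hc
      rw [gα a ha c hc, gρ a ha c hc] at this
      exact this
    have hle := card_le_card hsub
    refine hA q k h (h * k ^ 3) I (fun s => QA s c) (fun s => QR s c) hkq hIdeg ?_ ?_ ?_
    · intro s hs
      rw [hIv s (by omega), Nat.mod_eq_of_lt hs]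
    · omega
    · omega
  choose! η hη1 hη2 using hdig
  -- the vertices
  have hv : ∀ i : ℕ, ∃ v : ℕ, i < k → v < N ∧ ∀ c < d * d, dig h c v = η c i := by
    intro i
    by_cases hi : i < k
    · obtain ⟨v, hv1, hv2⟩ := (hD h hh).2.2.1 (d * d) (fun c => η c i) (fun c hc => hη1 c hc i hi)
      exact ⟨v, fun _ => ⟨h9 ▸ hv1, hv2⟩⟩
    · exact ⟨0, fun h => absurd h hi⟩
  choose v hv using hv
  refine ⟨v, fun i hi => (hv i hi).1, fun i hi j hj hij => ?_⟩
  obtain ⟨s1, s2, s3⟩ := SNA.code hi hj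
  -- second identity
  have hPhi : Phi h (d * d) N adj (fun c => ev k (fun s => QA s c) (I.eval ((i + k * j : ℕ) : ZMod q)))
      (fun c => ev k (fun s => QA s c) (J.eval ((i + k * j : ℕ) : ZMod q))) = 0 := by
    have hsub : Z ⊆ univ.filter fun x : ZMod q =>
        Phi h (d * d) N adj (fun c => ev k (fun s => QA s c) (I.eval x))
          (fun c => ev k (fun s => QA s c) (J.eval x)) =
        Zp k x * ev e (fun i => ev e (fun l => ev e (fun s => Q4 s i l) x) (x ^ (e * e)))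
          (x ^ e) := by
      intro a ha
      rw [mem_filter]
      refine ⟨mem_univ _, ?_⟩
      have := (hZm a ha).2.2.2.2.2
      rw [SNA.Phi_congr adj (gα a ha) (gβ a ha)] at this
      rw [this]
      congr 1
      refine SNA.ev_congr (fun i hi => ?_) _
      exact SNA.ev_congr (fun l hl => gω a ha i hi l hl) _
    have hle := card_le_card hsub
    refine hB q k h (d * d) e N adj I J QA Q4 (by omega) he hkq hIdeg hJdeg ?_ ?_ (i + k * j) s1 ?_
    · have e1 : 2 * (d * d * h * k ^ 3) = 2 * (d ^ 2 * h * k ^ 3) := by ring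
      rw [e1]
      omega
    · omega
    · rw [s2, s3]; exact hij
  rw [hIv _ s1, hJv _ s1, s2, s3] at hPhi
  have hhq : h ≤ q := by
    have : h ≤ h * k ^ 3 := Nat.le_mul_of_pos_right _ (pow_pos (by omega) 3)
    omega
  refine (hI q h (d * d) N adj _ _ (v i) (v j) hh hhq h9 (hv i hi).1 (hv j hj).1 ?_ ?_).1 hPhi
  · intro c hc
    rw [(hv i hi).2 c hc]
    exact hη2 c hc i hi
  · intro c hc
    rw [(hv j hj).2 c hc]
    exact hη2 c hc j hj

end Pool.Agent.Work.MP_3154ac_lc.E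

end

section

/-!
# PIH for algorithms with subexponential dependence on the parameter: soundness of the reduction
-/

set_option autoImplicit false

namespace Pool.Agent.Work.MP_3154ac_lc.E

open N68a2faeb Finset Pool.Agent.PT Polynomial

namespace SNE

open Classical in
lemma count (hQ : S_CTQ) (q : ℕ) [Fact q.Prime] (P : ZMod q → ZMod q → Prop)
    (f : ℕ → ℕ → Bool)
    (h : ∀ a < q, ∀ b < q, (f a b = false ↔ P (a : ZMod q) (b : ZMod q))) :
    (((range q) ×ˢ (range q)).filter fun p : ℕ × ℕ => f p.1 p.2 = false).card =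
      (univ.filter fun p : ZMod q × ZMod q => P p.1 p.2).card := by
  rw [← hQ q P]
  congr 1
  ext p
  simp only [mem_filter, mem_product, mem_range]
  constructor
  · rintro ⟨⟨h1, h2⟩, h3⟩
    exact ⟨⟨h1, h2⟩, (h _ h1 _ h2).1 h3⟩
  · rintro ⟨⟨h1, h2⟩, h3⟩
    exact ⟨⟨h1, h2⟩, (h _ h1 _ h2).2 h3⟩

lemma two_choose (q : ℕ) : 2 * (3 * q).choose 2 ≤ 9 * q ^ 2 := by
  rw [Nat.choose_two_right]
  have h1 : 2 * (3 * q * (3 * q - 1) / 2) ≤ 3 * q * (3 * q - 1) := Nat.mul_div_le _ _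
  have h2 : 3 * q * (3 * q - 1) ≤ 3 * q * (3 * q) := Nat.mul_le_mul_left _ (Nat.sub_le _ _)
  nlinarith [h1, h2]

lemma lt_of_adE {G : Code} {u v : ℕ} (h : adE G u v = true) : u < G.length := by
  unfold adE at h
  rw [Bool.and_eq_true] at h
  exact of_decide_eq_true h.1

end SNE

open SNE in
theorem pr_SNE (hS : S_SNA) (hE : S_EDG) (hQ : S_CTQ) (hV : S_VAL) (hC : S_CLQ) : S_SNE := by
  intro q k h d e N M G hA hno t ht
  have hqp : Fact q.Prime := ⟨hA.prime⟩
  by_contra hlt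
  rw [not_le] at hlt
  have hk := hA.hk
  have h5 := hA.h5
  have hM : 1 ≤ M := le_trans (Nat.one_le_pow _ _ hA.prime.pos) hA.h7
  obtain ⟨j, hj, hjt, hval⟩ := hV q k h d e N M G t hA.prime.one_le hM ht
  have hkq : k * k ≤ q := by
    rw [← pow_two]
    omega
  obtain ⟨I, J, hI, hJ, hIe, hJe, hed⟩ := hE q k h d e N G (by omega) hkq
  have hed' := hed j (fun b => j (q + b)) (fun c => j (2 * q + c))
  have c1 := count hQ q _ (fun a b => e01 q k h d e N G a (j a) b (j (q + b)))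
    (fun a ha b hb => (hed' a ha b hb).1)
  have c2 := count hQ q _ (fun a b => e02 q k h d e N G a (j a) b (j (2 * q + b)))
    (fun a ha b hb => (hed' a ha b hb).2.1)
  have c3 := count hQ q _ (fun a b => e12 q k h d e a (j (q + a)) b (j (2 * q + b)))
    (fun a ha b hb => (hed' a ha b hb).2.2)
  obtain ⟨v, hvN, hv⟩ := hS q k h d e N M G.length (adE G) I J _ _ _ _ _ _ _ _ _ _ hA hI hJ hIe hJe
    (by
      rw [← c1, ← c2, ← c3]
      have h2 := two_choose q
      have h3 : 2 * (3 * q).choose 2 ≤ 9 * q ^ 2 := h2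
      omega)
  apply hno
  rw [hC]
  refine ⟨v, fun i hi => ?_, hv⟩
  by_cases h0 : i = 0
  · exact lt_of_adE (hv i hi 1 (by omega) (by omega))
  · exact lt_of_adE (hv i hi 0 (by omega) h0)

end Pool.Agent.Work.MP_3154ac_lc.E

end

section

/-! Item SOL (helper42): solutions from codes. -/

set_option autoImplicit false

namespace Pool.Agent.Work.MP_3154ac_lc.E

open N68a2faeb

theorem pr_SOL : S_SOL := by
  intro q k h d e N M G j hq hM hj
  have hlen : (redE q k h d e N M G).1.length = 3 * q * M := by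
    simp [redE]
  have hk : (redE q k h d e N M G).2.1 = 3 * q := rfl
  have hb : ∀ π : ℕ, π < 3 * q → π * M + j π < 3 * q * M := by
    intro π hπ
    have h1 := hj π hπ
    calc π * M + j π < π * M + M := by omega
      _ = (π + 1) * M := by ring
      _ ≤ 3 * q * M := Nat.mul_le_mul_right M hπ
  refine ⟨fun π => ⟨(π : ℕ) * M + j π, by rw [hlen]; exact hb _ (π.isLt.trans_eq hk)⟩,
    ?_, fun π => rfl⟩
  intro π
  have hπ : (π : ℕ) < 3 * q := π.isLt.trans_eq hk
  have h2 : ((List.range (3 * q * M)).map fun u => u / M)[(π : ℕ) * M + j π]? = some (π : ℕ) := by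
    rw [List.getElem?_map, List.getElem?_range (hb _ hπ)]
    simp only [Option.map_some, Option.some.injEq]
    rw [Nat.mul_comm, Nat.mul_add_div (by omega), Nat.div_eq_of_lt (hj _ hπ), Nat.add_zero]
  exact h2

end Pool.Agent.Work.MP_3154ac_lc.E

end

section

/-!
# PIH for algorithms with subexponential dependence on the parameter: parameters and algorithms
-/

set_option autoImplicit false

namespace Pool.Agent.Work.MP_3154ac_lc.E

open N68a2faeb Finset Pool.Agent.PT

/-! ### parameters -/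

/-- lower bound for `x` -/
def x0 (a k : ℕ) : ℕ := 2 * k ^ 3 + 192 * 2 ^ (6 * a + 4)

/-- the smallest `x ≥ x0 a k` with `n ≤ x ^ (x ^ (6 a + 4))` -/
def xE (a k n : ℕ) : ℕ :=
  ((List.range (x0 a k + n + 1)).find? fun x =>
    decide (x0 a k ≤ x) && decide (cpw n (x ^ (6 * a + 4)) x = n)).getD 0

/-- primality test -/
def primeB (q : ℕ) : Bool :=
  decide (2 ≤ q) && (List.range q).all fun b => decide (b < 2) || decide (q % b ≠ 0)

/-- the modulus -/
def qE (a x : ℕ) : ℕ :=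
  ((List.range (64 * x ^ (6 * a + 6) + 1)).find? fun q =>
    decide (32 * x ^ (6 * a + 6) ≤ q) && primeB q).getD 0

/-- bound for the numbers of the algorithm; `L` is the length of the padding -/
def cap (a n L : ℕ) : ℕ := ((n + 1) * (L + 1)) ^ 2 ^ (6 * a + 5)

/-- the number `x ^ (x ^ (6 a + 4))` -/
def nE (a n L x : ℕ) : ℕ := cpw (cap a n L) (x ^ (6 * a + 4)) x

/-- CPW: capped powers -/
def S_CPW : Prop := ∀ n K N : ℕ, 1 ≤ N → (1 ≤ n ∨ 1 ≤ K) → cpw n K N = min (N ^ K) n

/-- XE: the parameter `x` (uses CPW) -/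
def S_XE : Prop := ∀ a k n : ℕ, x0 a k ≤ xE a k n ∧ n ≤ xE a k n ^ (xE a k n ^ (6 * a + 4)) ∧
  (xE a k n = x0 a k ∨ (xE a k n - 1) ^ ((xE a k n - 1) ^ (6 * a + 4)) < n)

/-- QE: the modulus (Bertrand) -/
def S_QE : Prop := ∀ a x : ℕ, 1 ≤ x → (qE a x).Prime ∧ 32 * x ^ (6 * a + 6) ≤ qE a x ∧
  qE a x ≤ 64 * x ^ (6 * a + 6)

/-- ARE: the parameters are admissible -/
def S_ARE : Prop := ∀ a k x q n : ℕ, 2 ≤ k → x0 a k ≤ x → q.Prime →
  32 * x ^ (6 * a + 6) ≤ q → q ≤ 64 * x ^ (6 * a + 6) → n ≤ x ^ (x ^ (6 * a + 4)) →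
  Adm q k x (x ^ (3 * a + 2)) (x ^ (2 * a + 2)) (x ^ (x ^ (6 * a + 4)))
    ((x ^ (x ^ (6 * a + 4))) ^ (28 * (a + 1))) n

/-- CAP: the numbers are small -/
def S_CAP : Prop := ∀ a : ℕ, ∃ c : ℕ, 1 ≤ c ∧ ∀ k x n L : ℕ, 2 ≤ k → x0 a k ≤ x →
  (x = x0 a k ∨ (x - 1) ^ ((x - 1) ^ (6 * a + 4)) < n) → 2 ^ (k ^ c) ≤ L →
  x ^ (x ^ (6 * a + 4)) ≤ cap a n L ∧
  ∀ q, q ≤ 64 * x ^ (6 * a + 6) → 2 ^ rt a (3 * q) ≤ cap a n L

/-! ### the algorithms -/

/-- the decision algorithm for cliques with `k ≥ 2` vertices; `x` is the parameter -/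
def decA (a : ℕ) (R' : List Bool × Inst → Bool) (L : ℕ) (G : Code) (k x : ℕ) : Bool :=
  R' (List.replicate (cpw (cap a G.length L) (rt a (3 * qE a x)) 2) true,
    redE (qE a x) k x (x ^ (3 * a + 2)) (x ^ (2 * a + 2)) (nE a G.length L x)
      (nE a G.length L x ^ (28 * (a + 1))) G)

/-- the decision algorithm for cliques -/
def decE (a : ℕ) (R' : List Bool × Inst → Bool) (y : List Bool × (Code × ℕ)) : Bool :=
  if y.2.2 = 0 then true
  else if y.2.2 = 1 then decide (y.2.1 ≠ [])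
  else decA a R' y.1.length y.2.1 y.2.2 (xE a y.2.2 y.2.1.length)

/-- DCE: the decision algorithm is correct (uses XE, QE, ARE, CAP, CPW, SNE, CPE, VLE) -/
def S_DCE : Prop := ∀ a : ℕ, ∃ c : ℕ, 1 ≤ c ∧ ∀ R' : List Bool × Inst → Bool,
  (∀ I : Inst, (Full I → R' (List.replicate (2 ^ rt a I.2.1) true, I) = true) ∧
    (Small (1 / 288) I → R' (List.replicate (2 ^ rt a I.2.1) true, I) = false)) →
  ∀ (pad : List Bool) (G : Code) (k : ℕ), 2 ^ (k ^ c) ≤ pad.length →
    (HasClique G k → decE a R' (pad, (G, k)) = true) ∧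
    (¬ HasClique G k → decE a R' (pad, (G, k)) = false)

/-- one step of the search: append the first vertex that passes the test -/
def stp (D : List Bool × (Code × ℕ) → Bool) (pad : List Bool) (G : Code) (k : ℕ)
    (T : List ℕ) : List ℕ :=
  (((List.range G.length).find? fun v =>
    cliqB G (T ++ [v]) && D (pad, (sub G (T ++ [v]), k - (T.length + 1)))).map
      fun v => T ++ [v]).getD T

/-- the search algorithm -/
def srE (D : List Bool × (Code × ℕ) → Bool) (y : List Bool × (Code × ℕ)) : List ℕ :=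
  (List.range y.2.2).foldl (fun T _ => stp D y.1 y.2.1 y.2.2 T) []

/-- SRE: the search algorithm is correct (uses SUB, OUT of `Stmts3`) -/
def S_SRE : Prop := S_SUB → S_OUT → ∀ (D : List Bool × (Code × ℕ) → Bool) (pad : List Bool)
  (G : Code) (k : ℕ),
  (∀ (G' : Code) (k' : ℕ), k' ≤ k → (HasClique G' k' → D (pad, (G', k')) = true) ∧
    (¬ HasClique G' k' → D (pad, (G', k')) = false)) →
  HasClique G k → IsCliqueList G k (srE D (pad, (G, k)))

/-- PRT: parameters in polynomial time -/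
def S_PRT : Prop := ∀ (a : ℕ) (α : Type) [Enc α] (k n L x : α → ℕ), PTF k → PTF n → PTF L →
  PTF x → PTF (fun t => rt a (k t)) ∧ PTF (fun t => cpw (k t) (n t) (x t)) ∧
  PTF (fun t => xE a (k t) (n t)) ∧ PTF (fun t => qE a (x t)) ∧
  PTF (fun t => cap a (n t) (L t)) ∧ PTF (fun t => nE a (n t) (L t) (x t))

/-- DPT: the decision algorithm is computed in polynomial time (uses PRT, RPE) -/
def S_DPT : Prop := S_PRT → S_RPE → ∀ (a : ℕ) (R' : List Bool × Inst → Bool), PTF R' →
  PTF (decE a R')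

/-- SPT: the search algorithm is computed in polynomial time -/
def S_SPT : Prop := ∀ D : List Bool × (Code × ℕ) → Bool, PTF D → PTF (srE D)

/-- BRA: from `IsPolyTime` to `PTF` -/
def S_BRA : Prop := ∀ R' : List Bool × Inst → Bool, IsPolyTime R' → PTF R'

/-- BRB: from `PTF` to `IsPolyTime`; `k` is given in binary and cut off at the length of the
padding -/
def S_BRB : Prop := ∀ S : List Bool × (Code × ℕ) → List ℕ, PTF S →
  IsPolyTime fun y : List Bool × (Code × ℕ) => S (y.1, (y.2.1, min y.2.2 y.1.length))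

/-- HYP: Hypothesis C excludes exact algorithms with running time `2 ^ (k ^ c) n ^ O(1)` -/
def S_HYP : Prop := HypC → ¬ CliqueTime

end Pool.Agent.Work.MP_3154ac_lc.E

end

section

/-! Item TRA: consistent planes come from one polynomial in three variables. -/

set_option autoImplicit false

open Finset

namespace Pool.Agent.Work.MP_3154ac_lc.E

namespace TRA

variable {F : Type} [Field F]

theorem ev_congr {e : ℕ} {c d : ℕ → F} (h : ∀ i < e, c i = d i) (x : F) :
    ev e c x = ev e d x := by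
  unfold ev
  apply Finset.sum_congr rfl
  intro i hi
  rw [h i (Finset.mem_range.mp hi)]

theorem ev_sub (e : ℕ) (c d : ℕ → F) (x : F) :
    ev e (fun i => c i - d i) x = ev e c x - ev e d x := by
  unfold ev
  rw [← Finset.sum_sub_distrib]
  apply Finset.sum_congr rfl
  intro i _
  rw [sub_mul]

theorem ev_comm (e f : ℕ) (Q : ℕ → ℕ → F) (x z : F) :
    ev e (fun i => ev f (fun l => Q i l) z) x = ev f (fun l => ev e (fun i => Q i l) x) z := by
  unfold ev
  have h1 : ∀ i ∈ range e, (∑ l ∈ range f, Q i l * z ^ l) * x ^ i =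
      ∑ l ∈ range f, Q i l * z ^ l * x ^ i := by
    intro i _
    rw [Finset.sum_mul]
  have h2 : ∀ l ∈ range f, (∑ i ∈ range e, Q i l * x ^ i) * z ^ l =
      ∑ i ∈ range e, Q i l * z ^ l * x ^ i := by
    intro l _
    rw [Finset.sum_mul]
    apply Finset.sum_congr rfl
    intro i _
    ring
  rw [Finset.sum_congr rfl h1, Finset.sum_congr rfl h2, Finset.sum_comm]

theorem uni (hU : S_UNI) {e : ℕ} {c d : ℕ → F} {S : Finset F} (hS : e ≤ S.card)
    (h : ∀ x ∈ S, ev e c x = ev e d x) : ∀ i < e, c i = d i := by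
  intro i hi
  have h1 := hU F e (fun i => c i - d i) S hS
    (fun x hx => by rw [ev_sub, h x hx, sub_self]) i hi
  exact sub_eq_zero.mp h1

theorem ev_lag [DecidableEq F] {S : Finset F} {L : F → ℕ → F}
    (hL : ∀ b ∈ S, ∀ x ∈ S, ev S.card (L b) x = if x = b then 1 else 0) (p : F → F) {b : F}
    (hb : b ∈ S) : ev S.card (fun i => ∑ b' ∈ S, L b' i * p b') b = p b := by
  have h1 : ev S.card (fun i => ∑ b' ∈ S, L b' i * p b') b =
      ∑ b' ∈ S, p b' * ev S.card (L b') b := by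
    unfold ev
    have h2 : ∀ i ∈ range S.card, (∑ b' ∈ S, L b' i * p b') * b ^ i =
        ∑ b' ∈ S, p b' * (L b' i * b ^ i) := by
      intro i _
      rw [Finset.sum_mul]
      apply Finset.sum_congr rfl
      intro b' _
      ring
    rw [Finset.sum_congr rfl h2, Finset.sum_comm]
    apply Finset.sum_congr rfl
    intro b' _
    rw [Finset.mul_sum]
  rw [h1]
  have h3 : ∀ b' ∈ S, p b' * ev S.card (L b') b = if b = b' then p b' else 0 := by
    intro b' hb'
    rw [hL b' hb' b hb, mul_ite, mul_one, mul_zero]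
  rw [Finset.sum_congr rfl h3, Finset.sum_ite_eq, if_pos hb]

end TRA

open TRA in
theorem pr_TRA (hU : S_UNI) (hL : S_LAG) : S_TRA := by
  intro F _ _ _ e1 e2 e3 ι p1 p2 p3 X1 X2 X3 hX he2 he3 h12 h23
  have hc2 : X2ᶜ.card = Fintype.card F - X2.card := Finset.card_compl X2
  have hc3 : X3ᶜ.card = Fintype.card F - X3.card := Finset.card_compl X3
  have hS2 : e2 ≤ X2ᶜ.card := by omega
  have hS3 : e3 ≤ X3ᶜ.card := by omega
  obtain ⟨S, hS, hSc⟩ := Finset.exists_subset_card_eq hS2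
  obtain ⟨L, hLag⟩ := hL F S
  have hSX : ∀ b ∈ S, b ∉ X2 := fun b hb => Finset.mem_compl.mp (hS hb)
  have a12 : ∀ a b, a ∉ X1 → b ∉ X2 → ∀ l < e3,
      ev e2 (fun i => p1 a i l) b = ev e1 (fun s => p2 b s l) (ι a) := by
    intro a b ha hb l hl
    by_contra hne
    exact h12 a b ha hb ⟨l, hl, hne⟩
  have a23 : ∀ b c, b ∉ X2 → c ∉ X3 → ∀ s < e1,
      ev e3 (fun l => p2 b s l) c = ev e2 (fun i => p3 c s i) b := by
    intro b c hb hc s hs
    by_contra hne
    exact h23 b c hb hc ⟨s, hs, hne⟩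
  obtain ⟨Q, hQ⟩ : ∃ Q : ℕ → ℕ → ℕ → F, Q = fun s i l => ∑ b ∈ S, L b i * p2 b s l := ⟨_, rfl⟩
  have s1 : ∀ b ∈ S, ∀ s l, ev e2 (fun i => Q s i l) b = p2 b s l := by
    intro b hb s l
    rw [hQ, ← hSc]
    exact ev_lag hLag (fun b => p2 b s l) hb
  have s2 : ∀ c, c ∉ X3 → ∀ s < e1, ∀ i < e2, p3 c s i = ev e3 (fun l => Q s i l) c := by
    intro c hc s hs
    apply uni hU (S := S) hSc.ge
    intro b hb
    rw [← a23 b c (hSX b hb) hc s hs, ev_comm e2 e3 (fun i l => Q s i l) b c]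
    apply ev_congr
    intro l _
    exact (s1 b hb s l).symm
  have s3 : ∀ b, b ∉ X2 → ∀ s < e1, ∀ l < e3, p2 b s l = ev e2 (fun i => Q s i l) b := by
    intro b hb s hs
    apply uni hU (S := X3ᶜ) hS3
    intro c hc
    have hc' : c ∉ X3 := Finset.mem_compl.mp hc
    rw [a23 b c hb hc' s hs, ← ev_comm e2 e3 (fun i l => Q s i l) b c]
    apply ev_congr
    intro i hi
    exact s2 c hc' s hs i hi
  refine ⟨Q, ?_, s3⟩
  intro a ha i hi l hl
  refine uni hU (c := fun i => p1 a i l) (d := fun i => ev e1 (fun s => Q s i l) (ι a))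
    (S := X2ᶜ) hS2 ?_ i hi
  intro b hb
  have hb' : b ∉ X2 := Finset.mem_compl.mp hb
  rw [a12 a b ha hb' l hl, ev_comm e2 e1 (fun i s => Q s i l) b (ι a)]
  apply ev_congr
  intro s hs
  exact s3 b hb' s hs l hl

end Pool.Agent.Work.MP_3154ac_lc.E

end

section

set_option autoImplicit false

namespace Pool.Agent.Work.MP_3154ac_lc.E

open Finset

namespace TRC

open Classical in
theorem sum_rows {V : Type} [Fintype V] (R : V → V → Prop) :
    ∑ a, (univ.filter fun b => R a b).card = (univ.filter fun p : V × V => R p.1 p.2).card := by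
  rw [Finset.card_filter, Fintype.sum_prod_type]
  exact Finset.sum_congr rfl fun a _ => by rw [Finset.card_filter]

open Classical in
theorem sum_cols {V : Type} [Fintype V] (R : V → V → Prop) :
    ∑ b, (univ.filter fun a => R a b).card = (univ.filter fun p : V × V => R p.1 p.2).card := by
  rw [Finset.card_filter, Fintype.sum_prod_type_right]
  exact Finset.sum_congr rfl fun a _ => by rw [Finset.card_filter]

open Classical in
theorem markov {V : Type} [Fintype V] (f : V → ℕ) (q : ℕ) :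
    7 * q * (univ.filter fun a => 7 * q ≤ 16 * f a).card ≤ 16 * ∑ a, f a := by
  calc 7 * q * (univ.filter fun a => 7 * q ≤ 16 * f a).card
      = ∑ a ∈ univ.filter (fun a => 7 * q ≤ 16 * f a), 7 * q := by
        rw [Finset.sum_const, smul_eq_mul, mul_comm]
    _ ≤ ∑ a ∈ univ.filter (fun a => 7 * q ≤ 16 * f a), 16 * f a :=
        Finset.sum_le_sum fun a ha => (Finset.mem_filter.mp ha).2
    _ ≤ ∑ a, 16 * f a :=
        Finset.sum_le_sum_of_subset_of_nonneg (Finset.filter_subset _ _) fun _ _ _ => Nat.zero_le _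
    _ = 16 * ∑ a, f a := by rw [Finset.mul_sum]

open Classical in
theorem cover {V : Type} [Fintype V] (P Q : V → Prop)
    (h : 8 * (univ.filter fun c => ¬ (P c ∨ Q c)).card ≤ Fintype.card V) :
    7 * Fintype.card V ≤ 8 * ((univ.filter fun c => P c).card + (univ.filter fun c => Q c).card) := by
  have h1 : (univ.filter fun c => P c ∨ Q c).card + (univ.filter fun c => ¬ (P c ∨ Q c)).card =
      Fintype.card V := by
    have := Finset.card_filter_add_card_filter_not (s := (univ : Finset V)) (fun c => P c ∨ Q c)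
    simpa using this
  have h2 : (univ.filter fun c => P c ∨ Q c).card ≤
      (univ.filter fun c => P c).card + (univ.filter fun c => Q c).card := by
    rw [Finset.filter_or]
    exact Finset.card_union_le _ _
  omega

end TRC

open TRC

open Classical in
theorem pr_TRC : S_TRC := by
  intro V _ B12 B13 B23 h12 h13 h23 hB
  set q := Fintype.card V with hq
  set i1 : V → ℕ := fun a => (univ.filter fun b => B12 a b).card + (univ.filter fun c => B13 a c).card
    with hi1
  set i2 : V → ℕ := fun b => (univ.filter fun a => B12 a b).card + (univ.filter fun c => B23 b c).card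
    with hi2
  set i3 : V → ℕ := fun c => (univ.filter fun a => B13 a c).card + (univ.filter fun b => B23 b c).card
    with hi3
  refine ⟨univ.filter fun a => 7 * q ≤ 16 * i1 a, univ.filter fun a => 7 * q ≤ 16 * i2 a,
    univ.filter fun a => 7 * q ≤ 16 * i3 a, ?_, ?_, ?_, ?_⟩
  · have m1 := markov i1 q
    have m2 := markov i2 q
    have m3 := markov i3 q
    have s1 : ∑ a, i1 a = (univ.filter fun p : V × V => B12 p.1 p.2).card +
        (univ.filter fun p : V × V => B13 p.1 p.2).card := by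
      rw [hi1, Finset.sum_add_distrib, sum_rows, sum_rows]
    have s2 : ∑ a, i2 a = (univ.filter fun p : V × V => B12 p.1 p.2).card +
        (univ.filter fun p : V × V => B23 p.1 p.2).card := by
      rw [hi2, Finset.sum_add_distrib, sum_cols, sum_rows]
    have s3 : ∑ a, i3 a = (univ.filter fun p : V × V => B13 p.1 p.2).card +
        (univ.filter fun p : V × V => B23 p.1 p.2).card := by
      rw [hi3, Finset.sum_add_distrib, sum_cols, sum_cols]
    rw [s1] at m1
    rw [s2] at m2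
    rw [s3] at m3
    rcases Nat.eq_zero_or_pos q with h0 | hpos
    · have : IsEmpty V := Fintype.card_eq_zero_iff.mp (by rw [← hq, h0])
      simp [Finset.univ_eq_empty]
    · refine Nat.le_of_mul_le_mul_left ?_ hpos
      nlinarith [m1, m2, m3, hB]
  · intro a b ha hb hab
    have hc := cover _ _ (h12 a b hab)
    simp only [Finset.mem_filter, Finset.mem_univ, true_and, not_le] at ha hb
    simp only [hi1, hi2] at ha hb
    omega
  · intro a c ha hc' hac
    have hc := cover _ _ (h13 a c hac)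
    simp only [Finset.mem_filter, Finset.mem_univ, true_and, not_le] at ha hc'
    simp only [hi1, hi3] at ha hc'
    omega
  · intro b c hb hc' hbc
    have hc := cover _ _ (h23 b c hbc)
    simp only [Finset.mem_filter, Finset.mem_univ, true_and, not_le] at hb hc'
    simp only [hi2, hi3] at hb hc'
    omega

end Pool.Agent.Work.MP_3154ac_lc.E

end

section

/-!
# The plane test
-/

set_option autoImplicit false

namespace Pool.Agent.Work.MP_3154ac_lc.E

open Finset

namespace TRI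

section

variable {F : Type} [Field F]

theorem ev_congr (e : ℕ) (c c' : ℕ → F) (x : F) (h : ∀ i < e, c i = c' i) :
    ev e c x = ev e c' x := by
  unfold ev
  exact sum_congr rfl fun i hi => by rw [h i (mem_range.1 hi)]

theorem ev_sub (e : ℕ) (c c' : ℕ → F) (x : F) :
    ev e (fun i => c i - c' i) x = ev e c x - ev e c' x := by
  unfold ev
  rw [← sum_sub_distrib]
  exact sum_congr rfl fun i _ => by ring

theorem ev_swap (e e' : ℕ) (M : ℕ → ℕ → F) (x y : F) :
    ev e (fun i => ev e' (fun j => M i j) y) x = ev e' (fun j => ev e (fun i => M i j) x) y := by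
  unfold ev
  simp only [sum_mul]
  rw [sum_comm]
  exact sum_congr rfl fun i _ => sum_congr rfl fun j _ => by ring

/-- few zeros -/
theorem few (hU : S_UNI) [Fintype F] (e : ℕ) (D : ℕ → F) (S : Finset F)
    (h8 : 8 * e ≤ Fintype.card F) (hne : ∃ l < e, D l ≠ 0) (hz : ∀ x ∈ S, ev e D x = 0) :
    8 * S.card ≤ Fintype.card F := by
  by_cases hc : e ≤ S.card
  · obtain ⟨l, hl, hD⟩ := hne
    exact absurd (hU F e D S hc hz l hl) hD
  · omega

theorem not12 {e1 e2 e3 : ℕ} {ι : F → F} {p1 p2 : F → ℕ → ℕ → F} {a b : F}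
    (h : ¬ In12 e1 e2 e3 ι p1 p2 a b) (l : ℕ) (hl : l < e3) :
    ev e2 (fun i => p1 a i l) b = ev e1 (fun s => p2 b s l) (ι a) := by
  by_contra hh
  exact h ⟨l, hl, hh⟩

theorem not13 {e1 e2 e3 : ℕ} {ι : F → F} {p1 p3 : F → ℕ → ℕ → F} {a c : F}
    (h : ¬ In13 e1 e2 e3 ι p1 p3 a c) (i : ℕ) (hi : i < e2) :
    ev e3 (fun l => p1 a i l) c = ev e1 (fun s => p3 c s i) (ι a) := by
  by_contra hh
  exact h ⟨i, hi, hh⟩

theorem not23 {e1 e2 e3 : ℕ} {p2 p3 : F → ℕ → ℕ → F} {b c : F}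
    (h : ¬ In23 e1 e2 e3 p2 p3 b c) (s : ℕ) (hs : s < e1) :
    ev e3 (fun l => p2 b s l) c = ev e2 (fun i => p3 c s i) b := by
  by_contra hh
  exact h ⟨s, hs, hh⟩

theorem z12 {e1 e2 e3 : ℕ} {ι : F → F} {p1 p2 p3 : F → ℕ → ℕ → F} {a b c : F}
    (h13 : ¬ In13 e1 e2 e3 ι p1 p3 a c) (h23 : ¬ In23 e1 e2 e3 p2 p3 b c) :
    ev e3 (fun l => ev e2 (fun i => p1 a i l) b - ev e1 (fun s => p2 b s l) (ι a)) c = 0 := by
  rw [ev_sub, sub_eq_zero, ev_swap e3 e2 (fun l i => p1 a i l) c b,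
    ev_swap e3 e1 (fun l s => p2 b s l) c (ι a),
    ev_congr e2 _ (fun i => ev e1 (fun s => p3 c s i) (ι a)) b (fun i hi => not13 h13 i hi),
    ev_congr e1 _ (fun s => ev e2 (fun i => p3 c s i) b) (ι a) (fun s hs => not23 h23 s hs)]
  exact ev_swap e2 e1 (fun i s => p3 c s i) b (ι a)

theorem z13 {e1 e2 e3 : ℕ} {ι : F → F} {p1 p2 p3 : F → ℕ → ℕ → F} {a b c : F}
    (h12 : ¬ In12 e1 e2 e3 ι p1 p2 a b) (h23 : ¬ In23 e1 e2 e3 p2 p3 b c) :
    ev e2 (fun i => ev e3 (fun l => p1 a i l) c - ev e1 (fun s => p3 c s i) (ι a)) b = 0 := by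
  rw [ev_sub, sub_eq_zero, ev_swap e2 e3 (fun i l => p1 a i l) b c,
    ev_swap e2 e1 (fun i s => p3 c s i) b (ι a),
    ev_congr e3 _ (fun l => ev e1 (fun s => p2 b s l) (ι a)) c (fun l hl => not12 h12 l hl),
    ev_congr e1 _ (fun s => ev e3 (fun l => p2 b s l) c) (ι a)
      (fun s hs => (not23 h23 s hs).symm)]
  exact ev_swap e3 e1 (fun l s => p2 b s l) c (ι a)

theorem z23 {e1 e2 e3 : ℕ} {ι : F → F} {p1 p2 p3 : F → ℕ → ℕ → F} {a b c : F}
    (h12 : ¬ In12 e1 e2 e3 ι p1 p2 a b) (h13 : ¬ In13 e1 e2 e3 ι p1 p3 a c) :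
    ev e1 (fun s => ev e3 (fun l => p2 b s l) c - ev e2 (fun i => p3 c s i) b) (ι a) = 0 := by
  rw [ev_sub, sub_eq_zero, ev_swap e1 e3 (fun s l => p2 b s l) (ι a) c,
    ev_swap e1 e2 (fun s i => p3 c s i) (ι a) b,
    ev_congr e3 _ (fun l => ev e2 (fun i => p1 a i l) b) c (fun l hl => (not12 h12 l hl).symm),
    ev_congr e2 _ (fun i => ev e3 (fun l => p1 a i l) c) b
      (fun i hi => (not13 h13 i hi).symm)]
  exact ev_swap e3 e2 (fun l i => p1 a i l) c b

end

end TRI

theorem pr_TRI (hU : S_UNI) (hC : S_TRC) (hA : S_TRA) : S_TRI := by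
  classical
  intro F _ _ e1 e2 e3 ι p1 p2 p3 h1 h2 h3 hb
  obtain ⟨X1, X2, X3, hX, k12, -, k23⟩ := hC F (In12 e1 e2 e3 ι p1 p2) (In13 e1 e2 e3 ι p1 p3)
    (In23 e1 e2 e3 p2 p3)
    (fun a b hab => by
      obtain ⟨l, hl, hD⟩ := hab
      refine TRI.few hU e3
        (fun l => ev e2 (fun i => p1 a i l) b - ev e1 (fun s => p2 b s l) (ι a)) _ h3
        ⟨l, hl, sub_ne_zero.2 hD⟩ (fun c hc => ?_)
      have hc' := (mem_filter.1 hc).2
      exact TRI.z12 (fun h => hc' (Or.inl h)) (fun h => hc' (Or.inr h)))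
    (fun a c hac => by
      obtain ⟨i, hi, hD⟩ := hac
      refine TRI.few hU e2
        (fun i => ev e3 (fun l => p1 a i l) c - ev e1 (fun s => p3 c s i) (ι a)) _ h2
        ⟨i, hi, sub_ne_zero.2 hD⟩ (fun b hb' => ?_)
      have hc' := (mem_filter.1 hb').2
      exact TRI.z13 (fun h => hc' (Or.inl h)) (fun h => hc' (Or.inr h)))
    (fun b c hbc => by
      obtain ⟨s, hs, hD⟩ := hbc
      have hq := h1 (fun s => ev e3 (fun l => p2 b s l) c - ev e2 (fun i => p3 c s i) b)
        ⟨s, hs, sub_ne_zero.2 hD⟩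
      refine le_trans (Nat.mul_le_mul_left 8 (card_le_card fun a ha => ?_)) hq
      have hc' := (mem_filter.1 ha).2
      exact mem_filter.2 ⟨mem_univ _,
        TRI.z23 (fun h => hc' (Or.inl h)) (fun h => hc' (Or.inr h))⟩)
    hb
  obtain ⟨Q, q1, q2⟩ := hA F e1 e2 e3 ι p1 p2 p3 X1 X2 X3 hX h2 h3 k12 k23
  exact ⟨Q, X1, X2, by omega, by omega, q1, q2⟩

end Pool.Agent.Work.MP_3154ac_lc.E

end

section

/-! # TST: meaning of the test of a plane of direction `0` -/

set_option autoImplicit false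

namespace Pool.Agent.Work.MP_3154ac_lc.E

open N68a2faeb Finset Pool.Agent.PT Polynomial

namespace TST

theorem eq_iff (q a b : ℕ) (ha : a < q) (hb : b < q) : a = b ↔ (a : ZMod q) = (b : ZMod q) := by
  constructor
  · intro h
    rw [h]
  · intro h
    rw [ZMod.natCast_eq_natCast_iff'] at h
    rwa [Nat.mod_eq_of_lt ha, Nat.mod_eq_of_lt hb] at h

theorem deln_cast (hC : S_CST) (q : ℕ) [Fact q.Prime] (h η z : ℕ) :
    ((deln q h η z : ℕ) : ZMod q) = Del h η (z : ZMod q) := by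
  obtain ⟨_, c2, _, c4, _, _⟩ := hC q
  unfold deln Del
  rw [(c2 _ _).2, ← Finset.filter_ne', Finset.prod_filter]
  refine Finset.prod_congr rfl fun i _ => ?_
  by_cases hi : i = η
  · rw [if_pos hi, if_neg (not_not.mpr hi), Nat.cast_one]
  · rw [if_neg hi, if_pos hi, c4]

theorem indn_cast (hC : S_CST) (q : ℕ) [Fact q.Prime] (h m u : ℕ) (α : ℕ → ℕ) :
    ((indn q h m u α : ℕ) : ZMod q) = Ind h m u (fun c => ((α c : ℕ) : ZMod q)) := by
  have c2 := (hC q).2.1
  unfold indn Ind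
  rw [(c2 _ _).2]
  exact Finset.prod_congr rfl fun i _ => deln_cast hC q h _ _

theorem phin_cast (hC : S_CST) (q : ℕ) [Fact q.Prime] (h m N : ℕ) (G : Code) (α β : ℕ → ℕ) :
    ((phin q h m N G α β : ℕ) : ZMod q) =
      Phi h m N (adE G) (fun c => ((α c : ℕ) : ZMod q)) (fun c => ((β c : ℕ) : ZMod q)) := by
  obtain ⟨c1, _, c3, _, _, _⟩ := hC q
  unfold phin Phi
  rw [(c1 _).2, c3, Nat.cast_sum]
  refine Finset.sum_congr rfl fun u _ => ?_
  rw [c3, Nat.cast_sum]
  refine Finset.sum_congr rfl fun v _ => ?_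
  by_cases hi : adE G u v = true
  · rw [if_pos hi, if_pos hi, Nat.cast_zero]
  · rw [if_neg hi, if_neg hi, Nat.cast_mul, indn_cast hC, indn_cast hC]

theorem zkn_cast (hC : S_CST) (q : ℕ) [Fact q.Prime] (k x : ℕ) :
    ((zkn q k x : ℕ) : ZMod q) = Zk k (x : ZMod q) := by
  obtain ⟨_, c2, _, c4, _, _⟩ := hC q
  unfold zkn Zk
  rw [(c2 _ _).2]
  exact Finset.prod_congr rfl fun i _ => c4 _ _

theorem zpn_cast (hC : S_CST) (q : ℕ) [Fact q.Prime] (k x : ℕ) :
    ((zpn q k x : ℕ) : ZMod q) = Zp k (x : ZMod q) := by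
  obtain ⟨_, c2, _, c4, _, _⟩ := hC q
  unfold zpn Zp
  rw [(c2 _ _).2, Finset.prod_filter]
  refine Finset.prod_congr rfl fun i _ => ?_
  by_cases hi : i % k = i / k
  · rw [if_pos hi, if_neg (not_not.mpr hi), Nat.cast_one]
  · rw [if_neg hi, if_pos hi, c4]

end TST

theorem pr_TST (hC : S_CST) : S_TST := by
  intro q k h d e N _ G x j
  obtain ⟨c1, c2, c3, c4, c5, c6⟩ := hC q
  unfold tst T2
  rw [Bool.and_eq_true, List.all_eq_true, decide_eq_true_eq]
  apply and_congr
  · constructor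
    · intro h1 c hc
      have h2 := h1 c (List.mem_range.mpr hc)
      rw [decide_eq_true_eq, TST.eq_iff q _ _ (c2 _ _).1 (c1 _).1, (c2 _ _).2, (c1 _).2,
        Nat.cast_mul, TST.zkn_cast hC] at h2
      rw [← h2]
      exact Finset.prod_congr rfl fun i _ => (c4 _ _).symm
    · intro h1 c hc
      rw [decide_eq_true_eq, TST.eq_iff q _ _ (c2 _ _).1 (c1 _).1, (c2 _ _).2, (c1 _).2,
        Nat.cast_mul, TST.zkn_cast hC, ← h1 c (List.mem_range.mp hc)]
      exact Finset.prod_congr rfl fun i _ => c4 _ _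
  · have e1 : ∀ i, ((evn q e (fun l => blk q (3 * (d * d)) e j i l) (wm q x (e * e)) : ℕ) : ZMod q)
        = ev e (fun l => ((blk q (3 * (d * d)) e j i l : ℕ) : ZMod q)) ((x : ZMod q) ^ (e * e)) := by
      intro i
      rw [(c6 _ _ _).2, (c5 _ _).2]
    have hp : phin q h (d * d) N G (fun c => dig q c j) (fun c => dig q (d * d + c) j) < q := by
      unfold phin
      exact (c1 _).1
    rw [TST.eq_iff q _ _ hp (c1 _).1, TST.phin_cast hC, (c1 _).2, Nat.cast_mul,
      TST.zpn_cast hC, (c6 _ _ _).2, (c5 _ _).2]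
    simp only [e1]

end Pool.Agent.Work.MP_3154ac_lc.E

end

section

/-! # UNI: a polynomial with many zeros is zero -/

set_option autoImplicit false

namespace Pool.Agent.Work.MP_3154ac_lc.E

open Polynomial

theorem pr_UNI : S_UNI := by
  intro F _ e c S hcard h0 i hi
  obtain ⟨P, hP⟩ : ∃ P : F[X], P = ∑ i ∈ Finset.range e, C (c i) * X ^ i := ⟨_, rfl⟩
  have hev : ∀ x, P.eval x = ∑ i ∈ Finset.range e, c i * x ^ i := by
    intro x
    rw [hP, eval_finsetSum]
    refine Finset.sum_congr rfl fun j _ => ?_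
    rw [eval_mul, eval_C, eval_pow, eval_X]
  have hco : ∀ j, P.coeff j = if j < e then c j else 0 := by
    intro j
    rw [hP, finsetSum_coeff]
    by_cases hj : j < e
    · rw [if_pos hj, Finset.sum_eq_single j]
      · rw [coeff_C_mul, coeff_X_pow, if_pos rfl, mul_one]
      · intro l _ hl
        rw [coeff_C_mul, coeff_X_pow, if_neg (Ne.symm hl), mul_zero]
      · intro h3
        exact absurd (Finset.mem_range.mpr hj) h3
    · rw [if_neg hj]
      refine Finset.sum_eq_zero fun l hl => ?_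
      have h4 : j ≠ l := fun h5 => hj (h5 ▸ Finset.mem_range.mp hl)
      rw [coeff_C_mul, coeff_X_pow, if_neg h4, mul_zero]
  have hdeg : P.degree < S.card := by
    rw [degree_lt_iff_coeff_zero]
    intro j hj
    rw [hco, if_neg (by omega)]
  have hP0 : P = 0 := by
    refine eq_zero_of_degree_lt_of_eval_finset_eq_zero S hdeg fun x hx => ?_
    rw [hev x]
    exact h0 x hx
  have h2 : P.coeff i = c i := by
    rw [hco, if_pos hi]
  rw [← h2, hP0, coeff_zero]

end Pool.Agent.Work.MP_3154ac_lc.E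

end

section

/-!
# VAL: the value of a solution
-/

set_option autoImplicit false

namespace Pool.Agent.Work.MP_3154ac_lc.E

open N68a2faeb Finset Pool.Agent.PT

namespace VAL

theorem card_lt (n : ℕ) :
    (univ.filter fun p : Fin n × Fin n => p.1 < p.2).card = n.choose 2 := by
  rw [Finset.card_filter, Fintype.sum_prod_type_right, Nat.choose_two_right,
    ← Finset.sum_range_id, ← Fin.sum_univ_eq_sum_range (fun i => i)]
  refine Finset.sum_congr rfl fun j _ => ?_
  rw [← Finset.card_filter, Finset.filter_gt_eq_Iio, Fin.card_Iio]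

theorem entry_red (q k h d e N M : ℕ) (G : Code) (u v : ℕ) (hu : u < 3 * q * M)
    (hv : v < 3 * q * M) :
    entry (redE q k h d e N M G).1 u v = hE q k h d e N M G u v := by
  unfold entry redE
  simp [hu, hv]

theorem sol_red {q k h d e N M : ℕ} {G : Code}
    {t : Fin (redE q k h d e N M G).2.1 → Fin (redE q k h d e N M G).1.length}
    (ht : IsSol (redE q k h d e N M G) t) (i : Fin (redE q k h d e N M G).2.1) :
    (t i : ℕ) < 3 * q * M ∧ (t i : ℕ) / M = (i : ℕ) := by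
  have h := ht i
  have hlt : (t i : ℕ) < 3 * q * M := by
    have := (t i).2
    simpa [redE] using this
  refine ⟨hlt, ?_⟩
  have h2 : ((List.range (3 * q * M)).map fun u => u / M)[(t i : ℕ)]? = some (i : ℕ) := h
  simp only [List.getElem?_map, List.getElem?_range hlt, Option.map_some, Option.some.injEq] at h2
  exact h2

/-- the pairs that are not adjacent -/
def nbad (q k h d e N : ℕ) (G : Code) (j : ℕ → ℕ) (a b : ℕ) : Prop :=
  (a / q = 0 ∧ b / q = 1 ∧ e01 q k h d e N G (a % q) (j a) (b % q) (j b) = false) ∨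
  (a / q = 0 ∧ b / q = 2 ∧ e02 q k h d e N G (a % q) (j a) (b % q) (j b) = false) ∨
  (a / q = 1 ∧ b / q = 2 ∧ e12 q k h d e (a % q) (j a) (b % q) (j b) = false)

theorem hE_iff {q k h d e N M : ℕ} {G : Code} {j : ℕ → ℕ} {a b u v : ℕ} (_hq : 1 ≤ q)
    (hab : a < b) (hb : b < 3 * q) (hu : u / M = a) (hu' : u % M = j a) (hv : v / M = b)
    (hv' : v % M = j b) :
    (hE q k h d e N M G u v = true ∨ hE q k h d e N M G v u = true) ↔
      ¬ nbad q k h d e N G j a b := by
  unfold hE nbad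
  rw [hu, hv, hu', hv']
  have h1 : a / q ≤ b / q := Nat.div_le_div_right hab.le
  have h2 : b / q < 3 := Nat.div_lt_of_lt_mul (by rw [mul_comm]; exact hb)
  have hne : a ≠ b := by omega
  generalize a / q = A at *
  generalize b / q = B at *
  have hB : B = 0 ∨ B = 1 ∨ B = 2 := by omega
  rcases hB with rfl | rfl | rfl
  · have : A = 0 := by omega
    subst this
    simp [hne]
  · have : A = 0 ∨ A = 1 := by omega
    rcases this with rfl | rfl
    · simp
    · simp [hne]
  · have : A = 0 ∨ A = 1 ∨ A = 2 := by omega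
    rcases this with rfl | rfl | rfl
    · simp
    · simp
    · simp [hne]

end VAL

open VAL

/-- VAL: the value of a solution. -/
theorem pr_VAL : S_VAL := by
  classical
  intro q k h d e N M G t hq hM ht
  have ht1 := fun i => sol_red (q := q) (k := k) (h := h) (d := d) (e := e) (N := N) (M := M)
    (G := G) ht i
  let j : ℕ → ℕ := fun π => if hp : π < 3 * q then (t ⟨π, hp⟩ : ℕ) % M else 0
  have hj : ∀ i : Fin (redE q k h d e N M G).2.1, (t i : ℕ) % M = j (i : ℕ) := by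
    intro i
    have : (i : ℕ) < 3 * q := i.2
    simp only [j, dif_pos this]
  have hjM : ∀ π < 3 * q, j π < M := by
    intro π hp
    simp only [j, dif_pos hp]
    exact Nat.mod_lt _ hM
  refine ⟨j, hjM, ?_, ?_⟩
  · intro i
    have h1 := Nat.div_add_mod (t i : ℕ) M
    rw [(ht1 i).2, hj i] at h1
    rw [← h1, mul_comm]
  -- adjacency
  have hadj : ∀ a b : Fin (redE q k h d e N M G).2.1, a < b →
      ((graph (redE q k h d e N M G).1).Adj (t a) (t b) ↔ ¬ nbad q k h d e N G j (a : ℕ) (b : ℕ)) := by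
    intro a b hab
    have hne : t a ≠ t b := by
      intro hc
      have h1 := (ht1 a).2
      have h2 := (ht1 b).2
      rw [hc, h2] at h1
      have : (b : ℕ) = (a : ℕ) := h1
      have hab' : (a : ℕ) < (b : ℕ) := hab
      omega
    show (t a ≠ t b ∧ (entry (redE q k h d e N M G).1 (t a) (t b) = true ∨ entry (redE q k h d e N M G).1 (t b) (t a) = true)) ↔ _
    rw [entry_red q k h d e N M G _ _ (ht1 a).1 (ht1 b).1,
      entry_red q k h d e N M G _ _ (ht1 b).1 (ht1 a).1]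
    rw [hE_iff (j := j) hq (show (a : ℕ) < (b : ℕ) from hab) (show (b : ℕ) < 3 * q from b.2)
      (ht1 a).2 (hj a) (ht1 b).2 (hj b)]
    exact and_iff_right hne
  set F01 := ((range q) ×ˢ (range q)).filter fun p : ℕ × ℕ =>
        e01 q k h d e N G p.1 (j p.1) p.2 (j (q + p.2)) = false with hF01
  set F02 := ((range q) ×ˢ (range q)).filter fun p : ℕ × ℕ =>
        e02 q k h d e N G p.1 (j p.1) p.2 (j (2 * q + p.2)) = false with hF02
  set F12 := ((range q) ×ˢ (range q)).filter fun p : ℕ × ℕ =>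
        e12 q k h d e p.1 (j (q + p.1)) p.2 (j (2 * q + p.2)) = false with hF12
  let N1 : Finset (ℕ × ℕ) := ((range (3 * q)) ×ˢ (range (3 * q))).filter fun p : ℕ × ℕ =>
    nbad q k h d e N G j p.1 p.2
  have hN1 : N1 = (F01.image fun p : ℕ × ℕ => (p.1, q + p.2)) ∪
      ((F02.image fun p : ℕ × ℕ => (p.1, 2 * q + p.2)) ∪
        (F12.image fun p : ℕ × ℕ => (q + p.1, 2 * q + p.2))) := by
    ext ⟨a, b⟩
    have hmem : (a, b) ∈ N1 ↔ (a < 3 * q ∧ b < 3 * q) ∧ nbad q k h d e N G j a b := by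
      simp only [N1, mem_filter, mem_product, mem_range]
    rw [hmem]
    simp only [mem_filter, mem_product, mem_range, mem_union, mem_image, Prod.mk.injEq,
      Prod.exists, hF01, hF02, hF12]
    unfold nbad
    have d0 : ∀ x : ℕ, x / q = 0 ↔ x < q := fun x => by
      rw [Nat.div_eq_zero_iff]; omega
    have d1 : ∀ x : ℕ, x / q = 1 ↔ q ≤ x ∧ x < 2 * q := fun x => by
      rw [Nat.div_eq_iff (by omega)]; omega
    have d2 : ∀ x : ℕ, x / q = 2 ↔ 2 * q ≤ x ∧ x < 3 * q := fun x => by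
      rw [Nat.div_eq_iff (by omega)]; omega
    have m0 : ∀ x : ℕ, x < q → x % q = x := fun x hx => Nat.mod_eq_of_lt hx
    have m1 : ∀ x : ℕ, x < q → (q + x) % q = x := fun x hx => by
      rw [Nat.add_mod_left, Nat.mod_eq_of_lt hx]
    have m2 : ∀ x : ℕ, x < q → (2 * q + x) % q = x := fun x hx => by
      rw [Nat.mul_add_mod_of_lt hx] 
    constructor
    · rintro ⟨⟨ha, hb⟩, hbad⟩
      rcases hbad with ⟨h1, h2, h3⟩ | ⟨h1, h2, h3⟩ | ⟨h1, h2, h3⟩
      · left
        rw [d0] at h1; rw [d1] at h2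
        refine ⟨a, b - q, ⟨⟨h1, by omega⟩, ?_⟩, rfl, by omega⟩
        have e2 : q + (b - q) = b := by omega
        have e3 := m1 (b - q) (by omega)
        rw [e2] at e3
        rw [m0 a h1, e3] at h3
        rw [e2]; exact h3
      · right; left
        rw [d0] at h1; rw [d2] at h2
        refine ⟨a, b - 2 * q, ⟨⟨h1, by omega⟩, ?_⟩, rfl, by omega⟩
        have e2 : 2 * q + (b - 2 * q) = b := by omega
        have e3 := m2 (b - 2 * q) (by omega)
        rw [e2] at e3
        rw [m0 a h1, e3] at h3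
        rw [e2]; exact h3
      · right; right
        rw [d1] at h1; rw [d2] at h2
        refine ⟨a - q, b - 2 * q, ⟨⟨by omega, by omega⟩, ?_⟩, by omega, by omega⟩
        have e2 : 2 * q + (b - 2 * q) = b := by omega
        have e3 := m2 (b - 2 * q) (by omega)
        have e4 : q + (a - q) = a := by omega
        have e5 := m1 (a - q) (by omega)
        rw [e2] at e3
        rw [e4] at e5
        rw [e5, e3] at h3
        rw [e2, e4]; exact h3
    · rintro (⟨x, y, ⟨⟨hx, hy⟩, h3⟩, rfl, rfl⟩ | ⟨x, y, ⟨⟨hx, hy⟩, h3⟩, rfl, rfl⟩ |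
        ⟨x, y, ⟨⟨hx, hy⟩, h3⟩, rfl, rfl⟩)
      · refine ⟨⟨by omega, by omega⟩, Or.inl ⟨(d0 _).2 hx, (d1 _).2 (by omega), ?_⟩⟩
        rw [m0 x hx, m1 y hy]; exact h3
      · refine ⟨⟨by omega, by omega⟩, Or.inr (Or.inl ⟨(d0 _).2 hx, (d2 _).2 (by omega), ?_⟩)⟩
        rw [m0 x hx, m2 y hy]; exact h3
      · refine ⟨⟨by omega, by omega⟩, Or.inr (Or.inr ⟨(d1 _).2 (by omega), (d2 _).2 (by omega), ?_⟩)⟩
        rw [m1 x hx, m2 y hy]; exact h3
  have hcard1 : N1.card = F01.card + (F02.card + F12.card) := by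
    rw [hN1, card_union_of_disjoint, card_union_of_disjoint, card_image_of_injective,
      card_image_of_injective, card_image_of_injective]
    · rintro ⟨a, b⟩ ⟨a', b'⟩ hab
      simp only [Prod.mk.injEq] at hab ⊢
      omega
    · rintro ⟨a, b⟩ ⟨a', b'⟩ hab
      simp only [Prod.mk.injEq] at hab ⊢
      omega
    · rintro ⟨a, b⟩ ⟨a', b'⟩ hab
      simp only [Prod.mk.injEq] at hab ⊢
      omega
    · rw [disjoint_left]
      rintro ⟨a, b⟩ h1 h2
      simp only [mem_image, Prod.mk.injEq, Prod.exists, hF02, hF12, mem_filter, mem_product,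
        mem_range] at h1 h2
      obtain ⟨x, y, ⟨⟨hx, hy⟩, -⟩, h3, h4⟩ := h1
      obtain ⟨x', y', ⟨⟨hx', hy'⟩, -⟩, h3', h4'⟩ := h2
      omega
    · rw [disjoint_left]
      rintro ⟨a, b⟩ h1 h2
      simp only [mem_union, mem_image, Prod.mk.injEq, Prod.exists, hF01, hF02, hF12, mem_filter,
        mem_product, mem_range] at h1 h2
      obtain ⟨x, y, ⟨⟨hx, hy⟩, -⟩, h3, h4⟩ := h1
      rcases h2 with ⟨x', y', ⟨⟨hx', hy'⟩, -⟩, h3', h4'⟩ | ⟨x', y', ⟨⟨hx', hy'⟩, -⟩, h3', h4'⟩ <;>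
        omega
  -- the pairs of indices
  set C := (univ.filter fun p : Fin (redE q k h d e N M G).2.1 × Fin (redE q k h d e N M G).2.1 => p.1 < p.2) with hC
  have hCc : C.card = (3 * q).choose 2 := card_lt (3 * q)
  have hval : value (redE q k h d e N M G) t = (C.filter fun p => (graph (redE q k h d e N M G).1).Adj (t p.1) (t p.2)).card := by
    unfold value
    rw [hC, filter_filter]
  have hsplit := Finset.card_filter_add_card_filter_not (s := C)
    (fun p => (graph (redE q k h d e N M G).1).Adj (t p.1) (t p.2))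
  have hN2 : (C.filter fun p => ¬ (graph (redE q k h d e N M G).1).Adj (t p.1) (t p.2)).card = N1.card := by
    refine Finset.card_bij (fun p _ => ((p.1 : ℕ), (p.2 : ℕ))) ?_ ?_ ?_
    · intro p hp
      simp only [hC, mem_filter, mem_univ, true_and] at hp
      simp only [N1, mem_filter, mem_product, mem_range]
      refine ⟨⟨p.1.2, p.2.2⟩, ?_⟩
      have := (hadj p.1 p.2 hp.1).not.1 hp.2
      exact not_not.1 this
    · intro p _ p' _ hpp
      simp only [Prod.mk.injEq] at hpp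
      exact Prod.ext (Fin.ext hpp.1) (Fin.ext hpp.2)
    · rintro ⟨a, b⟩ hab
      simp only [N1, mem_filter, mem_product, mem_range] at hab
      obtain ⟨⟨ha, hb⟩, hbad⟩ := hab
      have hlt : a < b := by
        by_contra hcon
        have h1 : b / q ≤ a / q := Nat.div_le_div_right (by omega)
        rcases hbad with ⟨h2, h3, -⟩ | ⟨h2, h3, -⟩ | ⟨h2, h3, -⟩ <;> omega
      refine ⟨((⟨a, ha⟩ : Fin (3 * q)), (⟨b, hb⟩ : Fin (3 * q))), ?_, rfl⟩
      simp only [hC, mem_filter, mem_univ, true_and]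
      have hlt' : (⟨a, ha⟩ : Fin (redE q k h d e N M G).2.1) < (⟨b, hb⟩ : Fin (redE q k h d e N M G).2.1) := hlt
      exact ⟨hlt', fun hA => ((hadj _ _ hlt').1 hA) hbad⟩
  rw [hval, ← hCc, ← hsplit, hN2, hcard1]
  ring

end Pool.Agent.Work.MP_3154ac_lc.E

end

section

/-!
# VLE: the new instance is valid
-/

set_option autoImplicit false

namespace Pool.Agent.Work.MP_3154ac_lc.E

theorem pr_VLE : S_VLE := by
  intro q k h d e N M G hM
  refine ⟨?_, ?_, ?_⟩
  · simp [redE]
  · intro p hp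
    simp only [redE, List.mem_map, List.mem_range] at hp ⊢
    obtain ⟨u, hu, rfl⟩ := hp
    apply Nat.div_lt_of_lt_mul
    rwa [Nat.mul_comm M (3 * q)]
  · intro i hi
    simp only [redE, List.mem_map, List.mem_range] at hi ⊢
    refine ⟨i * M, ?_, ?_⟩
    · exact Nat.mul_lt_mul_of_pos_right hi hM
    · exact Nat.mul_div_cancel i hM

end Pool.Agent.Work.MP_3154ac_lc.E

end

section

set_option autoImplicit false

namespace Pool.Agent.Work.MP_3154ac_lc.E

open N68a2faeb Finset Pool.Agent.PT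

/-- ARE: the parameters are admissible. -/
theorem pr_ARE : S_ARE := by
  intro a k x q n hk hx hq hq1 hq2 hn
  have hx0 : 2 * k ^ 3 + 192 * 2 ^ (6 * a + 4) ≤ x := hx
  have hp2 : 16 ≤ 2 ^ (6 * a + 4) := by
    calc 16 = 2 ^ 4 := by norm_num
      _ ≤ 2 ^ (6 * a + 4) := Nat.pow_le_pow_right (by norm_num) (by omega)
  have hx64 : 64 ≤ x := by omega
  have hxk : 2 * k ^ 3 < x := by omega
  have hx1 : 1 ≤ x := by omega
  have hk3 : k ≤ k ^ 3 := Nat.le_self_pow (by norm_num) k
  have hk23 : k ^ 2 ≤ k ^ 3 := Nat.pow_le_pow_right (by omega) (by norm_num)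
  have mono : ∀ {i j : ℕ}, i ≤ j → x ^ i ≤ x ^ j := fun h => Nat.pow_le_pow_right hx1 h
  have hpos : ∀ i : ℕ, 0 < x ^ i := fun i => Nat.pow_pos (by omega)
  have e1 : x ^ (6 * a + 6) = x ^ (6 * a + 4) * x * x := by ring
  have hd2 : (x ^ (3 * a + 2)) ^ 2 = x ^ (6 * a + 4) := by rw [← pow_mul]; congr 1; ring
  have he3 : (x ^ (2 * a + 2)) ^ 3 = x ^ (6 * a + 6) := by rw [← pow_mul]; congr 1; ring
  have he2 : (x ^ (2 * a + 2)) ^ 2 = x ^ (4 * a + 4) := by rw [← pow_mul]; congr 1; ring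
  have hM : ∀ E : ℕ, E ≤ 4 * x ^ (6 * a + 4) →
      q ^ E ≤ (x ^ (x ^ (6 * a + 4))) ^ (28 * (a + 1)) := by
    intro E hE
    have hqx : q ≤ x ^ (6 * a + 7) := by
      calc q ≤ 64 * x ^ (6 * a + 6) := hq2
        _ ≤ x * x ^ (6 * a + 6) := Nat.mul_le_mul_right _ hx64
        _ = x ^ (6 * a + 7) := by ring
    calc q ^ E ≤ (x ^ (6 * a + 7)) ^ E := Nat.pow_le_pow_left hqx E
      _ ≤ (x ^ (6 * a + 7)) ^ (4 * x ^ (6 * a + 4)) := Nat.pow_le_pow_right (hpos _) hE
      _ = (x ^ (x ^ (6 * a + 4))) ^ (4 * (6 * a + 7)) := by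
          rw [← pow_mul, ← pow_mul]; congr 1; ring
      _ ≤ (x ^ (x ^ (6 * a + 4))) ^ (28 * (a + 1)) :=
          Nat.pow_le_pow_right (hpos _) (by omega)
  have hxx : x * k ^ 3 * 2 ≤ x * x := by nlinarith
  refine ⟨hq, hk, hx1, hpos _, hpos _, ?_, ?_, ?_, ?_, ?_, ?_, ?_, ?_, ?_, hn⟩
  · have h1 : x * x ≤ x ^ (6 * a + 6) := by
      calc x * x = x ^ 2 := by ring
        _ ≤ x ^ (6 * a + 6) := mono (by omega)
    omega
  · have := mono (show 3 * a + 2 ≤ 6 * a + 6 by omega)
    omega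
  · have := mono (show 2 * a + 2 ≤ 6 * a + 6 by omega)
    omega
  · rw [hd2]
    have h1 : x ^ (6 * a + 4) * (x * k ^ 3 * 2) ≤ x ^ (6 * a + 4) * (x * x) :=
      Nat.mul_le_mul_left _ hxx
    have h2 := hpos (6 * a + 6)
    have h3 : 4 * (x ^ (6 * a + 4) * x * k ^ 3) = 2 * (x ^ (6 * a + 4) * (x * k ^ 3 * 2)) := by ring
    have h4 : x ^ (6 * a + 4) * (x * x) = x ^ (6 * a + 6) := by ring
    rw [h3]
    omega
  · rw [he3]
    have h1 : x ^ 1 ≤ x ^ (6 * a + 6) := mono (by omega)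
    rw [pow_one] at h1
    omega
  · rw [hd2, he3]
    have h1 : x ^ (6 * a + 5) * (2 * k ^ 3) < x ^ (6 * a + 5) * x :=
      Nat.mul_lt_mul_of_pos_left hxk (hpos _)
    have h3 : 2 * (x ^ (6 * a + 4) * x * k ^ 3) = x ^ (6 * a + 5) * (2 * k ^ 3) := by ring
    have h4 : x ^ (6 * a + 5) * x = x ^ (6 * a + 6) := by ring
    rw [h3, ← h4]
    exact h1
  · apply hM
    rw [hd2, he2]
    have := mono (show 4 * a + 4 ≤ 6 * a + 4 by omega)
    omega
  · apply hM
    rw [he2]
    have h1 := mono (show 4 * a + 4 ≤ 6 * a + 4 by omega)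
    have h2 : k + x * k ^ 3 ≤ x * x := by nlinarith
    have h3 : x ^ (3 * a + 2) * (k + x * k ^ 3) ≤ x ^ (3 * a + 2) * (x * x) :=
      Nat.mul_le_mul_left _ h2
    have h4 : x ^ (3 * a + 2) * (x * x) = x ^ (3 * a + 4) := by ring
    have h5 := mono (show 3 * a + 4 ≤ 6 * a + 4 by omega)
    omega
  · congr 1
    rw [← pow_add]; congr 1; ring

end Pool.Agent.Work.MP_3154ac_lc.E

end

section

/-!
# BRA: from `IsPolyTime` to `PTF`
-/

set_option autoImplicit false

namespace Pool.Agent.Work.MP_3154ac_lc.E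

open N68a2faeb Finset Pool.Agent.PT N487b59b3 Pool.Agent.Work.MP_5296b6_lc

theorem pr_BRA : S_BRA := by
  intro R' hR'
  have henc : EncP (List Bool × Inst) :=
    EncP.prod (EncP.list EncP.bool)
      (EncP.prod (EncP.list (EncP.list EncP.bool)) (EncP.prod EncP.nat (EncP.list EncP.nat)))
  exact Pool.Agent.Work.MP_46935e_lc.ptf_of_tm2
    (d := fun l => l.headD false) hR' henc (PTF.id.headD (PTF.const false)) (fun _ => rfl)

end Pool.Agent.Work.MP_3154ac_lc.E

end
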