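import Pool.Agent.Work.MP_3154ac_lc.Bd.B07
import Pool.Agent.Work.PT.Auto
import Pool.Agent.Work.MP_cfa43e_lc.Q9
import Pool.Agent.Work.MP_46935e_lc.Frozen
import Pool.Agent.Work.MP_3154ac_lc.Bd.B01
import Pool.Agent.Work.MP_3154ac_lc.Bd.B05

/-! Bundle of small proof modules (one section per former module). -/

section

/-!
# Item BRB: from `PTF` to `IsPolyTime`
-/

set_option autoImplicit false

namespace Pool.Agent.Work.MP_3154ac_lc.E

open N68a2faeb Finset Pool.Agent.PT N487b59b3 Pool.Agent.Work.MP_5296b6_lc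

namespace BRB

/-- The number with the given bits, cut off at `n`. -/
def kd (n : ℕ) (b : List Bool) : ℕ :=
  ((List.range n).find? fun i => decide (bitEncode i = b)).getD n

theorem kd_eq (n k : ℕ) : kd n (bitEncode k) = min k n := by
  unfold kd
  have hinj : ∀ i : ℕ, (bitEncode i = bitEncode k) ↔ i = k := fun i =>
    bitEncode_injective.eq_iff
  rcases lt_or_ge k n with h | h
  · have h1 : (List.range n).find? (fun i => decide (bitEncode i = bitEncode k)) = some k := by
      rw [List.find?_range_eq_some]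
      refine ⟨by simp, List.mem_range.2 h, fun j hj => ?_⟩
      simp only [hinj, Bool.not_eq_true', decide_eq_false_iff_not]
      omega
    rw [h1, Option.getD_some, min_eq_left h.le]
  · have h1 : (List.range n).find? (fun i => decide (bitEncode i = bitEncode k)) = none := by
      rw [List.find?_eq_none]
      intro j hj
      have := List.mem_range.1 hj
      simp only [hinj, decide_eq_true_eq]
      omega
    rw [h1, Option.getD_none, min_eq_right h]

theorem ptf_kd {α : Type} [Enc α] {n : α → ℕ} {b : α → List Bool} (hn : PTF n) (hb : PTF b) :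
    PTF (fun a => kd (n a) (b a)) := by
  unfold kd
  refine PTF.optionGetD (PTF.find' (f := fun a i => decide (bitEncode i = b a)) ?_ hn.range) hn
  exact (EncP.nat.apply PTF.snd).eq (hb.comp PTF.fst)

/-- Decoding. -/
def dec (x : List Bool) : List Bool × (Code × ℕ) :=
  (decBits (pPair x).1, (Pool.Agent.PEmb.IQ9.dLL (pPair (pPair x).2).1,
    kd (decBits (pPair x).1).length (pPair (pPair x).2).2))

theorem ptf_dec : PTF dec := by
  have h0 := Pool.Agent.PEmb.IQ9.ptf_pPair
  have h1 : PTF (fun x : List Bool => decBits (pPair x).1) := PTF.decBits (PTF.fst.comp h0)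
  have h2 : PTF (fun x : List Bool => pPair (pPair x).2) := h0.comp (PTF.snd.comp h0)
  exact h1.pair ((Pool.Agent.PEmb.IQ9.ptf_dLL.comp (PTF.fst.comp h2)).pair
    (ptf_kd h1.length (PTF.snd.comp h2)))

theorem dec_eq (y : List Bool × (Code × ℕ)) :
    dec (bitEncode y) = (y.1, (y.2.1, min y.2.2 y.1.length)) := by
  obtain ⟨p, G, k⟩ := y
  have e1 : pPair (bitEncode (p, (G, k))) = (bitEncode p, bitEncode (G, k)) := pPair_eq _
  have e2 : pPair (bitEncode (G, k)) = (bitEncode G, bitEncode k) := pPair_eq _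
  unfold dec
  rw [e1]
  dsimp only
  rw [e2]
  dsimp only
  rw [Pool.Agent.PEmb.IQ9.dLL_eq, decBits_bitEncode, kd_eq]

end BRB

/-- BRB: from `PTF` to `IsPolyTime`. -/
theorem pr_BRB : S_BRB := by
  intro S hS
  have h2 : PTF (fun x : List Bool => S (BRB.dec x)) := hS.comp BRB.ptf_dec
  unfold IsPolyTime IsPolyTimeWithEncoding
  refine tm2_of (g := fun x => bitEncode (S (BRB.dec x))) ((EncP.list EncP.nat).apply h2) ?_
  intro y
  show bitEncode (S (BRB.dec (bitEncode y))) =
    bitEncode (S (y.1, (y.2.1, min y.2.2 y.1.length)))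
  rw [BRB.dec_eq]

end Pool.Agent.Work.MP_3154ac_lc.E

end

section

/-!
# CAP: the cap of the powers
-/

set_option autoImplicit false

namespace Pool.Agent.Work.MP_3154ac_lc.E

namespace CAP

theorem rt_spec (a k : ℕ) : rt a k ^ (a + 1) ≤ k ^ a := by
  unfold rt
  have h : (fun r => r ^ (a + 1) ≤ k ^ a) 0 := by
    simp
  exact Nat.findGreatest_spec (P := fun r => r ^ (a + 1) ≤ k ^ a) (Nat.zero_le k) h

theorem rt_le {a x q : ℕ} (hq : q ≤ 64 * x ^ (6 * a + 6)) :
    rt a (3 * q) ≤ 192 * x ^ (6 * a) := by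
  by_contra hcon
  push Not at hcon
  have h1 := rt_spec a (3 * q)
  have h2 : (3 * q) ^ a ≤ (192 * x ^ (6 * a + 6)) ^ a := Nat.pow_le_pow_left (by omega) a
  have h3 : (192 * x ^ (6 * a)) ^ (a + 1) < rt a (3 * q) ^ (a + 1) :=
    Nat.pow_lt_pow_left hcon (by omega)
  have h4 : (192 * x ^ (6 * a + 6)) ^ a ≤ (192 * x ^ (6 * a)) ^ (a + 1) := by
    rw [mul_pow, mul_pow, ← pow_mul, ← pow_mul]
    have e : (6 * a + 6) * a = 6 * a * (a + 1) := by ring
    rw [e]
    exact Nat.mul_le_mul_right _ (Nat.pow_le_pow_right (by norm_num) (by omega))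
  omega

theorem x0_le {a k : ℕ} (hk : 2 ≤ k) : x0 a k ≤ k ^ (6 * a + 13) := by
  unfold x0
  have h1 : 2 * k ^ 3 ≤ k ^ 4 := by
    calc 2 * k ^ 3 ≤ k * k ^ 3 := Nat.mul_le_mul_right _ hk
      _ = k ^ 4 := by ring
  have h2 : k ^ 4 ≤ k ^ (6 * a + 12) := Nat.pow_le_pow_right (by omega) (by omega)
  have h3 : 192 * 2 ^ (6 * a + 4) ≤ k ^ (6 * a + 12) := by
    calc 192 * 2 ^ (6 * a + 4) ≤ 2 ^ 8 * 2 ^ (6 * a + 4) := Nat.mul_le_mul_right _ (by norm_num)
      _ = 2 ^ (6 * a + 12) := by rw [← pow_add]; congr 1; ring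
      _ ≤ k ^ (6 * a + 12) := Nat.pow_le_pow_left hk _
  have h4 : 2 * k ^ (6 * a + 12) ≤ k ^ (6 * a + 13) := by
    calc 2 * k ^ (6 * a + 12) ≤ k * k ^ (6 * a + 12) := Nat.mul_le_mul_right _ hk
      _ = k ^ (6 * a + 13) := by ring
  omega

theorem tower_le (x b : ℕ) : x ^ (x ^ b) ≤ 2 ^ (x ^ (b + 1)) := by
  calc x ^ (x ^ b) ≤ (2 ^ x) ^ (x ^ b) := Nat.pow_le_pow_left Nat.lt_two_pow_self.le _
    _ = 2 ^ (x ^ (b + 1)) := by rw [← pow_mul]; congr 1; ring

theorem le_cap_right (a n L : ℕ) : L ≤ cap a n L := by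
  unfold cap
  calc L ≤ (n + 1) * (L + 1) := by nlinarith
    _ ≤ _ := Nat.le_self_pow (by positivity) _

theorem pow_le_cap (a n L : ℕ) : n ^ 2 ^ (6 * a + 5) ≤ cap a n L := by
  unfold cap
  exact Nat.pow_le_pow_left (by nlinarith) _

theorem le_cap_left (a n L : ℕ) : n ≤ cap a n L :=
  (Nat.le_self_pow (by positivity) _).trans (pow_le_cap a n L)

end CAP

open CAP in
theorem pr_CAP : S_CAP := by
  intro a
  refine ⟨(6 * a + 13) * (6 * a + 5), Nat.one_le_iff_ne_zero.2 (by positivity), ?_⟩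
  intro k x n L hk hx0 hcase hL
  have hx : 192 * 2 ^ (6 * a + 4) ≤ x := by
    refine le_trans ?_ hx0
    unfold x0
    omega
  have hpos : 1 ≤ 2 ^ (6 * a + 4) := Nat.one_le_two_pow
  have hx192 : 192 ≤ x := by
    calc 192 = 192 * 1 := by norm_num
      _ ≤ 192 * 2 ^ (6 * a + 4) := Nat.mul_le_mul_left _ hpos
      _ ≤ x := hx
  rcases hcase with hcase | hcase
  · -- `x = x0`
    have h1 : x ^ (6 * a + 5) ≤ k ^ ((6 * a + 13) * (6 * a + 5)) := by
      rw [pow_mul, hcase]
      exact Nat.pow_le_pow_left (x0_le hk) _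
    have h2 : 2 ^ (x ^ (6 * a + 5)) ≤ L :=
      (Nat.pow_le_pow_right (by norm_num) h1).trans hL
    refine ⟨((tower_le x (6 * a + 4)).trans h2).trans (le_cap_right a n L), ?_⟩
    intro q hq
    have h3 := rt_le (a := a) hq
    have h4 : 192 * x ^ (6 * a) ≤ x ^ (6 * a + 5) := by
      calc 192 * x ^ (6 * a) ≤ x * x ^ (6 * a) := Nat.mul_le_mul_right _ hx192
        _ = x ^ (6 * a + 1) := by ring
        _ ≤ x ^ (6 * a + 5) := Nat.pow_le_pow_right (by omega) (by omega)
    exact ((Nat.pow_le_pow_right (by norm_num) (h3.trans h4)).trans h2).trans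
      (le_cap_right a n L)
  · obtain ⟨y, rfl⟩ : ∃ y, x = y + 1 := ⟨x - 1, by omega⟩
    rw [Nat.add_sub_cancel] at hcase
    have hy : 191 ≤ y := by omega
    have hyy : 192 * 2 ^ (6 * a) ≤ y := by
      have h1 : 192 * 2 ^ (6 * a + 4) = 16 * (192 * 2 ^ (6 * a)) := by rw [pow_add]; ring
      have h2 : 1 ≤ 2 ^ (6 * a) := Nat.one_le_two_pow
      omega
    have hy2 : y + 1 ≤ y ^ 2 := by nlinarith
    have hy3 : y + 1 ≤ 2 * y := by omega
    constructor
    · have h1 : (y + 1) ^ ((y + 1) ^ (6 * a + 4)) ≤ (y ^ 2) ^ ((2 * y) ^ (6 * a + 4)) := by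
        calc (y + 1) ^ ((y + 1) ^ (6 * a + 4)) ≤ (y ^ 2) ^ ((y + 1) ^ (6 * a + 4)) :=
              Nat.pow_le_pow_left hy2 _
          _ ≤ (y ^ 2) ^ ((2 * y) ^ (6 * a + 4)) :=
              Nat.pow_le_pow_right (by positivity) (Nat.pow_le_pow_left hy3 _)
      have h2 : (y ^ 2) ^ ((2 * y) ^ (6 * a + 4)) = (y ^ (y ^ (6 * a + 4))) ^ 2 ^ (6 * a + 5) := by
        rw [← pow_mul, ← pow_mul, mul_pow]
        congr 1
        ring
      rw [h2] at h1
      exact (h1.trans (Nat.pow_le_pow_left hcase.le _)).trans (pow_le_cap a n L)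
    · intro q hq
      have h3 := rt_le (a := a) hq
      have h4 : 192 * (y + 1) ^ (6 * a) ≤ y ^ (6 * a + 4) := by
        calc 192 * (y + 1) ^ (6 * a) ≤ 192 * (2 * y) ^ (6 * a) :=
              Nat.mul_le_mul_left _ (Nat.pow_le_pow_left hy3 _)
          _ = (192 * 2 ^ (6 * a)) * y ^ (6 * a) := by rw [mul_pow]; ring
          _ ≤ y * y ^ (6 * a) := Nat.mul_le_mul_right _ hyy
          _ = y ^ (6 * a + 1) := by ring
          _ ≤ y ^ (6 * a + 4) := Nat.pow_le_pow_right (by omega) (by omega)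
      have h5 : 2 ^ (y ^ (6 * a + 4)) ≤ y ^ (y ^ (6 * a + 4)) := Nat.pow_le_pow_left (by omega) _
      exact (((Nat.pow_le_pow_right (by norm_num) (h3.trans h4)).trans h5).trans hcase.le).trans
        (le_cap_left a n L)

end Pool.Agent.Work.MP_3154ac_lc.E

end

section

/-!
# Completeness of the reduction
-/

set_option autoImplicit false

namespace Pool.Agent.Work.MP_3154ac_lc.E

open N68a2faeb Finset Pool.Agent.PT Polynomial

namespace CPE

/-- the digits of a plane of direction `0` -/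
noncomputable def f0 {F : Type} [Field F] (k h d e : ℕ) (I J : F → F) (QA QR : ℕ → ℕ → F)
    (QW : ℕ → ℕ → ℕ → F) (x : F) (c : ℕ) : F :=
  if c < d * d then ev k (fun s => QA s c) (I x)
  else if c < 2 * (d * d) then ev k (fun s => QA s (c - d * d)) (J x)
  else if c < 3 * (d * d) then ev (h * k ^ 3) (fun s => QR s (c - 2 * (d * d))) x
  else ev e (fun s => QW s ((c - 3 * (d * d)) / e) ((c - 3 * (d * d)) % e)) x

/-- the digits of a plane of direction `1` or `2`; `g` gives the coefficients -/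
noncomputable def f1 {F : Type} [Field F] (k h d e : ℕ) (gA gR gW : ℕ → ℕ → F) (c : ℕ) : F :=
  if c < d * k then gA (c / d) (c % d)
  else if c < d * (k + h * k ^ 3) then gR ((c - d * k) / d) ((c - d * k) % d)
  else gW ((c - d * (k + h * k ^ 3)) / e) ((c - d * (k + h * k ^ 3)) % e)

theorem divmod {d s l : ℕ} (hl : l < d) : (d * s + l) / d = s ∧ (d * s + l) % d = l := by
  have hd : 0 < d := by omega
  constructor
  · rw [Nat.mul_add_div hd, Nat.div_eq_of_lt hl, Nat.add_zero]
  · rw [Nat.mul_add_mod, Nat.mod_eq_of_lt hl]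

theorem f1_A {F : Type} [Field F] {k h d e : ℕ} {gA gR gW : ℕ → ℕ → F} {s l : ℕ} (hs : s < k)
    (hl : l < d) : f1 k h d e gA gR gW (0 + (d * s + l)) = gA s l := by
  unfold f1
  have h1 : 0 + (d * s + l) < d * k := by
    have : d * (s + 1) ≤ d * k := Nat.mul_le_mul_left d hs
    rw [Nat.mul_add] at this
    omega
  rw [if_pos h1, Nat.zero_add, (divmod hl).1, (divmod hl).2]

theorem f1_R {F : Type} [Field F] {k h d e : ℕ} {gA gR gW : ℕ → ℕ → F} {s l : ℕ}
    (hs : s < h * k ^ 3) (hl : l < d) :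
    f1 k h d e gA gR gW (d * k + (d * s + l)) = gR s l := by
  unfold f1
  have h1 : ¬ d * k + (d * s + l) < d * k := by omega
  have h2 : d * k + (d * s + l) < d * (k + h * k ^ 3) := by
    have : d * (s + 1) ≤ d * (h * k ^ 3) := Nat.mul_le_mul_left d hs
    rw [Nat.mul_add] at this
    rw [Nat.mul_add]
    omega
  rw [if_neg h1, if_pos h2, Nat.add_sub_cancel_left, (divmod hl).1, (divmod hl).2]

theorem f1_W {F : Type} [Field F] {k h d e : ℕ} {gA gR gW : ℕ → ℕ → F} {s l : ℕ}
    (hl : l < e) :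
    f1 k h d e gA gR gW (d * (k + h * k ^ 3) + (e * s + l)) = gW s l := by
  unfold f1
  have h0 : d * (k + h * k ^ 3) = d * k + d * (h * k ^ 3) := Nat.mul_add _ _ _
  have h1 : ¬ d * (k + h * k ^ 3) + (e * s + l) < d * k := by rw [h0]; omega
  have h2 : ¬ d * (k + h * k ^ 3) + (e * s + l) < d * (k + h * k ^ 3) := by omega
  rw [if_neg h1, if_neg h2, Nat.add_sub_cancel_left, (divmod hl).1, (divmod hl).2]

theorem idx_lt {e s l : ℕ} (hs : s < e) (hl : l < e) : e * s + l < e ^ 2 := by
  have : e * (s + 1) ≤ e * e := Nat.mul_le_mul_left e hs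
  rw [Nat.mul_add] at this
  rw [pow_two]
  omega

end CPE

open CPE in
theorem pr_CPE (hN : S_CNA) (hE : S_EDG) (hC : S_COD) (hP : S_CPC) (_hQ : S_CTQ) (hV : S_VAL)
    (hS : S_SOL) (hL : S_VLE) (hK : S_CLQ) : S_CPE := by
  classical
  intro q k h d e N M G hA hcl
  have : Fact q.Prime := ⟨hA.prime⟩
  obtain ⟨v, hv1, hv2⟩ := (hK G k).1 hcl
  have hk1 : 1 ≤ k := le_trans (by norm_num) hA.hk
  have hkq : k * k ≤ q := by
    have := hA.h5
    have e1 : k ^ 2 = k * k := pow_two k
    rw [← e1]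
    have : 0 ≤ e ^ 3 := Nat.zero_le _
    omega
  have hq1 : 1 ≤ q := le_of_lt hA.prime.one_lt
  have hM1 : 1 ≤ M := le_trans (Nat.one_le_pow _ _ hq1) hA.h7
  obtain ⟨I, J, hI, hJ, hI2, hJ2, hedge⟩ := hE q k h d e N G hk1 hkq
  obtain ⟨QA, QR, QW, hT⟩ := hN q k h d e N M G.length (adE G) I J v hA hI hJ hI2 hJ2
    (fun i hi => lt_of_lt_of_le (hv1 i hi) hA.h10) hv2
  have hc0 := fun x : ZMod q => hC q (3 * d ^ 2 + e ^ 2) M
    (f0 k h d e (fun x => I.eval x) (fun x => J.eval x) QA QR QW x) hA.h7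
  have hc1 := fun b : ZMod q => hC q (d * (k + h * k ^ 3) + e ^ 2) M
    (f1 k h d e (fun s l => ev d (fun i => QA s (d * i + l)) b)
      (fun s l => ev d (fun i => QR s (d * i + l)) b)
      (fun s l => ev e (fun i => QW s i l) b)) hA.h8
  have hc2 := fun b : ZMod q => hC q (d * (k + h * k ^ 3) + e ^ 2) M
    (f1 k h d e (fun s l => ev d (fun i => QA s (d * l + i)) b)
      (fun s l => ev d (fun i => QR s (d * l + i)) b)
      (fun s l => ev e (fun i => QW s l i) b)) hA.h8
  choose c0 hc0M hc0 using hc0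
  choose c1 hc1M hc1 using hc1
  choose c2 hc2M hc2 using hc2
  set j1 : ℕ → ℕ := fun x => c0 (x : ZMod q) with hj1
  set j2 : ℕ → ℕ := fun x => c1 (x : ZMod q) with hj2
  set j3 : ℕ → ℕ := fun x => c2 (x : ZMod q) with hj3
  have hval : ∀ x : ZMod q, ((x.val : ℕ) : ZMod q) = x := fun x => ZMod.natCast_zmod_val x
  have hdd : d ^ 2 = d * d := pow_two d
  -- the blocks
  have hα : ∀ x : ZMod q, ∀ c < d * d,
      arA q 0 j1 x c = ev k (fun s => QA s c) (I.eval x) ∧
      arA q (d * d) j1 x c = ev k (fun s => QA s c) (J.eval x) ∧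
      arA q (2 * (d * d)) j1 x c = ev (h * k ^ 3) (fun s => QR s c) x := by
    intro x c hc
    refine ⟨?_, ?_, ?_⟩
    · unfold arA
      rw [hj1]
      simp only [hval]
      rw [hc0 x (0 + c) (by rw [hdd]; omega)]
      unfold f0
      rw [Nat.zero_add, if_pos hc]
    · unfold arA
      rw [hj1]
      simp only [hval]
      rw [hc0 x (d * d + c) (by rw [hdd]; omega)]
      unfold f0
      rw [if_neg (by omega), if_pos (by omega), Nat.add_sub_cancel_left]
    · unfold arA
      rw [hj1]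
      simp only [hval]
      rw [hc0 x (2 * (d * d) + c) (by rw [hdd]; omega)]
      unfold f0
      rw [if_neg (by omega), if_neg (by omega), if_pos (by omega), Nat.add_sub_cancel_left]
  have hω : ∀ x : ZMod q, ∀ i < e, ∀ l < e,
      arB q (3 * (d * d)) e j1 x i l = ev e (fun s => QW s i l) x := by
    intro x i hi l hl
    unfold arB blk
    rw [hj1]
    simp only [hval]
    have := idx_lt hi hl
    rw [hc0 x (3 * (d * d) + (e * i + l)) (by rw [hdd]; omega)]
    unfold f0
    rw [if_neg (by omega), if_neg (by omega), if_neg (by omega), Nat.add_sub_cancel_left,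
      (divmod hl).1, (divmod hl).2]
  have hlA : ∀ s l : ℕ, s < k → l < d → 0 + (d * s + l) < d * (k + h * k ^ 3) + e ^ 2 := by
    intro s l hs hl
    have : d * (s + 1) ≤ d * k := Nat.mul_le_mul_left d hs
    rw [Nat.mul_add] at this
    rw [Nat.mul_add]
    omega
  have hlR : ∀ s l : ℕ, s < h * k ^ 3 → l < d →
      d * k + (d * s + l) < d * (k + h * k ^ 3) + e ^ 2 := by
    intro s l hs hl
    have : d * (s + 1) ≤ d * (h * k ^ 3) := Nat.mul_le_mul_left d hs
    rw [Nat.mul_add] at this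
    rw [Nat.mul_add]
    omega
  have hA23 : ∀ b : ZMod q, ∀ s < k, ∀ l < d,
      arB q 0 d j2 b s l = ev d (fun i => QA s (d * i + l)) b ∧
      arB q 0 d j3 b s l = ev d (fun i => QA s (d * l + i)) b := by
    intro b s hs l hl
    unfold arB blk
    rw [hj2, hj3]
    simp only [hval]
    rw [hc1 b _ (hlA s l hs hl), hc2 b _ (hlA s l hs hl), f1_A hs hl, f1_A hs hl]
    exact ⟨rfl, rfl⟩
  have hR23 : ∀ b : ZMod q, ∀ s < h * k ^ 3, ∀ l < d,
      arB q (d * k) d j2 b s l = ev d (fun i => QR s (d * i + l)) b ∧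
      arB q (d * k) d j3 b s l = ev d (fun i => QR s (d * l + i)) b := by
    intro b s hs l hl
    unfold arB blk
    rw [hj2, hj3]
    simp only [hval]
    rw [hc1 b _ (hlR s l hs hl), hc2 b _ (hlR s l hs hl), f1_R hs hl, f1_R hs hl]
    exact ⟨rfl, rfl⟩
  have hW23 : ∀ b : ZMod q, ∀ s < e, ∀ l < e,
      arB q (d * (k + h * k ^ 3)) e j2 b s l = ev e (fun i => QW s i l) b ∧
      arB q (d * (k + h * k ^ 3)) e j3 b s l = ev e (fun i => QW s l i) b := by
    intro b s hs l hl
    unfold arB blk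
    rw [hj2, hj3]
    simp only [hval]
    have h5 : d * (k + h * k ^ 3) + (e * s + l) < d * (k + h * k ^ 3) + e ^ 2 :=
      Nat.add_lt_add_left (idx_lt hs hl) _
    rw [hc1 b _ h5, hc2 b _ h5, f1_W hl, f1_W hl]
    exact ⟨rfl, rfl⟩
  have hgood := hP (ZMod q) k h d e N (adE G) (fun x => I.eval x) (fun x => J.eval x) QA QR QW
    (arA q 0 j1) (arA q (d * d) j1) (arA q (2 * (d * d)) j1) (arB q (3 * (d * d)) e j1)
    (arB q 0 d j2) (arB q (d * k) d j2) (arB q (d * (k + h * k ^ 3)) e j2)
    (arB q 0 d j3) (arB q (d * k) d j3) (arB q (d * (k + h * k ^ 3)) e j3)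
    hT hα hω hA23 hR23 hW23
  have hE1 : ∀ a < q, ∀ b < q, e01 q k h d e N G a (j1 a) b (j2 b) ≠ false := by
    intro a ha b hb hf
    exact (hgood a b).1 (((hedge j1 j2 j3 a ha b hb).1).1 hf)
  have hE2 : ∀ a < q, ∀ b < q, e02 q k h d e N G a (j1 a) b (j3 b) ≠ false := by
    intro a ha b hb hf
    exact (hgood a b).2.1 (((hedge j1 j2 j3 a ha b hb).2.1).1 hf)
  have hE3 : ∀ a < q, ∀ b < q, e12 q k h d e a (j2 a) b (j3 b) ≠ false := by
    intro a ha b hb hf
    exact (hgood a b).2.2 (((hedge j1 j2 j3 a ha b hb).2.2).1 hf)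
  -- the solution
  set j : ℕ → ℕ := fun π => if π < q then j1 π else if π < 2 * q then j2 (π - q)
    else j3 (π - 2 * q) with hj
  have hjM : ∀ π < 3 * q, j π < M := by
    intro π _
    rw [hj]
    simp only
    split_ifs
    · exact hc0M _
    · exact hc1M _
    · exact hc2M _
  obtain ⟨t, ht, htj⟩ := hS q k h d e N M G j hq1 hM1 hjM
  obtain ⟨j', hj'M, hj't, hval'⟩ := hV q k h d e N M G t hq1 hM1 ht
  have hjj : ∀ π < 3 * q, j' π = j π := by
    intro π hπ
    have e1 := htj ⟨π, hπ⟩
    have e2 := hj't ⟨π, hπ⟩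
    simp only at e1 e2
    omega
  have hz1 : (((range q) ×ˢ (range q)).filter fun p : ℕ × ℕ =>
        e01 q k h d e N G p.1 (j' p.1) p.2 (j' (q + p.2)) = false).card = 0 := by
    rw [Finset.card_eq_zero, Finset.filter_eq_empty_iff]
    rintro ⟨a, b⟩ hab
    rw [Finset.mem_product, Finset.mem_range, Finset.mem_range] at hab
    obtain ⟨ha, hb⟩ := hab
    simp only at ha hb ⊢
    rw [hjj a (by omega), hjj (q + b) (by omega)]
    have e1 : j a = j1 a := by rw [hj]; simp only; rw [if_pos ha]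
    have e2 : j (q + b) = j2 b := by
      rw [hj]; simp only
      rw [if_neg (by omega), if_pos (by omega), Nat.add_sub_cancel_left]
    rw [e1, e2]
    exact hE1 a ha b hb
  have hz2 : (((range q) ×ˢ (range q)).filter fun p : ℕ × ℕ =>
        e02 q k h d e N G p.1 (j' p.1) p.2 (j' (2 * q + p.2)) = false).card = 0 := by
    rw [Finset.card_eq_zero, Finset.filter_eq_empty_iff]
    rintro ⟨a, b⟩ hab
    rw [Finset.mem_product, Finset.mem_range, Finset.mem_range] at hab
    obtain ⟨ha, hb⟩ := hab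
    simp only at ha hb ⊢
    rw [hjj a (by omega), hjj (2 * q + b) (by omega)]
    have e1 : j a = j1 a := by rw [hj]; simp only; rw [if_pos ha]
    have e2 : j (2 * q + b) = j3 b := by
      rw [hj]; simp only
      rw [if_neg (by omega), if_neg (by omega), Nat.add_sub_cancel_left]
    rw [e1, e2]
    exact hE2 a ha b hb
  have hz3 : (((range q) ×ˢ (range q)).filter fun p : ℕ × ℕ =>
        e12 q k h d e p.1 (j' (q + p.1)) p.2 (j' (2 * q + p.2)) = false).card = 0 := by
    rw [Finset.card_eq_zero, Finset.filter_eq_empty_iff]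
    rintro ⟨a, b⟩ hab
    rw [Finset.mem_product, Finset.mem_range, Finset.mem_range] at hab
    obtain ⟨ha, hb⟩ := hab
    simp only at ha hb ⊢
    rw [hjj (q + a) (by omega), hjj (2 * q + b) (by omega)]
    have e1 : j (q + a) = j2 a := by
      rw [hj]; simp only
      rw [if_neg (by omega), if_pos (by omega), Nat.add_sub_cancel_left]
    have e2 : j (2 * q + b) = j3 b := by
      rw [hj]; simp only
      rw [if_neg (by omega), if_neg (by omega), Nat.add_sub_cancel_left]
    rw [e1, e2]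
    exact hE3 a ha b hb
  refine ⟨hL q k h d e N M G hM1, t, ht, ?_⟩
  have h9 : value (redE q k h d e N M G) t = (3 * q).choose 2 := by
    rw [hz1, hz2, hz3] at hval'
    exact hval'
  exact h9

end Pool.Agent.Work.MP_3154ac_lc.E

end

section

/-!
# CPW: capped powers
-/

set_option autoImplicit false

namespace Pool.Agent.Work.MP_3154ac_lc.E

namespace CPW

theorem cpw_eq (n N : ℕ) (hn : 1 ≤ n) (hN : 1 ≤ N) (K : ℕ) : cpw n K N = min (N ^ K) n := by
  unfold cpw
  induction K with
  | zero => simp [hn]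
  | succ K ih =>
    rw [Function.iterate_succ_apply', ih, pow_succ]
    rcases le_total (N ^ K) n with h | h
    · rw [min_eq_left h]
    · rw [min_eq_right h]
      have h1 : n ≤ n * N := Nat.le_mul_of_pos_right n hN
      have h2 : n ≤ N ^ K * N := le_trans h (Nat.le_mul_of_pos_right _ hN)
      rw [min_eq_right h1, min_eq_right h2]

end CPW

theorem pr_CPW : S_CPW := by
  intro n K N hN h
  rcases Nat.eq_zero_or_pos n with h0 | h0
  · subst h0
    have hK : 1 ≤ K := by
      rcases h with h | h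
      · omega
      · exact h
    obtain ⟨k, rfl⟩ := Nat.exists_eq_add_of_le' hK
    rw [Nat.min_zero]
    unfold cpw
    rw [Function.iterate_succ_apply', Nat.min_zero]
  · exact CPW.cpw_eq n N h0 hN K

end Pool.Agent.Work.MP_3154ac_lc.E

end

section

/-!
# CTQ: counting pairs of numbers below `q` and pairs of elements of `ZMod q`
-/

set_option autoImplicit false

namespace Pool.Agent.Work.MP_3154ac_lc.E

open N68a2faeb Finset Pool.Agent.PT

theorem pr_CTQ : S_CTQ := by
  classical
  intro q hq P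
  have : NeZero q := ⟨hq.out.ne_zero⟩
  refine Finset.card_nbij' (fun p : ℕ × ℕ => ((p.1 : ZMod q), (p.2 : ZMod q)))
    (fun p : ZMod q × ZMod q => (p.1.val, p.2.val)) ?_ ?_ ?_ ?_
  · rintro ⟨a, b⟩ h
    simp only [coe_filter, mem_product, mem_range, Set.mem_ofPred_eq, mem_univ, true_and] at h ⊢
    exact h.2
  · rintro ⟨a, b⟩ h
    simp only [coe_filter, mem_product, mem_range, Set.mem_ofPred_eq, mem_univ, true_and] at h ⊢
    refine ⟨⟨ZMod.val_lt a, ZMod.val_lt b⟩, ?_⟩
    rw [ZMod.natCast_zmod_val, ZMod.natCast_zmod_val]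
    exact h
  · rintro ⟨a, b⟩ h
    simp only [coe_filter, mem_product, mem_range, Set.mem_ofPred_eq] at h
    show (((a : ZMod q)).val, ((b : ZMod q)).val) = (a, b)
    rw [ZMod.val_natCast_of_lt h.1.1, ZMod.val_natCast_of_lt h.1.2]
  · rintro ⟨a, b⟩ _
    show (((a.val : ℕ) : ZMod q), ((b.val : ℕ) : ZMod q)) = (a, b)
    rw [ZMod.natCast_zmod_val, ZMod.natCast_zmod_val]

end Pool.Agent.Work.MP_3154ac_lc.E

end

section

/-!
# DCE: the decision algorithm is correct
-/

set_option autoImplicit false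

namespace Pool.Agent.Work.MP_3154ac_lc.E

open N68a2faeb Finset Pool.Agent.PT

namespace DCE

theorem small_of {I : Inst} (hV : Valid I) (hk : 2 ≤ I.2.1)
    (h : ∀ t, IsSol I t → 288 * value I t ≤ 287 * I.2.1.choose 2) : Small (1 / 288) I := by
  refine ⟨hV, fun t ht => ?_⟩
  have h1 : ((288 * value I t : ℕ) : ℝ) ≤ ((287 * I.2.1.choose 2 : ℕ) : ℝ) := by
    exact_mod_cast h t ht
  push_cast at h1
  have h2 : (0 : ℝ) < (I.2.1.choose 2 : ℕ) := by
    exact_mod_cast Nat.choose_pos hk
  rw [lt_div_iff₀ (by norm_num)]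
  nlinarith

theorem decE_eq (a : ℕ) (R' : List Bool × Inst → Bool) (pad : List Bool) (G : Code)
    (k x q N P : ℕ) (hk2 : 2 ≤ k) (hx : xE a k G.length = x) (hq : qE a x = q)
    (eN : nE a G.length pad.length x = N)
    (eP : cpw (cap a G.length pad.length) (rt a (3 * q)) 2 = P) :
    decE a R' (pad, (G, k)) = R' (List.replicate P true,
      redE q k x (x ^ (3 * a + 2)) (x ^ (2 * a + 2)) N (N ^ (28 * (a + 1))) G) := by
  subst hx hq eN eP
  have h0 : ¬ k = 0 := by omega
  have h1 : ¬ k = 1 := by omega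
  unfold decE
  dsimp only
  rw [if_neg h0, if_neg h1]
  unfold decA
  rfl

end DCE

open DCE in
theorem pr_DCE (hX : S_XE) (hQ : S_QE) (hA : S_ARE) (hC : S_CAP) (hW : S_CPW) (hS : S_SNE)
    (hP : S_CPE) (hV : S_VLE) : S_DCE := by
  intro a
  obtain ⟨c, hc1, hcap⟩ := hC a
  refine ⟨c, hc1, fun R' hR' pad G k hk => ?_⟩
  rcases Nat.lt_or_ge k 2 with hk2 | hk2
  · interval_cases k
    · refine ⟨fun _ => ?_, fun h => absurd (Asm.hasClique_zero G) h⟩
      unfold decE
      rw [if_pos rfl]
    · have e1 : decE a R' (pad, (G, 1)) = decide (G ≠ []) := by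
        unfold decE
        rw [if_neg (by simp), if_pos rfl]
      rw [e1]
      refine ⟨fun h => ?_, fun h => ?_⟩
      · have := Asm.ne_nil_of_hasClique le_rfl h
        simp [this]
      · have : G = [] := by
          by_contra h'
          exact h (Asm.hasClique_one h')
        simp [this]
  · obtain ⟨x, hx⟩ : ∃ x, x = xE a k G.length := ⟨_, rfl⟩
    obtain ⟨h1, h2, h3⟩ := hX a k G.length
    rw [← hx] at h1 h2 h3
    have hx1 : 1 ≤ x := by
      refine le_trans ?_ h1
      unfold x0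
      have : 0 < 192 * 2 ^ (6 * a + 4) := by positivity
      omega
    obtain ⟨hq, hq1, hq2⟩ := hQ a x hx1
    obtain ⟨hc2, hc3⟩ := hcap k x G.length pad.length hk2 h1 h3 hk
    have hadm := hA a k x (qE a x) G.length hk2 h1 hq hq1 hq2 h2
    have hc0 : 1 ≤ cap a G.length pad.length := by
      unfold cap
      exact Nat.one_le_pow _ _ (by positivity)
    have eN : nE a G.length pad.length x = x ^ (x ^ (6 * a + 4)) := by
      unfold nE
      rw [hW _ _ _ hx1 (Or.inl hc0)]
      exact min_eq_left hc2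
    have eP : cpw (cap a G.length pad.length) (rt a (3 * qE a x)) 2 = 2 ^ rt a (3 * qE a x) := by
      rw [hW _ _ _ (by norm_num) (Or.inl hc0)]
      exact min_eq_left (hc3 _ hq2)
    have e1 := decE_eq a R' pad G k x (qE a x) _ _ hk2 hx.symm rfl eN eP
    rw [e1]
    obtain ⟨hF, hSm⟩ := hR' (redE (qE a x) k x (x ^ (3 * a + 2)) (x ^ (2 * a + 2))
      (x ^ (x ^ (6 * a + 4))) ((x ^ (x ^ (6 * a + 4))) ^ (28 * (a + 1))) G)
    refine ⟨fun h => hF (hP _ _ _ _ _ _ _ _ hadm h), fun h => hSm (small_of ?_ ?_ ?_)⟩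
    · exact hV _ _ _ _ _ _ _ _ (Nat.one_le_pow _ _ (by positivity))
    · show 2 ≤ 3 * qE a x
      have := hq.two_le
      omega
    · exact hS _ _ _ _ _ _ _ _ hadm h

/-- the main theorem from the items -/
theorem asm (hD : S_DCE) (hSR : S_SRE) (hU : S_SUB) (hO : S_OUT) (hPR : S_PRT) (hRP : S_RPE)
    (hDP : S_DPT) (hSP : S_SPT) (hA : S_BRA) (hB : S_BRB) (hH : S_HYP) : Main := by
  refine ⟨hH, fun hCT a hG => hCT ?_⟩
  obtain ⟨R', hR', hspec⟩ := hG
  obtain ⟨c, hc1, hdec⟩ := hD a
  refine ⟨c, fun y => srE (decE a R') (y.1, (y.2.1, min y.2.2 y.1.length)), ?_, ?_⟩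
  · exact hB _ (hSP _ (hDP hPR hRP a R' (hA R' hR')))
  · intro G k hG
    obtain ⟨pad, hpad⟩ : ∃ pad : List Bool, pad = List.replicate (2 ^ (k ^ c)) true := ⟨_, rfl⟩
    have hlen : pad.length = 2 ^ (k ^ c) := by rw [hpad, List.length_replicate]
    rw [← hpad]
    have hk : k ≤ pad.length := by
      rw [hlen]
      have h1 : k ≤ k ^ c := Nat.le_self_pow (by omega) k
      exact h1.trans (Nat.lt_two_pow_self).le
    show IsCliqueList G k (srE (decE a R') (pad, (G, min k pad.length)))
    rw [min_eq_left hk]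
    refine hSR hU hO _ pad G k (fun G' k' hk' => ?_) hG
    refine hdec R' hspec pad G' k' ?_
    rw [hlen]
    exact Nat.pow_le_pow_right (by norm_num) (Nat.pow_le_pow_left hk' c)

end Pool.Agent.Work.MP_3154ac_lc.E

end

section

/-!
# DPT: the decision algorithm is computed in polynomial time
-/

set_option autoImplicit false

namespace Pool.Agent.Work.MP_3154ac_lc.E

open N68a2faeb Finset Pool.Agent.PT

namespace DPT

theorem ptf_decA (hPR : S_PRT) (hRP : S_RPE) (a : ℕ) {R' : List Bool × Inst → Bool}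
    (hR' : PTF R') {α : Type} [Enc α] {L k x : α → ℕ} {G : α → Code} (hL : PTF L) (hG : PTF G)
    (hk : PTF k) (hx : PTF x) :
    PTF (fun t => decA a R' (L t) (G t) (k t) (x t)) := by
  have hn : PTF fun t => (G t).length := hG.length
  obtain ⟨-, -, -, hq, hcap, hN⟩ := hPR a α k (fun t => (G t).length) L x hk hn hL hx
  have h3 : PTF fun t => 3 * qE a (x t) := (PTF.const 3).mul hq
  obtain ⟨hrt, -⟩ := hPR a α (fun t => 3 * qE a (x t)) (fun t => (G t).length) L x h3 hn hL hx
  obtain ⟨-, hcpw, -⟩ := hPR a α (fun t => cap a (G t).length (L t))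
    (fun t => rt a (3 * qE a (x t))) L (fun _ => 2) hcap hrt hL (PTF.const 2)
  have hred := hRP α (fun t => qE a (x t)) k x (fun t => x t ^ (3 * a + 2))
    (fun t => x t ^ (2 * a + 2)) (fun t => nE a (G t).length (L t) (x t))
    (fun t => nE a (G t).length (L t) (x t) ^ (28 * (a + 1))) G hq hk hx (hx.pow_const _)
    (hx.pow_const _) hN (hN.pow_const _) hG
  have hrep : PTF fun t => List.replicate
      (cpw (cap a (G t).length (L t)) (rt a (3 * qE a (x t))) 2) true :=
    PTF.replicate hcpw (PTF.const true)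
  unfold decA
  exact hR'.comp (hrep.pair hred)

end DPT

open DPT in
theorem pr_DPT : S_DPT := by
  intro hPR hRP a R' hR'
  have h1 : PTF fun y : List Bool × (Code × ℕ) => y.1 := PTF.fst
  have h2 : PTF fun y : List Bool × (Code × ℕ) => y.2 := PTF.snd
  have hG : PTF fun y : List Bool × (Code × ℕ) => y.2.1 := PTF.fst.comp h2
  have hk : PTF fun y : List Bool × (Code × ℕ) => y.2.2 := PTF.snd.comp h2
  obtain ⟨-, -, hxE, -⟩ := hPR a _ (fun y : List Bool × (Code × ℕ) => y.2.2)
    (fun y => y.2.1.length) (fun y => y.1.length) (fun _ => 0) hk hG.length h1.length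
    (PTF.const 0)
  unfold decE
  exact PTF.ite (hk.eq (PTF.const 0)) (PTF.const true)
    (PTF.ite (hk.eq (PTF.const 1)) (hG.ne (PTF.const []))
      (ptf_decA hPR hRP a hR' h1.length hG hk hxE))

end Pool.Agent.Work.MP_3154ac_lc.E

end

section

/-!
# Hypothesis C excludes exact algorithms
-/

set_option autoImplicit false

namespace Pool.Agent.Work.MP_3154ac_lc.E

open N68a2faeb Finset Pool.Agent.PT

namespace HYP

theorem pw : Primrec₂ ((· ^ ·) : ℕ → ℕ → ℕ) := Primrec₂.unpaired'.1 Nat.Primrec.pow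

theorem rep : Primrec fun n : ℕ => List.replicate n true := by
  have h : Primrec₂ fun (_ : ℕ) (l : List Bool) => true :: l :=
    Primrec.list_cons.comp (Primrec.const true) Primrec.snd
  refine (Primrec.nat_rec₁ [] h).of_eq fun n => ?_
  induction n with
  | zero => rfl
  | succ n ih => rw [List.replicate_succ, ← ih]

end HYP

open HYP in
theorem pr_HYP : S_HYP := by
  rintro hC ⟨c, S, hS, hG⟩
  apply hC 1 (le_refl _)
  refine ⟨fun k => List.replicate (2 ^ (k ^ c)) true, S, ?_, hS, fun G k h => ?_⟩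
  · exact (rep.comp (pw.comp (Primrec.const 2) (pw.comp Primrec.id (Primrec.const c)))).to_comp
  · have h1 := hG G k h
    have h2 : ⌈(k : ℝ) / 1⌉₊ = k := by
      rw [div_one, Nat.ceil_natCast]
    rw [h2]
    exact h1

end Pool.Agent.Work.MP_3154ac_lc.E

end

section

/-!
# PRT: parameters in polynomial time
-/

set_option autoImplicit false

namespace Pool.Agent.Work.MP_3154ac_lc.E

open N68a2faeb Finset Pool.Agent.PT

namespace PRT

theorem findGreatest_eq (p : ℕ → Prop) [DecidablePred p] (hp : ∀ i j, i ≤ j → p j → p i)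
    (n : ℕ) : Nat.findGreatest p n =
      ((List.range n).filter fun r => decide (p (r + 1))).length := by
  induction n with
  | zero => rfl
  | succ n ih =>
    rw [Nat.findGreatest_succ, List.range_succ, List.filter_append, List.length_append]
    by_cases h : p (n + 1)
    · have h1 : (List.range n).filter (fun r => decide (p (r + 1))) = List.range n := by
        apply List.filter_eq_self.2
        intro r hr
        exact decide_eq_true (hp (r + 1) (n + 1) (by have := List.mem_range.1 hr; omega) h)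
      rw [h1]
      simp [h]
    · rw [← ih]
      simp [h]

variable {α : Type} [Enc α]

theorem ptf_rt (a : ℕ) {k : α → ℕ} (hk : PTF k) : PTF (fun t => rt a (k t)) := by
  have h : ∀ t, ((List.range (k t)).filter fun r =>
      decide ((r + 1) ^ (a + 1) ≤ (k t) ^ a)).length = rt a (k t) := by
    intro t
    unfold rt
    rw [findGreatest_eq (fun r => r ^ (a + 1) ≤ (k t) ^ a)]
    intro i j hij hj
    exact le_trans (Nat.pow_le_pow_left hij _) hj
  refine PTF.congr ?_ h
  refine PTF.length (PTF.filter' (f := fun t r =>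
    decide ((r + 1) ^ (a + 1) ≤ (k t) ^ a)) ?_ hk.range)
  exact (PTF.snd.succ.pow_const (a + 1)).le ((hk.comp PTF.fst).pow_const a)

theorem ptf_x0 (a : ℕ) {k : α → ℕ} (hk : PTF k) : PTF (fun t => x0 a (k t)) := by
  unfold x0
  exact ((PTF.const 2).mul (hk.pow_const 3)).add (PTF.const (192 * 2 ^ (6 * a + 4)))

theorem ptf_xE (a : ℕ) {k n : α → ℕ} (hk : PTF k) (hn : PTF n) :
    PTF (fun t => xE a (k t) (n t)) := by
  unfold xE
  refine PTF.optionGetD (PTF.find' (f := fun t x => decide (x0 a (k t) ≤ x) &&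
    decide (cpw (n t) (x ^ (6 * a + 4)) x = n t)) ?_ ((ptf_x0 a hk).add hn).succ.range)
    (PTF.const 0)
  exact (((ptf_x0 a hk).comp PTF.fst).le PTF.snd).and
    ((I_RPT.ptf_cpw (hn.comp PTF.fst) (PTF.snd.pow_const (6 * a + 4)) PTF.snd).eq
      (hn.comp PTF.fst))

theorem ptf_primeB {q : α → ℕ} (hq : PTF q) : PTF (fun t => primeB (q t)) := by
  unfold primeB
  refine ((PTF.const 2).le hq).and (PTF.all' (f := fun t b =>
    decide (b < 2) || decide (q t % b ≠ 0)) ?_ hq.range)
  exact (PTF.snd.lt (PTF.const 2)).or (((hq.comp PTF.fst).mod PTF.snd).ne (PTF.const 0))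

theorem ptf_qE (a : ℕ) {x : α → ℕ} (hx : PTF x) : PTF (fun t => qE a (x t)) := by
  unfold qE
  refine PTF.optionGetD (PTF.find' (f := fun t q => decide (32 * (x t) ^ (6 * a + 6) ≤ q) &&
    primeB q) ?_ ((PTF.const 64).mul (hx.pow_const (6 * a + 6))).succ.range) (PTF.const 0)
  exact (((PTF.const 32).mul ((hx.comp PTF.fst).pow_const (6 * a + 6))).le PTF.snd).and
    (ptf_primeB PTF.snd)

theorem ptf_cap (a : ℕ) {n L : α → ℕ} (hn : PTF n) (hL : PTF L) :
    PTF (fun t => cap a (n t) (L t)) := by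
  unfold cap
  exact (hn.succ.mul hL.succ).pow_const (2 ^ (6 * a + 5))

theorem ptf_nE (a : ℕ) {n L x : α → ℕ} (hn : PTF n) (hL : PTF L) (hx : PTF x) :
    PTF (fun t => nE a (n t) (L t) (x t)) := by
  unfold nE
  exact I_RPT.ptf_cpw (ptf_cap a hn hL) (hx.pow_const (6 * a + 4)) hx

end PRT

open PRT in
theorem pr_PRT : S_PRT := by
  intro a α _ k n L x hk hn hL hx
  exact ⟨ptf_rt a hk, I_RPT.ptf_cpw hk hn hx, ptf_xE a hk hn, ptf_qE a hx, ptf_cap a hn hL,
    ptf_nE a hn hL hx⟩

end Pool.Agent.Work.MP_3154ac_lc.E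

end

section

/-!
# QE: the modulus
-/

set_option autoImplicit false

namespace Pool.Agent.Work.MP_3154ac_lc.E

open N68a2faeb Finset Pool.Agent.PT

namespace QE

theorem primeB_iff (q : ℕ) : primeB q = true ↔ q.Prime := by
  unfold primeB
  rw [Bool.and_eq_true, decide_eq_true_eq, List.all_eq_true]
  constructor
  · rintro ⟨h1, h2⟩
    rw [Nat.prime_def_lt']
    refine ⟨h1, fun m hm hmq hdvd => ?_⟩
    have h3 := h2 m (List.mem_range.mpr hmq)
    rw [Bool.or_eq_true, decide_eq_true_eq, decide_eq_true_eq] at h3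
    rcases h3 with h3 | h3
    · omega
    · exact h3 (Nat.mod_eq_zero_of_dvd hdvd)
  · intro h
    refine ⟨h.two_le, fun m hm => ?_⟩
    rw [List.mem_range] at hm
    rw [Bool.or_eq_true, decide_eq_true_eq, decide_eq_true_eq]
    by_contra hcon
    push Not at hcon
    exact (Nat.prime_def_lt'.mp h).2 m hcon.1 hm (Nat.dvd_of_mod_eq_zero hcon.2)

end QE

open QE in
theorem pr_QE : S_QE := by
  intro a x hx
  obtain ⟨B, hB⟩ : ∃ B, B = x ^ (6 * a + 6) := ⟨_, rfl⟩
  have hB1 : 1 ≤ B := by
    rw [hB]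
    exact Nat.one_le_pow _ _ hx
  obtain ⟨p, hp, hp1, hp2⟩ := Nat.exists_prime_lt_and_le_two_mul (32 * B) (by omega)
  have hex : ∃ r ∈ List.range (64 * x ^ (6 * a + 6) + 1),
      (decide (32 * x ^ (6 * a + 6) ≤ r) && primeB r) = true := by
    refine ⟨p, List.mem_range.mpr (by rw [← hB]; omega), ?_⟩
    rw [← hB, Bool.and_eq_true, decide_eq_true_eq]
    exact ⟨hp1.le, (primeB_iff p).mpr hp⟩
  have hsome : ((List.range (64 * x ^ (6 * a + 6) + 1)).find? fun q =>
      decide (32 * x ^ (6 * a + 6) ≤ q) && primeB q).isSome := by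
    rw [List.find?_isSome]
    exact hex
  obtain ⟨r, hr⟩ := Option.isSome_iff_exists.mp hsome
  have e : qE a x = r := by
    unfold qE
    rw [hr]
    rfl
  have h1 := List.find?_some hr
  have h2 := List.mem_of_find?_eq_some hr
  rw [List.mem_range] at h2
  rw [Bool.and_eq_true, decide_eq_true_eq] at h1
  rw [e]
  exact ⟨(primeB_iff r).mp h1.2, h1.1, by omega⟩

end Pool.Agent.Work.MP_3154ac_lc.E

end

section

/-!
# SPT: the search algorithm is computed in polynomial time
-/

set_option autoImplicit false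

namespace Pool.Agent.Work.MP_3154ac_lc.E

open N68a2faeb Finset Pool.Agent.PT

namespace SPT

variable {α : Type} [Enc α]

theorem ptf_stp {D : List Bool × (Code × ℕ) → Bool} (hD : PTF D)
    {pad : α → List Bool} {G : α → Code} {k : α → ℕ} {T : α → List ℕ}
    (hpad : PTF pad) (hG : PTF G) (hk : PTF k) (hT : PTF T) :
    PTF (fun t => stp D (pad t) (G t) (k t) (T t)) := by
  unfold stp
  refine PTF.optionGetD (PTF.optionMap' (f := fun t v => T t ++ [v]) ?_
    (PTF.find' (f := fun t v => cliqB (G t) (T t ++ [v]) &&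
      D (pad t, (sub (G t) (T t ++ [v]), k t - ((T t).length + 1)))) ?_ hG.length.range)) hT
  · exact (hT.comp PTF.fst).append (PTF.snd.cons (PTF.const []))
  · have hT' : PTF fun p : α × ℕ => T p.1 ++ [p.2] :=
      (hT.comp PTF.fst).append (PTF.snd.cons (PTF.const []))
    refine (I_APS.ptf_cliqB (hG.comp PTF.fst) hT').and ?_
    exact hD.comp ((hpad.comp PTF.fst).pair ((I_APS.ptf_sub (hG.comp PTF.fst) hT').pair
      ((hk.comp PTF.fst).sub (hT.comp PTF.fst).length.succ)))

theorem sz_stp (D : List Bool × (Code × ℕ) → Bool) (pad : List Bool) (G : Code) (k : ℕ)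
    (T : List ℕ) : sz (stp D pad G k T) ≤ sz T + (2 * G.length + 2) := by
  unfold stp
  rcases hf : (List.range G.length).find? fun v =>
    cliqB G (T ++ [v]) && D (pad, (sub G (T ++ [v]), k - (T.length + 1))) with _ | v
  · simp
  · rw [Option.map_some, Option.getD_some]
    have hv : v < G.length := List.mem_range.1 (List.mem_of_find?_eq_some hf)
    have h1 := sz_append T [v]
    have h2 := I_APS.sz_le [v] v (fun u hu => by
      rw [List.mem_singleton] at hu
      exact hu.le)
    rw [List.length_singleton, one_mul] at h2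
    omega

end SPT

/-- SPT: the search algorithm is computed in polynomial time. -/
theorem pr_SPT : S_SPT := by
  intro D hD
  have hpad : PTF (fun y : List Bool × (Code × ℕ) => y.1) := PTF.fst
  have hG : PTF (fun y : List Bool × (Code × ℕ) => y.2.1) := PTF.fst.comp PTF.snd
  have hk : PTF (fun y : List Bool × (Code × ℕ) => y.2.2) := PTF.snd.comp PTF.snd
  unfold srE
  refine PTF.foldl_add (step := fun p : (List Bool × (Code × ℕ)) × (List ℕ × ℕ) =>
      stp D p.1.1 p.1.2.1 p.1.2.2 p.2.1)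
    (init := fun _ => []) hk.range (PTF.const [])
    (SPT.ptf_stp hD (hpad.comp PTF.fst) (hG.comp PTF.fst) (hk.comp PTF.fst)
      (PTF.fst.comp PTF.snd))
    (fun y => 2 * sz y.2.1 + 2) ?_ ?_
  · exact ((PB.const 2).mul hG.size).add (PB.const 2)
  · intro y s b _
    refine (SPT.sz_stp D y.1 y.2.1 y.2.2 s).trans ?_
    have := length_le_sz y.2.1
    omega

end Pool.Agent.Work.MP_3154ac_lc.E

end

section

/-!
# The search algorithm is correct
-/

set_option autoImplicit false

namespace Pool.Agent.Work.MP_3154ac_lc.E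

open N68a2faeb Finset Pool.Agent.PT

namespace SRE

theorem adjB_symm (G : Code) (u v : ℕ) : adjB G u v = adjB G v u := by
  unfold adjB
  rw [Bool.or_comm (entry G u v)]
  congr 1
  exact decide_eq_decide.2 ⟨fun h => h.symm, fun h => h.symm⟩

theorem adjB_of_adj (G : Code) (i j : Fin G.length) (h : (graph G).Adj i j) :
    adjB G i j = true := by
  obtain ⟨h1, h2⟩ := h
  have h3 : (i : ℕ) ≠ (j : ℕ) := fun he => h1 (Fin.ext he)
  unfold adjB
  simp only [Bool.and_eq_true, decide_eq_true_eq, Bool.or_eq_true]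
  exact ⟨h3, h2⟩

theorem cliqB_iff (G : Code) (T : List ℕ) : cliqB G T = true ↔
    ∀ a < T.length, ∀ b < T.length, a = b ∨ adjB G (T.getD a 0) (T.getD b 0) = true := by
  unfold cliqB
  simp only [List.all_eq_true, List.mem_range, Bool.or_eq_true, decide_eq_true_eq]

theorem getD_mem (T : List ℕ) (a : ℕ) (h : a < T.length) : T.getD a 0 ∈ T := by
  rw [List.getD_eq_getElem _ _ h]
  exact List.getElem_mem h

theorem cliqB_append (G : Code) (T : List ℕ) (v : ℕ) (hT : cliqB G T = true)
    (hv : ∀ u ∈ T, adjB G u v = true) : cliqB G (T ++ [v]) = true := by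
  rw [cliqB_iff] at hT ⊢
  intro a ha b hb
  rw [List.length_append, List.length_singleton] at ha hb
  by_cases hab : a = b
  · exact Or.inl hab
  right
  rcases Nat.lt_or_ge a T.length with h1 | h1
  · rcases Nat.lt_or_ge b T.length with h2 | h2
    · rw [List.getD_append _ _ _ _ h1, List.getD_append _ _ _ _ h2]
      rcases hT a h1 b h2 with h3 | h3
      · exact absurd h3 hab
      · exact h3
    · have hb' : b = T.length := by omega
      rw [List.getD_append _ _ _ _ h1, List.getD_append_right _ _ _ _ h2, hb', Nat.sub_self]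
      exact hv _ (getD_mem T a h1)
  · have ha' : a = T.length := by omega
    have h2 : b < T.length := by omega
    rw [List.getD_append _ _ _ _ h2, List.getD_append_right _ _ _ _ h1, ha', Nat.sub_self,
      adjB_symm]
    exact hv _ (getD_mem T b h2)

/-- the invariant -/
def Good (G : Code) (k i : ℕ) (T : List ℕ) : Prop :=
  T.length = i ∧ (∀ u ∈ T, u < G.length) ∧ cliqB G T = true ∧ HasClique (sub G T) (k - i)

theorem step (hU : S_SUB) (D : List Bool × (Code × ℕ) → Bool) (pad : List Bool)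
    (G : Code) (k : ℕ) (hD : ∀ (G' : Code) (k' : ℕ), k' ≤ k →
      (HasClique G' k' → D (pad, (G', k')) = true) ∧
      (¬ HasClique G' k' → D (pad, (G', k')) = false)) (i : ℕ) (hi : i < k) (T : List ℕ)
    (hT : Good G k i T) : Good G k (i + 1) (stp D pad G k T) := by
  classical
  obtain ⟨h1, h2, h3, h4⟩ := hT
  obtain ⟨s, hs, hsT⟩ := (hU G T (k - i)).1 h4
  have hne : s.Nonempty := by
    rw [← Finset.card_pos, hs.2]
    omega
  obtain ⟨v, hv⟩ := hne
  set p : ℕ → Bool := fun v => cliqB G (T ++ [v]) &&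
    D (pad, (sub G (T ++ [v]), k - (T.length + 1))) with hp
  have hpv : p v = true := by
    rw [hp]
    simp only [Bool.and_eq_true]
    refine ⟨cliqB_append G T v h3 (fun u hu => hsT v hv u hu), ?_⟩
    apply (hD _ _ (by omega)).1
    rw [h1]
    apply (hU G (T ++ [(v : ℕ)]) (k - (i + 1))).2
    refine ⟨s.erase v, ⟨?_, ?_⟩, ?_⟩
    · intro x hx y hy hxy
      exact hs.1 (Finset.mem_of_mem_erase hx) (Finset.mem_of_mem_erase hy) hxy
    · rw [Finset.card_erase_of_mem hv, hs.2]
      omega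
    · intro w hw u hu
      rcases List.mem_append.1 hu with h5 | h5
      · exact hsT w (Finset.mem_of_mem_erase hw) u h5
      · rw [List.mem_singleton] at h5
        subst h5
        exact adjB_of_adj G v w (hs.1 hv (Finset.mem_of_mem_erase hw)
          (fun he => (Finset.ne_of_mem_erase hw) he.symm))
  rcases hf : (List.range G.length).find? p with _ | v'
  · exfalso
    have h6 := (List.find?_range_eq_none.1 hf) v v.2
    rw [hpv] at h6
    simp at h6
  · obtain ⟨h6, h7, _⟩ := List.find?_range_eq_some.1 hf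
    have hst : stp D pad G k T = T ++ [v'] := by
      unfold stp
      rw [hf]
      rfl
    rw [hst]
    rw [hp] at h6
    simp only [Bool.and_eq_true] at h6
    refine ⟨by simp [h1], ?_, h6.1, ?_⟩
    · intro u hu
      rcases List.mem_append.1 hu with h8 | h8
      · exact h2 u h8
      · rw [List.mem_singleton] at h8
        subst h8
        exact List.mem_range.1 h7
    · by_contra h9
      have h10 := (hD (sub G (T ++ [v'])) (k - (i + 1)) (by omega)).2 h9
      rw [h1] at h6
      rw [h10] at h6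
      exact absurd h6.2 (by simp)

end SRE

open SRE in
theorem pr_SRE : S_SRE := by
  intro hU hO D pad G k hD hcl
  have key : ∀ i ≤ k, Good G k i ((List.range i).foldl (fun T _ => stp D pad G k T) []) := by
    intro i
    induction i with
    | zero =>
      intro _
      refine ⟨rfl, ?_, ?_, ?_⟩
      · intro u hu
        simp at hu
      · rfl
      · apply (hU G [] (k - 0)).2
        obtain ⟨s, hs⟩ := hcl
        refine ⟨s, hs, ?_⟩
        intro v _ u hu
        simp at hu
    | succ i ih =>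
      intro hi
      rw [List.range_succ, List.foldl_append]
      exact step hU D pad G k hD i hi _ (ih (by omega))
  obtain ⟨h1, h2, h3, _⟩ := key k (le_refl _)
  exact hO G _ k (le_of_eq h1.symm) h2 h3

end Pool.Agent.Work.MP_3154ac_lc.E

end

section

/-!
# The parameter `x`
-/

set_option autoImplicit false

namespace Pool.Agent.Work.MP_3154ac_lc.E

open N68a2faeb Finset Pool.Agent.PT

namespace XE

theorem x0_pos (a k : ℕ) : 1 ≤ x0 a k := by
  unfold x0
  have : 1 ≤ 2 ^ (6 * a + 4) := Nat.one_le_two_pow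
  omega

theorem test (hC : S_CPW) (a k n x : ℕ) :
    (decide (x0 a k ≤ x) && decide (cpw n (x ^ (6 * a + 4)) x = n)) = true ↔
      x0 a k ≤ x ∧ n ≤ x ^ (x ^ (6 * a + 4)) := by
  rw [Bool.and_eq_true, decide_eq_true_eq, decide_eq_true_eq]
  constructor
  · rintro ⟨h1, h2⟩
    refine ⟨h1, ?_⟩
    have hx : 1 ≤ x := le_trans (x0_pos a k) h1
    rw [hC n (x ^ (6 * a + 4)) x hx (Or.inr (Nat.one_le_pow _ _ hx))] at h2
    rw [← h2]
    exact min_le_left _ _
  · rintro ⟨h1, h2⟩
    refine ⟨h1, ?_⟩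
    have hx : 1 ≤ x := le_trans (x0_pos a k) h1
    rw [hC n (x ^ (6 * a + 4)) x hx (Or.inr (Nat.one_le_pow _ _ hx))]
    exact min_eq_right h2

theorem self_le (a x : ℕ) (hx : 1 ≤ x) : x ≤ x ^ (x ^ (6 * a + 4)) := by
  have h1 : 1 ≤ x ^ (6 * a + 4) := Nat.one_le_pow _ _ hx
  calc x = x ^ 1 := (pow_one x).symm
    _ ≤ x ^ (x ^ (6 * a + 4)) := Nat.pow_le_pow_right hx h1

end XE

open XE in
theorem pr_XE (hC : S_CPW) : S_XE := by
  intro a k n
  set p : ℕ → Bool := fun x => decide (x0 a k ≤ x) && decide (cpw n (x ^ (6 * a + 4)) x = n)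
    with hp
  have hpx : ∀ x, p x = true ↔ x0 a k ≤ x ∧ n ≤ x ^ (x ^ (6 * a + 4)) := test hC a k n
  rcases hf : (List.range (x0 a k + n + 1)).find? p with _ | x
  · exfalso
    have h1 := (List.find?_range_eq_none.1 hf) (x0 a k + n) (by omega)
    have h2 : p (x0 a k + n) = true := by
      rw [hpx]
      refine ⟨by omega, ?_⟩
      have := self_le a (x0 a k + n) (by have := x0_pos a k; omega)
      omega
    rw [h2] at h1
    simp at h1
  · obtain ⟨h1, _, h3⟩ := List.find?_range_eq_some.1 hf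
    have hx : xE a k n = x := by
      unfold xE
      rw [hf]
      rfl
    rw [hx]
    obtain ⟨h4, h5⟩ := (hpx x).1 h1
    refine ⟨h4, h5, ?_⟩
    by_cases h6 : x = x0 a k
    · exact Or.inl h6
    · right
      have h7 := h3 (x - 1) (by omega)
      by_contra h8
      push Not at h8
      have h9 : p (x - 1) = true := (hpx _).2 ⟨by omega, h8⟩
      rw [h9] at h7
      simp at h7

end Pool.Agent.Work.MP_3154ac_lc.E

end
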